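import Pool.Agent.Helper112.Lp.Defs

open Finset

namespace Pool.Agent.Helper112.LP.Kgc

/- TARGET -/
theorem gw_zero (h n s : ℕ) (hs : h + n < s) : gw h n s = 0 := by
  induction n generalizing s with
  | zero =>
    simp only [gw]
    rw [if_neg (by omega)]
  | succ n ih =>
    obtain ⟨s', rfl⟩ : ∃ s', s = s' + 1 := ⟨s - 1, by omega⟩
    simp only [gw]
    apply Finset.sum_eq_zero
    intro r hr
    rw [mem_range] at hr
    rw [if_neg (by omega)]

/- TARGET -/
theorem gw_nonneg (h n s : ℕ) : 0 ≤ gw h n s := by
  induction n generalizing s with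
  | zero =>
    simp only [gw]
    split_ifs <;> norm_num
  | succ n ih =>
    cases s with
    | zero => simp only [gw]; exact le_rfl
    | succ s' =>
      simp only [gw]
      apply Finset.sum_nonneg
      intro r _
      split_ifs
      · have := ih r
        positivity
      · exact le_rfl

theorem binom_sum_one (x : ℝ) (K : ℕ) :
    ∑ b ∈ range (K + 1), (K.choose b : ℝ) * x ^ (K - b) = (x + 1) ^ K := by
  have h := add_pow (1 : ℝ) x K
  rw [add_comm x 1, h]
  apply Finset.sum_congr rfl
  intro b _
  rw [one_pow, one_mul, mul_comm]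

theorem binom_sum_b (x : ℝ) (K : ℕ) :
    ∑ b ∈ range (K + 1), (b : ℝ) * (K.choose b : ℝ) * x ^ (K - b) = K * (x + 1) ^ (K - 1) := by
  cases K with
  | zero => simp
  | succ K =>
    rw [Finset.sum_range_succ']
    simp only [Nat.cast_zero, zero_mul, add_zero, Nat.add_sub_cancel]
    rw [← binom_sum_one x K, Finset.mul_sum]
    apply Finset.sum_congr rfl
    intro b _
    have h1 : ((b + 1 : ℕ) : ℝ) * ((K + 1).choose (b + 1) : ℝ) = ((K + 1 : ℕ) : ℝ) * (K.choose b : ℝ) := by
      rw [mul_comm]
      exact_mod_cast (Nat.add_one_mul_choose_eq K b).symm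
    have h2 : K + 1 - (b + 1) = K - b := by omega
    rw [h1, h2]
    ring

theorem reindex (N s' : ℕ) (hs : s' ≤ N) (f : ℕ → ℝ) :
    ∑ r ∈ range (N + 1), (if s' ≤ r then f r else 0) = ∑ b ∈ range (N - s' + 1), f (s' + b) := by
  rw [← Finset.sum_filter]
  have h1 : (range (N + 1)).filter (fun r => s' ≤ r) = Ico s' (N + 1) := by
    ext r
    simp only [mem_filter, mem_range, mem_Ico]
    omega
  rw [h1, Finset.sum_Ico_eq_sum_range]
  congr 2
  omega

/- TARGET -/
/-- closed form for paths from `0` -/
theorem gw_closed (n s : ℕ) (hs : 1 ≤ s) (hsn : s ≤ n) :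
    gw 0 n s = (s : ℝ) / n * (n : ℝ) ^ (n - s) / (n - s).factorial := by
  induction n generalizing s with
  | zero => omega
  | succ N ih =>
    obtain ⟨s', rfl⟩ : ∃ s', s = s' + 1 := ⟨s - 1, by omega⟩
    have hs' : s' ≤ N := by omega
    rcases Nat.eq_zero_or_pos N with hN | hN
    · subst hN
      obtain rfl : s' = 0 := by omega
      simp [gw]
    · have hform : ∀ r, r ≤ N → gw 0 N r = (r : ℝ) / N * (N : ℝ) ^ (N - r) / (N - r).factorial := by
        intro r hr
        rcases Nat.eq_zero_or_pos r with h0 | h0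
        · subst h0
          obtain ⟨M, rfl⟩ : ∃ M, N = M + 1 := ⟨N - 1, by omega⟩
          simp [gw]
        · exact ih r h0 hr
      simp only [gw, zero_add]
      rw [reindex N s' hs' (fun r => gw 0 N r / ((r - s').factorial : ℝ))]
      set K := N - s' with hK
      have hNr : (0:ℝ) < N := by exact_mod_cast hN
      have hterm : ∀ b ∈ range (K + 1), gw 0 N (s' + b) / ((s' + b - s').factorial : ℝ)
          = (1 / ((N : ℝ) * K.factorial)) * ((s' : ℝ) * ((K.choose b : ℝ) * (N : ℝ) ^ (K - b))
            + (b : ℝ) * (K.choose b : ℝ) * (N : ℝ) ^ (K - b)) := by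
        intro b hb
        rw [mem_range] at hb
        rw [hform (s' + b) (by omega)]
        have e1 : s' + b - s' = b := by omega
        have e2 : N - (s' + b) = K - b := by omega
        rw [e1, e2]
        have hch : (K.choose b : ℝ) = K.factorial / (b.factorial * (K - b).factorial) := by
          rw [Nat.cast_choose ℝ (by omega : b ≤ K)]
        rw [hch]
        have f1 : ((K.factorial : ℕ) : ℝ) ≠ 0 := by exact_mod_cast K.factorial_ne_zero
        have f2 : ((b.factorial : ℕ) : ℝ) ≠ 0 := by exact_mod_cast b.factorial_ne_zero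
        have f3 : (((K - b).factorial : ℕ) : ℝ) ≠ 0 := by exact_mod_cast (K - b).factorial_ne_zero
        push_cast
        field_simp
      rw [Finset.sum_congr rfl hterm, ← Finset.mul_sum, Finset.sum_add_distrib, ← Finset.mul_sum,
        binom_sum_one, binom_sum_b]
      have e3 : N + 1 - (s' + 1) = K := by omega
      rw [e3]
      have f1 : ((K.factorial : ℕ) : ℝ) ≠ 0 := by exact_mod_cast K.factorial_ne_zero
      have hKc : (K : ℝ) = N - s' := by
        rw [hK, Nat.cast_sub hs']
      rcases Nat.eq_zero_or_pos K with h0 | h0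
      · have hsN : (s' : ℝ) = N := by
          rw [h0] at hKc; push_cast at hKc; linarith
        rw [h0]
        simp only [pow_zero, Nat.factorial_zero, Nat.cast_zero, Nat.cast_one, zero_mul, add_zero,
          mul_one, div_one]
        push_cast
        rw [hsN]
        field_simp
      · obtain ⟨K', hK'⟩ : ∃ K', K = K' + 1 := ⟨K - 1, by omega⟩
        have e4 : K - 1 = K' := by omega
        have e5 : ((N : ℝ) + 1) ^ K = ((N : ℝ) + 1) ^ K' * (N + 1) := by rw [hK', pow_succ]
        rw [e4]
        push_cast
        rw [e5, hKc]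
        field_simp
        ring

end Pool.Agent.Helper112.LP.Kgc

namespace Pool.Agent.Helper112.LP

theorem gw_zero (h n s : ℕ) (hs : h + n < s) : gw h n s = 0 := by
  first
    | exact Kgc.gw_zero
    | (apply Kgc.gw_zero <;> assumption)

theorem gw_nonneg (h n s : ℕ) : 0 ≤ gw h n s := by
  first
    | exact Kgc.gw_nonneg
    | (apply Kgc.gw_nonneg <;> assumption)

/-- closed form for paths from `0` -/
theorem gw_closed (n s : ℕ) (hs : 1 ≤ s) (hsn : s ≤ n) :
    gw 0 n s = (s : ℝ) / n * (n : ℝ) ^ (n - s) / (n - s).factorial := by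
  first
    | exact Kgc.gw_closed
    | (apply Kgc.gw_closed <;> assumption)

end Pool.Agent.Helper112.LP
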