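import Pool.Agent.Helper112.Lp.Defs
import Pool.Agent.Helper112.Lp.Kgc

open Finset

namespace Pool.Agent.Helper112.LP.Kgl

theorem fac_lower (n : ℕ) (hn : 1 ≤ n) : (n : ℝ) ^ n / n.factorial ≤ Real.exp n / Real.sqrt n := by
  have h1 := Stirling.le_factorial_stirling n
  have hn0 : (0 : ℝ) < n := by exact_mod_cast hn
  have h2 : Real.sqrt n * (n / Real.exp 1) ^ n ≤ n.factorial := by
    refine le_trans ?_ h1
    apply mul_le_mul_of_nonneg_right _ (by positivity)
    apply Real.sqrt_le_sqrt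
    nlinarith [Real.pi_gt_three]
  have h3 : (n / Real.exp 1) ^ n = (n : ℝ) ^ n / Real.exp n := by
    rw [div_pow, ← Real.exp_nat_mul, mul_one]
  rw [h3] at h2
  have hf : (0 : ℝ) < n.factorial := by exact_mod_cast n.factorial_pos
  have hs : 0 < Real.sqrt n := Real.sqrt_pos.2 hn0
  rw [div_le_div_iff₀ hf hs]
  have h4 : Real.sqrt n * ((n : ℝ) ^ n / Real.exp n) = (n : ℝ) ^ n * Real.sqrt n / Real.exp n := by
    ring
  rw [h4, div_le_iff₀ (Real.exp_pos _)] at h2
  linarith [mul_comm (n.factorial : ℝ) (Real.exp n)]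

theorem fac_upper (n : ℕ) (hn : 1 ≤ n) : Real.exp n / (Real.exp 1 * Real.sqrt n) ≤
    (n : ℝ) ^ n / n.factorial := by
  obtain ⟨m, rfl⟩ : ∃ m, n = m + 1 := ⟨n - 1, by omega⟩
  have h1 : Stirling.stirlingSeq (m + 1) ≤ Stirling.stirlingSeq 1 :=
    Stirling.stirlingSeq'_antitone (Nat.zero_le m)
  rw [Stirling.stirlingSeq_one] at h1
  unfold Stirling.stirlingSeq at h1
  have hn0 : (0 : ℝ) < ((m + 1 : ℕ) : ℝ) := by positivity
  set n := m + 1 with hnn
  have hf : (0 : ℝ) < n.factorial := by exact_mod_cast n.factorial_pos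
  have hs : 0 < Real.sqrt n := Real.sqrt_pos.2 hn0
  have h3 : (n / Real.exp 1) ^ n = (n : ℝ) ^ n / Real.exp n := by
    rw [div_pow, ← Real.exp_nat_mul, mul_one]
  have h5 : Real.sqrt (2 * n) = Real.sqrt 2 * Real.sqrt n := Real.sqrt_mul (by norm_num) _
  rw [h3, h5, div_le_div_iff₀ (by positivity) (by positivity)] at h1
  have h2 : (0 : ℝ) < Real.sqrt 2 := by positivity
  have h6 : (n.factorial : ℝ) ≤ Real.exp 1 * Real.sqrt n * ((n : ℝ) ^ n / Real.exp n) := by
    have : (n.factorial : ℝ) * Real.sqrt 2 ≤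
        (Real.exp 1 * Real.sqrt n * ((n : ℝ) ^ n / Real.exp n)) * Real.sqrt 2 := by
      calc (n.factorial : ℝ) * Real.sqrt 2 ≤
          Real.exp 1 * (Real.sqrt 2 * Real.sqrt n * ((n : ℝ) ^ n / Real.exp n)) := h1
        _ = _ := by ring
    exact le_of_mul_le_mul_right this h2
  rw [div_le_div_iff₀ (by positivity) hf]
  have h7 : Real.exp 1 * Real.sqrt n * ((n : ℝ) ^ n / Real.exp n) =
      (n : ℝ) ^ n * (Real.exp 1 * Real.sqrt n) / Real.exp n := by ring
  rw [h7, le_div_iff₀ (Real.exp_pos _)] at h6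
  linarith [mul_comm (n.factorial : ℝ) (Real.exp n)]

theorem pow_fac_mono (n s : ℕ) (hs : s ≤ n) : (n : ℝ) ^ (n - s) / (n - s).factorial ≤
    (n : ℝ) ^ n / n.factorial := by
  have h1 : (0 : ℝ) < (n - s).factorial := by exact_mod_cast (n - s).factorial_pos
  have h2 : (0 : ℝ) < n.factorial := by exact_mod_cast n.factorial_pos
  rw [div_le_div_iff₀ h1 h2]
  have h3 : n.factorial ≤ (n - s).factorial * n ^ s := by
    rw [← Nat.factorial_mul_descFactorial hs]
    exact Nat.mul_le_mul_left _ (Nat.descFactorial_le_pow n s)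
  have h4 : (n.factorial : ℝ) ≤ (n - s).factorial * (n : ℝ) ^ s := by exact_mod_cast h3
  calc (n : ℝ) ^ (n - s) * n.factorial ≤ (n : ℝ) ^ (n - s) * ((n - s).factorial * (n : ℝ) ^ s) :=
        mul_le_mul_of_nonneg_left h4 (by positivity)
    _ = (n : ℝ) ^ (n - s + s) * (n - s).factorial := by rw [pow_add]; ring
    _ = (n : ℝ) ^ n * (n - s).factorial := by rw [Nat.sub_add_cancel hs]

/- TARGET -/
/-- upper bound for paths from `0` -/
theorem gw_le : ∃ C : ℝ, 0 < C ∧ ∀ n s : ℕ, 1 ≤ n →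
    gw 0 n s ≤ C * s * Real.exp n / (n * Real.sqrt n) := by
  refine ⟨1, one_pos, fun n s hn => ?_⟩
  have hn0 : (0 : ℝ) < n := by exact_mod_cast hn
  have hsq : 0 < Real.sqrt n := Real.sqrt_pos.2 hn0
  rcases Nat.eq_zero_or_pos s with rfl | hs
  · obtain ⟨m, rfl⟩ : ∃ m, n = m + 1 := ⟨n - 1, by omega⟩
    have : gw 0 (m + 1) 0 = 0 := by rw [gw]
    rw [this]
    simp
  · by_cases hsn : s ≤ n
    · rw [gw_closed n s hs hsn]
      have h1 := (pow_fac_mono n s hsn).trans (fac_lower n hn)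
      calc (s : ℝ) / n * (n : ℝ) ^ (n - s) / (n - s).factorial
          = (s : ℝ) / n * ((n : ℝ) ^ (n - s) / (n - s).factorial) := by ring
        _ ≤ (s : ℝ) / n * (Real.exp n / Real.sqrt n) :=
            mul_le_mul_of_nonneg_left h1 (by positivity)
        _ = 1 * s * Real.exp n / (n * Real.sqrt n) := by
            field_simp
    · rw [gw_zero 0 n s (by omega)]
      positivity

/- TARGET -/
/-- the weight of parking vectors, with its order of magnitude -/
theorem gw_one : ∃ c C : ℝ, 0 < c ∧ 0 < C ∧ ∀ k : ℕ, 1 ≤ k →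
    gw 0 k 1 = (k : ℝ) ^ (k - 1) / k.factorial ∧
    c * (Real.exp k / (k * Real.sqrt k)) ≤ (k : ℝ) ^ (k - 1) / k.factorial ∧
    (k : ℝ) ^ (k - 1) / k.factorial ≤ C * (Real.exp k / (k * Real.sqrt k)) := by
  refine ⟨(Real.exp 1)⁻¹, 1, by positivity, one_pos, fun k hk => ?_⟩
  have hk0 : (0 : ℝ) < k := by exact_mod_cast hk
  have hsq : 0 < Real.sqrt k := Real.sqrt_pos.2 hk0
  have hf : (0 : ℝ) < k.factorial := by exact_mod_cast k.factorial_pos
  have hf' : (0 : ℝ) < (k - 1).factorial := by exact_mod_cast (k - 1).factorial_pos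
  have hkf : (k.factorial : ℝ) = k * (k - 1).factorial := by
    have := Nat.mul_factorial_pred (Nat.pos_iff_ne_zero.1 hk)
    rw [← this]
    push_cast
    ring
  have hpow : (k : ℝ) ^ (k - 1) / k.factorial = (k : ℝ) ^ k / k.factorial / k := by
    have : (k : ℝ) ^ k = (k : ℝ) ^ (k - 1) * k := by
      rw [← pow_succ, Nat.sub_add_cancel hk]
    rw [this]
    field_simp
  refine ⟨?_, ?_, ?_⟩
  · rw [gw_closed k 1 le_rfl hk, hkf]
    push_cast
    field_simp
  · rw [hpow]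
    calc (Real.exp 1)⁻¹ * (Real.exp k / (k * Real.sqrt k))
        = Real.exp k / (Real.exp 1 * Real.sqrt k) / k := by field_simp
      _ ≤ (k : ℝ) ^ k / k.factorial / k :=
          div_le_div_of_nonneg_right (fac_upper k hk) hk0.le
  · rw [hpow]
    calc (k : ℝ) ^ k / k.factorial / k ≤ Real.exp k / Real.sqrt k / k :=
          div_le_div_of_nonneg_right (fac_lower k hk) hk0.le
      _ = 1 * (Real.exp k / (k * Real.sqrt k)) := by field_simp

end Pool.Agent.Helper112.LP.Kgl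

namespace Pool.Agent.Helper112.LP

/-- upper bound for paths from `0` -/
theorem gw_le : ∃ C : ℝ, 0 < C ∧ ∀ n s : ℕ, 1 ≤ n →
    gw 0 n s ≤ C * s * Real.exp n / (n * Real.sqrt n) := by
  first
    | exact Kgl.gw_le
    | (apply Kgl.gw_le <;> assumption)

/-- the weight of parking vectors, with its order of magnitude -/
theorem gw_one : ∃ c C : ℝ, 0 < c ∧ 0 < C ∧ ∀ k : ℕ, 1 ≤ k →
    gw 0 k 1 = (k : ℝ) ^ (k - 1) / k.factorial ∧
    c * (Real.exp k / (k * Real.sqrt k)) ≤ (k : ℝ) ^ (k - 1) / k.factorial ∧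
    (k : ℝ) ^ (k - 1) / k.factorial ≤ C * (Real.exp k / (k * Real.sqrt k)) := by
  first
    | exact Kgl.gw_one
    | (apply Kgl.gw_one <;> assumption)

end Pool.Agent.Helper112.LP
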