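import Pool.Agent.Helper112.Lp.Defs

open Finset

namespace Pool.Agent.Helper112.LP.Kcb

/- TARGET -/
noncomputable def cbA (i : ℕ) : ℝ := 1 / (((i : ℝ) + 1) * Real.sqrt (i + 1))

lemma cbA_nonneg (i : ℕ) : 0 ≤ cbA i := by unfold cbA; positivity

lemma cbA_sum (N : ℕ) : ∑ i ∈ range (N + 1), cbA i ≤ 3 - 2 / Real.sqrt ((N : ℝ) + 1) := by
  induction N with
  | zero => simp [cbA]; norm_num
  | succ n ih =>
    rw [sum_range_succ]
    have hx : 0 < Real.sqrt ((n : ℝ) + 1) := Real.sqrt_pos.mpr (by positivity)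
    have hy : 0 < Real.sqrt ((n : ℝ) + 1 + 1) := Real.sqrt_pos.mpr (by positivity)
    have hx2 : Real.sqrt ((n : ℝ) + 1) ^ 2 = (n : ℝ) + 1 := Real.sq_sqrt (by positivity)
    have hy2 : Real.sqrt ((n : ℝ) + 1 + 1) ^ 2 = (n : ℝ) + 1 + 1 := Real.sq_sqrt (by positivity)
    have hxy : Real.sqrt ((n : ℝ) + 1) ≤ Real.sqrt ((n : ℝ) + 1 + 1) :=
      Real.sqrt_le_sqrt (by linarith)
    have key : cbA (n + 1) ≤ 2 / Real.sqrt ((n : ℝ) + 1) - 2 / Real.sqrt ((n : ℝ) + 1 + 1) := by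
      unfold cbA
      push_cast
      rw [← hy2]
      set x := Real.sqrt ((n : ℝ) + 1)
      set y := Real.sqrt ((n : ℝ) + 1 + 1)
      rw [Real.sqrt_sq hy.le]
      rw [div_sub_div _ _ hx.ne' hy.ne', div_le_div_iff₀ (by positivity) (by positivity)]
      have h1 : y ^ 2 - x ^ 2 = 1 := by rw [hx2, hy2]; ring
      have h2 : (y - x) * (y + x) = 1 := by linarith [h1]
      have h3 : 0 ≤ y - x := by linarith
      -- x*y ≤ 2 (y - x) y^3
      have h4 : 1 ≤ (y - x) * (2 * y) := by nlinarith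
      have h5 : 0 ≤ x * y := by positivity
      have h6 : x * y ≤ (y - x) * (2 * y) * (x * y) := by nlinarith
      have h7 : (y - x) * (2 * y) * (x * y) ≤ (y - x) * (2 * y) * (y * y) := by
        apply mul_le_mul_of_nonneg_left _ (by positivity)
        exact mul_le_mul_of_nonneg_right hxy hy.le
      nlinarith
    push_cast
    linarith

lemma cbA_half (J k : ℕ) (h : J ≤ 2 * k) :
    cbA k ≤ 2 * Real.sqrt 2 / (((J : ℝ) + 1) * Real.sqrt (J + 1)) := by
  unfold cbA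
  have h1 : (J : ℝ) + 1 ≤ 2 * ((k : ℝ) + 1) := by
    have : (J : ℝ) ≤ 2 * k := by exact_mod_cast h
    linarith
  have h2 : Real.sqrt ((J : ℝ) + 1) ≤ Real.sqrt 2 * Real.sqrt ((k : ℝ) + 1) := by
    rw [← Real.sqrt_mul (by norm_num)]
    exact Real.sqrt_le_sqrt h1
  rw [div_le_div_iff₀ (by positivity) (by positivity)]
  calc 1 * (((J : ℝ) + 1) * Real.sqrt (J + 1))
      ≤ (2 * ((k : ℝ) + 1)) * (Real.sqrt 2 * Real.sqrt ((k : ℝ) + 1)) := by
        rw [one_mul]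
        exact mul_le_mul h1 h2 (Real.sqrt_nonneg _) (by positivity)
    _ = 2 * Real.sqrt 2 * (((k : ℝ) + 1) * Real.sqrt (k + 1)) := by ring

theorem conv_bound : ∃ C : ℝ, 0 < C ∧ ∀ J : ℕ,
    ∑ j ∈ range (J + 1), 1 / (((j : ℝ) + 1) * Real.sqrt (j + 1)) *
      (1 / ((((J - j : ℕ) : ℝ) + 1) * Real.sqrt (((J - j : ℕ) : ℝ) + 1)))
      ≤ C / (((J : ℝ) + 1) * Real.sqrt (J + 1)) := by
  refine ⟨2 * Real.sqrt 2 * 6, by positivity, fun J => ?_⟩
  set B : ℝ := 2 * Real.sqrt 2 / (((J : ℝ) + 1) * Real.sqrt (J + 1)) with hB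
  have hB0 : 0 ≤ B := by positivity
  have hterm : ∀ j ∈ range (J + 1), 1 / (((j : ℝ) + 1) * Real.sqrt (j + 1)) *
      (1 / ((((J - j : ℕ) : ℝ) + 1) * Real.sqrt (((J - j : ℕ) : ℝ) + 1))) ≤
      B * (cbA j + cbA (J - j)) := by
    intro j hj
    have hj' : j ≤ J := by simpa [Nat.lt_succ_iff] using hj
    change cbA j * cbA (J - j) ≤ B * (cbA j + cbA (J - j))
    have ha := cbA_nonneg j
    have hb := cbA_nonneg (J - j)
    rcases Nat.le_total J (2 * j) with h | h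
    · have h1 : cbA j ≤ B := cbA_half J j h
      nlinarith [mul_le_mul_of_nonneg_right h1 hb, mul_nonneg hB0 ha]
    · have h1 : cbA (J - j) ≤ B := cbA_half J (J - j) (by omega)
      nlinarith [mul_le_mul_of_nonneg_left h1 ha, mul_nonneg hB0 hb]
  have hsum : ∑ j ∈ range (J + 1), cbA j ≤ 3 := by
    have h1 := cbA_sum J
    have h2 : 0 ≤ 2 / Real.sqrt ((J : ℝ) + 1) := by positivity
    linarith
  have hrefl : ∑ j ∈ range (J + 1), cbA (J - j) = ∑ j ∈ range (J + 1), cbA j := by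
    have := Finset.sum_range_reflect cbA (J + 1)
    rw [← this]
    apply sum_congr rfl
    intro j _
    congr 1
  calc _ ≤ ∑ j ∈ range (J + 1), B * (cbA j + cbA (J - j)) := sum_le_sum hterm
    _ = B * (∑ j ∈ range (J + 1), cbA j + ∑ j ∈ range (J + 1), cbA (J - j)) := by
        rw [← mul_sum, sum_add_distrib]
    _ ≤ B * (3 + 3) := by
        apply mul_le_mul_of_nonneg_left _ hB0
        rw [hrefl]; linarith
    _ = 2 * Real.sqrt 2 * 6 / (((J : ℝ) + 1) * Real.sqrt (J + 1)) := by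
        rw [hB]; ring

end Pool.Agent.Helper112.LP.Kcb

namespace Pool.Agent.Helper112.LP

theorem conv_bound : ∃ C : ℝ, 0 < C ∧ ∀ J : ℕ,
    ∑ j ∈ range (J + 1), 1 / (((j : ℝ) + 1) * Real.sqrt (j + 1)) *
      (1 / ((((J - j : ℕ) : ℝ) + 1) * Real.sqrt (((J - j : ℕ) : ℝ) + 1)))
      ≤ C / (((J : ℝ) + 1) * Real.sqrt (J + 1)) := by
  first
    | exact Kcb.conv_bound
    | (apply Kcb.conv_bound <;> assumption)

end Pool.Agent.Helper112.LP
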