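import Pool.Agent.Helper112.Lp.Defs
import Pool.Agent.Helper112.Lp.Kgc
import Pool.Agent.Helper112.Lp.Kgl

open Finset

namespace Pool.Agent.Helper112.LP.Kgf

theorem gw_supermul (t M j s : ℕ) : gw 0 t M * gw M j s ≤ gw 0 (t + j) s := by
  by_cases hMt : M ≤ t
  · induction j generalizing s with
    | zero =>
      by_cases h : s = M
      · subst h
        simp [gw]
      · have h0 : gw M 0 s = 0 := by simp [gw, h]
        rw [h0, mul_zero]
        exact gw_nonneg _ _ _
    | succ j ih =>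
      cases s with
      | zero =>
        simp only [gw, mul_zero]
        exact le_rfl
      | succ s =>
        have e1 : gw M (j + 1) (s + 1) =
            ∑ r ∈ range (M + j + 1), if s ≤ r then gw M j r / (r - s).factorial else 0 := rfl
        have e2 : gw 0 (t + (j + 1)) (s + 1) = ∑ r ∈ range (0 + (t + j) + 1),
            if s ≤ r then gw 0 (t + j) r / (r - s).factorial else 0 := rfl
        rw [e1, e2, Finset.mul_sum]
        refine le_trans (Finset.sum_le_sum (g := fun r =>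
          if s ≤ r then gw 0 (t + j) r / (r - s).factorial else 0) ?_) ?_
        · intro r _
          split_ifs with h
          · rw [← mul_div_assoc]
            exact div_le_div_of_nonneg_right (ih r) (Nat.cast_nonneg _)
          · simp
        · refine Finset.sum_le_sum_of_subset_of_nonneg ?_ ?_
          · intro r hr
            rw [Finset.mem_range] at *
            omega
          · intro r _ _
            split_ifs
            · exact div_nonneg (gw_nonneg _ _ _) (Nat.cast_nonneg _)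
            · exact le_rfl
  · rw [gw_zero 0 t M (by omega), zero_mul]
    exact gw_nonneg _ _ _

theorem exp_mul_pow_le (n : ℕ) (hn : 1 ≤ n) :
    Real.exp 1 * (n : ℝ) ^ (n + 1) ≤ ((n : ℝ) + 1) ^ (n + 1) := by
  have hn0 : (0 : ℝ) < n := by exact_mod_cast hn
  have h1 : Real.exp 1 ≤ (((n : ℝ) + 1) / n) ^ (n + 1) := by
    have h2 := Real.one_sub_inv_le_log_of_pos (show (0 : ℝ) < ((n : ℝ) + 1) / n by positivity)
    have h3 : 1 - (((n : ℝ) + 1) / n)⁻¹ = 1 / ((n : ℝ) + 1) := by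
      field_simp
      ring
    rw [h3] at h2
    have h4 : (1 : ℝ) ≤ ((n + 1 : ℕ) : ℝ) * Real.log (((n : ℝ) + 1) / n) := by
      have h5 : ((n + 1 : ℕ) : ℝ) * (1 / ((n : ℝ) + 1)) = 1 := by
        push_cast
        field_simp
      calc (1 : ℝ) = ((n + 1 : ℕ) : ℝ) * (1 / ((n : ℝ) + 1)) := h5.symm
        _ ≤ _ := mul_le_mul_of_nonneg_left h2 (Nat.cast_nonneg _)
    calc Real.exp 1 ≤ Real.exp (((n + 1 : ℕ) : ℝ) * Real.log (((n : ℝ) + 1) / n)) :=
          Real.exp_le_exp.2 h4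
      _ = (((n : ℝ) + 1) / n) ^ (n + 1) := by
          rw [Real.exp_nat_mul, Real.exp_log (by positivity)]
  calc Real.exp 1 * (n : ℝ) ^ (n + 1) ≤ (((n : ℝ) + 1) / n) ^ (n + 1) * (n : ℝ) ^ (n + 1) := by
        gcongr
    _ = ((n : ℝ) + 1) ^ (n + 1) := by
        rw [← mul_pow, div_mul_cancel₀ _ hn0.ne']

theorem factorial_bound (n : ℕ) (hn : 1 ≤ n) :
    (n.factorial : ℝ) * Real.exp 1 ^ n ≤ Real.exp 1 * (n : ℝ) ^ (n + 1) := by
  induction n, hn using Nat.le_induction with
  | base => simp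
  | succ n hn ih =>
    have h := exp_mul_pow_le n hn
    have he : (0 : ℝ) < Real.exp 1 := Real.exp_pos 1
    rw [Nat.factorial_succ]
    push_cast
    calc ((n : ℝ) + 1) * (n.factorial : ℝ) * Real.exp 1 ^ (n + 1)
        = (((n : ℝ) + 1) * Real.exp 1) * ((n.factorial : ℝ) * Real.exp 1 ^ n) := by ring
      _ ≤ (((n : ℝ) + 1) * Real.exp 1) * (Real.exp 1 * (n : ℝ) ^ (n + 1)) := by gcongr
      _ ≤ (((n : ℝ) + 1) * Real.exp 1) * ((n : ℝ) + 1) ^ (n + 1) := by gcongr
      _ = Real.exp 1 * ((n : ℝ) + 1) ^ (n + 1 + 1) := by ring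

theorem gw_mid (M : ℕ) (hM : 1 ≤ M) :
    gw 0 (2 * M) M = (1 / 2) * (2 * (M : ℝ)) ^ M / M.factorial := by
  rw [gw_closed (2 * M) M hM (by omega), show 2 * M - M = M by omega]
  have : (0 : ℝ) < M := by exact_mod_cast hM
  push_cast
  field_simp

/- TARGET -/
/-- upper bound for paths from `M ≥ 1` -/
theorem gw_lift : ∃ C : ℝ, 0 < C ∧ ∀ M j s : ℕ, 1 ≤ M →
    gw M j s ≤ C * (M * (Real.exp 1 / 2) ^ M) * (s * Real.exp j / ((j + 1) * Real.sqrt (j + 1))) := by
  obtain ⟨C, hC, hle⟩ := gw_le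
  have he : (0 : ℝ) < Real.exp 1 := Real.exp_pos 1
  refine ⟨2 * Real.exp 1 * C, by positivity, ?_⟩
  intro M j s hM
  have hM0 : (0 : ℝ) < M := by exact_mod_cast hM
  have h1 := gw_supermul (2 * M) M j s
  have h2 := hle (2 * M + j) s (by omega)
  have h3 := gw_mid M hM
  have hpos : 0 < gw 0 (2 * M) M := by rw [h3]; positivity
  have h4 : gw M j s ≤ gw 0 (2 * M + j) s / gw 0 (2 * M) M := by
    rw [le_div_iff₀ hpos, mul_comm]
    exact h1
  have h5 : 1 / gw 0 (2 * M) M ≤ 2 * Real.exp 1 * M / (2 * Real.exp 1) ^ M := by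
    rw [h3, div_le_div_iff₀ (by positivity) (by positivity)]
    have hf := factorial_bound M hM
    have hfac : (0 : ℝ) < M.factorial := by exact_mod_cast Nat.factorial_pos M
    rw [one_mul, mul_div_assoc', le_div_iff₀ hfac]
    calc (2 * Real.exp 1) ^ M * (M.factorial : ℝ)
        = 2 ^ M * ((M.factorial : ℝ) * Real.exp 1 ^ M) := by rw [mul_pow]; ring
      _ ≤ 2 ^ M * (Real.exp 1 * (M : ℝ) ^ (M + 1)) := by gcongr
      _ = 2 * Real.exp 1 * M * (1 / 2 * (2 * (M : ℝ)) ^ M) := by rw [mul_pow]; ring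
  have hs0 : (0 : ℝ) ≤ s := Nat.cast_nonneg _
  have h6 : gw 0 (2 * M + j) s ≤ C * s * (Real.exp 1 ^ (2 * M) * Real.exp j) / ((j + 1) * Real.sqrt (j + 1)) := by
    refine h2.trans ?_
    have e1 : Real.exp ((2 * M + j : ℕ) : ℝ) = Real.exp 1 ^ (2 * M) * Real.exp j := by
      rw [← Real.exp_nat_mul, ← Real.exp_add]
      congr 1
      push_cast
      ring
    rw [e1]
    have e2 : (j : ℝ) + 1 ≤ ((2 * M + j : ℕ) : ℝ) := by
      push_cast
      have : (1 : ℝ) ≤ M := by exact_mod_cast hM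
      linarith
    have e3 : Real.sqrt ((j : ℝ) + 1) ≤ Real.sqrt ((2 * M + j : ℕ) : ℝ) := Real.sqrt_le_sqrt e2
    have hj : (0 : ℝ) < (j : ℝ) + 1 := by positivity
    have hsq : 0 < Real.sqrt ((j : ℝ) + 1) := Real.sqrt_pos.2 hj
    exact div_le_div_of_nonneg_left (by positivity) (by positivity)
      (mul_le_mul e2 e3 hsq.le (hj.le.trans e2))
  calc gw M j s ≤ gw 0 (2 * M + j) s / gw 0 (2 * M) M := h4
    _ = gw 0 (2 * M + j) s * (1 / gw 0 (2 * M) M) := by ring
    _ ≤ (C * s * (Real.exp 1 ^ (2 * M) * Real.exp j) / ((j + 1) * Real.sqrt (j + 1))) *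
        (2 * Real.exp 1 * M / (2 * Real.exp 1) ^ M) := by
        refine mul_le_mul h6 h5 (by positivity) ?_
        positivity
    _ = 2 * Real.exp 1 * C * (M * (Real.exp 1 / 2) ^ M) *
        (s * Real.exp j / ((j + 1) * Real.sqrt (j + 1))) := by
        have : (Real.exp 1 / 2) ^ M = Real.exp 1 ^ (2 * M) / (2 * Real.exp 1) ^ M := by
          rw [eq_div_iff (by positivity), div_pow, mul_pow, pow_mul']
          field_simp
        rw [this]
        field_simp

end Pool.Agent.Helper112.LP.Kgf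

namespace Pool.Agent.Helper112.LP

/-- upper bound for paths from `M ≥ 1` -/
theorem gw_lift : ∃ C : ℝ, 0 < C ∧ ∀ M j s : ℕ, 1 ≤ M →
    gw M j s ≤ C * (M * (Real.exp 1 / 2) ^ M) * (s * Real.exp j / ((j + 1) * Real.sqrt (j + 1))) := by
  first
    | exact Kgf.gw_lift
    | (apply Kgf.gw_lift <;> assumption)

end Pool.Agent.Helper112.LP
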