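import Pool.Agent.Helper112.Lp.Defs
import Pool.Agent.Helper112.Lp.Kgc

open Finset

namespace Pool.Agent.Helper112.LP.Kvs

theorem pathOK_snoc (M s' j : ℕ) (b' : Fin j → ℕ) (x : ℕ) :
    PathOK M (s' + 1) (Fin.snoc (α := fun _ => ℕ) b' x : Fin (j + 1) → ℕ) ↔
      PathOK M (s' + x) b' := by
  have hsum : ∑ i, (Fin.snoc (α := fun _ => ℕ) b' x : Fin (j + 1) → ℕ) i = (∑ i, b' i) + x := by
    rw [Fin.sum_univ_castSucc]
    simp
  have hpart : ∀ l, l ≤ j →
      (∑ i : Fin (j + 1), if (i : ℕ) < l then
        (Fin.snoc (α := fun _ => ℕ) b' x : Fin (j + 1) → ℕ) i else 0)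
      = ∑ i : Fin j, if (i : ℕ) < l then b' i else 0 := by
    intro l hl
    rw [Fin.sum_univ_castSucc]
    simp only [Fin.snoc_castSucc, Fin.val_castSucc, Fin.val_last, Fin.snoc_last]
    rw [if_neg (by omega), add_zero]
  unfold PathOK
  rw [hsum]
  constructor
  · rintro ⟨h1, h2⟩
    refine ⟨fun l hl => ?_, by omega⟩
    rw [mem_Icc] at hl
    have := h1 l (mem_Icc.mpr ⟨hl.1, by omega⟩)
    rwa [hpart l hl.2] at this
  · rintro ⟨h1, h2⟩
    refine ⟨fun l hl => ?_, by omega⟩
    rw [mem_Icc] at hl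
    rcases Nat.lt_or_ge j l with hlt | hge
    · have hl' : l = j + 1 := by omega
      subst hl'
      have : (∑ i : Fin (j + 1), if (i : ℕ) < j + 1 then
        (Fin.snoc (α := fun _ => ℕ) b' x : Fin (j + 1) → ℕ) i else 0)
        = ∑ i, (Fin.snoc (α := fun _ => ℕ) b' x : Fin (j + 1) → ℕ) i := by
        apply Finset.sum_congr rfl
        intro i _
        rw [if_pos i.2]
      rw [this, hsum]
      omega
    · rw [hpart l hge]
      exact h1 l (mem_Icc.mpr ⟨hl.1, hge⟩)

theorem pathOK_zero (M j : ℕ) (b : Fin (j + 1) → ℕ) : ¬ PathOK M 0 b := by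
  rintro ⟨h1, h2⟩
  have := h1 (j + 1) (mem_Icc.mpr ⟨by omega, le_rfl⟩)
  have h3 : (∑ i : Fin (j + 1), if (i : ℕ) < j + 1 then b i else 0) = ∑ i, b i := by
    apply Finset.sum_congr rfl
    intro i _
    rw [if_pos i.2]
  rw [h3] at this
  omega

theorem sum_snoc (j R : ℕ) (F : (Fin (j + 1) → ℕ) → ℝ) :
    ∑ b ∈ Fintype.piFinset (fun _ : Fin (j + 1) => range (R + 1)), F b
      = ∑ x ∈ range (R + 1), ∑ b' ∈ Fintype.piFinset (fun _ : Fin j => range (R + 1)),
        F (Fin.snoc (α := fun _ => ℕ) b' x) := by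
  rw [← Finset.sum_product']
  refine Finset.sum_nbij' (fun b => (b (Fin.last j), Fin.init (α := fun _ => ℕ) b))
    (fun p => Fin.snoc (α := fun _ => ℕ) p.2 p.1) ?_ ?_ ?_ ?_ ?_
  · intro b hb
    rw [Fintype.mem_piFinset] at hb
    rw [mem_product, Fintype.mem_piFinset]
    exact ⟨hb _, fun i => hb _⟩
  · intro p hp
    rw [mem_product, Fintype.mem_piFinset] at hp
    rw [Fintype.mem_piFinset]
    intro i
    refine Fin.lastCases ?_ (fun i => ?_) i
    · simpa using hp.1
    · simpa using hp.2 i
  · intro b _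
    simp
  · intro p _
    simp
  · intro b _
    simp

/- TARGET -/
/-- vector sums are path weights -/
theorem vec_sum (M s j R : ℕ) (hR : M + j ≤ R) :
    ∑ b ∈ (Fintype.piFinset (fun _ : Fin j => range (R + 1))).filter (fun b => PathOK M s b),
      ∏ i, (1 : ℝ) / (b i).factorial = gw M j s := by
  induction j generalizing s with
  | zero =>
    rw [Finset.sum_filter]
    simp [gw, PathOK]
  | succ j ih =>
    rw [Finset.sum_filter, sum_snoc]
    cases s with
    | zero =>
      simp only [gw]
      apply Finset.sum_eq_zero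
      intro x _
      apply Finset.sum_eq_zero
      intro b' _
      rw [if_neg (pathOK_zero _ _ _)]
    | succ s' =>
      have h1 : ∀ x ∈ range (R + 1), ∑ b' ∈ Fintype.piFinset (fun _ : Fin j => range (R + 1)),
          (if PathOK M (s' + 1) (Fin.snoc (α := fun _ => ℕ) b' x : Fin (j + 1) → ℕ) then
            ∏ i, (1 : ℝ) / ((Fin.snoc (α := fun _ => ℕ) b' x : Fin (j + 1) → ℕ) i).factorial else 0)
          = gw M j (s' + x) / ((s' + x - s').factorial : ℝ) := by
        intro x _
        rw [← ih (s' + x) (by omega), Finset.sum_filter, Finset.sum_div]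
        apply Finset.sum_congr rfl
        intro b' _
        have e1 : s' + x - s' = x := by omega
        rw [e1]
        by_cases hp : PathOK M (s' + x) b'
        · rw [if_pos ((pathOK_snoc M s' j b' x).mpr hp), if_pos hp, Fin.prod_univ_castSucc]
          simp only [Fin.snoc_castSucc, Fin.snoc_last]
          rw [mul_one_div]
        · rw [if_neg (fun h => hp ((pathOK_snoc M s' j b' x).mp h)), if_neg hp, zero_div]
      rw [Finset.sum_congr rfl h1]
      simp only [gw]
      rw [← Finset.sum_filter]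
      have h2 : (range (M + j + 1)).filter (fun r => s' ≤ r) = Ico s' (M + j + 1) := by
        ext r
        simp only [mem_filter, mem_range, mem_Ico]
        omega
      rw [h2]
      have h3 : ∑ x ∈ range (R + 1), gw M j (s' + x) / ((s' + x - s').factorial : ℝ)
          = ∑ r ∈ Ico s' (s' + (R + 1)), gw M j r / ((r - s').factorial : ℝ) := by
        rw [Finset.sum_Ico_eq_sum_range]
        congr 2
        omega
      rw [h3]
      symm
      apply Finset.sum_subset
      · intro r hr
        rw [mem_Ico] at hr ⊢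
        omega
      · intro r hr hr'
        rw [mem_Ico] at hr hr'
        rw [gw_zero M j r (by omega), zero_div]

/- TARGET -/
/-- PL (a) -/
theorem park_weight (k : ℕ) : ∑ b ∈ Park k, ∏ i, (1 : ℝ) / (b i).factorial = gw 0 k 1 := by
  exact vec_sum 0 1 k k (by omega)

end Pool.Agent.Helper112.LP.Kvs

namespace Pool.Agent.Helper112.LP

/-- vector sums are path weights -/
theorem vec_sum (M s j R : ℕ) (hR : M + j ≤ R) :
    ∑ b ∈ (Fintype.piFinset (fun _ : Fin j => range (R + 1))).filter (fun b => PathOK M s b),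
      ∏ i, (1 : ℝ) / (b i).factorial = gw M j s := by
  first
    | exact Kvs.vec_sum
    | (apply Kvs.vec_sum <;> assumption)

/-- PL (a) -/
theorem park_weight (k : ℕ) : ∑ b ∈ Park k, ∏ i, (1 : ℝ) / (b i).factorial = gw 0 k 1 := by
  first
    | exact Kvs.park_weight
    | (apply Kvs.park_weight <;> assumption)

end Pool.Agent.Helper112.LP
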