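import Pool.Agent.Helper112.Lp.Defs
import Pool.Agent.Helper112.Lp.Kcb
import Pool.Agent.Helper112.Lp.Kgc
import Pool.Agent.Helper112.Lp.Kgf
import Pool.Agent.Helper112.Lp.Kgl
import Pool.Agent.Helper112.Lp.Kvs

open Finset

namespace Pool.Agent.Helper112.LP.Kpk

/-- weight of a vector -/
noncomputable def wt {n : ℕ} (b : Fin n → ℕ) : ℝ := ∏ i, (1 : ℝ) / (b i).factorial

theorem wt_nonneg {n : ℕ} (b : Fin n → ℕ) : 0 ≤ wt b :=
  Finset.prod_nonneg fun i _ => by positivity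

theorem wt_update {n : ℕ} (b : Fin n → ℕ) (j : Fin n) (hj : 1 ≤ b j) :
    wt b * (b j : ℝ) = wt (Function.update b j (b j - 1)) := by
  unfold wt
  rw [← Finset.mul_prod_erase Finset.univ _ (Finset.mem_univ j),
    ← Finset.mul_prod_erase Finset.univ (fun i => (1 : ℝ) / (Function.update b j (b j - 1) i).factorial)
      (Finset.mem_univ j)]
  rw [Function.update_self]
  have h1 : ∏ i ∈ Finset.univ.erase j, (1 : ℝ) / (Function.update b j (b j - 1) i).factorial =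
      ∏ i ∈ Finset.univ.erase j, (1 : ℝ) / (b i).factorial := by
    refine Finset.prod_congr rfl fun i hi => ?_
    rw [Function.update_of_ne (Finset.ne_of_mem_erase hi)]
  rw [h1]
  obtain ⟨m, hm⟩ : ∃ m, b j = m + 1 := ⟨b j - 1, by omega⟩
  rw [hm, Nat.add_sub_cancel, Nat.factorial_succ]
  have : (m.factorial : ℝ) ≠ 0 := by positivity
  push_cast
  field_simp

theorem sum_update {n : ℕ} (b : Fin n → ℕ) (j : Fin n) (hj : 1 ≤ b j) :
    ∑ i, Function.update b j (b j - 1) i + 1 = ∑ i, b i := by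
  rw [← Finset.add_sum_erase Finset.univ _ (Finset.mem_univ j),
    ← Finset.add_sum_erase Finset.univ b (Finset.mem_univ j), Function.update_self]
  have h1 : ∑ i ∈ Finset.univ.erase j, Function.update b j (b j - 1) i = ∑ i ∈ Finset.univ.erase j, b i := by
    refine Finset.sum_congr rfl fun i hi => ?_
    rw [Function.update_of_ne (Finset.ne_of_mem_erase hi)]
  rw [h1]
  omega

theorem update_le {n : ℕ} (b : Fin n → ℕ) (j i : Fin n) : Function.update b j (b j - 1) i ≤ b i := by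
  by_cases h : i = j
  · subst h; rw [Function.update_self]; omega
  · rw [Function.update_of_ne h]

theorem update_inj {n : ℕ} {b c : Fin n → ℕ} {j : Fin n} (hb : 1 ≤ b j) (hc : 1 ≤ c j)
    (h : Function.update b j (b j - 1) = Function.update c j (c j - 1)) : b = c := by
  funext i
  have := congrFun h i
  by_cases hi : i = j
  · subst hi
    rw [Function.update_self, Function.update_self] at this
    omega
  · rwa [Function.update_of_ne hi, Function.update_of_ne hi] at this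

theorem sum_le_of_inj {A B : Type*} [DecidableEq B] (s : Finset A) (t : Finset B) (e : A → B)
    (he : ∀ a ∈ s, e a ∈ t) (hinj : ∀ a ∈ s, ∀ a' ∈ s, e a = e a' → a = a') (f : A → ℝ) (g : B → ℝ)
    (hfg : ∀ a ∈ s, f a ≤ g (e a)) (hg : ∀ b ∈ t, 0 ≤ g b) : ∑ a ∈ s, f a ≤ ∑ b ∈ t, g b := by
  calc ∑ a ∈ s, f a ≤ ∑ a ∈ s, g (e a) := Finset.sum_le_sum hfg
    _ = ∑ b ∈ s.image e, g b := (Finset.sum_image fun a ha a' ha' h => hinj a ha a' ha' h).symm
    _ ≤ ∑ b ∈ t, g b := Finset.sum_le_sum_of_subset_of_nonneg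
        (Finset.image_subset_iff.mpr he) fun b hb _ => hg b hb

/-- first moment of a coordinate -/
theorem park_coord (k : ℕ) (j : Fin k) : ∑ b ∈ Park k, wt b * (b j : ℝ) ≤ gw 0 k 2 := by
  rw [← vec_sum 0 2 k k (by omega)]
  rw [← Finset.sum_filter_add_sum_filter_not (Park k) (fun b => 1 ≤ b j)]
  have h0 : ∑ b ∈ (Park k).filter (fun b => ¬ 1 ≤ b j), wt b * (b j : ℝ) = 0 := by
    refine Finset.sum_eq_zero fun b hb => ?_
    have : b j = 0 := by have := (Finset.mem_filter.mp hb).2; omega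
    rw [this, Nat.cast_zero, mul_zero]
  rw [h0, add_zero]
  refine sum_le_of_inj _ _ (fun b => Function.update b j (b j - 1)) ?_ ?_ _ _ ?_ ?_
  · intro b hb
    obtain ⟨hb1, hb2⟩ := Finset.mem_filter.mp hb
    obtain ⟨hb3, hb4, hb5⟩ := Finset.mem_filter.mp hb1
    rw [Fintype.mem_piFinset] at hb3
    refine Finset.mem_filter.mpr ⟨?_, ?_, ?_⟩
    · rw [Fintype.mem_piFinset]
      intro i
      have h1 := Finset.mem_range.mp (hb3 i)
      have h2 := update_le b j i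
      exact Finset.mem_range.mpr (by omega)
    · intro l hl
      refine le_trans ?_ (hb4 l hl)
      refine Nat.succ_le_succ (Finset.sum_le_sum fun i _ => ?_)
      split_ifs
      · exact update_le b j i
      · exact le_rfl
    · have := sum_update b j hb2
      omega
  · intro b hb c hc h
    exact update_inj (Finset.mem_filter.mp hb).2 (Finset.mem_filter.mp hc).2 h
  · intro b hb
    exact (wt_update b j (Finset.mem_filter.mp hb).2).le
  · intro b _
    exact wt_nonneg b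

/- TARGET -/
/-- PL (c) -/
theorem park_size : ∃ C : ℝ, 0 < C ∧ ∀ k : ℕ, 1 ≤ k →
    ∑ b ∈ Park k, (∏ i, (1 : ℝ) / (b i).factorial) *
      (∑ j : Fin k, (b j : ℝ) * 2 ^ ((j : ℕ) + 1) / 2 ^ k)
      ≤ C * (Real.exp k / (k * Real.sqrt k)) := by
  obtain ⟨C, hC, h⟩ := gw_le
  refine ⟨4 * C, by positivity, fun k hk => ?_⟩
  have h1 : ∑ b ∈ Park k, (∏ i, (1 : ℝ) / (b i).factorial) *
      (∑ j : Fin k, (b j : ℝ) * 2 ^ ((j : ℕ) + 1) / 2 ^ k) =
      ∑ j : Fin k, (2 ^ ((j : ℕ) + 1) / 2 ^ k) * ∑ b ∈ Park k, wt b * (b j : ℝ) := by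
    simp only [Finset.mul_sum]
    rw [Finset.sum_comm]
    refine Finset.sum_congr rfl fun j _ => Finset.sum_congr rfl fun b _ => ?_
    unfold wt
    ring
  have hX : 0 ≤ gw 0 k 2 := gw_nonneg 0 k 2
  rw [h1]
  have h2 : ∑ j : Fin k, ((2 : ℝ) ^ ((j : ℕ) + 1) / 2 ^ k) * ∑ b ∈ Park k, wt b * (b j : ℝ) ≤
      ∑ j : Fin k, ((2 : ℝ) ^ ((j : ℕ) + 1) / 2 ^ k) * gw 0 k 2 :=
    Finset.sum_le_sum fun j _ => mul_le_mul_of_nonneg_left (park_coord k j) (by positivity)
  refine h2.trans ?_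
  rw [← Finset.sum_mul]
  have h3 : ∑ j : Fin k, ((2 : ℝ) ^ ((j : ℕ) + 1) / 2 ^ k) ≤ 2 := by
    rw [← Finset.sum_div, div_le_iff₀ (by positivity), Fin.sum_univ_eq_sum_range (fun j => (2 : ℝ) ^ (j + 1)) k]
    have : ∀ n : ℕ, ∑ j ∈ range n, (2 : ℝ) ^ (j + 1) = 2 * 2 ^ n - 2 := by
      intro n
      induction n with
      | zero => simp
      | succ n ih => rw [Finset.sum_range_succ, ih]; ring
    rw [this]; linarith
  have h4 := h k 2 hk
  calc (∑ j : Fin k, ((2 : ℝ) ^ ((j : ℕ) + 1) / 2 ^ k)) * gw 0 k 2 ≤ 2 * gw 0 k 2 :=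
        mul_le_mul_of_nonneg_right h3 hX
    _ ≤ 2 * (C * (2 : ℕ) * Real.exp k / (k * Real.sqrt k)) := by linarith
    _ = 4 * C * (Real.exp k / (k * Real.sqrt k)) := by push_cast; ring

/-- splitting a weighted sum at the coordinate `j` -/
theorem park_split (j N : ℕ) :
    ∑ b ∈ Park (j + 1 + N), wt b * ((b (Fin.castAdd N (Fin.last j)) : ℝ) *
      2 ^ (∑ i : Fin (j + 1), b (Fin.castAdd N i)) / 2 ^ (j + 1)) ≤
    ∑ r ∈ Icc 1 (j + 1 + N), (1 / 2 : ℝ) ^ r * (gw 0 (j + 1) (r + 1) * gw r N 1) := by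
  set k := j + 1 + N with hk
  have hR : ∀ r ∈ Icc 1 k, (1 / 2 : ℝ) ^ r * (gw 0 (j + 1) (r + 1) * gw r N 1) =
      ∑ p ∈ ((Fintype.piFinset (fun _ : Fin (j + 1) => range (2 * k + 1))).filter (fun b => PathOK 0 (r + 1) b)) ×ˢ
        ((Fintype.piFinset (fun _ : Fin N => range (2 * k + 1))).filter (fun b => PathOK r 1 b)),
        (1 / 2 : ℝ) ^ r * (wt p.1 * wt p.2) := by
    intro r hr
    have hr2 := (Finset.mem_Icc.mp hr).2
    rw [← vec_sum 0 (r + 1) (j + 1) (2 * k) (by omega), ← vec_sum r 1 N (2 * k) (by omega),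
      Finset.sum_product, Finset.sum_mul_sum, Finset.mul_sum]
    refine Finset.sum_congr rfl fun u _ => ?_
    rw [Finset.mul_sum]
    rfl
  rw [Finset.sum_congr rfl hR, ← Finset.sum_sigma (Icc 1 k)
    (fun r => ((Fintype.piFinset (fun _ : Fin (j + 1) => range (2 * k + 1))).filter (fun b => PathOK 0 (r + 1) b)) ×ˢ
        ((Fintype.piFinset (fun _ : Fin N => range (2 * k + 1))).filter (fun b => PathOK r 1 b)))
    (fun x => (1 / 2 : ℝ) ^ x.1 * (wt x.2.1 * wt x.2.2))]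
  rw [← Finset.sum_filter_add_sum_filter_not (Park k) (fun b => 1 ≤ b (Fin.castAdd N (Fin.last j)))]
  have h0 : ∑ b ∈ (Park k).filter (fun b => ¬ 1 ≤ b (Fin.castAdd N (Fin.last j))),
      wt b * ((b (Fin.castAdd N (Fin.last j)) : ℝ) *
      2 ^ (∑ i : Fin (j + 1), b (Fin.castAdd N i)) / 2 ^ (j + 1)) = 0 := by
    refine Finset.sum_eq_zero fun b hb => ?_
    have : b (Fin.castAdd N (Fin.last j)) = 0 := by have := (Finset.mem_filter.mp hb).2; omega
    rw [this, Nat.cast_zero, zero_mul, zero_div, mul_zero]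
  rw [h0, add_zero]
  -- facts on a member
  have facts : ∀ b ∈ (Park k).filter (fun b => 1 ≤ b (Fin.castAdd N (Fin.last j))),
      (∀ i, b i ≤ k) ∧ 1 ≤ b (Fin.castAdd N (Fin.last j)) ∧
      (∀ l ∈ Icc 1 (j + 1), (∑ i : Fin (j + 1), if (i : ℕ) < l then b (Fin.castAdd N i) else 0) + 1 ≤ l) ∧
      (∀ l ∈ Icc 1 N, (∑ i : Fin (j + 1), b (Fin.castAdd N i)) +
        (∑ i : Fin N, if (i : ℕ) < l then b (Fin.natAdd (j + 1) i) else 0) + 1 ≤ j + 1 + l) ∧
      (∑ i : Fin (j + 1), b (Fin.castAdd N i)) + (∑ i : Fin N, b (Fin.natAdd (j + 1) i)) + 1 = j + 1 + N := by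
    intro b hb
    obtain ⟨hb1, hb2⟩ := Finset.mem_filter.mp hb
    obtain ⟨hb3, hb4, hb5⟩ := Finset.mem_filter.mp hb1
    rw [Fintype.mem_piFinset] at hb3
    refine ⟨fun i => Nat.lt_succ_iff.mp (Finset.mem_range.mp (hb3 i)), hb2, ?_, ?_, ?_⟩
    · intro l hl
      rw [Finset.mem_Icc] at hl
      have h1 := hb4 l (Finset.mem_Icc.mpr ⟨hl.1, by omega⟩)
      rw [Fin.sum_univ_add] at h1
      have h2 : ∑ i : Fin N, (if ((Fin.natAdd (j + 1) i : Fin (j + 1 + N)) : ℕ) < l then b (Fin.natAdd (j + 1) i) else 0) = 0 := by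
        refine Finset.sum_eq_zero fun i _ => ?_
        rw [if_neg]
        rw [Fin.val_natAdd]; omega
      rw [h2, add_zero, zero_add] at h1
      exact h1
    · intro l hl
      rw [Finset.mem_Icc] at hl
      have h1 := hb4 (j + 1 + l) (Finset.mem_Icc.mpr ⟨by omega, by omega⟩)
      rw [Fin.sum_univ_add, zero_add] at h1
      have h2 : ∑ i : Fin (j + 1), (if ((Fin.castAdd N i : Fin (j + 1 + N)) : ℕ) < j + 1 + l then b (Fin.castAdd N i) else 0) =
          ∑ i : Fin (j + 1), b (Fin.castAdd N i) := by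
        refine Finset.sum_congr rfl fun i _ => ?_
        rw [if_pos]
        rw [Fin.val_castAdd]; omega
      have h3 : ∑ i : Fin N, (if ((Fin.natAdd (j + 1) i : Fin (j + 1 + N)) : ℕ) < j + 1 + l then b (Fin.natAdd (j + 1) i) else 0) =
          ∑ i : Fin N, (if (i : ℕ) < l then b (Fin.natAdd (j + 1) i) else 0) := by
        refine Finset.sum_congr rfl fun i _ => ?_
        rw [Fin.val_natAdd]
        by_cases hi : (i : ℕ) < l
        · rw [if_pos hi, if_pos (by omega)]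
        · rw [if_neg hi, if_neg (by omega)]
      rw [h2, h3] at h1
      exact h1
    · rw [Fin.sum_univ_add, zero_add] at hb5
      exact hb5
  have hB1 : ∀ b ∈ (Park k).filter (fun b => 1 ≤ b (Fin.castAdd N (Fin.last j))),
      (∑ i : Fin (j + 1), b (Fin.castAdd N i)) + 1 ≤ j + 1 := by
    intro b hb
    have h1 := (facts b hb).2.2.1 (j + 1) (Finset.mem_Icc.mpr ⟨by omega, le_rfl⟩)
    have h2 : ∑ i : Fin (j + 1), (if (i : ℕ) < j + 1 then b (Fin.castAdd N i) else 0) =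
        ∑ i : Fin (j + 1), b (Fin.castAdd N i) :=
      Finset.sum_congr rfl fun i _ => if_pos i.2
    rwa [h2] at h1
  refine sum_le_of_inj _ _ (fun b => (⟨j + 1 - ∑ i : Fin (j + 1), b (Fin.castAdd N i),
    (Function.update (fun i => b (Fin.castAdd N i)) (Fin.last j) (b (Fin.castAdd N (Fin.last j)) - 1),
      fun i => b (Fin.natAdd (j + 1) i))⟩ : Σ _ : ℕ, (Fin (j + 1) → ℕ) × (Fin N → ℕ))) ?_ ?_ _ _ ?_ ?_
  · intro b hb
    obtain ⟨f1, f2, f3, f4, f5⟩ := facts b hb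
    have f6 := hB1 b hb
    have f7 := sum_update (fun i => b (Fin.castAdd N i)) (Fin.last j) f2
    simp only [Finset.mem_sigma, Finset.mem_product, Finset.mem_filter, Fintype.mem_piFinset,
      Finset.mem_range, Finset.mem_Icc]
    refine ⟨⟨by omega, by omega⟩, ⟨?_, ?_, ?_⟩, ?_, ?_, ?_⟩
    · intro i
      have h1 := update_le (fun i => b (Fin.castAdd N i)) (Fin.last j) i
      have h2 := f1 (Fin.castAdd N i)
      omega
    · intro l hl
      rw [zero_add]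
      refine le_trans (Nat.succ_le_succ (Finset.sum_le_sum fun i _ => ?_)) (f3 l hl)
      split_ifs
      · exact update_le (fun i => b (Fin.castAdd N i)) (Fin.last j) i
      · exact le_rfl
    · omega
    · intro i
      have h2 := f1 (Fin.natAdd (j + 1) i)
      omega
    · intro l hl
      have h1 := f4 l hl
      show (∑ i : Fin N, if (i : ℕ) < l then b (Fin.natAdd (j + 1) i) else 0) + 1 ≤
        (j + 1 - ∑ i : Fin (j + 1), b (Fin.castAdd N i)) + l
      omega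
    · show (∑ i : Fin N, b (Fin.natAdd (j + 1) i)) + 1 = (j + 1 - ∑ i : Fin (j + 1), b (Fin.castAdd N i)) + N
      omega
  · intro b hb c hc h
    have h1 := (Sigma.mk.inj_iff.mp h).2
    rw [heq_iff_eq, Prod.mk.injEq] at h1
    have h2 := update_inj (b := fun i => b (Fin.castAdd N i)) (c := fun i => c (Fin.castAdd N i))
      (facts b hb).2.1 (facts c hc).2.1 h1.1
    funext i
    refine Fin.addCases (fun i => ?_) (fun i => ?_) i
    · exact congrFun h2 i
    · exact congrFun h1.2 i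
  · intro b hb
    obtain ⟨f1, f2, f3, f4, f5⟩ := facts b hb
    have f6 := hB1 b hb
    simp only
    have h1 : wt b = wt (fun i => b (Fin.castAdd N i)) * wt (fun i => b (Fin.natAdd (j + 1) i)) := by
      unfold wt
      rw [Fin.prod_univ_add]
    have h2 := wt_update (fun i => b (Fin.castAdd N i)) (Fin.last j) f2
    rw [← h2, h1]
    have h3 : (2 : ℝ) ^ (∑ i : Fin (j + 1), b (Fin.castAdd N i)) / 2 ^ (j + 1) =
        (1 / 2) ^ (j + 1 - ∑ i : Fin (j + 1), b (Fin.castAdd N i)) := by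
      set B := ∑ i : Fin (j + 1), b (Fin.castAdd N i) with hB
      obtain ⟨m, hm⟩ : ∃ m, j + 1 = B + m := ⟨j + 1 - B, by omega⟩
      rw [hm, Nat.add_sub_cancel_left, pow_add, one_div, inv_pow]
      field_simp
    rw [← h3]
    apply le_of_eq
    ring
  · intro x _
    have := wt_nonneg x.2.1
    have := wt_nonneg x.2.2
    positivity

theorem park_split' (k j N : ℕ) (hk : k = j + 1 + N) (jj : Fin k) (hjj : (jj : ℕ) = j) :
    ∑ b ∈ Park k, wt b * ((b jj : ℝ) *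
      2 ^ (∑ i : Fin k, if i ≤ jj then b i else 0) / 2 ^ ((jj : ℕ) + 1)) ≤
    ∑ r ∈ Icc 1 k, (1 / 2 : ℝ) ^ r * (gw 0 (j + 1) (r + 1) * gw r N 1) := by
  subst hk
  have h1 : jj = Fin.castAdd N (Fin.last j) := by
    apply Fin.ext
    rw [hjj]; simp
  subst h1
  refine le_trans (le_of_eq ?_) (park_split j N)
  refine Finset.sum_congr rfl fun b _ => ?_
  have h2 : (∑ i : Fin (j + 1 + N), if i ≤ Fin.castAdd N (Fin.last j) then b i else 0) =
      ∑ i : Fin (j + 1), b (Fin.castAdd N i) := by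
    rw [Fin.sum_univ_add]
    have h3 : ∑ i : Fin N, (if (Fin.natAdd (j + 1) i) ≤ Fin.castAdd N (Fin.last j) then b (Fin.natAdd (j + 1) i) else 0) = 0 := by
      refine Finset.sum_eq_zero fun i _ => ?_
      rw [if_neg]
      rw [Fin.le_def, Fin.val_natAdd, Fin.val_castAdd, Fin.val_last]; omega
    rw [h3, add_zero]
    refine Finset.sum_congr rfl fun i _ => ?_
    rw [if_pos]
    rw [Fin.le_def, Fin.val_castAdd, Fin.val_castAdd, Fin.val_last]; omega
  rw [h2]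
  simp

/- TARGET -/
/-- PL (b) -/
theorem park_second : ∃ C : ℝ, 0 < C ∧ ∀ k : ℕ, 1 ≤ k →
    ∑ b ∈ Park k, (∏ i, (1 : ℝ) / (b i).factorial) *
      (∑ j : Fin k, (b j : ℝ) * 2 ^ (∑ i : Fin k, if i ≤ j then b i else 0) / 2 ^ ((j : ℕ) + 1))
      ≤ C * (Real.exp k / (k * Real.sqrt k)) := by
  obtain ⟨C₁, hC₁, h₁⟩ := gw_le
  obtain ⟨C₂, hC₂, h₂⟩ := gw_lift
  obtain ⟨C₃, hC₃, h₃⟩ := conv_bound
  have he : Real.exp 1 / 4 < 1 := by
    have := Real.exp_one_lt_d9
    linarith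
  have he0 : 0 ≤ Real.exp 1 / 4 := by positivity
  have hS : Summable fun r : ℕ => ((r : ℝ) * (r + 1)) * (Real.exp 1 / 4) ^ r := by
    have s1 := summable_pow_mul_geometric_of_norm_lt_one 1 (r := Real.exp 1 / 4)
      (by rw [Real.norm_eq_abs, abs_of_nonneg he0]; exact he)
    have s2 := summable_pow_mul_geometric_of_norm_lt_one 2 (r := Real.exp 1 / 4)
      (by rw [Real.norm_eq_abs, abs_of_nonneg he0]; exact he)
    refine (s2.add s1).congr fun r => ?_
    ring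
  set S := ∑' r : ℕ, ((r : ℝ) * (r + 1)) * (Real.exp 1 / 4) ^ r with hSdef
  have hS0 : 0 ≤ S := tsum_nonneg fun r => by positivity
  refine ⟨C₁ * C₂ * (S + 1) * C₃, by positivity, fun k hk => ?_⟩
  obtain ⟨J, rfl⟩ : ∃ J, k = J + 1 := ⟨k - 1, by omega⟩
  -- the bound for one coordinate
  have one : ∀ j : Fin (J + 1), ∑ b ∈ Park (J + 1), wt b * ((b j : ℝ) *
      2 ^ (∑ i : Fin (J + 1), if i ≤ j then b i else 0) / 2 ^ ((j : ℕ) + 1)) ≤
      C₁ * C₂ * S * Real.exp ((J + 1 : ℕ) : ℝ) * (1 / ((((j : ℕ) : ℝ) + 1) * Real.sqrt (((j : ℕ) : ℝ) + 1)) *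
        (1 / ((((J - (j : ℕ) : ℕ) : ℝ) + 1) * Real.sqrt (((J - (j : ℕ) : ℕ) : ℝ) + 1)))) := by
    intro jj
    obtain ⟨j, hj⟩ : ∃ j : ℕ, (jj : ℕ) = j := ⟨_, rfl⟩
    have hjJ : j ≤ J := by rw [← hj]; exact Nat.lt_succ_iff.mp jj.2
    obtain ⟨N, hN⟩ : ∃ N, J = j + N := ⟨J - j, by omega⟩
    refine (park_split' (J + 1) j N (by omega) jj hj).trans ?_
    rw [hj, show J - j = N by omega]
    have hterm : ∀ r ∈ Icc 1 (J + 1), (1 / 2 : ℝ) ^ r * (gw 0 (j + 1) (r + 1) * gw r N 1) ≤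
        (C₁ * C₂ * Real.exp ((J + 1 : ℕ) : ℝ) * (1 / (((j : ℝ) + 1) * Real.sqrt ((j : ℝ) + 1)) *
        (1 / (((N : ℝ) + 1) * Real.sqrt ((N : ℝ) + 1))))) * (((r : ℝ) * (r + 1)) * (Real.exp 1 / 4) ^ r) := by
      intro r hr
      have g1 := h₁ (j + 1) (r + 1) (by omega)
      have g2 := h₂ r N 1 (Finset.mem_Icc.mp hr).1
      have n1 := gw_nonneg 0 (j + 1) (r + 1)
      have n2 := gw_nonneg r N 1
      have g3 : gw 0 (j + 1) (r + 1) * gw r N 1 ≤
          (C₁ * ((r + 1 : ℕ) : ℝ) * Real.exp ((j + 1 : ℕ) : ℝ) / (((j + 1 : ℕ) : ℝ) * Real.sqrt ((j + 1 : ℕ) : ℝ))) *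
          (C₂ * (r * (Real.exp 1 / 2) ^ r) * (((1 : ℕ) : ℝ) * Real.exp N / (((N : ℝ) + 1) * Real.sqrt ((N : ℝ) + 1)))) :=
        mul_le_mul g1 g2 n2 (n1.trans g1)
      refine (mul_le_mul_of_nonneg_left g3 (by positivity)).trans (le_of_eq ?_)
      have x1 : Real.exp ((J + 1 : ℕ) : ℝ) = Real.exp ((j + 1 : ℕ) : ℝ) * Real.exp N := by
        rw [← Real.exp_add, hN]
        congr 1
        push_cast; ring
      have x2 : (Real.exp 1 / 4) ^ r = (1 / 2) ^ r * (Real.exp 1 / 2) ^ r := by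
        rw [← mul_pow]; congr 1; ring
      rw [x1, x2]
      push_cast
      ring
    refine (Finset.sum_le_sum hterm).trans ?_
    rw [← Finset.mul_sum]
    have hsum : ∑ r ∈ Icc 1 (J + 1), ((r : ℝ) * (r + 1)) * (Real.exp 1 / 4) ^ r ≤ S :=
      hS.sum_le_tsum _ fun r _ => by positivity
    refine (mul_le_mul_of_nonneg_left hsum (by positivity)).trans (le_of_eq ?_)
    ring
  have h1 : ∑ b ∈ Park (J + 1), (∏ i, (1 : ℝ) / (b i).factorial) *
      (∑ j : Fin (J + 1), (b j : ℝ) * 2 ^ (∑ i : Fin (J + 1), if i ≤ j then b i else 0) / 2 ^ ((j : ℕ) + 1)) =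
      ∑ j : Fin (J + 1), ∑ b ∈ Park (J + 1), wt b * ((b j : ℝ) *
      2 ^ (∑ i : Fin (J + 1), if i ≤ j then b i else 0) / 2 ^ ((j : ℕ) + 1)) := by
    rw [Finset.sum_comm]
    refine Finset.sum_congr rfl fun b _ => ?_
    rw [Finset.mul_sum]
    rfl
  rw [h1]
  refine (Finset.sum_le_sum fun j _ => one j).trans ?_
  rw [← Finset.mul_sum, Fin.sum_univ_eq_sum_range (fun j : ℕ => 1 / (((j : ℝ) + 1) * Real.sqrt ((j : ℝ) + 1)) *
    (1 / ((((J - j : ℕ) : ℝ) + 1) * Real.sqrt (((J - j : ℕ) : ℝ) + 1)))) (J + 1)]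
  have h4 := h₃ J
  have h5 : C₁ * C₂ * S * Real.exp ((J + 1 : ℕ) : ℝ) ≤ C₁ * C₂ * (S + 1) * Real.exp ((J + 1 : ℕ) : ℝ) := by
    gcongr
    linarith
  refine (mul_le_mul h5 h4 (Finset.sum_nonneg fun j _ => by positivity) (by positivity)).trans (le_of_eq ?_)
  push_cast
  ring

end Pool.Agent.Helper112.LP.Kpk

namespace Pool.Agent.Helper112.LP

/-- PL (b) -/
theorem park_second : ∃ C : ℝ, 0 < C ∧ ∀ k : ℕ, 1 ≤ k →
    ∑ b ∈ Park k, (∏ i, (1 : ℝ) / (b i).factorial) *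
      (∑ j : Fin k, (b j : ℝ) * 2 ^ (∑ i : Fin k, if i ≤ j then b i else 0) / 2 ^ ((j : ℕ) + 1))
      ≤ C * (Real.exp k / (k * Real.sqrt k)) := by
  first
    | exact Kpk.park_second
    | (apply Kpk.park_second <;> assumption)

/-- PL (c) -/
theorem park_size : ∃ C : ℝ, 0 < C ∧ ∀ k : ℕ, 1 ≤ k →
    ∑ b ∈ Park k, (∏ i, (1 : ℝ) / (b i).factorial) *
      (∑ j : Fin k, (b j : ℝ) * 2 ^ ((j : ℕ) + 1) / 2 ^ k)
      ≤ C * (Real.exp k / (k * Real.sqrt k)) := by
  first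
    | exact Kpk.park_size
    | (apply Kpk.park_size <;> assumption)

end Pool.Agent.Helper112.LP
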