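import Pool.Agent.Helper112.Lp.Defs
import Pool.Agent.Helper112.Lp.MertensLog

open Finset

namespace Pool.Agent.Helper112.LP.Kmg

/-- Abel summation with a decreasing weight -/
theorem abel_bound (g e : ℕ → ℝ) (X Y : ℕ) (hXY : X ≤ Y) (C0 : ℝ) (hX : 1 ≤ X)
    (hg : ∀ n, X ≤ n → g (n + 1) ≤ g n) (hg0 : ∀ n, X ≤ n → 0 ≤ g n)
    (he : ∀ n, 1 ≤ n + 1 → X ≤ n + 1 → |e n| ≤ C0) :
    |∑ n ∈ Ico X Y, g n * (e n - e (n - 1))| ≤ 2 * C0 * g X := by
  have hid : ∀ Y, X ≤ Y → ∑ n ∈ Ico X Y, g n * (e n - e (n - 1)) =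
      g Y * e (Y - 1) - g X * e (X - 1) + ∑ n ∈ Ico X Y, (g n - g (n + 1)) * e n := by
    intro Y hY
    induction Y, hY using Nat.le_induction with
    | base => simp
    | succ Y hY ih =>
      rw [Finset.sum_Ico_succ_top hY, Finset.sum_Ico_succ_top hY, ih, Nat.add_sub_cancel]
      ring
  have htel : ∀ Y, X ≤ Y → ∑ n ∈ Ico X Y, (g n - g (n + 1)) = g X - g Y := by
    intro Y hY
    induction Y, hY using Nat.le_induction with
    | base => simp
    | succ Y hY ih => rw [Finset.sum_Ico_succ_top hY, ih]; ring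
  rw [hid Y hXY]
  have h1 : |∑ n ∈ Ico X Y, (g n - g (n + 1)) * e n| ≤ C0 * (g X - g Y) := by
    rw [← htel Y hXY, Finset.mul_sum]
    refine (Finset.abs_sum_le_sum_abs _ _).trans (Finset.sum_le_sum fun n hn => ?_)
    rw [Finset.mem_Ico] at hn
    rw [abs_mul, abs_of_nonneg (sub_nonneg.2 (hg n hn.1)), mul_comm]
    exact mul_le_mul_of_nonneg_right (he n (by omega) (by omega)) (sub_nonneg.2 (hg n hn.1))
  have h2 : |g Y * e (Y - 1)| ≤ C0 * g Y := by
    rw [abs_mul, abs_of_nonneg (hg0 Y hXY), mul_comm]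
    exact mul_le_mul_of_nonneg_right (he (Y - 1) (by omega) (by omega)) (hg0 Y hXY)
  have h3 : |g X * e (X - 1)| ≤ C0 * g X := by
    rw [abs_mul, abs_of_nonneg (hg0 X le_rfl), mul_comm]
    exact mul_le_mul_of_nonneg_right (he (X - 1) (by omega) (by omega)) (hg0 X le_rfl)
  have h4 := abs_add_le (g Y * e (Y - 1) - g X * e (X - 1)) (∑ n ∈ Ico X Y, (g n - g (n + 1)) * e n)
  have h5 := abs_sub (g Y * e (Y - 1)) (g X * e (X - 1))
  linarith

theorem log_one_add_ge (t : ℝ) (ht0 : 0 < t) : t - t ^ 2 ≤ Real.log (1 + t) := by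
  have h := Real.log_le_sub_one_of_pos (x := (1 + t)⁻¹) (by positivity)
  rw [Real.log_inv] at h
  have h2 : 1 - t + t ^ 2 ≥ (1 + t)⁻¹ := by
    rw [ge_iff_le, inv_le_iff_one_le_mul₀ (by linarith)]
    nlinarith [pow_pos ht0 3]
  linarith

/-- the local comparison of `(log n - log (n-1)) / log n` with `log log (n+1) - log log n` -/
theorem local_cmp (n : ℕ) (hn : 2 ≤ n) :
    |(Real.log n - Real.log ((n - 1 : ℕ) : ℝ)) / Real.log n -
      (Real.log (Real.log ((n + 1 : ℕ) : ℝ)) - Real.log (Real.log n))| ≤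
      8 * (1 / (((n - 1 : ℕ) : ℝ)) - 1 / (n : ℝ)) := by
  obtain ⟨m, rfl⟩ : ∃ m, n = m + 2 := ⟨n - 2, by omega⟩
  have hm : (0 : ℝ) ≤ m := Nat.cast_nonneg m
  have e1 : ((m + 2 - 1 : ℕ) : ℝ) = m + 1 := by
    rw [show m + 2 - 1 = m + 1 by omega]; push_cast; ring
  have e2 : ((m + 2 : ℕ) : ℝ) = m + 2 := by push_cast; ring
  have e3 : ((m + 2 + 1 : ℕ) : ℝ) = m + 3 := by push_cast; ring
  rw [e1, e2, e3]
  set x : ℝ := m + 2 with hx
  have hx2 : 2 ≤ x := by linarith
  have f1 : (m : ℝ) + 1 = x - 1 := by rw [hx]; ring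
  have f3 : (m : ℝ) + 3 = x + 1 := by rw [hx]; ring
  rw [f1, f3]
  have hL : 1 / 2 < Real.log x := by
    have h1 : Real.log 2 ≤ Real.log x := Real.log_le_log (by norm_num) hx2
    have h2 := Real.log_two_gt_d9
    linarith
  set L := Real.log x with hLdef
  have hLpos : 0 < L := by linarith
  -- u and v
  have hu1 : Real.log x - Real.log (x - 1) ≤ 1 / (x - 1) := by
    rw [← Real.log_div (by linarith) (by linarith)]
    have h := Real.log_le_sub_one_of_pos (x := x / (x - 1)) (div_pos (by linarith) (by linarith))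
    have h2 : x / (x - 1) - 1 = 1 / (x - 1) := by
      have : x - 1 ≠ 0 := by linarith
      field_simp
      ring
    linarith
  have hu2 : 1 / x ≤ Real.log x - Real.log (x - 1) := by
    have h := Real.log_le_sub_one_of_pos (x := (x - 1) / x) (div_pos (by linarith) (by linarith))
    rw [Real.log_div (by linarith) (by linarith)] at h
    have h2 : (x - 1) / x - 1 = - (1 / x) := by
      have : x ≠ 0 := by linarith
      field_simp
      ring
    linarith
  have hv1 : Real.log (x + 1) - Real.log x ≤ 1 / x := by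
    rw [← Real.log_div (by linarith) (by linarith)]
    have h := Real.log_le_sub_one_of_pos (x := (x + 1) / x) (div_pos (by linarith) (by linarith))
    have h2 : (x + 1) / x - 1 = 1 / x := by
      have : x ≠ 0 := by linarith
      field_simp
      ring
    linarith
  have hv2 : 1 / (x + 1) ≤ Real.log (x + 1) - Real.log x := by
    have h := Real.log_le_sub_one_of_pos (x := x / (x + 1)) (div_pos (by linarith) (by linarith))
    rw [Real.log_div (by linarith) (by linarith)] at h
    have h2 : x / (x + 1) - 1 = - (1 / (x + 1)) := by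
      have : x + 1 ≠ 0 := by linarith
      field_simp
      ring
    linarith
  set u := Real.log x - Real.log (x - 1) with hu
  set v := Real.log (x + 1) - Real.log x with hv
  have hv0 : 0 < v := lt_of_lt_of_le (by positivity) hv2
  have hlog : Real.log (Real.log (x + 1)) - Real.log L = Real.log (1 + v / L) := by
    rw [← Real.log_div (by linarith) (by linarith)]
    congr 1
    have : Real.log (x + 1) = L + v := by rw [hv]; ring
    rw [this]
    field_simp
  rw [hlog]
  set t := v / L with ht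
  have ht0 : 0 < t := div_pos hv0 hLpos
  have htx : t ≤ 2 / x := by
    rw [ht, div_le_iff₀ hLpos]
    have h1 : 1 / x ≤ 2 / x * L := by
      have hxpos : 0 < x := by linarith
      rw [div_mul_eq_mul_div, div_le_div_iff_of_pos_right hxpos]
      linarith
    linarith
  have hl1 : Real.log (1 + t) ≤ t := by
    have := Real.log_le_sub_one_of_pos (x := 1 + t) (by linarith)
    linarith
  have hl2 : t - t ^ 2 ≤ Real.log (1 + t) := log_one_add_ge t ht0
  -- main estimate
  have huv0 : 0 ≤ u / L - t := by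
    rw [ht, ← sub_div]
    exact div_nonneg (by linarith) hLpos.le
  have huv : u / L - t ≤ 2 * (1 / (x - 1) - 1 / (x + 1)) := by
    rw [ht, ← sub_div, div_le_iff₀ hLpos]
    have h1 : u - v ≤ 1 / (x - 1) - 1 / (x + 1) := by linarith
    have h2 : 0 ≤ 1 / (x - 1) - 1 / (x + 1) := by linarith
    have h3 : 0 ≤ (1 / (x - 1) - 1 / (x + 1)) * (2 * L - 1) := mul_nonneg h2 (by linarith)
    linarith
  have hden : 1 / (x - 1) - 1 / (x + 1) ≤ 2 * (1 / (x - 1) - 1 / x) := by
    have hp1 : 0 < x - 1 := by linarith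
    have hp2 : 0 < x := by linarith
    have hp3 : 0 < x + 1 := by linarith
    have g1 : 1 / (x - 1) - 1 / (x + 1) = 2 / ((x - 1) * (x + 1)) := by field_simp; ring
    have g2 : 2 * (1 / (x - 1) - 1 / x) = 2 / ((x - 1) * x) := by field_simp; ring
    rw [g1, g2]
    exact div_le_div_of_nonneg_left (by norm_num) (mul_pos hp1 hp2)
      (mul_le_mul_of_nonneg_left (by linarith) hp1.le)
  have hsq : t ^ 2 ≤ 4 * (1 / (x - 1) - 1 / x) := by
    have hp1 : 0 < x - 1 := by linarith
    have hp2 : 0 < x := by linarith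
    have g2 : 4 * (1 / (x - 1) - 1 / x) = 4 / ((x - 1) * x) := by field_simp; ring
    rw [g2]
    calc t ^ 2 ≤ (2 / x) ^ 2 := by gcongr
      _ = 4 / (x * x) := by field_simp; norm_num
      _ ≤ 4 / ((x - 1) * x) := by
          exact div_le_div_of_nonneg_left (by norm_num) (mul_pos hp1 hp2)
            (mul_le_mul_of_nonneg_right (by linarith) hp2.le)
  have hd0 : 0 ≤ 1 / (x - 1) - 1 / x := by
    have hp1 : 0 < x - 1 := by linarith
    have h1 : 1 / x ≤ 1 / (x - 1) := one_div_le_one_div_of_le hp1 (by linarith)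
    linarith
  rw [abs_le]
  constructor
  · linarith
  · linarith

/- TARGET -/
/-- the reciprocals of the primes of a group add up to almost `log 2` -/
theorem mertens_group : ∃ C : ℝ, 0 < C ∧ ∀ j : ℕ, 1 ≤ j →
    |∑ l ∈ Gj j, (1 : ℝ) / l - Real.log 2| ≤ C / 2 ^ j := by
  obtain ⟨C0, hC0, hM⟩ := mertens_log
  refine ⟨8 * C0 + 16, by positivity, fun j hj => ?_⟩
  set X : ℕ := 2 ^ 2 ^ (j - 1) with hX
  set Y : ℕ := 2 ^ 2 ^ j with hY
  have hX2 : 2 ≤ X := by
    rw [hX]
    calc 2 = 2 ^ 1 := by norm_num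
      _ ≤ 2 ^ 2 ^ (j - 1) := Nat.pow_le_pow_right (by norm_num) (Nat.one_le_two_pow)
  have hXY : X ≤ Y := by
    rw [hX, hY]
    exact Nat.pow_le_pow_right (by norm_num) (Nat.pow_le_pow_right (by norm_num) (by omega))
  -- the functions
  let A : ℕ → ℝ := fun N => ∑ q ∈ (Icc 1 N).filter Nat.Prime, Real.log q / q
  let g : ℕ → ℝ := fun n => 1 / Real.log n
  let e : ℕ → ℝ := fun n => A n - Real.log n
  have hA : ∀ m : ℕ, A (m + 1) = A m + (if (m + 1).Prime then Real.log ((m + 1 : ℕ) : ℝ) / ((m + 1 : ℕ) : ℝ) else 0) := by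
    intro m
    simp only [A, Finset.sum_filter]
    rw [Finset.sum_Icc_succ_top (by omega)]
  have hlogpos : ∀ n : ℕ, 2 ≤ n → 0 < Real.log n := by
    intro n hn
    apply Real.log_pos
    exact_mod_cast hn
  have hsum : ∑ l ∈ Gj j, (1 : ℝ) / l = ∑ n ∈ Ico X Y, (g n * (Real.log n - Real.log ((n - 1 : ℕ) : ℝ)) +
      g n * (e n - e (n - 1))) := by
    unfold Gj
    rw [Finset.sum_filter]
    refine Finset.sum_congr rfl fun n hn => ?_
    rw [Finset.mem_Ico] at hn
    obtain ⟨m, rfl⟩ : ∃ m, n = m + 1 := ⟨n - 1, by omega⟩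
    have hpos := hlogpos (m + 1) (by omega)
    simp only [e, g, hA m, Nat.add_sub_cancel]
    by_cases hp : (m + 1).Prime
    · rw [if_pos hp, if_pos hp]
      field_simp
      ring
    · rw [if_neg hp, if_neg hp]
      ring
  have hab := abel_bound g e X Y hXY C0 (by omega)
    (fun n hn => by
      simp only [g]
      apply one_div_le_one_div_of_le (hlogpos n (by omega))
      apply Real.log_le_log
      · have : (2 : ℝ) ≤ n := by exact_mod_cast (by omega : 2 ≤ n)
        linarith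
      · push_cast; linarith)
    (fun n hn => by
      simp only [g]
      exact (one_div_pos.2 (hlogpos n (by omega))).le)
    (fun n _ hn => by
      simp only [e]
      exact hM n (by omega))
  have hloc : |∑ n ∈ Ico X Y, (g n * (Real.log n - Real.log ((n - 1 : ℕ) : ℝ)) -
      (Real.log (Real.log ((n + 1 : ℕ) : ℝ)) - Real.log (Real.log n)))| ≤ 8 / ((X - 1 : ℕ) : ℝ) := by
    have htel : ∀ Y, X ≤ Y → ∑ n ∈ Ico X Y, 8 * (1 / (((n - 1 : ℕ) : ℝ)) - 1 / (n : ℝ)) =
        8 * (1 / ((X - 1 : ℕ) : ℝ) - 1 / ((Y - 1 : ℕ) : ℝ)) := by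
      intro Y hY
      induction Y, hY using Nat.le_induction with
      | base => simp
      | succ Y hY ih => rw [Finset.sum_Ico_succ_top hY, ih, Nat.add_sub_cancel]; ring
    calc _ ≤ ∑ n ∈ Ico X Y, |g n * (Real.log n - Real.log ((n - 1 : ℕ) : ℝ)) -
          (Real.log (Real.log ((n + 1 : ℕ) : ℝ)) - Real.log (Real.log n))| :=
            Finset.abs_sum_le_sum_abs _ _
      _ ≤ ∑ n ∈ Ico X Y, 8 * (1 / (((n - 1 : ℕ) : ℝ)) - 1 / (n : ℝ)) := by
            refine Finset.sum_le_sum fun n hn => ?_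
            rw [Finset.mem_Ico] at hn
            have h := local_cmp n (by omega)
            have hg : g n * (Real.log n - Real.log ((n - 1 : ℕ) : ℝ)) =
                (Real.log n - Real.log ((n - 1 : ℕ) : ℝ)) / Real.log n := by
              simp only [g]; ring
            rw [hg]
            exact h
      _ ≤ 8 / ((X - 1 : ℕ) : ℝ) := by
            rw [htel Y hXY]
            have : 0 ≤ 1 / ((Y - 1 : ℕ) : ℝ) := by positivity
            have h8 : 8 / ((X - 1 : ℕ) : ℝ) = 8 * (1 / ((X - 1 : ℕ) : ℝ)) := by ring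
            rw [h8]
            linarith
  have htel2 : ∀ Y, X ≤ Y → ∑ n ∈ Ico X Y, (Real.log (Real.log ((n + 1 : ℕ) : ℝ)) - Real.log (Real.log n)) =
      Real.log (Real.log Y) - Real.log (Real.log X) := by
    intro Y hY
    induction Y, hY using Nat.le_induction with
    | base => simp
    | succ Y hY ih => rw [Finset.sum_Ico_succ_top hY, ih]; ring
  have hlogX : Real.log (X : ℝ) = 2 ^ (j - 1) * Real.log 2 := by
    rw [hX]; push_cast
    rw [Real.log_pow]; push_cast; ring
  have hlogY : Real.log (Y : ℝ) = 2 * (2 ^ (j - 1) * Real.log 2) := by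
    rw [hY]; push_cast
    rw [Real.log_pow]
    have : (2 : ℝ) ^ j = 2 * 2 ^ (j - 1) := by
      rw [← pow_succ']
      congr 1
      omega
    push_cast
    rw [this]
    ring
  have hl2 : 0 < Real.log 2 := Real.log_pos (by norm_num)
  have hll : Real.log (Real.log Y) - Real.log (Real.log X) = Real.log 2 := by
    rw [hlogX, hlogY]
    have hp : 0 < (2 : ℝ) ^ (j - 1) * Real.log 2 := by positivity
    rw [Real.log_mul (by norm_num) hp.ne']
    ring
  have hfin : ∑ l ∈ Gj j, (1 : ℝ) / l - Real.log 2 =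
      (∑ n ∈ Ico X Y, (g n * (Real.log n - Real.log ((n - 1 : ℕ) : ℝ)) -
      (Real.log (Real.log ((n + 1 : ℕ) : ℝ)) - Real.log (Real.log n)))) +
      ∑ n ∈ Ico X Y, g n * (e n - e (n - 1)) := by
    rw [hsum, Finset.sum_add_distrib, Finset.sum_sub_distrib, htel2 Y hXY, hll]
    ring
  rw [hfin]
  refine (abs_add_le _ _).trans ?_
  have hX1 : (2 : ℝ) ^ (j - 1) ≤ ((X - 1 : ℕ) : ℝ) := by
    have h1 : 2 ^ (j - 1) + 1 ≤ X := by
      rw [hX]
      exact Nat.lt_two_pow_self
    have h2 : 2 ^ (j - 1) ≤ X - 1 := by omega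
    exact_mod_cast h2
  have hjj : (2 : ℝ) ^ j = 2 * 2 ^ (j - 1) := by
    rw [← pow_succ']
    congr 1
    omega
  have hp : 0 < (2 : ℝ) ^ (j - 1) := by positivity
  have hb1 : 8 / ((X - 1 : ℕ) : ℝ) ≤ 16 / 2 ^ j := by
    rw [hjj]
    calc 8 / ((X - 1 : ℕ) : ℝ) ≤ 8 / 2 ^ (j - 1) := div_le_div_of_nonneg_left (by norm_num) hp hX1
      _ = 16 / (2 * 2 ^ (j - 1)) := by field_simp; norm_num
  have hb2 : 2 * C0 * g X ≤ 8 * C0 / 2 ^ j := by
    simp only [g]
    rw [hlogX, hjj]
    have h2 := Real.log_two_gt_d9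
    rw [mul_one_div, div_le_div_iff₀ (by positivity) (by positivity)]
    have : 2 * C0 * (2 * 2 ^ (j - 1)) = (8 * C0 * 2 ^ (j - 1)) * (1 / 2) := by ring
    rw [this]
    have h3 : 8 * C0 * (2 ^ (j - 1) * Real.log 2) = (8 * C0 * 2 ^ (j - 1)) * Real.log 2 := by ring
    rw [h3]
    apply mul_le_mul_of_nonneg_left (by linarith) (by positivity)
  have hsp : (8 * C0 + 16) / 2 ^ j = 16 / 2 ^ j + 8 * C0 / 2 ^ j := by ring
  rw [hsp]
  linarith

end Pool.Agent.Helper112.LP.Kmg

namespace Pool.Agent.Helper112.LP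

/-- the reciprocals of the primes of a group add up to almost `log 2` -/
theorem mertens_group : ∃ C : ℝ, 0 < C ∧ ∀ j : ℕ, 1 ≤ j →
    |∑ l ∈ Gj j, (1 : ℝ) / l - Real.log 2| ≤ C / 2 ^ j := by
  first
    | exact Kmg.mertens_group
    | (apply Kmg.mertens_group <;> assumption)

end Pool.Agent.Helper112.LP
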