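import Pool.Agent.Helper112.Lp.Defs
import Pool.Agent.Helper112.Lp.Kmg

open Finset

namespace Pool.Agent.Helper112.LP.Ksw

/- helper lemmas -/
/-- elementary symmetric sum of the reciprocals of `G` -/
noncomputable def EE (G : Finset ℕ) (b : ℕ) : ℝ :=
  ∑ A ∈ G.powersetCard b, ∏ l ∈ A, (1 : ℝ) / l

theorem EE_zero (G : Finset ℕ) : EE G 0 = 1 := by simp [EE]

theorem EE_empty_succ (b : ℕ) : EE ∅ (b + 1) = 0 := by
  unfold EE
  rw [Finset.powersetCard_eq_empty.2 (by simp)]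
  simp

theorem EE_nonneg (G : Finset ℕ) (b : ℕ) : 0 ≤ EE G b :=
  Finset.sum_nonneg (fun A _ => Finset.prod_nonneg (fun l _ => by positivity))

theorem EE_insert {G : Finset ℕ} {a : ℕ} (ha : a ∉ G) (b : ℕ) :
    EE (insert a G) (b + 1) = EE G (b + 1) + 1 / a * EE G b := by
  unfold EE
  rw [Finset.powersetCard_succ_insert ha, Finset.sum_union]
  · congr 1
    rw [Finset.sum_image, Finset.mul_sum]
    · apply Finset.sum_congr rfl
      intro A hA
      rw [Finset.prod_insert]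
      exact fun h => ha ((mem_powersetCard.1 hA).1 h)
    · intro A hA B hB hAB
      have hA' : a ∉ A := fun h => ha ((mem_powersetCard.1 (Finset.mem_coe.1 hA)).1 h)
      have hB' : a ∉ B := fun h => ha ((mem_powersetCard.1 (Finset.mem_coe.1 hB)).1 h)
      have := congrArg (fun s => Finset.erase s a) hAB
      simpa [Finset.erase_insert hA', Finset.erase_insert hB'] using this
  · rw [Finset.disjoint_left]
    intro A hA hA'
    obtain ⟨B, hB, rfl⟩ := mem_image.1 hA'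
    exact ha ((mem_powersetCard.1 hA).1 (mem_insert_self _ _))

theorem EE_up (G : Finset ℕ) : ∀ b : ℕ, ((b : ℝ) + 1) * EE G (b + 1) ≤
    (∑ l ∈ G, (1 : ℝ) / l) * EE G b := by
  induction G using Finset.induction_on with
  | empty => intro b; rw [EE_empty_succ]; simp
  | insert a G ha ih =>
    intro b
    have hx : (0 : ℝ) ≤ 1 / a := by positivity
    have hS : (0 : ℝ) ≤ ∑ l ∈ G, (1 : ℝ) / l := Finset.sum_nonneg (fun l _ => by positivity)
    rw [Finset.sum_insert ha]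
    cases b with
    | zero =>
      have := ih 0
      rw [EE_insert ha, EE_zero, EE_zero]
      rw [EE_zero] at this
      push_cast at this ⊢
      linarith
    | succ b =>
      have h1 := ih (b + 1)
      have h0 := ih b
      rw [EE_insert ha, EE_insert ha]
      generalize (1 : ℝ) / a = x at *
      push_cast at h1 ⊢
      nlinarith [mul_le_mul_of_nonneg_left h0 hx, mul_nonneg (mul_nonneg hx hx) (EE_nonneg G b)]

theorem EE_low (μ : ℝ) (G : Finset ℕ) (hμ : ∀ l ∈ G, (1 : ℝ) / l ≤ μ) : ∀ b : ℕ,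
    ((∑ l ∈ G, (1 : ℝ) / l) - b * μ) * EE G b ≤ ((b : ℝ) + 1) * EE G (b + 1) := by
  induction G using Finset.induction_on with
  | empty =>
    intro b
    rw [EE_empty_succ]
    cases b with
    | zero => simp
    | succ b => rw [EE_empty_succ]; simp
  | insert a G ha ih =>
    intro b
    have ih' := ih (fun l hl => hμ l (mem_insert_of_mem hl))
    have hx : (0 : ℝ) ≤ 1 / a := by positivity
    have hxμ : (1 : ℝ) / a ≤ μ := hμ a (mem_insert_self _ _)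
    have hS : (0 : ℝ) ≤ ∑ l ∈ G, (1 : ℝ) / l := Finset.sum_nonneg (fun l _ => by positivity)
    rw [Finset.sum_insert ha]
    cases b with
    | zero =>
      have := ih' 0
      rw [EE_insert ha, EE_zero, EE_zero]
      rw [EE_zero] at this
      push_cast at this ⊢
      linarith
    | succ b =>
      have h1 := ih' (b + 1)
      have h0 := ih' b
      rw [EE_insert ha, EE_insert ha]
      generalize (1 : ℝ) / a = x at *
      push_cast at h1 ⊢
      nlinarith [mul_le_mul_of_nonneg_left h0 hx,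
        mul_nonneg (mul_nonneg hx (sub_nonneg.2 hxμ)) (EE_nonneg G b)]

theorem EE_fac_le (G : Finset ℕ) (b : ℕ) :
    (b.factorial : ℝ) * EE G b ≤ (∑ l ∈ G, (1 : ℝ) / l) ^ b := by
  have hS : (0 : ℝ) ≤ ∑ l ∈ G, (1 : ℝ) / l := Finset.sum_nonneg (fun l _ => by positivity)
  induction b with
  | zero => simp [EE_zero]
  | succ b ih =>
    have h := EE_up G b
    rw [Nat.factorial_succ, pow_succ]
    push_cast
    have hf : (0 : ℝ) ≤ b.factorial := Nat.cast_nonneg _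
    nlinarith [mul_le_mul_of_nonneg_left h hf, mul_le_mul_of_nonneg_right ih hS]

theorem EE_fac_ge (μ : ℝ) (G : Finset ℕ) (hμ : ∀ l ∈ G, (1 : ℝ) / l ≤ μ) (hμ0 : 0 ≤ μ) (b : ℕ)
    (hb : 0 ≤ (∑ l ∈ G, (1 : ℝ) / l) - b * μ) :
    ∀ n : ℕ, n ≤ b → ((∑ l ∈ G, (1 : ℝ) / l) - b * μ) ^ n ≤ (n.factorial : ℝ) * EE G n := by
  intro n
  induction n with
  | zero => intro _; simp [EE_zero]
  | succ n ih =>
    intro hn
    have ih' := ih (by omega)
    have h := EE_low μ G hμ n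
    have hnb : (n : ℝ) * μ ≤ b * μ := by
      apply mul_le_mul_of_nonneg_right _ hμ0
      exact_mod_cast (by omega : n ≤ b)
    have hE := EE_nonneg G n
    have hf : (0 : ℝ) ≤ n.factorial := Nat.cast_nonneg _
    have h2 : ((∑ l ∈ G, (1 : ℝ) / l) - b * μ) * EE G n ≤ ((n : ℝ) + 1) * EE G (n + 1) := by
      refine le_trans (mul_le_mul_of_nonneg_right ?_ hE) h
      linarith
    rw [Nat.factorial_succ, pow_succ]
    push_cast
    calc ((∑ l ∈ G, (1 : ℝ) / l) - b * μ) ^ n * ((∑ l ∈ G, (1 : ℝ) / l) - b * μ)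
        ≤ ((n.factorial : ℝ) * EE G n) * ((∑ l ∈ G, (1 : ℝ) / l) - b * μ) :=
          mul_le_mul_of_nonneg_right ih' hb
      _ = n.factorial * (((∑ l ∈ G, (1 : ℝ) / l) - b * μ) * EE G n) := by ring
      _ ≤ n.factorial * (((n : ℝ) + 1) * EE G (n + 1)) := mul_le_mul_of_nonneg_left h2 hf
      _ = _ := by ring

theorem Sel_sum (M k : ℕ) (b : Fin k → ℕ) :
    ∑ T ∈ Sel M k b, (1 : ℝ) / pT T = ∏ i : Fin k, EE (Gj (M + 1 + i)) (b i) := by
  unfold EE Sel pT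
  rw [Finset.prod_univ_sum]
  apply Finset.sum_congr rfl
  intro T _
  push_cast
  rw [one_div, ← Finset.prod_inv_distrib]
  apply Finset.prod_congr rfl
  intro i _
  rw [← Finset.prod_inv_distrib]
  apply Finset.prod_congr rfl
  intro l _
  rw [one_div]

theorem sum_half : ∀ k : ℕ, ∑ i ∈ range k, (i : ℝ) / 2 ^ i = 2 - 2 * (k + 1) / 2 ^ k := by
  intro k
  induction k with
  | zero => simp
  | succ k ih =>
    rw [Finset.sum_range_succ, ih, pow_succ]
    push_cast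
    field_simp
    ring

theorem sum_half_fin (k : ℕ) : ∑ i : Fin k, (i : ℝ) / 2 ^ (i : ℕ) ≤ 2 := by
  have h := Fin.sum_univ_eq_sum_range (fun i => (i : ℝ) / 2 ^ i) k
  rw [h, sum_half]
  have : (0 : ℝ) ≤ 2 * (k + 1) / 2 ^ k := by positivity
  linarith

theorem one_sub_ge {x : ℝ} (h0 : 0 ≤ x) (h1 : x ≤ 1 / 2) : Real.exp (-(2 * x)) ≤ 1 - x := by
  rw [Real.exp_neg]
  have h2 : 1 + 2 * x ≤ Real.exp (2 * x) := by
    have := Real.add_one_le_exp (2 * x)
    linarith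
  have h3 : (0 : ℝ) < 1 - x := by linarith
  rw [inv_le_comm₀ (Real.exp_pos _) h3]
  refine le_trans ?_ h2
  rw [inv_le_iff_one_le_mul₀ h3]
  nlinarith

theorem pow_aux (n : ℕ) : n * 2 ^ n ≤ 2 ^ 2 ^ n := by
  rcases Nat.eq_zero_or_pos n with rfl | hn
  · simp
  · have h1 : n ≤ 2 ^ n := Nat.lt_two_pow_self.le
    have h2 : 2 * n ≤ 2 ^ n := by
      obtain ⟨m, rfl⟩ : ∃ m, n = m + 1 := ⟨n - 1, by omega⟩
      have : m < 2 ^ m := Nat.lt_two_pow_self
      rw [pow_succ]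
      omega
    calc n * 2 ^ n ≤ 2 ^ n * 2 ^ n := Nat.mul_le_mul_right _ h1
      _ = 2 ^ (2 * n) := by rw [← pow_add]; congr 1; ring
      _ ≤ 2 ^ 2 ^ n := Nat.pow_le_pow_right (by norm_num) h2

/- TARGET -/
/-- G1 -/
theorem sel_weight : ∃ M0 : ℕ, ∀ M : ℕ, M0 ≤ M → ∀ (k : ℕ) (b : Fin k → ℕ), (∀ i, b i ≤ i) →
    1 / 4 * ((Real.log 2) ^ (∑ i, b i) * ∏ i, (1 : ℝ) / (b i).factorial) ≤
      ∑ T ∈ Sel M k b, (1 : ℝ) / pT T ∧
    ∑ T ∈ Sel M k b, (1 : ℝ) / pT T ≤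
      4 * ((Real.log 2) ^ (∑ i, b i) * ∏ i, (1 : ℝ) / (b i).factorial) := by
  classical
  obtain ⟨C, hC, hm⟩ := mertens_group
  have hl0 : 0 < Real.log 2 := Real.log_pos (by norm_num)
  obtain ⟨lam, hlam⟩ : ∃ lam : ℝ, lam = Real.log 2 := ⟨_, rfl⟩
  rw [← hlam] at hl0 hm ⊢
  obtain ⟨M0, hM0⟩ := pow_unbounded_of_one_lt (8 * ((C + 2) / lam)) (one_lt_two : (1 : ℝ) < 2)
  refine ⟨M0, fun M hM k b hb => ?_⟩
  have hM2 : (8 * ((C + 2) / lam)) < 2 ^ M :=
    lt_of_lt_of_le hM0 (pow_le_pow_right₀ (by norm_num) hM)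
  obtain ⟨t, ht⟩ : ∃ t : ℝ, t = (C + 2) / lam / 2 ^ (M + 1) := ⟨_, rfl⟩
  have ht0 : 0 ≤ t := by rw [ht]; positivity
  have ht1 : t ≤ 1 / 8 := by
    rw [ht, pow_succ, div_le_div_iff₀ (by positivity) (by norm_num)]
    have : (0 : ℝ) < 2 ^ M := by positivity
    nlinarith
  have hlt : lam * t = (C + 2) / 2 ^ (M + 1) := by
    rw [ht]
    field_simp
  rw [Sel_sum]
  obtain ⟨S, hS⟩ : ∃ S : Fin k → ℝ, S = fun i : Fin k => ∑ l ∈ Gj (M + 1 + i), (1 : ℝ) / l :=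
    ⟨_, rfl⟩
  have hSi : ∀ i, |S i - lam| ≤ C / 2 ^ (M + 1) / 2 ^ (i : ℕ) := by
    intro i
    have := hm (M + 1 + i) (by omega)
    rw [pow_add, ← div_div] at this
    rw [hS]
    exact this
  obtain ⟨μ, hμ⟩ : ∃ μ : Fin k → ℝ, μ = fun i : Fin k => (1 : ℝ) / 2 ^ 2 ^ (M + (i : ℕ)) :=
    ⟨_, rfl⟩
  have hμ0 : ∀ i, 0 ≤ μ i := fun i => by rw [hμ]; positivity
  have hμi : ∀ i : Fin k, ∀ l ∈ Gj (M + 1 + i), (1 : ℝ) / l ≤ μ i := by
    intro i l hl
    have h1 := (mem_Ico.1 (mem_filter.1 hl).1).1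
    rw [show M + 1 + (i : ℕ) - 1 = M + i by omega] at h1
    rw [hμ]
    apply one_div_le_one_div_of_le (by positivity)
    exact_mod_cast h1
  have hbμ : ∀ i : Fin k, (b i : ℝ) * μ i ≤ 2 / 2 ^ (M + 1) / 2 ^ (i : ℕ) := by
    intro i
    have h1 := pow_aux (M + i)
    have h2 : (b i : ℝ) * 2 ^ (M + (i : ℕ)) ≤ 2 ^ 2 ^ (M + (i : ℕ)) := by
      have : b i * 2 ^ (M + (i : ℕ)) ≤ 2 ^ 2 ^ (M + (i : ℕ)) :=
        le_trans (Nat.mul_le_mul_right _ (by have := hb i; omega)) h1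
      exact_mod_cast this
    rw [hμ]
    have h3 : (2 : ℝ) / 2 ^ (M + 1) / 2 ^ (i : ℕ) = 1 / 2 ^ (M + (i : ℕ)) := by
      rw [div_div, ← pow_add, show M + 1 + (i : ℕ) = (M + i) + 1 by ring, pow_succ]
      field_simp
    rw [h3, mul_one_div, div_le_div_iff₀ (by positivity) (by positivity), one_mul]
    exact h2
  have hti : ∀ i : Fin k, 0 ≤ t / 2 ^ (i : ℕ) ∧ t / 2 ^ (i : ℕ) ≤ 1 / 2 := by
    intro i
    refine ⟨by positivity, ?_⟩
    have h1 : (1 : ℝ) ≤ 2 ^ (i : ℕ) := one_le_pow₀ (by norm_num)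
    rw [div_le_iff₀ (by positivity)]
    nlinarith
  have hup : ∀ i : Fin k, S i ≤ lam * (1 + t / 2 ^ (i : ℕ)) := by
    intro i
    have h1 := (abs_le.1 (hSi i)).2
    have h2 : lam * (1 + t / 2 ^ (i : ℕ)) = lam + C / 2 ^ (M + 1) / 2 ^ (i : ℕ)
        + 2 / 2 ^ (M + 1) / 2 ^ (i : ℕ) := by
      have : lam * (1 + t / 2 ^ (i : ℕ)) = lam + (lam * t) / 2 ^ (i : ℕ) := by ring
      rw [this, hlt]; ring
    have h3 : (0 : ℝ) ≤ 2 / 2 ^ (M + 1) / 2 ^ (i : ℕ) := by positivity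
    rw [h2]; linarith
  have hlo : ∀ i : Fin k, lam * (1 - t / 2 ^ (i : ℕ)) ≤ S i - b i * μ i := by
    intro i
    have h1 := (abs_le.1 (hSi i)).1
    have h2 : lam * (1 - t / 2 ^ (i : ℕ)) = lam - C / 2 ^ (M + 1) / 2 ^ (i : ℕ)
        - 2 / 2 ^ (M + 1) / 2 ^ (i : ℕ) := by
      have : lam * (1 - t / 2 ^ (i : ℕ)) = lam - (lam * t) / 2 ^ (i : ℕ) := by ring
      rw [this, hlt]; ring
    have h3 := hbμ i
    rw [h2]; linarith
  have hS0 : ∀ i, 0 ≤ S i := fun i => by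
    rw [hS]; exact Finset.sum_nonneg (fun l _ => by positivity)
  have hbi : ∀ i : Fin k, (b i : ℝ) ≤ i := fun i => by exact_mod_cast hb i
  have hEup : ∀ i : Fin k, EE (Gj (M + 1 + i)) (b i) ≤
      lam ^ b i * Real.exp (t * ((i : ℝ) / 2 ^ (i : ℕ))) * ((1 : ℝ) / (b i).factorial) := by
    intro i
    have h1 := EE_fac_le (Gj (M + 1 + i)) (b i)
    have hf : (0 : ℝ) < (b i).factorial := by exact_mod_cast Nat.factorial_pos _
    rw [mul_one_div, le_div_iff₀ hf, mul_comm]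
    refine h1.trans ?_
    have h2 : (∑ l ∈ Gj (M + 1 + i), (1 : ℝ) / l) = S i := by rw [hS]
    rw [h2]
    calc S i ^ b i ≤ (lam * (1 + t / 2 ^ (i : ℕ))) ^ b i := pow_le_pow_left₀ (hS0 i) (hup i) _
      _ = lam ^ b i * (1 + t / 2 ^ (i : ℕ)) ^ b i := mul_pow _ _ _
      _ ≤ lam ^ b i * Real.exp (t / 2 ^ (i : ℕ)) ^ b i := by
        apply mul_le_mul_of_nonneg_left _ (by positivity)
        apply pow_le_pow_left₀ (by have := (hti i).1; linarith)
        have := Real.add_one_le_exp (t / 2 ^ (i : ℕ))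
        linarith
      _ = lam ^ b i * Real.exp (b i * (t / 2 ^ (i : ℕ))) := by rw [← Real.exp_nat_mul]
      _ ≤ lam ^ b i * Real.exp (t * ((i : ℝ) / 2 ^ (i : ℕ))) := by
        apply mul_le_mul_of_nonneg_left _ (by positivity)
        apply Real.exp_le_exp.2
        have h4 := mul_le_mul_of_nonneg_right (hbi i) (hti i).1
        calc (b i : ℝ) * (t / 2 ^ (i : ℕ)) ≤ (i : ℝ) * (t / 2 ^ (i : ℕ)) := h4
          _ = _ := by ring
  have hElo : ∀ i : Fin k, lam ^ b i * Real.exp (-(2 * t) * ((i : ℝ) / 2 ^ (i : ℕ))) *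
      ((1 : ℝ) / (b i).factorial) ≤ EE (Gj (M + 1 + i)) (b i) := by
    intro i
    have h2 : (∑ l ∈ Gj (M + 1 + i), (1 : ℝ) / l) = S i := by rw [hS]
    have hpos : 0 ≤ lam * (1 - t / 2 ^ (i : ℕ)) := by
      have := (hti i).2
      apply mul_nonneg hl0.le; linarith
    have h1 := EE_fac_ge (μ i) (Gj (M + 1 + i)) (hμi i) (hμ0 i) (b i)
      (by rw [h2]; exact hpos.trans (hlo i)) (b i) le_rfl
    rw [h2] at h1
    have hf : (0 : ℝ) < (b i).factorial := by exact_mod_cast Nat.factorial_pos _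
    rw [mul_one_div, div_le_iff₀ hf, mul_comm (EE _ _)]
    refine le_trans ?_ h1
    calc lam ^ b i * Real.exp (-(2 * t) * ((i : ℝ) / 2 ^ (i : ℕ)))
        ≤ lam ^ b i * Real.exp (b i * (-(2 * (t / 2 ^ (i : ℕ))))) := by
          apply mul_le_mul_of_nonneg_left _ (by positivity)
          apply Real.exp_le_exp.2
          have h4 := mul_le_mul_of_nonneg_right (hbi i) (hti i).1
          calc -(2 * t) * ((i : ℝ) / 2 ^ (i : ℕ)) = -2 * ((i : ℝ) * (t / 2 ^ (i : ℕ))) := by ring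
            _ ≤ -2 * ((b i : ℝ) * (t / 2 ^ (i : ℕ))) := by linarith
            _ = _ := by ring
      _ = lam ^ b i * Real.exp (-(2 * (t / 2 ^ (i : ℕ)))) ^ b i := by rw [← Real.exp_nat_mul]
      _ ≤ lam ^ b i * (1 - t / 2 ^ (i : ℕ)) ^ b i := by
          apply mul_le_mul_of_nonneg_left _ (by positivity)
          exact pow_le_pow_left₀ (Real.exp_pos _).le (one_sub_ge (hti i).1 (hti i).2) _
      _ = (lam * (1 - t / 2 ^ (i : ℕ))) ^ b i := (mul_pow _ _ _).symm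
      _ ≤ (S i - b i * μ i) ^ b i := pow_le_pow_left₀ hpos (hlo i) _
  have hsum := sum_half_fin k
  have hsum0 : (0 : ℝ) ≤ ∑ i : Fin k, (i : ℝ) / 2 ^ (i : ℕ) :=
    Finset.sum_nonneg (fun i _ => by positivity)
  have hw0 : (0 : ℝ) ≤ lam ^ (∑ i, b i) * ∏ i, (1 : ℝ) / (b i).factorial :=
    mul_nonneg (by positivity) (Finset.prod_nonneg (fun i _ => by positivity))
  have hprod : ∀ c : ℝ, ∏ i : Fin k, (lam ^ b i * Real.exp (c * ((i : ℝ) / 2 ^ (i : ℕ))) *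
      ((1 : ℝ) / (b i).factorial)) =
      Real.exp (c * ∑ i : Fin k, (i : ℝ) / 2 ^ (i : ℕ)) *
        (lam ^ (∑ i, b i) * ∏ i, (1 : ℝ) / (b i).factorial) := by
    intro c
    rw [Finset.prod_mul_distrib, Finset.prod_mul_distrib, Finset.prod_pow_eq_pow_sum,
      ← Real.exp_sum, ← Finset.mul_sum]
    ring
  constructor
  · calc 1 / 4 * (lam ^ (∑ i, b i) * ∏ i, (1 : ℝ) / (b i).factorial)
        ≤ Real.exp (-(2 * t) * ∑ i : Fin k, (i : ℝ) / 2 ^ (i : ℕ)) *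
        (lam ^ (∑ i, b i) * ∏ i, (1 : ℝ) / (b i).factorial) := by
          apply mul_le_mul_of_nonneg_right _ hw0
          have h1 : (-1 / 2 : ℝ) ≤ -(2 * t) * ∑ i : Fin k, (i : ℝ) / 2 ^ (i : ℕ) := by nlinarith
          have h2 := Real.add_one_le_exp (-(2 * t) * ∑ i : Fin k, (i : ℝ) / 2 ^ (i : ℕ))
          linarith
      _ = ∏ i : Fin k, (lam ^ b i * Real.exp (-(2 * t) * ((i : ℝ) / 2 ^ (i : ℕ))) *
          ((1 : ℝ) / (b i).factorial)) := (hprod _).symm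
      _ ≤ ∏ i : Fin k, EE (Gj (M + 1 + i)) (b i) := by
        apply Finset.prod_le_prod
        · intro i _
          positivity
        · intro i _
          exact hElo i
  · calc ∏ i : Fin k, EE (Gj (M + 1 + i)) (b i)
        ≤ ∏ i : Fin k, (lam ^ b i * Real.exp (t * ((i : ℝ) / 2 ^ (i : ℕ))) *
            ((1 : ℝ) / (b i).factorial)) :=
          Finset.prod_le_prod (fun i _ => EE_nonneg _ _) (fun i _ => hEup i)
      _ = Real.exp (t * ∑ i : Fin k, (i : ℝ) / 2 ^ (i : ℕ)) *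
        (lam ^ (∑ i, b i) * ∏ i, (1 : ℝ) / (b i).factorial) := hprod _
      _ ≤ 4 * (lam ^ (∑ i, b i) * ∏ i, (1 : ℝ) / (b i).factorial) := by
          apply mul_le_mul_of_nonneg_right _ hw0
          have h1 : t * ∑ i : Fin k, (i : ℝ) / 2 ^ (i : ℕ) ≤ 1 := by nlinarith
          have h2 := Real.exp_le_exp.2 h1
          have h3 := Real.exp_one_lt_d9
          linarith

end Pool.Agent.Helper112.LP.Ksw

namespace Pool.Agent.Helper112.LP

/-- G1 -/
theorem sel_weight : ∃ M0 : ℕ, ∀ M : ℕ, M0 ≤ M → ∀ (k : ℕ) (b : Fin k → ℕ), (∀ i, b i ≤ i) →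
    1 / 4 * ((Real.log 2) ^ (∑ i, b i) * ∏ i, (1 : ℝ) / (b i).factorial) ≤
      ∑ T ∈ Sel M k b, (1 : ℝ) / pT T ∧
    ∑ T ∈ Sel M k b, (1 : ℝ) / pT T ≤
      4 * ((Real.log 2) ^ (∑ i, b i) * ∏ i, (1 : ℝ) / (b i).factorial) := by
  first
    | exact Ksw.sel_weight
    | (apply Ksw.sel_weight <;> assumption)

end Pool.Agent.Helper112.LP
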