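import Pool.Agent.Helper112.Lp.Defs
import Pool.Agent.Helper112.Lp.Kmg
import Pool.Agent.Helper112.Lp.Kmt
import Pool.Agent.Helper112.Lp.Ksw

open Finset

namespace Pool.Agent.Helper112.LP.KsW

theorem Gj_prime {j l : ℕ} (h : l ∈ Gj j) : l.Prime := (mem_filter.mp h).2

theorem Gj_disj_lt {i j : ℕ} (hij : i < j) : Disjoint (Gj i) (Gj j) := by
  rw [Finset.disjoint_left]
  intro l hl hl'
  have h1 := (mem_Ico.mp (mem_filter.mp hl).1).2
  have h2 := (mem_Ico.mp (mem_filter.mp hl').1).1
  have h3 : (2 : ℕ) ^ 2 ^ i ≤ 2 ^ 2 ^ (j - 1) :=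
    Nat.pow_le_pow_right (by norm_num) (Nat.pow_le_pow_right (by norm_num) (by omega))
  omega

theorem Gj_disj {i j : ℕ} (hij : i ≠ j) : Disjoint (Gj i) (Gj j) := by
  rcases lt_or_gt_of_ne hij with h | h
  · exact Gj_disj_lt h
  · exact (Gj_disj_lt h).symm

/-- union of the groups of a selection -/
def US {k : ℕ} (T : Fin k → Finset ℕ) : Finset ℕ := Finset.univ.biUnion T

theorem mem_US {k : ℕ} {T : Fin k → Finset ℕ} {l : ℕ} : l ∈ US T ↔ ∃ i, l ∈ T i := by
  simp [US]

theorem T_disj {M k : ℕ} {T : Fin k → Finset ℕ} (hT : ∀ i, T i ⊆ Gj (M + 1 + i)) {i j : Fin k}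
    (hij : i ≠ j) : Disjoint (T i) (T j) := by
  apply Finset.disjoint_of_subset_left (hT i)
  apply Finset.disjoint_of_subset_right (hT j)
  apply Gj_disj
  intro h
  apply hij
  apply Fin.ext
  omega

theorem pT_eq {M k : ℕ} {T : Fin k → Finset ℕ} (hT : ∀ i, T i ⊆ Gj (M + 1 + i)) :
    pT T = ∏ l ∈ US T, l := by
  unfold pT US
  rw [Finset.prod_biUnion]
  intro i _ j _ hij
  exact T_disj hT hij

theorem US_prime {M k : ℕ} {T : Fin k → Finset ℕ} (hT : ∀ i, T i ⊆ Gj (M + 1 + i)) {l : ℕ}
    (hl : l ∈ US T) : l.Prime := by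
  obtain ⟨i, hi⟩ := mem_US.mp hl
  exact Gj_prime (hT i hi)

/-- equal length pairs of sub-families -/
def PW (S : Finset ℕ) : Finset (Finset ℕ × Finset ℕ) :=
  (S.powerset ×ˢ S.powerset).filter
    (fun D => Nat.log 2 (∏ l ∈ D.1, l) = Nat.log 2 (∏ l ∈ D.2, l))

theorem Wc_le (S : Finset ℕ) (hS : ∀ l ∈ S, l.Prime) : Wc (∏ l ∈ S, l) ≤ (PW S).card := by
  have hne : (∏ l ∈ S, l) ≠ 0 := Finset.prod_ne_zero_iff.mpr (fun l hl => (hS l hl).ne_zero)
  have hsf : Squarefree (∏ l ∈ S, l) := by
    have : (∏ l ∈ S, l).primeFactors = S := Nat.primeFactors_prod hS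
    rw [Nat.squarefree_iff_factorization_le_one hne]
    intro p
    rw [Nat.factorization_prod (fun l hl => (hS l hl).ne_zero)]
    rw [Finsupp.finsetSum_apply]
    by_cases hp : p ∈ S
    · rw [Finset.sum_eq_single p]
      · rw [(hS p hp).factorization_self]
      · intro b hb hbp
        rw [Nat.Prime.factorization (hS b hb)]
        simp [hbp]
      · intro h; exact absurd hp h
    · rw [Finset.sum_eq_zero]
      · norm_num
      · intro b hb
        rw [Nat.Prime.factorization (hS b hb)]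
        have : b ≠ p := fun h => hp (h ▸ hb)
        simp [this]
  unfold Wc
  apply Finset.card_le_card_of_surjOn (fun D => ((∏ l ∈ D.1, l), (∏ l ∈ D.2, l)))
  intro d hd
  rw [Finset.mem_coe, mem_filter, mem_product] at hd
  obtain ⟨⟨h1, h2⟩, h3⟩ := hd
  have key : ∀ d ∈ (∏ l ∈ S, l).divisors, d.primeFactors ⊆ S ∧ ∏ l ∈ d.primeFactors, l = d := by
    intro d hd
    have hdvd := Nat.dvd_of_mem_divisors hd
    refine ⟨?_, Nat.prod_primeFactors_of_squarefree (hsf.squarefree_of_dvd hdvd)⟩
    have := Nat.primeFactors_mono hdvd hne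
    rwa [Nat.primeFactors_prod hS] at this
  refine ⟨(d.1.primeFactors, d.2.primeFactors), ?_, ?_⟩
  · rw [Finset.mem_coe]
    unfold PW
    rw [mem_filter, mem_product, mem_powerset, mem_powerset]
    refine ⟨⟨(key _ h1).1, (key _ h2).1⟩, ?_⟩
    simp only
    rw [(key _ h1).2, (key _ h2).2]
    exact h3
  · simp only
    rw [(key _ h1).2, (key _ h2).2]

/-- agreement above group `j` -/
def Agr {k : ℕ} (T : Fin k → Finset ℕ) (j : Fin k) (D : Finset ℕ × Finset ℕ) : Prop :=
  ∀ i, j < i → ∀ l ∈ T i, (l ∈ D.1 ↔ l ∈ D.2)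

instance {k : ℕ} (T : Fin k → Finset ℕ) (j : Fin k) : DecidablePred (Agr T j) := fun D => by
  unfold Agr; infer_instance

/-- pairs differing at `q` in group `j` -/
def EE {k : ℕ} (T : Fin k → Finset ℕ) (j : Fin k) (q : ℕ) : Finset (Finset ℕ × Finset ℕ) :=
  (PW (US T)).filter (fun D => q ∈ D.1 ∧ q ∉ D.2 ∧ Agr T j D)

theorem PW_card_le {k : ℕ} {T : Fin k → Finset ℕ} :
    (PW (US T)).card ≤ 2 ^ (US T).card + 2 * ∑ j, ∑ q ∈ T j, (EE T j q).card := by
  classical
  have hsub : PW (US T) ⊆ (US T).powerset.image (fun D => (D, D)) ∪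
      ((Finset.univ : Finset (Fin k)).biUnion fun j => (T j).biUnion fun q => EE T j q) ∪
      (((Finset.univ : Finset (Fin k)).biUnion fun j => (T j).biUnion fun q => EE T j q)).image
        Prod.swap := by
    intro D hD
    by_cases hDD : D.1 = D.2
    · apply mem_union_left
      apply mem_union_left
      rw [mem_image]
      refine ⟨D.1, ?_, ?_⟩
      · exact (mem_product.mp (mem_filter.mp hD).1).1
      · ext1
        · rfl
        · exact hDD
    · -- the largest group where they differ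
      have hD1 : D.1 ⊆ US T := mem_powerset.mp (mem_product.mp (mem_filter.mp hD).1).1
      have hD2 : D.2 ⊆ US T := mem_powerset.mp (mem_product.mp (mem_filter.mp hD).1).2
      set J : Finset (Fin k) := Finset.univ.filter (fun i => ∃ l ∈ T i, ¬ (l ∈ D.1 ↔ l ∈ D.2)) with hJ
      have hJne : J.Nonempty := by
        have : ∃ l, ¬ (l ∈ D.1 ↔ l ∈ D.2) := by
          by_contra h
          push Not at h
          exact hDD (Finset.ext h)
        obtain ⟨l, hl⟩ := this
        have hlU : l ∈ US T := by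
          by_contra hn
          apply hl
          constructor
          · intro h; exact absurd (hD1 h) hn
          · intro h; exact absurd (hD2 h) hn
        obtain ⟨i, hi⟩ := mem_US.mp hlU
        exact ⟨i, by rw [hJ, mem_filter]; exact ⟨mem_univ _, l, hi, hl⟩⟩
      obtain ⟨j, hjJ, hjmax⟩ := J.exists_max_image id hJne
      obtain ⟨_, q, hqT, hq⟩ := mem_filter.mp hjJ
      have hagr : ∀ i, j < i → ∀ l ∈ T i, (l ∈ D.1 ↔ l ∈ D.2) := by
        intro i hi l hl
        by_contra hcon
        have : i ∈ J := by rw [hJ, mem_filter]; exact ⟨mem_univ _, l, hl, hcon⟩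
        have := hjmax i this
        simp only [id] at this
        exact absurd hi (not_lt.mpr this)
      by_cases hq1 : q ∈ D.1
      · have hq2 : q ∉ D.2 := fun h => hq ⟨fun _ => h, fun _ => hq1⟩
        apply mem_union_left
        apply mem_union_right
        rw [mem_biUnion]
        refine ⟨j, mem_univ _, ?_⟩
        rw [mem_biUnion]
        refine ⟨q, hqT, ?_⟩
        unfold EE
        rw [mem_filter]
        exact ⟨hD, hq1, hq2, hagr⟩
      · have hq2 : q ∈ D.2 := by
          by_contra h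
          exact hq ⟨fun h' => absurd h' hq1, fun h' => absurd h' h⟩
        apply mem_union_right
        rw [mem_image]
        refine ⟨D.swap, ?_, by simp⟩
        rw [mem_biUnion]
        refine ⟨j, mem_univ _, ?_⟩
        rw [mem_biUnion]
        refine ⟨q, hqT, ?_⟩
        unfold EE
        rw [mem_filter]
        refine ⟨?_, hq2, hq1, ?_⟩
        · unfold PW at hD ⊢
          rw [mem_filter, mem_product] at hD ⊢
          exact ⟨⟨hD.1.2, hD.1.1⟩, hD.2.symm⟩
        · intro i hi l hl
          exact (hagr i hi l hl).symm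
  have hB : ((Finset.univ : Finset (Fin k)).biUnion fun j => (T j).biUnion fun q => EE T j q).card
      ≤ ∑ j, ∑ q ∈ T j, (EE T j q).card := by
    refine Finset.card_biUnion_le.trans ?_
    apply Finset.sum_le_sum
    intro j _
    exact Finset.card_biUnion_le
  calc (PW (US T)).card ≤ _ := Finset.card_le_card hsub
    _ ≤ _ := Finset.card_union_le _ _
    _ ≤ (2 ^ (US T).card + ∑ j, ∑ q ∈ T j, (EE T j q).card) +
        ∑ j, ∑ q ∈ T j, (EE T j q).card := by
        apply Nat.add_le_add
        · refine (Finset.card_union_le _ _).trans ?_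
          apply Nat.add_le_add
          · refine Finset.card_image_le.trans ?_
            rw [Finset.card_powerset]
          · exact hB
        · exact Finset.card_image_le.trans hB
    _ = _ := by ring

/-- pairs agreeing above group `j` -/
def AP {k : ℕ} (T : Fin k → Finset ℕ) (j : Fin k) : Finset (Finset ℕ × Finset ℕ) :=
  ((US T).powerset ×ˢ (US T).powerset).filter (Agr T j)

theorem EE_card_le {M k : ℕ} {T : Fin k → Finset ℕ} (hT : ∀ i, T i ⊆ Gj (M + 1 + i)) (j : Fin k)
    {q : ℕ} (hq : q ∈ T j) :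
    (EE T j q).card ≤ ((AP (Function.update T j ((T j).erase q)) j).filter
      (fun D => Nat.log 2 (q * ∏ l ∈ D.1, l) = Nat.log 2 (∏ l ∈ D.2, l))).card := by
  classical
  set T' := Function.update T j ((T j).erase q) with hT'
  have hT'j : T' j = (T j).erase q := by simp [hT']
  have hT'i : ∀ i, i ≠ j → T' i = T i := fun i hi => by simp [hT', hi]
  have hmemU : ∀ l, l ∈ US T → l ≠ q → l ∈ US T' := by
    intro l hl hlq
    obtain ⟨i, hi⟩ := mem_US.mp hl
    rw [mem_US]
    by_cases hij : i = j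
    · subst hij
      exact ⟨i, by rw [hT'j]; exact mem_erase.mpr ⟨hlq, hi⟩⟩
    · exact ⟨i, by rw [hT'i i hij]; exact hi⟩
  apply Finset.card_le_card_of_injOn (fun D => (D.1.erase q, D.2))
  · intro D hD
    rw [Finset.mem_coe] at hD ⊢
    unfold EE PW at hD
    rw [mem_filter, mem_filter, mem_product, mem_powerset, mem_powerset] at hD
    obtain ⟨⟨⟨h1, h2⟩, h3⟩, h4, h5, h6⟩ := hD
    unfold AP
    rw [mem_filter, mem_filter, mem_product, mem_powerset, mem_powerset]
    refine ⟨⟨⟨?_, ?_⟩, ?_⟩, ?_⟩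
    · intro l hl
      rw [mem_erase] at hl
      exact hmemU l (h1 hl.2) hl.1
    · intro l hl
      exact hmemU l (h2 hl) (fun h => h5 (h ▸ hl))
    · intro i hi l hl
      have hij : i ≠ j := hi.ne'
      rw [hT'i i hij] at hl
      have hlq : l ≠ q := by
        intro h
        subst h
        exact (Finset.disjoint_left.mp (T_disj hT hij)) hl hq
      simp only [mem_erase]
      rw [← h6 i hi l hl]
      constructor
      · intro h; exact h.2
      · intro h; exact ⟨hlq, h⟩
    · have hm := Finset.mul_prod_erase D.1 (fun l : ℕ => l) h4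
      simp only at hm ⊢
      rw [hm]
      exact h3
  · intro D hD D' hD' h
    rw [Finset.mem_coe] at hD hD'
    unfold EE at hD hD'
    rw [mem_filter] at hD hD'
    simp only [Prod.mk.injEq] at h
    ext1
    · rw [← Finset.insert_erase hD.2.1, ← Finset.insert_erase hD'.2.1, h.1]
    · exact h.2

theorem AP_card_le {k : ℕ} (T : Fin k → Finset ℕ) (j : Fin k) :
    (AP T j).card ≤ 4 ^ (∑ i, if i ≤ j then (T i).card else 0) *
      2 ^ (∑ i, if i ≤ j then 0 else (T i).card) := by
  classical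
  set L : Finset ℕ := (Finset.univ.filter (fun i : Fin k => i ≤ j)).biUnion T with hL
  set H : Finset ℕ := (Finset.univ.filter (fun i : Fin k => ¬ i ≤ j)).biUnion T with hH
  have hLc : L.card ≤ ∑ i, if i ≤ j then (T i).card else 0 := by
    rw [hL, ← Finset.sum_filter]
    exact Finset.card_biUnion_le
  have hHc : H.card ≤ ∑ i, if i ≤ j then 0 else (T i).card := by
    have : (∑ i, if i ≤ j then 0 else (T i).card) = ∑ i, if ¬ i ≤ j then (T i).card else 0 := by
      apply Finset.sum_congr rfl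
      intro i _
      by_cases h : i ≤ j <;> simp [h]
    rw [this, hH, ← Finset.sum_filter]
    exact Finset.card_biUnion_le
  have hcard : (AP T j).card ≤ (L.powerset ×ˢ (L.powerset ×ˢ H.powerset)).card := by
    apply Finset.card_le_card_of_injOn (fun D => (D.1 ∩ L, (D.2 ∩ L, D.1 ∩ H)))
    · intro D _
      rw [Finset.mem_coe, mem_product, mem_product, mem_powerset, mem_powerset, mem_powerset]
      exact ⟨inter_subset_right, inter_subset_right, inter_subset_right⟩
    · intro D hD D' hD' h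
      rw [Finset.mem_coe] at hD hD'
      unfold AP at hD hD'
      rw [mem_filter, mem_product, mem_powerset, mem_powerset] at hD hD'
      obtain ⟨⟨h1, h2⟩, h3⟩ := hD
      obtain ⟨⟨h1', h2'⟩, h3'⟩ := hD'
      simp only [Prod.mk.injEq] at h
      obtain ⟨e1, e2, e3⟩ := h
      have m1 : ∀ l, l ∈ D.1 ↔ l ∈ D'.1 := by
        intro l
        by_cases hlU : l ∈ US T
        · obtain ⟨i, hi⟩ := mem_US.mp hlU
          by_cases hij : i ≤ j
          · have hlL : l ∈ L := by
              rw [hL, mem_biUnion]; exact ⟨i, by simp [hij], hi⟩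
            have := Finset.ext_iff.mp e1 l
            rw [mem_inter, mem_inter] at this
            constructor
            · intro h; exact (this.mp ⟨h, hlL⟩).1
            · intro h; exact (this.mpr ⟨h, hlL⟩).1
          · have hlH : l ∈ H := by
              rw [hH, mem_biUnion]; exact ⟨i, mem_filter.mpr ⟨mem_univ _, hij⟩, hi⟩
            have := Finset.ext_iff.mp e3 l
            rw [mem_inter, mem_inter] at this
            constructor
            · intro h; exact (this.mp ⟨h, hlH⟩).1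
            · intro h; exact (this.mpr ⟨h, hlH⟩).1
        · constructor
          · intro h; exact absurd (h1 h) hlU
          · intro h; exact absurd (h1' h) hlU
      have m2 : ∀ l, l ∈ D.2 ↔ l ∈ D'.2 := by
        intro l
        by_cases hlU : l ∈ US T
        · obtain ⟨i, hi⟩ := mem_US.mp hlU
          by_cases hij : i ≤ j
          · have hlL : l ∈ L := by
              rw [hL, mem_biUnion]; exact ⟨i, by simp [hij], hi⟩
            have := Finset.ext_iff.mp e2 l
            rw [mem_inter, mem_inter] at this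
            constructor
            · intro h; exact (this.mp ⟨h, hlL⟩).1
            · intro h; exact (this.mpr ⟨h, hlL⟩).1
          · have hij' : j < i := not_le.mp hij
            rw [← h3 i hij' l hi, ← h3' i hij' l hi]
            exact m1 l
        · constructor
          · intro h; exact absurd (h2 h) hlU
          · intro h; exact absurd (h2' h) hlU
      ext1
      · exact Finset.ext m1
      · exact Finset.ext m2
  refine hcard.trans ?_
  rw [card_product, card_product, card_powerset, card_powerset]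
  have h4 : (4 : ℕ) = 2 * 2 := by norm_num
  rw [h4, mul_pow, ← mul_assoc]
  have a1 : 2 ^ L.card ≤ 2 ^ (∑ i, if i ≤ j then (T i).card else 0) :=
    Nat.pow_le_pow_right (by norm_num) hLc
  have a2 : 2 ^ H.card ≤ 2 ^ (∑ i, if i ≤ j then 0 else (T i).card) :=
    Nat.pow_le_pow_right (by norm_num) hHc
  exact Nat.mul_le_mul (Nat.mul_le_mul a1 a1) a2


theorem pT_update {k : ℕ} (T : Fin k → Finset ℕ) (j : Fin k) {q : ℕ} (hq : q ∈ T j) :
    pT T = q * pT (Function.update T j ((T j).erase q)) := by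
  classical
  unfold pT
  rw [← Finset.mul_prod_erase Finset.univ (fun i => ∏ l ∈ T i, l) (mem_univ j),
    ← Finset.mul_prod_erase Finset.univ
      (fun i => ∏ l ∈ Function.update T j ((T j).erase q) i, l) (mem_univ j)]
  have h1 := Finset.mul_prod_erase (T j) (fun l : ℕ => l) hq
  simp only [Function.update_self] at h1 ⊢
  rw [← h1, mul_assoc]
  congr 2
  apply Finset.prod_congr rfl
  intro i hi
  rw [Function.update_of_ne (ne_of_mem_erase hi)]

theorem pT_pos {M k : ℕ} {T : Fin k → Finset ℕ} (hT : ∀ i, T i ⊆ Gj (M + 1 + i)) : 0 < pT T := by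
  rw [pT_eq hT]
  exact Finset.prod_pos (fun l hl => (US_prime hT hl).pos)

theorem sel_sub {M k : ℕ} {b : Fin k → ℕ} {T : Fin k → Finset ℕ} (hT : T ∈ Sel M k b) :
    ∀ i, T i ⊆ Gj (M + 1 + i) := by
  intro i
  unfold Sel at hT
  rw [Fintype.mem_piFinset] at hT
  exact (mem_powersetCard.mp (hT i)).1

theorem sel_card {M k : ℕ} {b : Fin k → ℕ} {T : Fin k → Finset ℕ} (hT : T ∈ Sel M k b) :
    ∀ i, (T i).card = b i := by
  intro i
  unfold Sel at hT
  rw [Fintype.mem_piFinset] at hT
  exact (mem_powersetCard.mp (hT i)).2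

theorem inner_bound {C : ℝ}
    (hC : ∀ j : ℕ, 1 ≤ j → ∀ x k : ℕ, 1 ≤ x →
      ∑ l ∈ (Gj j).filter (fun l => Nat.log 2 (l * x) = k), (1 : ℝ) / l ≤ C / 2 ^ j)
    {M k : ℕ} {T : Fin k → Finset ℕ} (hT : ∀ i, T i ⊆ Gj (M + 1 + i)) (j : Fin k) :
    ∑ q ∈ Gj (M + 1 + j), (1 : ℝ) / q * ((AP T j).filter
      (fun D => Nat.log 2 (q * ∏ l ∈ D.1, l) = Nat.log 2 (∏ l ∈ D.2, l))).card ≤
      (AP T j).card * (C / 2 ^ (M + 1 + (j : ℕ))) := by
  have h1 : ∀ q ∈ Gj (M + 1 + j), (1 : ℝ) / q * ((AP T j).filter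
      (fun D => Nat.log 2 (q * ∏ l ∈ D.1, l) = Nat.log 2 (∏ l ∈ D.2, l))).card =
      ∑ D ∈ AP T j, if Nat.log 2 (q * ∏ l ∈ D.1, l) = Nat.log 2 (∏ l ∈ D.2, l) then
        (1 : ℝ) / q else 0 := by
    intro q _
    rw [← Finset.sum_filter, Finset.sum_const, nsmul_eq_mul, mul_comm]
  rw [Finset.sum_congr rfl h1, Finset.sum_comm, ← nsmul_eq_mul, ← Finset.sum_const]
  apply Finset.sum_le_sum
  intro D hD
  rw [← Finset.sum_filter]
  apply hC
  · omega
  · unfold AP at hD
    rw [mem_filter, mem_product, mem_powerset, mem_powerset] at hD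
    exact Finset.one_le_prod' (fun l hl => (US_prime hT (hD.1.1 hl)).one_le)

theorem Z_bound {C : ℝ} (hC0 : 0 < C)
    (hC : ∀ j : ℕ, 1 ≤ j → ∀ x k : ℕ, 1 ≤ x →
      ∑ l ∈ (Gj j).filter (fun l => Nat.log 2 (l * x) = k), (1 : ℝ) / l ≤ C / 2 ^ j)
    {M k : ℕ} (b : Fin k → ℕ) (j : Fin k) :
    ∑ T ∈ Sel M k b, ∑ q ∈ T j, (1 : ℝ) / pT T * (EE T j q).card ≤
      (∑ T ∈ Sel M k (Function.update b j (b j - 1)), (1 : ℝ) / pT T) *
        (4 ^ (∑ i, if i ≤ j then Function.update b j (b j - 1) i else 0) *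
        2 ^ (∑ i, if i ≤ j then 0 else Function.update b j (b j - 1) i)) *
        (C / 2 ^ (M + 1 + (j : ℕ))) := by
  classical
  set b' := Function.update b j (b j - 1) with hb'
  set G : (Fin k → Finset ℕ) × ℕ → ℝ := fun x => (1 : ℝ) / pT x.1 * ((1 : ℝ) / x.2 *
    ((AP x.1 j).filter
      (fun D => Nat.log 2 (x.2 * ∏ l ∈ D.1, l) = Nat.log 2 (∏ l ∈ D.2, l))).card) with hG
  set e : (Σ _ : (Fin k → Finset ℕ), ℕ) → (Fin k → Finset ℕ) × ℕ :=
    fun x => (Function.update x.1 j ((x.1 j).erase x.2), x.2) with he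
  have step1 : ∑ T ∈ Sel M k b, ∑ q ∈ T j, (1 : ℝ) / pT T * (EE T j q).card ≤
      ∑ x ∈ (Sel M k b).sigma (fun T => T j), G (e x) := by
    rw [Finset.sum_sigma]
    apply Finset.sum_le_sum
    intro T hT
    apply Finset.sum_le_sum
    intro q hq
    have hsub := sel_sub hT
    have hpos := pT_pos hsub
    have hqp : 0 < q := (Gj_prime (hsub j hq)).pos
    rw [hG, he]
    simp only
    rw [pT_update T j hq]
    have hcard : ((EE T j q).card : ℝ) ≤
        (((AP (Function.update T j ((T j).erase q)) j).filter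
      (fun D => Nat.log 2 (q * ∏ l ∈ D.1, l) = Nat.log 2 (∏ l ∈ D.2, l))).card : ℝ) := by
      exact_mod_cast EE_card_le hsub j hq
    have hpos' : 0 < pT (Function.update T j ((T j).erase q)) := by
      rw [pT_update T j hq] at hpos
      exact Nat.pos_of_mul_pos_left hpos
    have hq' : (0 : ℝ) < q := by exact_mod_cast hqp
    have hp' : (0 : ℝ) < pT (Function.update T j ((T j).erase q)) := by exact_mod_cast hpos'
    rw [← mul_assoc]
    have : (1 : ℝ) / ((q * pT (Function.update T j ((T j).erase q)) : ℕ) : ℝ) =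
        1 / pT (Function.update T j ((T j).erase q)) * (1 / q) := by
      push_cast
      field_simp
    rw [this]
    apply mul_le_mul_of_nonneg_left hcard
    positivity
  have hinj : Set.InjOn e ((Sel M k b).sigma (fun T => T j)) := by
    rintro ⟨T, q⟩ hx ⟨T2, q2⟩ hx2 h
    rw [Finset.mem_coe, mem_sigma] at hx hx2
    rw [he] at h
    simp only [Prod.mk.injEq] at h
    obtain ⟨h1, h2⟩ := h
    subst h2
    have hTT : T = T2 := by
      funext i
      by_cases hij : i = j
      · subst hij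
        have := congrFun h1 i
        simp only [Function.update_self] at this
        have hx' : q ∈ T i := hx.2
        have hx2' : q ∈ T2 i := hx2.2
        rw [← Finset.insert_erase hx', ← Finset.insert_erase hx2', this]
      · have := congrFun h1 i
        rwa [Function.update_of_ne hij, Function.update_of_ne hij] at this
    subst hTT
    rfl
  have hmaps : ((Sel M k b).sigma (fun T => T j)).image e ⊆
      Sel M k b' ×ˢ Gj (M + 1 + j) := by
    intro y hy
    rw [mem_image] at hy
    obtain ⟨⟨T, q⟩, hx, rfl⟩ := hy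
    rw [mem_sigma] at hx
    simp only at hx
    rw [he, mem_product]
    simp only
    refine ⟨?_, sel_sub hx.1 j hx.2⟩
    unfold Sel
    rw [Fintype.mem_piFinset]
    intro i
    rw [mem_powersetCard]
    by_cases hij : i = j
    · subst hij
      simp only [Function.update_self, hb']
      refine ⟨(erase_subset _ _).trans (sel_sub hx.1 i), ?_⟩
      rw [card_erase_of_mem hx.2, sel_card hx.1 i]
    · rw [hb', Function.update_of_ne hij, Function.update_of_ne hij]
      exact ⟨sel_sub hx.1 i, sel_card hx.1 i⟩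
  have step2 : ∑ x ∈ (Sel M k b).sigma (fun T => T j), G (e x) ≤
      ∑ y ∈ Sel M k b' ×ˢ Gj (M + 1 + j), G y := by
    rw [← Finset.sum_image (f := G) hinj]
    apply Finset.sum_le_sum_of_subset_of_nonneg hmaps
    intro y _ _
    rw [hG]
    positivity
  refine step1.trans (step2.trans ?_)
  rw [Finset.sum_product, Finset.sum_mul, Finset.sum_mul]
  apply Finset.sum_le_sum
  intro T hT
  have hsub := sel_sub hT
  rw [hG]
  simp only
  rw [← Finset.mul_sum, mul_assoc]
  apply mul_le_mul_of_nonneg_left _ (by positivity)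
  refine (inner_bound hC hsub j).trans ?_
  apply mul_le_mul_of_nonneg_right _ (by positivity)
  have := AP_card_le T j
  simp only [sel_card hT] at this
  exact_mod_cast this


theorem Z_final {C : ℝ} (hC0 : 0 < C)
    (hC : ∀ j : ℕ, 1 ≤ j → ∀ x k : ℕ, 1 ≤ x →
      ∑ l ∈ (Gj j).filter (fun l => Nat.log 2 (l * x) = k), (1 : ℝ) / l ≤ C / 2 ^ j)
    {M k : ℕ}
    (hM : ∀ (b : Fin k → ℕ), (∀ i, b i ≤ i) →
      ∑ T ∈ Sel M k b, (1 : ℝ) / pT T ≤
      4 * ((Real.log 2) ^ (∑ i, b i) * ∏ i, (1 : ℝ) / (b i).factorial))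
    (b : Fin k → ℕ) (hb : ∀ i, b i ≤ i) (j : Fin k) :
    ∑ T ∈ Sel M k b, ∑ q ∈ T j, (1 : ℝ) / pT T * (EE T j q).card ≤
      C / Real.log 2 * ((2 * Real.log 2) ^ (∑ i, b i) * ∏ i, (1 : ℝ) / (b i).factorial) *
        ((b j : ℝ) * 2 ^ (∑ i : Fin k, if i ≤ j then b i else 0) / 2 ^ ((j : ℕ) + 1)) := by
  classical
  have hlog : 0 < Real.log 2 := Real.log_pos (by norm_num)
  rcases Nat.eq_zero_or_pos (b j) with h0 | h1
  · have : ∑ T ∈ Sel M k b, ∑ q ∈ T j, (1 : ℝ) / pT T * (EE T j q).card = 0 := by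
      apply Finset.sum_eq_zero
      intro T hT
      have : T j = ∅ := by
        rw [← Finset.card_eq_zero, sel_card hT j, h0]
      rw [this, Finset.sum_empty]
    rw [this, h0]
    simp
  · obtain ⟨c, hc⟩ : ∃ c, b j = c + 1 := ⟨b j - 1, by omega⟩
    refine (Z_bound hC0 hC b j).trans ?_
    set b' := Function.update b j (b j - 1) with hb'
    have hbb : ∀ i, b i = b' i + if i = j then 1 else 0 := by
      intro i
      by_cases hij : i = j
      · subst hij
        simp only [hb', Function.update_self, if_true]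
        omega
      · simp [hb', hij]
    have hb'le : ∀ i, b' i ≤ i := fun i => by
      have := hbb i
      have := hb i
      omega
    have hs : ∑ i, b i = (∑ i, b' i) + 1 := by
      rw [Finset.sum_congr rfl (fun i _ => hbb i), Finset.sum_add_distrib]
      simp
    have hB : (∑ i : Fin k, if i ≤ j then b i else 0) =
        (∑ i : Fin k, if i ≤ j then b' i else 0) + 1 := by
      have : ∀ i : Fin k, (if i ≤ j then b i else 0) = (if i ≤ j then b' i else 0) +
          if i = j then 1 else 0 := by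
        intro i
        rw [hbb i]
        by_cases hij : i = j
        · subst hij; simp
        · simp [hij]
      rw [Finset.sum_congr rfl (fun i _ => this i), Finset.sum_add_distrib]
      simp
    have hLH : ∑ i, b' i = (∑ i : Fin k, if i ≤ j then b' i else 0) +
        ∑ i : Fin k, if i ≤ j then 0 else b' i := by
      rw [← Finset.sum_add_distrib]
      apply Finset.sum_congr rfl
      intro i _
      by_cases h : i ≤ j <;> simp [h]
    have hw : ∏ i, (1 : ℝ) / (b' i).factorial =
        (b j : ℝ) * ∏ i, (1 : ℝ) / (b i).factorial := by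
      have : ∀ i, (1 : ℝ) / (b' i).factorial = (if i = j then (b j : ℝ) else 1) *
          (1 / (b i).factorial) := by
        intro i
        by_cases hij : i = j
        · subst hij
          have e1 : b' i = c := by simp only [hb', Function.update_self]; omega
          rw [e1, if_pos rfl, hc, Nat.factorial_succ]
          have : ((c : ℝ) + 1) ≠ 0 := by positivity
          have h2 : ((c.factorial : ℕ) : ℝ) ≠ 0 := by positivity
          push_cast
          field_simp
        · have : b' i = b i := by simp [hb', hij]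
          rw [this, if_neg hij, one_mul]
      rw [Finset.prod_congr rfl (fun i _ => this i), Finset.prod_mul_distrib]
      congr 1
      rw [Finset.prod_ite_eq']
      simp
    have hsel := hM b' hb'le
    set L := ∑ i : Fin k, if i ≤ j then b' i else 0 with hL
    set H := ∑ i : Fin k, if i ≤ j then 0 else b' i with hH
    set w := ∏ i, (1 : ℝ) / (b i).factorial with hwdef
    have hw0 : 0 ≤ w := by rw [hwdef]; exact Finset.prod_nonneg (fun i _ => by positivity)
    rw [hw, hLH] at hsel
    rw [hs, hLH, hB]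
    have hbj : (0 : ℝ) ≤ b j := by positivity
    have hpow : (1 : ℝ) ≤ 2 ^ M := one_le_pow₀ (by norm_num)
    calc (∑ T ∈ Sel M k b', (1 : ℝ) / pT T) * (4 ^ L * 2 ^ H) * (C / 2 ^ (M + 1 + (j : ℕ)))
        ≤ (4 * (Real.log 2 ^ (L + H) * ((b j : ℝ) * w))) * (4 ^ L * 2 ^ H) *
          (C / 2 ^ (M + 1 + (j : ℕ))) := by
          apply mul_le_mul_of_nonneg_right _ (by positivity)
          apply mul_le_mul_of_nonneg_right hsel (by positivity)
      _ ≤ (4 * (Real.log 2 ^ (L + H) * ((b j : ℝ) * w))) * (4 ^ L * 2 ^ H) *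
          (C / 2 ^ ((j : ℕ) + 1)) := by
          apply mul_le_mul_of_nonneg_left _ (by positivity)
          apply div_le_div_of_nonneg_left hC0.le (by positivity)
          apply pow_le_pow_right₀ (by norm_num)
          omega
      _ = C / Real.log 2 * ((2 * Real.log 2) ^ (L + H + 1) * w) *
        ((b j : ℝ) * 2 ^ (L + 1) / 2 ^ ((j : ℕ) + 1)) := by
          have h4 : (4 : ℝ) ^ L = 2 ^ L * 2 ^ L := by
            rw [← mul_pow]; norm_num
          rw [h4, mul_pow, pow_succ (Real.log 2), pow_succ 2 (L + H), pow_succ 2 L, pow_add 2 L H]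
          field_simp
          ring

/- TARGET -/
/-- G2 -/
theorem sel_W : ∃ (M0 : ℕ) (C : ℝ), 0 < C ∧ ∀ M : ℕ, M0 ≤ M → ∀ (k : ℕ) (b : Fin k → ℕ),
    (∀ i, b i ≤ i) →
    ∑ T ∈ Sel M k b, (Wc (pT T) : ℝ) / pT T ≤
      C * ((2 * Real.log 2) ^ (∑ i, b i) * ∏ i, (1 : ℝ) / (b i).factorial) *
      (1 + ∑ j : Fin k, (b j : ℝ) * 2 ^ (∑ i : Fin k, if i ≤ j then b i else 0) / 2 ^ ((j : ℕ) + 1))
      := by
  classical
  obtain ⟨M0, hM0⟩ := sel_weight
  obtain ⟨C, hC0, hC⟩ := short_group
  have hlog : 0 < Real.log 2 := Real.log_pos (by norm_num)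
  refine ⟨M0, 4 + 2 * (C / Real.log 2), by positivity, ?_⟩
  intro M hM k b hb
  have hMu : ∀ (b : Fin k → ℕ), (∀ i, b i ≤ i) →
      ∑ T ∈ Sel M k b, (1 : ℝ) / pT T ≤
      4 * ((Real.log 2) ^ (∑ i, b i) * ∏ i, (1 : ℝ) / (b i).factorial) :=
    fun b hb => (hM0 M hM k b hb).2
  have hA : ∀ T ∈ Sel M k b, (Wc (pT T) : ℝ) / pT T ≤ 2 ^ (∑ i, b i) * ((1 : ℝ) / pT T) +
      2 * ∑ j, ∑ q ∈ T j, (1 : ℝ) / pT T * (EE T j q).card := by
    intro T hT
    have hsub := sel_sub hT
    have hpos := pT_pos hsub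
    have hW : Wc (pT T) ≤ 2 ^ (∑ i, b i) + 2 * ∑ j, ∑ q ∈ T j, (EE T j q).card := by
      rw [pT_eq hsub]
      refine (Wc_le _ (fun l hl => US_prime hsub hl)).trans (PW_card_le.trans ?_)
      apply Nat.add_le_add_right
      apply Nat.pow_le_pow_right (by norm_num)
      refine Finset.card_biUnion_le.trans ?_
      apply Finset.sum_le_sum
      intro i _
      rw [sel_card hT i]
    have hW' : (Wc (pT T) : ℝ) ≤ 2 ^ (∑ i, b i) + 2 * ∑ j, ∑ q ∈ T j, ((EE T j q).card : ℝ) := by
      exact_mod_cast hW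
    have hp : (0 : ℝ) < pT T := by exact_mod_cast hpos
    simp only [← Finset.mul_sum]
    rw [div_eq_mul_one_div]
    calc (Wc (pT T) : ℝ) * (1 / pT T) ≤
        (2 ^ (∑ i, b i) + 2 * ∑ j, ∑ q ∈ T j, ((EE T j q).card : ℝ)) * (1 / pT T) := by
          apply mul_le_mul_of_nonneg_right hW' (by positivity)
      _ = _ := by ring
  refine (Finset.sum_le_sum hA).trans ?_
  rw [Finset.sum_add_distrib, ← Finset.mul_sum, ← Finset.mul_sum, Finset.sum_comm]
  set w := ∏ i, (1 : ℝ) / (b i).factorial with hwdef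
  have hw0 : 0 ≤ w := by rw [hwdef]; exact Finset.prod_nonneg (fun i _ => by positivity)
  set Q := ∑ j : Fin k, (b j : ℝ) * 2 ^ (∑ i : Fin k, if i ≤ j then b i else 0) /
    2 ^ ((j : ℕ) + 1) with hQ
  have hQ0 : 0 ≤ Q := by rw [hQ]; exact Finset.sum_nonneg (fun i _ => by positivity)
  have h1 : (2 : ℝ) ^ (∑ i, b i) * ∑ T ∈ Sel M k b, (1 : ℝ) / pT T ≤
      4 * ((2 * Real.log 2) ^ (∑ i, b i) * w) := by
    calc (2 : ℝ) ^ (∑ i, b i) * ∑ T ∈ Sel M k b, (1 : ℝ) / pT T ≤
        2 ^ (∑ i, b i) * (4 * ((Real.log 2) ^ (∑ i, b i) * w)) := by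
          apply mul_le_mul_of_nonneg_left (hMu b hb) (by positivity)
      _ = _ := by rw [mul_pow]; ring
  have h2 : ∑ j, ∑ T ∈ Sel M k b, ∑ q ∈ T j, (1 : ℝ) / pT T * (EE T j q).card ≤
      C / Real.log 2 * ((2 * Real.log 2) ^ (∑ i, b i) * w) * Q := by
    rw [hQ, Finset.mul_sum]
    apply Finset.sum_le_sum
    intro j _
    exact Z_final hC0 hC hMu b hb j
  set X := (2 * Real.log 2) ^ (∑ i, b i) * w with hX
  have hX0 : 0 ≤ X := by rw [hX]; positivity
  have hCl : 0 < C / Real.log 2 := by positivity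
  have e1 : 0 ≤ X * Q := mul_nonneg hX0 hQ0
  have e2 : 0 ≤ C / Real.log 2 * X := mul_nonneg hCl.le hX0
  have e3 : 0 ≤ C / Real.log 2 * X * Q := mul_nonneg e2 hQ0
  nlinarith [h1, h2]

end Pool.Agent.Helper112.LP.KsW

namespace Pool.Agent.Helper112.LP

/-- G2 -/
theorem sel_W : ∃ (M0 : ℕ) (C : ℝ), 0 < C ∧ ∀ M : ℕ, M0 ≤ M → ∀ (k : ℕ) (b : Fin k → ℕ),
    (∀ i, b i ≤ i) →
    ∑ T ∈ Sel M k b, (Wc (pT T) : ℝ) / pT T ≤
      C * ((2 * Real.log 2) ^ (∑ i, b i) * ∏ i, (1 : ℝ) / (b i).factorial) *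
      (1 + ∑ j : Fin k, (b j : ℝ) * 2 ^ (∑ i : Fin k, if i ≤ j then b i else 0) / 2 ^ ((j : ℕ) + 1))
      := by
  first
    | exact KsW.sel_W
    | (apply KsW.sel_W <;> assumption)

end Pool.Agent.Helper112.LP
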