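import Pool.Agent.Helper112.Lp.Defs
import Pool.Agent.Helper112.Lp.Kgl
import Pool.Agent.Helper112.Lp.Kpk
import Pool.Agent.Helper112.Lp.KsW
import Pool.Agent.Helper112.Lp.Ksw
import Pool.Agent.Helper112.Lp.Kvs

open Finset

namespace Pool.Agent.Helper112.LP.Kfl

/- helper lemmas -/
theorem fam_b_le {k : ℕ} {b : Fin k → ℕ} (hb : PathOK 0 1 b) (i : Fin k) : b i ≤ i := by
  have h := hb.1 ((i : ℕ) + 1) (mem_Icc.2 ⟨by omega, by have := i.2; omega⟩)
  have h1 : b i ≤ ∑ j : Fin k, if (j : ℕ) < (i : ℕ) + 1 then b j else 0 := by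
    have := Finset.single_le_sum (f := fun j : Fin k => if (j : ℕ) < (i : ℕ) + 1 then b j else 0)
      (fun j _ => Nat.zero_le _) (mem_univ i)
    simpa using this
  omega

theorem Gj_prime {j l : ℕ} (h : l ∈ Gj j) : l.Prime := (mem_filter.1 h).2

theorem Gj_lt {j l : ℕ} (h : l ∈ Gj j) : l < 2 ^ 2 ^ j := (mem_Ico.1 (mem_filter.1 h).1).2

theorem Gj_disj {M i j l : ℕ} (hij : i < j) (h : l ∈ Gj (M + 1 + i)) (h' : l ∈ Gj (M + 1 + j)) :
    False := by
  have h1 := Gj_lt h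
  have h2 := (mem_Ico.1 (mem_filter.1 h').1).1
  have h3 : 2 ^ 2 ^ (M + 1 + i) ≤ 2 ^ 2 ^ (M + 1 + j - 1) :=
    Nat.pow_le_pow_right (by norm_num) (Nat.pow_le_pow_right (by norm_num) (by omega))
  omega

/-- all selected primes -/
def UT {k : ℕ} (T : Fin k → Finset ℕ) : Finset ℕ := univ.biUnion T

theorem fam_disj {M k : ℕ} {T : Fin k → Finset ℕ} (hT : ∀ i, T i ⊆ Gj (M + 1 + i)) {i j : Fin k}
    (hij : i ≠ j) : Disjoint (T i) (T j) := by
  rw [Finset.disjoint_left]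
  intro l hl hl'
  rcases lt_or_gt_of_ne (fun h => hij (Fin.ext h) : (i : ℕ) ≠ j) with h | h
  · exact Gj_disj h (hT i hl) (hT j hl')
  · exact Gj_disj h (hT j hl') (hT i hl)

theorem pT_eq {M k : ℕ} {T : Fin k → Finset ℕ} (hT : ∀ i, T i ⊆ Gj (M + 1 + i)) :
    pT T = ∏ l ∈ UT T, l := by
  unfold pT UT
  rw [Finset.prod_biUnion]
  intro i _ j _ hij
  exact fam_disj hT hij

theorem UT_prime {M k : ℕ} {T : Fin k → Finset ℕ} (hT : ∀ i, T i ⊆ Gj (M + 1 + i)) :
    ∀ l ∈ UT T, l.Prime := by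
  intro l hl
  obtain ⟨i, -, h⟩ := mem_biUnion.1 hl
  exact Gj_prime (hT i h)

theorem pT_pf {M k : ℕ} {T : Fin k → Finset ℕ} (hT : ∀ i, T i ⊆ Gj (M + 1 + i)) :
    (pT T).primeFactors = UT T := by
  rw [pT_eq hT]
  exact Nat.primeFactors_prod (UT_prime hT)

theorem T_eq {M k : ℕ} {T : Fin k → Finset ℕ} (hT : ∀ i, T i ⊆ Gj (M + 1 + i)) (i : Fin k) :
    T i = UT T ∩ Gj (M + 1 + i) := by
  ext l
  rw [mem_inter]
  constructor
  · intro h
    exact ⟨mem_biUnion.2 ⟨i, mem_univ _, h⟩, hT i h⟩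
  · rintro ⟨h, h'⟩
    obtain ⟨j, -, hj⟩ := mem_biUnion.1 h
    by_cases hij : (i : ℕ) = j
    · have : i = j := Fin.ext hij
      rwa [this]
    · exfalso
      rcases lt_or_gt_of_ne hij with h1 | h1
      · exact Gj_disj h1 h' (hT j hj)
      · exact Gj_disj h1 (hT j hj) h'

theorem pT_inj {M k : ℕ} {T T' : Fin k → Finset ℕ} (hT : ∀ i, T i ⊆ Gj (M + 1 + i))
    (hT' : ∀ i, T' i ⊆ Gj (M + 1 + i)) (h : pT T = pT T') : T = T' := by
  have h1 : UT T = UT T' := by rw [← pT_pf hT, ← pT_pf hT', h]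
  funext i
  rw [T_eq hT i, T_eq hT' i, h1]

theorem pT_pos {M k : ℕ} {T : Fin k → Finset ℕ} (hT : ∀ i, T i ⊆ Gj (M + 1 + i)) : 1 ≤ pT T := by
  rw [pT_eq hT]
  exact Finset.prod_pos (fun l hl => (UT_prime hT l hl).pos)

theorem card_div_prod (S : Finset ℕ) (hS : ∀ l ∈ S, l.Prime) :
    (∏ l ∈ S, l).divisors.card = 2 ^ S.card := by
  induction S using Finset.induction_on with
  | empty => simp
  | insert a S ha ih =>
    have hS' : ∀ l ∈ S, l.Prime := fun l hl => hS l (mem_insert_of_mem hl)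
    have hap : a.Prime := hS a (mem_insert_self _ _)
    rw [Finset.prod_insert ha, Finset.card_insert_of_notMem ha, pow_succ]
    have hc : a.Coprime (∏ l ∈ S, l) := by
      rw [Nat.coprime_prod_right_iff]
      intro l hl
      exact (Nat.coprime_primes hap (hS' l hl)).2 (fun h => ha (h ▸ hl))
    rw [hc.card_divisors_mul, ih hS', hap.divisors, Finset.card_pair hap.one_lt.ne, mul_comm]

theorem tau_pT {M k : ℕ} {T : Fin k → Finset ℕ} (hT : ∀ i, T i ⊆ Gj (M + 1 + i)) :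
    (pT T).divisors.card = 2 ^ (∑ i, (T i).card) := by
  rw [pT_eq hT, card_div_prod _ (UT_prime hT)]
  congr 1
  exact Finset.card_biUnion (fun i _ j _ hij => fam_disj hT hij)

theorem tau_sq_le (a : ℕ) : a.divisors.card ^ 2 ≤ ell a * Wc a := by
  classical
  set t := a.divisors.image (Nat.log 2) with ht
  set nv : ℕ → ℕ := fun v => (a.divisors.filter (fun d => Nat.log 2 d = v)).card with hnv
  have h1 : a.divisors.card = ∑ v ∈ t, nv v :=
    Finset.card_eq_sum_card_fiberwise (fun d hd => mem_image_of_mem _ hd)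
  have h2 : Wc a = ∑ v ∈ t, nv v ^ 2 := by
    unfold Wc
    rw [Finset.card_eq_sum_card_fiberwise (f := fun d : ℕ × ℕ => Nat.log 2 d.1) (t := t)]
    · apply Finset.sum_congr rfl
      intro v _
      have : ((a.divisors ×ˢ a.divisors).filter (fun d => Nat.log 2 d.1 = Nat.log 2 d.2)).filter
          (fun d => Nat.log 2 d.1 = v)
          = (a.divisors.filter (fun d => Nat.log 2 d = v)) ×ˢ
            (a.divisors.filter (fun d => Nat.log 2 d = v)) := by
        ext ⟨x, y⟩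
        simp only [mem_filter, mem_product]
        constructor
        · rintro ⟨⟨⟨hx, hy⟩, h⟩, h'⟩
          exact ⟨⟨hx, h'⟩, hy, h ▸ h'⟩
        · rintro ⟨⟨hx, h'⟩, hy, h⟩
          exact ⟨⟨⟨hx, hy⟩, by rw [h, h']⟩, h'⟩
      rw [this, Finset.card_product, hnv, pow_two]
    · intro d hd
      have hd' := (mem_filter.1 (Finset.mem_coe.1 hd)).1
      exact Finset.mem_coe.2 (mem_image_of_mem _ (mem_product.1 hd').1)
  rw [h1, h2]
  exact sq_sum_le_card_mul_sum_sq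

theorem pT_le {M k : ℕ} {T : Fin k → Finset ℕ} (hT : ∀ i, T i ⊆ Gj (M + 1 + i)) :
    pT T ≤ 2 ^ (2 ^ M * ∑ i : Fin k, (T i).card * 2 ^ ((i : ℕ) + 1)) := by
  unfold pT
  rw [Finset.mul_sum, ← Finset.prod_pow_eq_pow_sum]
  apply Finset.prod_le_prod' 
  intro i _
  calc ∏ l ∈ T i, l ≤ ∏ _l ∈ T i, 2 ^ 2 ^ (M + 1 + (i : ℕ)) :=
        Finset.prod_le_prod' (fun l hl => (Gj_lt (hT i hl)).le)
    _ = 2 ^ (2 ^ M * ((T i).card * 2 ^ ((i : ℕ) + 1))) := by
        rw [Finset.prod_const, ← pow_mul]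
        congr 1
        rw [show M + 1 + (i : ℕ) = M + ((i : ℕ) + 1) by ring, pow_add]
        ring

theorem sel_sub {M k : ℕ} {b : Fin k → ℕ} {T : Fin k → Finset ℕ} (h : T ∈ Sel M k b) :
    (∀ i, T i ⊆ Gj (M + 1 + i)) ∧ ∀ i, (T i).card = b i := by
  have h1 := Fintype.mem_piFinset.1 h
  exact ⟨fun i => (mem_powersetCard.1 (h1 i)).1, fun i => (mem_powersetCard.1 (h1 i)).2⟩

/- TARGET -/
/-- FL -/
theorem ford_lower : ∃ (c : ℝ) (M D : ℕ), 0 < c ∧ ∀ k : ℕ, 1 ≤ k → ∃ A : Finset ℕ,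
    (∀ a ∈ A, 1 ≤ a ∧ (∀ l ∈ a.primeFactors, l < 2 ^ 2 ^ (k + M)) ∧ a ≤ 2 ^ (D * 2 ^ k)) ∧
    c * ((2 * Real.exp 1 * Real.log 2) ^ k / (k * Real.sqrt k)) ≤ ∑ a ∈ A, (ell a : ℝ) / a := by
  classical
  obtain ⟨c1, C1, hc1, hC1, h1⟩ := gw_one
  obtain ⟨C2, hC2, h2⟩ := park_second
  obtain ⟨C3, hC3, h3⟩ := park_size
  obtain ⟨Ma, hMa⟩ := sel_weight
  obtain ⟨Mb, C4, hC4, hMb⟩ := sel_W
  obtain ⟨M, hMa', hMb'⟩ : ∃ M, Ma ≤ M ∧ Mb ≤ M := ⟨max Ma Mb, le_max_left _ _, le_max_right _ _⟩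
  obtain ⟨D, hD⟩ := exists_nat_gt (32 * 2 ^ M * C3 / c1)
  have hD0 : (0 : ℝ) < D := lt_trans (by positivity) hD
  have hlam0 : 0 < Real.log 2 := Real.log_pos (by norm_num)
  have hlam1 : Real.log 2 ≤ 1 := by have := Real.log_two_lt_d9; linarith
  refine ⟨c1 ^ 2 / (128 * (C4 * (C1 + C2))), M, D, by positivity, fun k hk => ?_⟩
  have hk0 : (0 : ℝ) < k := by exact_mod_cast hk
  have hsk : 0 < Real.sqrt k := Real.sqrt_pos.2 hk0
  set lam := Real.log 2 with hlam
  clear_value lam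
  have hP0' : 0 < Real.exp k / (k * Real.sqrt k) := by positivity
  set P := Real.exp k / (k * Real.sqrt k) with hP
  have hP0 : 0 < P := hP0'
  have h2' := h2 k hk
  have h3' := h3 k hk
  rw [← hP] at h2' h3'
  obtain ⟨g1, g2, g3⟩ := h1 k hk
  have hgw := park_weight k
  rw [g1] at hgw
  rw [← hP] at g2 g3
  clear_value P
  set w : (Fin k → ℕ) → ℝ := fun b => ∏ i, (1 : ℝ) / (b i).factorial with hwdef
  have hw : ∀ b, 0 ≤ w b := fun b => Finset.prod_nonneg (fun i _ => by positivity)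
  set Fam := (Park k).biUnion (fun b => Sel M k b) with hFam
  have hpark : ∀ b ∈ Park k, (∀ i, b i ≤ i) ∧ ∑ i, b i = k - 1 := by
    intro b hb
    have hb' : PathOK 0 1 b := (mem_filter.1 hb).2
    refine ⟨fam_b_le hb', ?_⟩
    have := hb'.2
    omega
  have hdisj : (↑(Park k) : Set (Fin k → ℕ)).PairwiseDisjoint (fun b => Sel M k b) := by
    intro b _ b' _ hbb'
    show Disjoint _ _
    rw [Finset.disjoint_left]
    intro T hT hT'
    apply hbb'
    funext i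
    rw [← (sel_sub hT).2 i, ← (sel_sub hT').2 i]
  have hsumFam : ∀ f : (Fin k → Finset ℕ) → ℝ,
      ∑ T ∈ Fam, f T = ∑ b ∈ Park k, ∑ T ∈ Sel M k b, f T := fun f => Finset.sum_biUnion hdisj
  have hFsub : ∀ T ∈ Fam, (∀ i, T i ⊆ Gj (M + 1 + i)) ∧ ∑ i, (T i).card = k - 1 := by
    intro T hT
    obtain ⟨b, hb, hT'⟩ := mem_biUnion.1 hT
    refine ⟨(sel_sub hT').1, ?_⟩
    rw [Finset.sum_congr rfl (fun i _ => (sel_sub hT').2 i)]
    exact (hpark b hb).2
  have hpT : ∀ T ∈ Fam, (0 : ℝ) < pT T := fun T hT => by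
    exact_mod_cast pT_pos (hFsub T hT).1
  -- lower bound for the full sum
  have hS1 : c1 / 4 * lam ^ (k - 1) * P ≤ ∑ T ∈ Fam, (1 : ℝ) / pT T := by
    rw [hsumFam]
    calc c1 / 4 * lam ^ (k - 1) * P = 1 / 4 * lam ^ (k - 1) * (c1 * P) := by ring
      _ ≤ 1 / 4 * lam ^ (k - 1) * ((k : ℝ) ^ (k - 1) / k.factorial) := by
        apply mul_le_mul_of_nonneg_left g2; positivity
      _ = ∑ b ∈ Park k, 1 / 4 * (lam ^ (k - 1) * w b) := by
        rw [← hgw, Finset.mul_sum]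
        apply Finset.sum_congr rfl
        intro b _
        ring
      _ ≤ ∑ b ∈ Park k, ∑ T ∈ Sel M k b, (1 : ℝ) / pT T := by
        apply Finset.sum_le_sum
        intro b hb
        have h5 := (hMa M hMa' k b (hpark b hb).1).1
        rw [(hpark b hb).2] at h5
        exact h5
  obtain ⟨bd, hbd⟩ : ∃ bd : ℕ, bd = 2 ^ (D * 2 ^ k) := ⟨_, rfl⟩
  rw [← hbd]
  obtain ⟨F', hF'⟩ : ∃ F' : Finset (Fin k → Finset ℕ), F' = Fam.filter (fun T => pT T ≤ bd) :=
    ⟨_, rfl⟩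
  obtain ⟨Fx, hFx⟩ : ∃ Fx : Finset (Fin k → Finset ℕ), Fx = Fam.filter (fun T => ¬ pT T ≤ bd) :=
    ⟨_, rfl⟩
  have hFs : F' ⊆ Fam := by rw [hF']; exact Finset.filter_subset _ _
  have hFxs : Fx ⊆ Fam := by rw [hFx]; exact Finset.filter_subset _ _
  have hFm : ∀ T ∈ F', T ∈ Fam ∧ pT T ≤ bd := by
    intro T hT; rw [hF'] at hT; exact mem_filter.1 hT
  have hFxm : ∀ T ∈ Fx, T ∈ Fam ∧ ¬ pT T ≤ bd := by
    intro T hT; rw [hFx] at hT; exact mem_filter.1 hT
  -- the discarded part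
  have hE : ∑ T ∈ Fx, (1 : ℝ) / pT T
      ≤ c1 / 8 * lam ^ (k - 1) * P := by
    obtain ⟨s, hs⟩ : ∃ s : (Fin k → ℕ) → ℝ,
      s = fun b => ∑ j : Fin k, (b j : ℝ) * 2 ^ ((j : ℕ) + 1) / 2 ^ k := ⟨_, rfl⟩
    have hs0 : ∀ b, 0 ≤ s b := fun b => by
      rw [hs]
      exact Finset.sum_nonneg (fun j _ => by positivity)
    have h3s : ∑ b ∈ Park k, w b * s b ≤ C3 * P := by
      rw [hs]; exact h3'
    have hMD : (0 : ℝ) ≤ 2 ^ M / D := by positivity
    have e1 : ∀ T ∈ Fx,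
        (1 : ℝ) / pT T ≤ 2 ^ M / D * (s (fun i => (T i).card) * (1 / pT T)) := by
      intro T hT
      obtain ⟨hTF, hT2⟩ := hFxm T hT
      have h6 := pT_le (hFsub T hTF).1
      have h7 : 2 ^ (D * 2 ^ k) < 2 ^ (2 ^ M * ∑ i : Fin k, (T i).card * 2 ^ ((i : ℕ) + 1)) :=
        hbd ▸ lt_of_lt_of_le (not_le.1 hT2) h6
      have h8 : D * 2 ^ k < 2 ^ M * ∑ i : Fin k, (T i).card * 2 ^ ((i : ℕ) + 1) :=
        (Nat.pow_lt_pow_iff_right (by norm_num)).1 h7
      have h9 : (D : ℝ) * 2 ^ k ≤ 2 ^ M * ∑ i : Fin k, ((T i).card : ℝ) * 2 ^ ((i : ℕ) + 1) := by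
        exact_mod_cast h8.le
      have h10 : s (fun i => (T i).card)
          = (∑ i : Fin k, ((T i).card : ℝ) * 2 ^ ((i : ℕ) + 1)) / 2 ^ k := by
        simp only [hs]
        rw [Finset.sum_div]
      have h11 : (1 : ℝ) ≤ 2 ^ M / D * s (fun i => (T i).card) := by
        rw [h10, div_mul_div_comm, le_div_iff₀ (by positivity), one_mul]
        exact h9
      have h12 := hpT T hTF
      calc (1 : ℝ) / pT T = 1 * (1 / pT T) := by ring
        _ ≤ (2 ^ M / D * s (fun i => (T i).card)) * (1 / pT T) := by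
          apply mul_le_mul_of_nonneg_right h11; positivity
        _ = _ := by ring
    calc ∑ T ∈ Fx, (1 : ℝ) / pT T
        ≤ ∑ T ∈ Fx,
          2 ^ M / D * (s (fun i => (T i).card) * (1 / pT T)) := Finset.sum_le_sum e1
      _ ≤ ∑ T ∈ Fam, 2 ^ M / D * (s (fun i => (T i).card) * (1 / pT T)) := by
        apply Finset.sum_le_sum_of_subset_of_nonneg hFxs
        intro T hT _
        exact mul_nonneg hMD (mul_nonneg (hs0 _) (one_div_nonneg.2 (hpT T hT).le))
      _ = 2 ^ M / D * ∑ b ∈ Park k, s b * ∑ T ∈ Sel M k b, (1 : ℝ) / pT T := by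
        rw [← Finset.mul_sum, hsumFam]
        congr 1
        apply Finset.sum_congr rfl
        intro b _
        rw [Finset.mul_sum]
        apply Finset.sum_congr rfl
        intro T hT
        have : (fun i => (T i).card) = b := funext (sel_sub hT).2
        rw [this]
      _ ≤ 2 ^ M / D * ∑ b ∈ Park k, s b * (4 * (lam ^ (k - 1) * w b)) := by
        apply mul_le_mul_of_nonneg_left _ (by positivity)
        apply Finset.sum_le_sum
        intro b hb
        apply mul_le_mul_of_nonneg_left _ (hs0 b)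
        have h5 := (hMa M hMa' k b (hpark b hb).1).2
        rw [(hpark b hb).2] at h5
        exact h5
      _ = 2 ^ M / D * (4 * lam ^ (k - 1)) * ∑ b ∈ Park k, w b * s b := by
        rw [mul_assoc, Finset.mul_sum, Finset.mul_sum, Finset.mul_sum]
        apply Finset.sum_congr rfl
        intro b _
        ring
      _ ≤ 2 ^ M / D * (4 * lam ^ (k - 1)) * (C3 * P) := by
        exact mul_le_mul_of_nonneg_left h3s (by positivity)
      _ = (4 * 2 ^ M * C3 / D) * (lam ^ (k - 1) * P) := by ring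
      _ ≤ (c1 / 8) * (lam ^ (k - 1) * P) := by
        apply mul_le_mul_of_nonneg_right _ (by positivity)
        rw [div_lt_iff₀ hc1] at hD
        rw [div_le_iff₀ hD0]
        nlinarith
      _ = _ := by ring
  have hS1' : c1 / 8 * lam ^ (k - 1) * P ≤ ∑ T ∈ F', (1 : ℝ) / pT T := by
    have h5 := Finset.sum_filter_add_sum_filter_not Fam (fun T => pT T ≤ bd)
      (fun T => (1 : ℝ) / pT T)
    rw [← hF', ← hFx] at h5
    have h6 : c1 / 4 * lam ^ (k - 1) * P = c1 / 8 * lam ^ (k - 1) * P + c1 / 8 * lam ^ (k - 1) * P := by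
      ring
    rw [h6] at hS1
    linarith
  -- the sum of Wc
  have hSW : ∑ T ∈ F', (Wc (pT T) : ℝ) / pT T ≤ C4 * (C1 + C2) * ((2 * lam) ^ (k - 1) * P) := by
    obtain ⟨q, hq⟩ : ∃ q : (Fin k → ℕ) → ℝ, q = fun b =>
      ∑ j : Fin k, (b j : ℝ) * 2 ^ (∑ i : Fin k, if i ≤ j then b i else 0) / 2 ^ ((j : ℕ) + 1) :=
      ⟨_, rfl⟩
    have h2q : ∑ b ∈ Park k, w b * q b ≤ C2 * P := by
      rw [hq]; exact h2'
    calc ∑ T ∈ F', (Wc (pT T) : ℝ) / pT T ≤ ∑ T ∈ Fam, (Wc (pT T) : ℝ) / pT T := by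
          apply Finset.sum_le_sum_of_subset_of_nonneg hFs
          intro T hT _
          exact div_nonneg (Nat.cast_nonneg _) (hpT T hT).le
      _ = ∑ b ∈ Park k, ∑ T ∈ Sel M k b, (Wc (pT T) : ℝ) / pT T := hsumFam _
      _ ≤ ∑ b ∈ Park k, C4 * ((2 * lam) ^ (k - 1) * w b) * (1 + q b) := by
          apply Finset.sum_le_sum
          intro b hb
          have h5 := hMb M hMb' k b (hpark b hb).1
          rw [(hpark b hb).2] at h5
          rw [hq]
          exact h5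
      _ = C4 * (2 * lam) ^ (k - 1) * (∑ b ∈ Park k, w b + ∑ b ∈ Park k, w b * q b) := by
          rw [← Finset.sum_add_distrib, Finset.mul_sum]
          apply Finset.sum_congr rfl
          intro b _
          ring
      _ ≤ C4 * (2 * lam) ^ (k - 1) * (C1 * P + C2 * P) := by
          apply mul_le_mul_of_nonneg_left _ (by positivity)
          apply add_le_add
          · rw [hgw]; exact g3
          · exact h2q
      _ = _ := by ring
  have hCS : (∑ T ∈ F', (2 : ℝ) ^ (k - 1) / pT T) ^ 2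
      ≤ (∑ T ∈ F', (ell (pT T) : ℝ) / pT T) * ∑ T ∈ F', (Wc (pT T) : ℝ) / pT T := by
    apply Finset.sum_sq_le_sum_mul_sum_of_sq_le_mul
    · intro T _; positivity
    · intro T _; positivity
    · intro T hT
      have hTF := hFs hT
      have h5 := hpT T hTF
      have h6 := tau_sq_le (pT T)
      rw [tau_pT (hFsub T hTF).1, (hFsub T hTF).2] at h6
      have h7 : ((2 : ℝ) ^ (k - 1)) ^ 2 ≤ ell (pT T) * Wc (pT T) := by exact_mod_cast h6
      rw [div_pow, div_mul_div_comm, ← pow_two]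
      exact div_le_div_of_nonneg_right h7 (by positivity)
  refine ⟨F'.image pT, ?_, ?_⟩
  · intro a ha
    obtain ⟨T, hT, rfl⟩ := mem_image.1 ha
    obtain ⟨hTF, hT2⟩ := hFm T hT
    have h5 := (hFsub T hTF).1
    refine ⟨pT_pos h5, ?_, hT2⟩
    intro l hl
    rw [pT_pf h5] at hl
    obtain ⟨i, -, hi⟩ := mem_biUnion.1 hl
    refine lt_of_lt_of_le (Gj_lt (h5 i hi)) ?_
    apply Nat.pow_le_pow_right (by norm_num)
    apply Nat.pow_le_pow_right (by norm_num)
    have := i.2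
    omega
  · rw [Finset.sum_image]
    · set X := ∑ T ∈ F', (ell (pT T) : ℝ) / pT T with hX
      set Y := ∑ T ∈ F', (Wc (pT T) : ℝ) / pT T with hY
      have hX0 : 0 ≤ X := Finset.sum_nonneg (fun T _ => by positivity)
      have e1 : (c1 / 8 * lam ^ (k - 1) * P * 2 ^ (k - 1)) ^ 2 ≤ X * Y := by
        refine le_trans ?_ hCS
        apply pow_le_pow_left₀ (by positivity)
        have : ∑ T ∈ F', (2 : ℝ) ^ (k - 1) / pT T = (∑ T ∈ F', (1 : ℝ) / pT T) * 2 ^ (k - 1) := by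
          rw [Finset.sum_mul]
          apply Finset.sum_congr rfl
          intro T _
          ring
        rw [this]
        exact mul_le_mul_of_nonneg_right hS1' (by positivity)
      have e2 : (c1 / 8 * lam ^ (k - 1) * P * 2 ^ (k - 1)) ^ 2
          ≤ X * (C4 * (C1 + C2) * ((2 * lam) ^ (k - 1) * P)) :=
        e1.trans (mul_le_mul_of_nonneg_left hSW hX0)
      have e3 : c1 ^ 2 / 64 * ((2 * lam) ^ (k - 1) * P) ≤ X * (C4 * (C1 + C2)) := by
        have hpos : 0 < (2 * lam) ^ (k - 1) * P := by positivity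
        have e4 : (c1 ^ 2 / 64 * ((2 * lam) ^ (k - 1) * P)) * ((2 * lam) ^ (k - 1) * P)
            ≤ (X * (C4 * (C1 + C2))) * ((2 * lam) ^ (k - 1) * P) := by
          refine le_trans (le_of_eq ?_) (e2.trans (le_of_eq ?_))
          · rw [mul_pow 2 lam]; ring
          · ring
        exact le_of_mul_le_mul_right e4 hpos
      have e5 : (2 * Real.exp 1 * lam) ^ k / (k * Real.sqrt k) = (2 * lam) ^ k * P := by
        have hexp : Real.exp (k : ℝ) = Real.exp 1 ^ k := by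
          rw [← Real.exp_nat_mul, mul_one]
        rw [hP, show 2 * Real.exp 1 * lam = (2 * lam) * Real.exp 1 by ring, mul_pow, hexp]
        ring
      have e6 : (2 * lam) ^ k ≤ 2 * (2 * lam) ^ (k - 1) := by
        obtain ⟨m, rfl⟩ : ∃ m, k = m + 1 := ⟨k - 1, by omega⟩
        rw [Nat.add_sub_cancel, pow_succ]
        have : 0 ≤ (2 * lam) ^ m := by positivity
        nlinarith
      rw [e5]
      have e7 : 0 < C4 * (C1 + C2) := by positivity
      rw [div_mul_eq_mul_div, div_le_iff₀ (by positivity)]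
      calc c1 ^ 2 * ((2 * lam) ^ k * P) ≤ c1 ^ 2 * ((2 * (2 * lam) ^ (k - 1)) * P) := by
            apply mul_le_mul_of_nonneg_left _ (by positivity)
            exact mul_le_mul_of_nonneg_right e6 hP0.le
        _ = 128 * (c1 ^ 2 / 64 * ((2 * lam) ^ (k - 1) * P)) := by ring
        _ ≤ 128 * (X * (C4 * (C1 + C2))) := by linarith
        _ = _ := by ring
    · intro T hT T' hT' h
      exact pT_inj (hFsub T (hFs (Finset.mem_coe.1 hT))).1
        (hFsub T' (hFs (Finset.mem_coe.1 hT'))).1 h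

end Pool.Agent.Helper112.LP.Kfl

namespace Pool.Agent.Helper112.LP

/-- FL -/
theorem ford_lower : ∃ (c : ℝ) (M D : ℕ), 0 < c ∧ ∀ k : ℕ, 1 ≤ k → ∃ A : Finset ℕ,
    (∀ a ∈ A, 1 ≤ a ∧ (∀ l ∈ a.primeFactors, l < 2 ^ 2 ^ (k + M)) ∧ a ≤ 2 ^ (D * 2 ^ k)) ∧
    c * ((2 * Real.exp 1 * Real.log 2) ^ k / (k * Real.sqrt k)) ≤ ∑ a ∈ A, (ell a : ℝ) / a := by
  first
    | exact Kfl.ford_lower
    | (apply Kfl.ford_lower <;> assumption)

end Pool.Agent.Helper112.LP
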