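import Pool.Agent.Helper112.Lp.Defs

open Finset

namespace Pool.Agent.Helper112.LP.Kk1

section KL
variable {p : ℕ} [Fact p.Prime]

noncomputable def KS (p : ℕ) [Fact p.Prime] (h k : ZMod p) : ℂ :=
  ∑ x : (ZMod p)ˣ, (ZMod.stdAddChar (h * (x : ZMod p) + k * ((x⁻¹ : (ZMod p)ˣ) : ZMod p)) : ℂ)

lemma ks_scale (h k : ZMod p) (u : (ZMod p)ˣ) :
    KS p (h * u) (k * ((u⁻¹ : (ZMod p)ˣ) : ZMod p)) = KS p h k := by
  unfold KS
  refine Fintype.sum_equiv (Equiv.mulLeft u) _ _ ?_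
  intro x
  simp only [Equiv.coe_mulLeft, mul_inv, Units.val_mul]
  congr 1
  ring

lemma sum_char (a : ZMod p) :
    ∑ h : ZMod p, (ZMod.stdAddChar (h * a) : ℂ) = if a = 0 then (p : ℂ) else 0 := by
  have h1 := AddChar.sum_mulShift (R := ZMod p) (R' := ℂ) a (ZMod.isPrimitive_stdAddChar p)
  rw [h1, ZMod.card]
  split_ifs <;> simp

lemma sum_units (a : ZMod p) (ha : a ≠ 0) :
    ∑ x : (ZMod p)ˣ, (ZMod.stdAddChar (a * (x : ZMod p)) : ℂ) = -1 := by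
  have h1 := sum_char (p := p) a
  rw [if_neg ha] at h1
  have h2 : ∑ x : (ZMod p)ˣ, (ZMod.stdAddChar (a * (x : ZMod p)) : ℂ)
      = ∑ x ∈ (univ : Finset (ZMod p)).filter (fun x => x ≠ 0), (ZMod.stdAddChar (x * a) : ℂ) := by
    refine Finset.sum_bij (fun x _ => (x : ZMod p)) ?_ ?_ ?_ ?_
    · intro x _; simp
    · intro x _ y _ hxy; exact Units.ext hxy
    · intro b hb
      have hb' : b ≠ 0 := by simpa using hb
      exact ⟨Units.mk0 b hb', by simp, rfl⟩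
    · intro x _; rw [mul_comm]
  rw [h2]
  have h3 := Finset.sum_filter_add_sum_filter_not (univ : Finset (ZMod p)) (fun x => x ≠ 0)
    (fun x => (ZMod.stdAddChar (x * a) : ℂ))
  rw [h1] at h3
  have h4 : ∑ x ∈ (univ : Finset (ZMod p)).filter (fun x => ¬ x ≠ 0), (ZMod.stdAddChar (x * a) : ℂ) = 1 := by
    have : (univ : Finset (ZMod p)).filter (fun x => ¬ x ≠ 0) = {0} := by
      ext x; simp
    rw [this]; simp
  rw [h4] at h3
  linear_combination h3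

def QQ (p : ℕ) [Fact p.Prime] : Finset (((ZMod p)ˣ × (ZMod p)ˣ) × ((ZMod p)ˣ × (ZMod p)ˣ)) :=
  univ.filter (fun z => ((z.1.1 : ZMod p) + (z.1.2 : ZMod p) - (z.2.1 : ZMod p) - (z.2.2 : ZMod p) = 0) ∧
    (((z.1.1⁻¹ : (ZMod p)ˣ) : ZMod p) + ((z.1.2⁻¹ : (ZMod p)ˣ) : ZMod p)
      - ((z.2.1⁻¹ : (ZMod p)ˣ) : ZMod p) - ((z.2.2⁻¹ : (ZMod p)ˣ) : ZMod p) = 0))

lemma conj_char (a : ZMod p) : (starRingEnd ℂ) (ZMod.stdAddChar a : ℂ) = ZMod.stdAddChar (-a) := by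
  rw [AddChar.map_neg_eq_conj]

lemma ks_fourth (h k : ZMod p) :
    (KS p h k) ^ 2 * (starRingEnd ℂ) ((KS p h k) ^ 2) =
    ∑ z : ((ZMod p)ˣ × (ZMod p)ˣ) × ((ZMod p)ˣ × (ZMod p)ˣ),
      (ZMod.stdAddChar (h * ((z.1.1 : ZMod p) + (z.1.2 : ZMod p) - (z.2.1 : ZMod p) - (z.2.2 : ZMod p))) : ℂ) *
      (ZMod.stdAddChar (k * (((z.1.1⁻¹ : (ZMod p)ˣ) : ZMod p) + ((z.1.2⁻¹ : (ZMod p)ˣ) : ZMod p)
      - ((z.2.1⁻¹ : (ZMod p)ˣ) : ZMod p) - ((z.2.2⁻¹ : (ZMod p)ˣ) : ZMod p))) : ℂ) := by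
  have h1 : (KS p h k) ^ 2 = ∑ z : (ZMod p)ˣ × (ZMod p)ˣ,
      (ZMod.stdAddChar (h * ((z.1 : ZMod p) + (z.2 : ZMod p))
        + k * (((z.1⁻¹ : (ZMod p)ˣ) : ZMod p) + ((z.2⁻¹ : (ZMod p)ˣ) : ZMod p))) : ℂ) := by
    rw [sq]; unfold KS
    rw [Fintype.sum_mul_sum, Fintype.sum_prod_type]
    refine Finset.sum_congr rfl (fun x _ => Finset.sum_congr rfl (fun y _ => ?_))
    rw [← AddChar.map_add_eq_mul]
    congr 1; ring
  rw [h1, map_sum, Fintype.sum_mul_sum]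
  refine Eq.trans ?_ (Fintype.sum_prod_type' (f := fun (x y : (ZMod p)ˣ × (ZMod p)ˣ) =>
      (ZMod.stdAddChar (h * ((x.1 : ZMod p) + (x.2 : ZMod p) - (y.1 : ZMod p) - (y.2 : ZMod p))) : ℂ) *
      (ZMod.stdAddChar (k * (((x.1⁻¹ : (ZMod p)ˣ) : ZMod p) + ((x.2⁻¹ : (ZMod p)ˣ) : ZMod p)
      - ((y.1⁻¹ : (ZMod p)ˣ) : ZMod p) - ((y.2⁻¹ : (ZMod p)ˣ) : ZMod p))) : ℂ))).symm
  refine Finset.sum_congr rfl (fun x _ => Finset.sum_congr rfl (fun y _ => ?_))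
  rw [conj_char, ← AddChar.map_add_eq_mul, ← AddChar.map_add_eq_mul]
  congr 1; ring

lemma fourth_moment :
    ∑ h : ZMod p, ∑ k : ZMod p, (KS p h k) ^ 2 * (starRingEnd ℂ) ((KS p h k) ^ 2)
      = (p : ℂ) ^ 2 * ((QQ p).card : ℂ) := by
  simp_rw [ks_fourth]
  have h1 : ∀ h : ZMod p, ∑ k : ZMod p, ∑ z : ((ZMod p)ˣ × (ZMod p)ˣ) × ((ZMod p)ˣ × (ZMod p)ˣ),
      (ZMod.stdAddChar (h * ((z.1.1 : ZMod p) + (z.1.2 : ZMod p) - (z.2.1 : ZMod p) - (z.2.2 : ZMod p))) : ℂ) *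
      (ZMod.stdAddChar (k * (((z.1.1⁻¹ : (ZMod p)ˣ) : ZMod p) + ((z.1.2⁻¹ : (ZMod p)ˣ) : ZMod p)
      - ((z.2.1⁻¹ : (ZMod p)ˣ) : ZMod p) - ((z.2.2⁻¹ : (ZMod p)ˣ) : ZMod p))) : ℂ)
      = ∑ z : ((ZMod p)ˣ × (ZMod p)ˣ) × ((ZMod p)ˣ × (ZMod p)ˣ),
      (ZMod.stdAddChar (h * ((z.1.1 : ZMod p) + (z.1.2 : ZMod p) - (z.2.1 : ZMod p) - (z.2.2 : ZMod p))) : ℂ) *
      (if (((z.1.1⁻¹ : (ZMod p)ˣ) : ZMod p) + ((z.1.2⁻¹ : (ZMod p)ˣ) : ZMod p)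
      - ((z.2.1⁻¹ : (ZMod p)ˣ) : ZMod p) - ((z.2.2⁻¹ : (ZMod p)ˣ) : ZMod p)) = 0 then (p : ℂ) else 0) := by
    intro h
    rw [Finset.sum_comm]
    refine Finset.sum_congr rfl (fun z _ => ?_)
    rw [← Finset.mul_sum, sum_char]
  simp_rw [h1]
  rw [Finset.sum_comm]
  simp_rw [← Finset.sum_mul, sum_char]
  have h2 : ∀ z : ((ZMod p)ˣ × (ZMod p)ˣ) × ((ZMod p)ˣ × (ZMod p)ˣ),
     (if ((z.1.1 : ZMod p) + (z.1.2 : ZMod p) - (z.2.1 : ZMod p) - (z.2.2 : ZMod p)) = 0 then (p : ℂ) else 0) *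
      (if (((z.1.1⁻¹ : (ZMod p)ˣ) : ZMod p) + ((z.1.2⁻¹ : (ZMod p)ˣ) : ZMod p)
      - ((z.2.1⁻¹ : (ZMod p)ˣ) : ZMod p) - ((z.2.2⁻¹ : (ZMod p)ˣ) : ZMod p)) = 0 then (p : ℂ) else 0)
      = if (((z.1.1 : ZMod p) + (z.1.2 : ZMod p) - (z.2.1 : ZMod p) - (z.2.2 : ZMod p) = 0) ∧
    (((z.1.1⁻¹ : (ZMod p)ˣ) : ZMod p) + ((z.1.2⁻¹ : (ZMod p)ˣ) : ZMod p)
      - ((z.2.1⁻¹ : (ZMod p)ˣ) : ZMod p) - ((z.2.2⁻¹ : (ZMod p)ˣ) : ZMod p) = 0)) then (p : ℂ)^2 else 0 := by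
    intro z
    by_cases ha : ((z.1.1 : ZMod p) + (z.1.2 : ZMod p) - (z.2.1 : ZMod p) - (z.2.2 : ZMod p)) = 0
    · by_cases hb : (((z.1.1⁻¹ : (ZMod p)ˣ) : ZMod p) + ((z.1.2⁻¹ : (ZMod p)ˣ) : ZMod p)
      - ((z.2.1⁻¹ : (ZMod p)ˣ) : ZMod p) - ((z.2.2⁻¹ : (ZMod p)ˣ) : ZMod p)) = 0
      · rw [if_pos ha, if_pos hb, if_pos ⟨ha, hb⟩, sq]
      · rw [if_neg hb, mul_zero, eq_comm, if_neg (fun hc => hb (And.right hc))]
    · rw [if_neg ha, zero_mul, eq_comm, if_neg (fun hc => ha (And.left hc))]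
  simp_rw [h2]
  rw [← Finset.sum_filter, Finset.sum_const, nsmul_eq_mul, mul_comm]
  rfl

lemma card_QQ : (QQ p).card ≤ 3 * (p - 1) ^ 2 := by
  classical
  have hc : Fintype.card (ZMod p)ˣ = p - 1 := ZMod.card_units p
  let U := (univ : Finset ((ZMod p)ˣ × (ZMod p)ˣ))
  have hU : U.card = (p - 1) ^ 2 := by
    simp only [U, Finset.card_univ, Fintype.card_prod, hc]; ring
  have hsub : QQ p ⊆ (U.image (fun z => (z, z))) ∪ ((U.image (fun z => (z, (z.2, z.1)))) ∪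
      (U.image (fun z => ((z.1, -z.1), (z.2, -z.2))))) := by
    rintro ⟨⟨a, b⟩, ⟨c, d⟩⟩ hz
    simp only [QQ, mem_filter, mem_univ, true_and] at hz
    obtain ⟨h1, h2⟩ := hz
    simp only [mem_union, mem_image, U, mem_univ, true_and, Prod.exists, Prod.mk.injEq]
    have ha := a.ne_zero
    have hb := b.ne_zero
    have hcc := c.ne_zero
    have hd := d.ne_zero
    simp only [Units.val_inv_eq_inv_val] at h2
    by_cases hs : (a : ZMod p) + b = 0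
    · right; right
      refine ⟨a, c, ⟨rfl, ?_⟩, rfl, ?_⟩
      · ext; push_cast; linear_combination -hs
      · ext; push_cast; linear_combination -hs + h1
    · have h3 : (a : ZMod p) * b = c * d := by
        have h4 : ((a : ZMod p) + b) * (c * d - a * b) = 0 := by
          field_simp at h2
          linear_combination h2 - (a : ZMod p) * b * h1
        rcases mul_eq_zero.mp h4 with h5 | h5
        · exact absurd h5 hs
        · linear_combination -h5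
      have h6 : ((c : ZMod p) - a) * (c - b) = 0 := by
        linear_combination -(c : ZMod p) * h1 + h3
      rcases mul_eq_zero.mp h6 with h7 | h7
      · left
        refine ⟨a, b, ⟨rfl, rfl⟩, ?_, ?_⟩
        · ext; linear_combination -h7
        · ext; linear_combination h1 + h7
      · right; left
        refine ⟨a, b, ⟨rfl, rfl⟩, ?_, ?_⟩
        · ext; linear_combination -h7
        · ext; linear_combination h1 + h7
  calc (QQ p).card ≤ _ := card_le_card hsub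
    _ ≤ U.card + (U.card + U.card) := by
        refine (card_union_le _ _).trans ?_
        gcongr
        · exact card_image_le
        · refine (card_union_le _ _).trans ?_
          gcongr
          · exact card_image_le
          · exact card_image_le
    _ = 3 * (p - 1) ^ 2 := by rw [hU]; ring

lemma norm_fourth (h k : ZMod p) :
    (KS p h k) ^ 2 * (starRingEnd ℂ) ((KS p h k) ^ 2) = ((‖KS p h k‖ ^ 4 : ℝ) : ℂ) := by
  rw [Complex.mul_conj, Complex.normSq_eq_norm_sq, norm_pow]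
  congr 1; ring

lemma fourth_real : ∑ h : ZMod p, ∑ k : ZMod p, ‖KS p h k‖ ^ 4 = (p : ℝ) ^ 2 * ((QQ p).card : ℝ) := by
  have h := fourth_moment (p := p)
  simp_rw [norm_fourth] at h
  exact_mod_cast h

lemma ks_main (h k : ZMod p) (hh : h ≠ 0) (hk : k ≠ 0) : ‖KS p h k‖ ^ 4 ≤ 16 * (p : ℝ) ^ 3 := by
  classical
  have h2 : (1 : ℝ) < p := by exact_mod_cast (Fact.out : p.Prime).one_lt
  have h1 : ((p : ℝ) - 1) * ‖KS p h k‖ ^ 4 ≤ ∑ h : ZMod p, ∑ k : ZMod p, ‖KS p h k‖ ^ 4 := by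
    have e1 : ((p : ℝ) - 1) * ‖KS p h k‖ ^ 4
        = ∑ u : (ZMod p)ˣ, ‖KS p (h * u) (k * ((u⁻¹ : (ZMod p)ˣ) : ZMod p))‖ ^ 4 := by
      simp_rw [ks_scale]
      rw [Finset.sum_const, nsmul_eq_mul, Finset.card_univ, ZMod.card_units,
        Nat.cast_sub (Fact.out : p.Prime).one_lt.le]
      simp
    rw [e1, ← Fintype.sum_prod_type' (f := fun h k => ‖KS p h k‖ ^ 4)]
    have inj : Function.Injective (fun u : (ZMod p)ˣ => ((h * u, k * ((u⁻¹ : (ZMod p)ˣ) : ZMod p)) : ZMod p × ZMod p)) := by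
      intro u v huv
      simp only [Prod.mk.injEq] at huv
      exact Units.ext (mul_left_cancel₀ hh huv.1)
    calc _ = ∑ z ∈ (univ : Finset (ZMod p)ˣ).image (fun u : (ZMod p)ˣ => ((h * u, k * ((u⁻¹ : (ZMod p)ˣ) : ZMod p)) : ZMod p × ZMod p)),
            ‖KS p z.1 z.2‖ ^ 4 := by
          rw [Finset.sum_image (fun x _ y _ hxy => inj hxy)]
      _ ≤ _ := Finset.sum_le_sum_of_subset_of_nonneg (subset_univ _) (fun _ _ _ => by positivity)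
  rw [fourth_real] at h1
  have h3 : ((QQ p).card : ℝ) ≤ 3 * ((p : ℝ) - 1) ^ 2 := by
    have := card_QQ (p := p)
    have h4 : ((QQ p).card : ℝ) ≤ ((3 * (p - 1) ^ 2 : ℕ) : ℝ) := by exact_mod_cast this
    rw [Nat.cast_mul, Nat.cast_pow, Nat.cast_sub (Fact.out : p.Prime).one_lt.le] at h4
    simpa using h4
  have h5 : ((p : ℝ) - 1) * ‖KS p h k‖ ^ 4 ≤ ((p : ℝ) - 1) * (3 * (p : ℝ) ^ 2 * ((p : ℝ) - 1)) := by
    calc _ ≤ (p : ℝ) ^ 2 * ((QQ p).card : ℝ) := h1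
      _ ≤ (p : ℝ) ^ 2 * (3 * ((p : ℝ) - 1) ^ 2) := by gcongr
      _ = _ := by ring
  have h6 := le_of_mul_le_mul_left h5 (by linarith)
  nlinarith [h6, sq_nonneg (p : ℝ), mul_pos (mul_pos (by linarith : (0:ℝ) < p) (by linarith : (0:ℝ) < p)) (by linarith : (0:ℝ) < p)]

end KL

/- TARGET -/
/-- K1: Kloosterman's bound -/
theorem kloosterman (p : ℕ) [Fact p.Prime] (h k : ZMod p) (hk : h ≠ 0 ∨ k ≠ 0) :
    ‖∑ x : (ZMod p)ˣ, (ZMod.stdAddChar (h * (x : ZMod p) + k * ((x⁻¹ : (ZMod p)ˣ) : ZMod p)) : ℂ)‖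
      ≤ 2 * (p : ℝ) ^ (3 / 4 : ℝ) := by
  have h2 : (1 : ℝ) < p := by exact_mod_cast (Fact.out : p.Prime).one_lt
  have hone : (1 : ℝ) ≤ 2 * (p : ℝ) ^ (3 / 4 : ℝ) := by
    have : (1 : ℝ) ≤ (p : ℝ) ^ (3 / 4 : ℝ) := Real.one_le_rpow h2.le (by norm_num)
    linarith
  by_cases hh : h = 0
  · subst hh
    have hk' : k ≠ 0 := by simpa using hk
    have : ∑ x : (ZMod p)ˣ, (ZMod.stdAddChar ((0 : ZMod p) * (x : ZMod p) + k * ((x⁻¹ : (ZMod p)ˣ) : ZMod p)) : ℂ) = -1 := by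
      rw [← sum_units k hk']
      refine Fintype.sum_equiv (Equiv.inv _) _ _ ?_
      intro x
      rw [zero_mul, zero_add, Equiv.inv_apply]
    rw [this, norm_neg, norm_one]; exact hone
  by_cases hk0 : k = 0
  · subst hk0
    have : ∑ x : (ZMod p)ˣ, (ZMod.stdAddChar (h * (x : ZMod p) + (0 : ZMod p) * ((x⁻¹ : (ZMod p)ˣ) : ZMod p)) : ℂ) = -1 := by
      rw [← sum_units h hh]
      refine Finset.sum_congr rfl (fun x _ => ?_)
      rw [zero_mul, add_zero]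
    rw [this, norm_neg, norm_one]; exact hone
  · have h4 := ks_main h k hh hk0
    change ‖KS p h k‖ ≤ _
    have h5 : (2 * (p : ℝ) ^ (3 / 4 : ℝ)) ^ 4 = 16 * (p : ℝ) ^ 3 := by
      rw [mul_pow]
      have : ((p : ℝ) ^ (3 / 4 : ℝ)) ^ 4 = (p : ℝ) ^ 3 := by
        rw [← Real.rpow_natCast ((p : ℝ) ^ (3 / 4 : ℝ)) 4, ← Real.rpow_mul (by linarith),
          ← Real.rpow_natCast (p : ℝ) 3]
        norm_num
      rw [this]; norm_num
    rw [← h5] at h4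
    exact le_of_pow_le_pow_left₀ (by norm_num) (by positivity) h4

end Pool.Agent.Helper112.LP.Kk1

namespace Pool.Agent.Helper112.LP

/-- K1: Kloosterman's bound -/
theorem kloosterman (p : ℕ) [Fact p.Prime] (h k : ZMod p) (hk : h ≠ 0 ∨ k ≠ 0) :
    ‖∑ x : (ZMod p)ˣ, (ZMod.stdAddChar (h * (x : ZMod p) + k * ((x⁻¹ : (ZMod p)ˣ) : ZMod p)) : ℂ)‖
      ≤ 2 * (p : ℝ) ^ (3 / 4 : ℝ) := by
  first
    | exact Kk1.kloosterman
    | (apply Kk1.kloosterman <;> assumption)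

end Pool.Agent.Helper112.LP
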