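import Pool.Agent.Helper112.Lp.Defs
import Pool.Agent.Helper112.Lp.Kk1

open Finset

namespace Pool.Agent.Helper112.LP.Kk2

/- helper lemmas for K2 -/
section K2

variable {p : ℕ}

/-- exponential sum over an interval -/
noncomputable def FI (p : ℕ) [NeZero p] (A U : ℕ) (h : ZMod p) : ℂ :=
  ∑ s ∈ Ioc A (A + U), (ZMod.stdAddChar (-(h * (s : ZMod p))) : ℂ)

lemma orth [NeZero p] (a : ZMod p) :
    ∑ h : ZMod p, (ZMod.stdAddChar (h * a) : ℂ) = if a = 0 then (p : ℂ) else 0 := by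
  have := AddChar.sum_mulShift a (ZMod.isPrimitive_stdAddChar p)
  rw [this, ZMod.card]
  split_ifs <;> simp

lemma ind_eq [NeZero p] (A U : ℕ) (a : ZMod p) :
    (∑ s ∈ Ioc A (A + U), if a = (s : ZMod p) then (1 : ℂ) else 0)
      = (1 / p) * ∑ h : ZMod p, (ZMod.stdAddChar (h * a) : ℂ) * FI p A U h := by
  have hp : (p : ℂ) ≠ 0 := by exact_mod_cast NeZero.ne p
  unfold FI
  simp_rw [Finset.mul_sum (s := Ioc A (A + U))]
  rw [Finset.sum_comm, Finset.mul_sum]
  apply Finset.sum_congr rfl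
  intro s _
  have h1 : ∀ h : ZMod p, (ZMod.stdAddChar (h * a) : ℂ) * ZMod.stdAddChar (-(h * (s : ZMod p)))
      = ZMod.stdAddChar (h * (a - (s : ZMod p))) := by
    intro h
    rw [← AddChar.map_add_eq_mul]; congr 1; ring
  simp_rw [h1]
  rw [orth]
  by_cases h : a = s
  · rw [if_pos h, if_pos (by rw [h, sub_self])]; field_simp
  · rw [if_neg h, if_neg (sub_ne_zero.mpr h)]; ring

lemma count_eq [Fact p.Prime] (r A U B V : ℕ) (hr : r.Coprime p) :
    ((((Ioc A (A + U) ×ˢ Ioc B (B + V)).filter (fun st => st.1 * st.2 ≡ r [MOD p])).card : ℕ) : ℂ)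
      = (1 / (p : ℂ) ^ 2) * ∑ h : ZMod p, ∑ k : ZMod p,
        (∑ x : (ZMod p)ˣ, (ZMod.stdAddChar (h * (x : ZMod p)
          + (k * (r : ZMod p)) * ((x⁻¹ : (ZMod p)ˣ) : ZMod p)) : ℂ)) * FI p A U h * FI p B V k := by
  have hp : (p : ℂ) ≠ 0 := by exact_mod_cast NeZero.ne p
  have hru : IsUnit (r : ZMod p) := (ZMod.isUnit_iff_coprime r p).mpr hr
  -- step 1
  have s1 : ((((Ioc A (A + U) ×ˢ Ioc B (B + V)).filter
      (fun st => st.1 * st.2 ≡ r [MOD p])).card : ℕ) : ℂ)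
      = ∑ x : (ZMod p)ˣ, (∑ s ∈ Ioc A (A + U), if (x : ZMod p) = (s : ZMod p) then (1 : ℂ) else 0)
        * (∑ t ∈ Ioc B (B + V), if (r : ZMod p) * ((x⁻¹ : (ZMod p)ˣ) : ZMod p) = (t : ZMod p)
            then (1 : ℂ) else 0) := by
    rw [Finset.card_filter, Finset.sum_product]
    simp only [Nat.cast_sum, Nat.cast_ite, Nat.cast_one, Nat.cast_zero]
    simp_rw [Finset.sum_mul_sum]
    rw [Finset.sum_comm (s := (Finset.univ : Finset (ZMod p)ˣ))]
    apply Finset.sum_congr rfl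
    intro s _
    rw [Finset.sum_comm (s := (Finset.univ : Finset (ZMod p)ˣ))]
    apply Finset.sum_congr rfl
    intro t _
    have hiff : (s * t ≡ r [MOD p]) ↔ ((s : ZMod p) * t = r) := by
      rw [← ZMod.natCast_eq_natCast_iff]; push_cast; rfl
    by_cases h : (s : ZMod p) * t = r
    · rw [if_pos (hiff.mpr h)]
      have hsu : IsUnit (s : ZMod p) := by
        rw [← h] at hru; exact isUnit_of_mul_isUnit_left hru
      obtain ⟨u, hu⟩ := hsu
      rw [Finset.sum_eq_single u]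
      · rw [if_pos hu, if_pos]
        · ring
        · rw [← h, ← hu]
          calc (u : ZMod p) * t * ((u⁻¹ : (ZMod p)ˣ) : ZMod p)
              = (u * ((u⁻¹ : (ZMod p)ˣ) : ZMod p)) * t := by ring
            _ = t := by rw [Units.mul_inv, one_mul]
      · intro v _ hv
        rw [if_neg]
        · ring
        · intro hv'
          apply hv
          apply Units.ext
          rw [hv', hu]
      · intro hu'; exact absurd (Finset.mem_univ _) hu'
    · rw [if_neg (fun hh => h (hiff.mp hh))]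
      symm
      apply Finset.sum_eq_zero
      intro x _
      by_cases h1 : (x : ZMod p) = s
      · rw [if_neg (c := (r : ZMod p) * ((x⁻¹ : (ZMod p)ˣ) : ZMod p) = t)]
        · ring
        · intro h2
          apply h
          rw [← h1, ← h2]
          calc (x : ZMod p) * ((r : ZMod p) * ((x⁻¹ : (ZMod p)ˣ) : ZMod p))
              = (x * ((x⁻¹ : (ZMod p)ˣ) : ZMod p)) * r := by ring
            _ = r := by rw [Units.mul_inv, one_mul]
      · rw [if_neg h1]; ring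
  rw [s1]
  simp_rw [ind_eq]
  have s2 : ∀ x : (ZMod p)ˣ,
      (1 / (p : ℂ) * ∑ h : ZMod p, (ZMod.stdAddChar (h * (x : ZMod p)) : ℂ) * FI p A U h)
      * (1 / (p : ℂ) * ∑ h : ZMod p,
          (ZMod.stdAddChar (h * ((r : ZMod p) * ((x⁻¹ : (ZMod p)ˣ) : ZMod p))) : ℂ) * FI p B V h)
      = (1 / (p : ℂ) ^ 2) * ∑ h : ZMod p, ∑ k : ZMod p,
        (ZMod.stdAddChar (h * (x : ZMod p) + (k * (r : ZMod p)) * ((x⁻¹ : (ZMod p)ˣ) : ZMod p)) : ℂ)
          * FI p A U h * FI p B V k := by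
    intro x
    rw [show ∀ a b c d : ℂ, a * b * (c * d) = (a * c) * (b * d) by intros; ring]
    rw [Finset.sum_mul_sum]
    congr 1
    · ring
    · apply Finset.sum_congr rfl
      intro h _
      apply Finset.sum_congr rfl
      intro k _
      rw [AddChar.map_add_eq_mul, mul_assoc k (r : ZMod p)]
      ring
  simp_rw [s2]
  rw [← Finset.mul_sum, Finset.sum_comm]
  congr 1
  apply Finset.sum_congr rfl
  intro h _
  rw [Finset.sum_comm]
  apply Finset.sum_congr rfl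
  intro k _
  rw [Finset.sum_mul, Finset.sum_mul]

lemma FI_zero [NeZero p] (A U : ℕ) : FI p A U 0 = U := by
  unfold FI; simp

lemma norm_char [NeZero p] (a : ZMod p) : ‖(ZMod.stdAddChar a : ℂ)‖ = 1 := by
  rw [ZMod.stdAddChar_apply]; exact Circle.norm_coe _

lemma one_sub_ge [Fact p.Prime] (h : ZMod p) (hh : h ≠ 0) :
    4 * min (h.val : ℝ) (p - h.val : ℝ) / p ≤ ‖(1 : ℂ) - ZMod.stdAddChar (-h)‖ := by
  have hp : 0 < (p : ℝ) := by exact_mod_cast (Fact.out : p.Prime).pos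
  have e1 : (ZMod.stdAddChar (-h) : ℂ) = Complex.exp (Complex.I * ((-(2 * Real.pi * h.val / p) : ℝ) : ℂ)) := by
    have : (-h : ZMod p) = ((-(h.val : ℤ) : ℤ) : ZMod p) := by
      push_cast; rw [ZMod.natCast_zmod_val]
    rw [this, ZMod.stdAddChar_coe]
    congr 1; push_cast; ring
  rw [e1, norm_sub_rev, Complex.norm_exp_I_mul_ofReal_sub_one, Real.norm_eq_abs, abs_mul, abs_two]
  have e2 : -(2 * Real.pi * h.val / p) / 2 = -(Real.pi * h.val / p) := by ring
  rw [e2, Real.sin_neg, abs_neg]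
  have hv : (h.val : ℝ) < p := by exact_mod_cast ZMod.val_lt h
  have hv0 : 0 ≤ (h.val : ℝ) := Nat.cast_nonneg _
  rcases le_total (h.val : ℝ) (p / 2) with hle | hle
  · have h1 : |Real.pi * h.val / p| ≤ Real.pi / 2 := by
      rw [abs_of_nonneg (by positivity), div_le_div_iff₀ hp (by norm_num)]
      nlinarith [Real.pi_pos]
    have h2 := Real.mul_abs_le_abs_sin h1
    rw [abs_of_nonneg (show (0:ℝ) ≤ Real.pi * h.val / p by positivity)] at h2
    have h3 : 2 / Real.pi * (Real.pi * h.val / p) = 2 * h.val / p := by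
      field_simp
    rw [h3] at h2
    calc 4 * min (h.val : ℝ) (p - h.val : ℝ) / p ≤ 4 * h.val / p := by
          apply div_le_div_of_nonneg_right _ hp.le
          nlinarith [min_le_left (h.val : ℝ) (p - h.val : ℝ)]
      _ = 2 * (2 * h.val / p) := by ring
      _ ≤ _ := by linarith
  · have e3 : Real.sin (Real.pi * h.val / p) = Real.sin (Real.pi * (p - h.val) / p) := by
      rw [← Real.sin_pi_sub]; congr 1; field_simp
    rw [e3]
    have h1 : |Real.pi * (p - h.val) / p| ≤ Real.pi / 2 := by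
      rw [abs_of_nonneg (by apply div_nonneg _ hp.le; apply mul_nonneg Real.pi_pos.le; linarith),
        div_le_div_iff₀ hp (by norm_num)]
      nlinarith [Real.pi_pos]
    have h2 := Real.mul_abs_le_abs_sin h1
    rw [abs_of_nonneg (show (0:ℝ) ≤ Real.pi * (p - h.val) / p by
      apply div_nonneg _ hp.le; apply mul_nonneg Real.pi_pos.le; linarith)] at h2
    have h3 : 2 / Real.pi * (Real.pi * (p - h.val) / p) = 2 * (p - h.val) / p := by
      field_simp
    rw [h3] at h2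
    calc 4 * min (h.val : ℝ) (p - h.val : ℝ) / p ≤ 4 * (p - h.val) / p := by
          apply div_le_div_of_nonneg_right _ hp.le
          nlinarith [min_le_right (h.val : ℝ) (p - h.val : ℝ)]
      _ = 2 * (2 * (p - h.val) / p) := by ring
      _ ≤ _ := by linarith

lemma FI_le [Fact p.Prime] (A U : ℕ) (h : ZMod p) (hh : h ≠ 0) :
    ‖FI p A U h‖ ≤ p / 2 * (1 / (h.val : ℝ) + 1 / (p - h.val : ℝ)) := by
  have hp : 0 < (p : ℝ) := by exact_mod_cast (Fact.out : p.Prime).pos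
  have hv : (h.val : ℝ) < p := by exact_mod_cast ZMod.val_lt h
  have hv0 : 0 < (h.val : ℝ) := by
    have : h.val ≠ 0 := by rwa [Ne, ZMod.val_eq_zero]
    positivity
  set ρ : ℂ := ZMod.stdAddChar (-h) with hρ
  have e1 : FI p A U h = ρ ^ (A + 1) * ∑ i ∈ range U, ρ ^ i := by
    unfold FI
    have : Ioc A (A + U) = (range U).map (addLeftEmbedding (A + 1)) := by
      ext x
      simp only [Finset.mem_Ioc, Finset.mem_map, Finset.mem_range, addLeftEmbedding_apply]
      constructor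
      · intro hx; exact ⟨x - (A + 1), by omega, by omega⟩
      · rintro ⟨a, ha, rfl⟩; omega
    rw [this, Finset.sum_map, Finset.mul_sum]
    apply Finset.sum_congr rfl
    intro i _
    rw [← pow_add, hρ, ← AddChar.map_nsmul_eq_pow]
    congr 1
    simp only [addLeftEmbedding_apply, nsmul_eq_mul]
    push_cast; ring
  have h1 := one_sub_ge h hh
  rw [← hρ] at h1
  set mn := min (h.val : ℝ) (p - h.val : ℝ) with hmn
  have hmn0 : 0 < mn := lt_min hv0 (by linarith)
  have hn0 : 0 < ‖1 - ρ‖ := lt_of_lt_of_le (by positivity) h1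
  have h2 : ‖∑ i ∈ range U, ρ ^ i‖ * ‖1 - ρ‖ ≤ 2 := by
    rw [← norm_mul, geom_sum_mul_neg]
    refine (norm_sub_le _ _).trans ?_
    rw [norm_one, norm_pow, hρ, norm_char, one_pow]; norm_num
  have h3 : ‖∑ i ∈ range U, ρ ^ i‖ ≤ p / 2 * (1 / mn) := by
    have h4 : ‖∑ i ∈ range U, ρ ^ i‖ ≤ 2 / ‖1 - ρ‖ := by
      rw [le_div_iff₀ hn0]; exact h2
    refine h4.trans ?_
    have h5 : 2 / ‖1 - ρ‖ ≤ 2 / (4 * mn / p) := div_le_div_of_nonneg_left (by norm_num) (by positivity) h1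
    refine h5.trans (le_of_eq ?_)
    field_simp
    norm_num
  rw [e1, norm_mul, norm_pow, hρ, norm_char, one_pow, one_mul, ← hρ]
  refine h3.trans ?_
  apply mul_le_mul_of_nonneg_left _ (by positivity)
  rcases min_choice (h.val : ℝ) (p - h.val : ℝ) with h6 | h6
  · rw [hmn, h6]
    have : 0 ≤ 1 / (p - h.val : ℝ) := by apply div_nonneg zero_le_one; linarith
    linarith
  · rw [hmn, h6]
    have : 0 ≤ 1 / (h.val : ℝ) := by positivity
    linarith

lemma sum_FI_le [Fact p.Prime] (A U : ℕ) (hU : U ≤ p) :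
    ∑ h : ZMod p, ‖FI p A U h‖ ≤ 2 * p * (1 + Real.log p) := by
  have hpp : p.Prime := Fact.out
  have hp : 0 < (p : ℝ) := by exact_mod_cast hpp.pos
  have hp1 : 1 ≤ (p : ℝ) := by exact_mod_cast hpp.one_lt.le
  have hlog : 0 ≤ Real.log p := Real.log_nonneg hp1
  rw [← Finset.add_sum_erase _ _ (Finset.mem_univ (0 : ZMod p)), FI_zero]
  have h0 : ‖(U : ℂ)‖ ≤ p := by
    rw [Complex.norm_natCast]; exact_mod_cast hU
  have hH : ∑ i ∈ range (p - 1), (1 : ℝ) / ((i : ℝ) + 1) ≤ 1 + Real.log p := by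
    have h1 := harmonic_le_one_add_log (p - 1)
    have h2 : ((harmonic (p - 1) : ℚ) : ℝ) = ∑ i ∈ range (p - 1), (1 : ℝ) / ((i : ℝ) + 1) := by
      unfold harmonic; push_cast
      apply Finset.sum_congr rfl; intro i _; rw [one_div]
    rw [h2] at h1
    refine h1.trans ?_
    have h3 : Real.log ((p - 1 : ℕ) : ℝ) ≤ Real.log p := by
      apply Real.log_le_log
      · have : 1 ≤ p - 1 := by have := hpp.two_le; omega
        exact_mod_cast this
      · exact_mod_cast Nat.sub_le _ _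
    linarith
  have h1 : ∑ h ∈ Finset.univ.erase (0 : ZMod p), ‖FI p A U h‖
      ≤ ∑ h ∈ Finset.univ.erase (0 : ZMod p), p / 2 * (1 / (h.val : ℝ) + 1 / (p - h.val : ℝ)) := by
    apply Finset.sum_le_sum
    intro h hh
    exact FI_le A U h (Finset.ne_of_mem_erase hh)
  have h2 : ∑ h ∈ Finset.univ.erase (0 : ZMod p), (p : ℝ) / 2 * (1 / (h.val : ℝ) + 1 / (p - h.val : ℝ))
      = ∑ i ∈ range (p - 1), (p : ℝ) / 2 * (1 / ((i : ℝ) + 1) + 1 / (p - ((i : ℝ) + 1))) := by
    apply Finset.sum_bij' (fun (h : ZMod p) _ => h.val - 1) (fun (i : ℕ) _ => ((i + 1 : ℕ) : ZMod p))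
    · intro h hh
      have hne : h.val ≠ 0 := by
        rw [Ne, ZMod.val_eq_zero]; exact Finset.ne_of_mem_erase hh
      have := ZMod.val_lt h
      rw [Finset.mem_range]; omega
    · intro i hi
      rw [Finset.mem_range] at hi
      rw [Finset.mem_erase]
      refine ⟨?_, Finset.mem_univ _⟩
      intro h0
      rw [ZMod.natCast_eq_zero_iff] at h0
      have := Nat.le_of_dvd (by omega) h0
      omega
    · intro h hh
      have hne : h.val ≠ 0 := by
        rw [Ne, ZMod.val_eq_zero]; exact Finset.ne_of_mem_erase hh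
      rw [show h.val - 1 + 1 = h.val by omega, ZMod.natCast_zmod_val]
    · intro i hi
      rw [Finset.mem_range] at hi
      rw [ZMod.val_natCast, Nat.mod_eq_of_lt (by omega)]; omega
    · intro h hh
      have hne : h.val ≠ 0 := by
        rw [Ne, ZMod.val_eq_zero]; exact Finset.ne_of_mem_erase hh
      have e : ((h.val - 1 : ℕ) : ℝ) + 1 = h.val := by
        have : h.val - 1 + 1 = h.val := by omega
        exact_mod_cast this
      rw [e]
  have h3 : ∑ i ∈ range (p - 1), (p : ℝ) / 2 * (1 / ((i : ℝ) + 1) + 1 / (p - ((i : ℝ) + 1)))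
      = (p : ℝ) / 2 * (∑ i ∈ range (p - 1), (1 : ℝ) / ((i : ℝ) + 1)
        + ∑ i ∈ range (p - 1), (1 : ℝ) / ((i : ℝ) + 1)) := by
    rw [← Finset.mul_sum, Finset.sum_add_distrib]
    congr 2
    rw [← Finset.sum_range_reflect]
    apply Finset.sum_congr rfl
    intro i hi
    rw [Finset.mem_range] at hi
    congr 1
    have : ((p - 1 - 1 - i : ℕ) : ℝ) = (p : ℝ) - 1 - 1 - i := by
      rw [Nat.cast_sub (by omega), Nat.cast_sub (by omega), Nat.cast_sub (by omega)]; push_cast; ring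
    rw [this]; ring
  rw [h2, h3] at h1
  have h4 : (p : ℝ) / 2 * (∑ i ∈ range (p - 1), (1 : ℝ) / ((i : ℝ) + 1)
        + ∑ i ∈ range (p - 1), (1 : ℝ) / ((i : ℝ) + 1)) ≤ p * (1 + Real.log p) := by
    have : (p : ℝ) / 2 * (∑ i ∈ range (p - 1), (1 : ℝ) / ((i : ℝ) + 1)
        + ∑ i ∈ range (p - 1), (1 : ℝ) / ((i : ℝ) + 1))
        = p * ∑ i ∈ range (p - 1), (1 : ℝ) / ((i : ℝ) + 1) := by ring
    rw [this]
    exact mul_le_mul_of_nonneg_left hH hp.le
  nlinarith

end K2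

/- TARGET -/
/-- K2: box counts -/
theorem box_count : ∃ C : ℝ, 0 < C ∧ ∀ p : ℕ, p.Prime → ∀ r A U B V : ℕ, r.Coprime p →
    A + U ≤ p → B + V ≤ p →
    |(((Ioc A (A + U) ×ˢ Ioc B (B + V)).filter (fun st => st.1 * st.2 ≡ r [MOD p])).card : ℝ)
      - (U : ℝ) * V / p| ≤ C * (p : ℝ) ^ (3 / 4 : ℝ) * (1 + Real.log p) ^ 2 := by
  refine ⟨9, by norm_num, ?_⟩
  intro p hpp r A U B V hr hA hB
  have : Fact p.Prime := ⟨hpp⟩
  have hp : 0 < (p : ℝ) := by exact_mod_cast hpp.pos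
  have hp1 : 1 ≤ (p : ℝ) := by exact_mod_cast hpp.one_lt.le
  have hpc : (p : ℂ) ≠ 0 := by exact_mod_cast hpp.ne_zero
  have hlog : 0 ≤ Real.log p := Real.log_nonneg hp1
  have hru : (r : ZMod p) ≠ 0 := ((ZMod.isUnit_iff_coprime r p).mpr hr).ne_zero
  set N : ℕ := ((Ioc A (A + U) ×ˢ Ioc B (B + V)).filter (fun st => st.1 * st.2 ≡ r [MOD p])).card with hN
  have hc := count_eq (p := p) r A U B V hr
  rw [← hN] at hc
  set G : ZMod p × ZMod p → ℂ := fun hk =>
    (∑ x : (ZMod p)ˣ, (ZMod.stdAddChar (hk.1 * (x : ZMod p)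
          + (hk.2 * (r : ZMod p)) * ((x⁻¹ : (ZMod p)ˣ) : ZMod p)) : ℂ)) * FI p A U hk.1 * FI p B V hk.2 with hG
  have hc2 : (N : ℂ) = (1 / (p : ℂ) ^ 2) * ∑ hk : ZMod p × ZMod p, G hk := by
    rw [hc, Fintype.sum_prod_type]
  rw [← Finset.add_sum_erase _ _ (Finset.mem_univ ((0, 0) : ZMod p × ZMod p))] at hc2
  have hG0 : G (0, 0) = (p - 1 : ℂ) * U * V := by
    simp only [hG, FI_zero, zero_mul, add_zero, AddChar.map_zero_eq_one, Finset.sum_const,
      Finset.card_univ, ZMod.card_units_eq_totient, Nat.totient_prime hpp, nsmul_eq_mul, mul_one]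
    rw [Nat.cast_sub hpp.one_lt.le, Nat.cast_one]
  rw [hG0] at hc2
  set R : ℂ := ∑ hk ∈ Finset.univ.erase ((0, 0) : ZMod p × ZMod p), G hk with hR
  have hRle : ‖R‖ ≤ 2 * (p : ℝ) ^ (3 / 4 : ℝ) * (2 * p * (1 + Real.log p)) ^ 2 := by
    have h1 : ‖R‖ ≤ ∑ hk ∈ Finset.univ.erase ((0, 0) : ZMod p × ZMod p),
        2 * (p : ℝ) ^ (3 / 4 : ℝ) * (‖FI p A U hk.1‖ * ‖FI p B V hk.2‖) := by
      refine (norm_sum_le _ _).trans ?_
      apply Finset.sum_le_sum
      intro hk hhk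
      have hne : hk ≠ (0, 0) := Finset.ne_of_mem_erase hhk
      have hkl := kloosterman p hk.1 (hk.2 * r) (by
        by_contra hcon
        rw [not_or, not_not, not_not] at hcon
        apply hne
        have h2 : hk.2 = 0 := by
          rcases mul_eq_zero.mp hcon.2 with h | h
          · exact h
          · exact absurd h hru
        exact Prod.ext hcon.1 h2)
      simp only [hG, norm_mul]
      rw [mul_assoc]
      apply mul_le_mul_of_nonneg_right hkl (by positivity)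
    have h2 : ∑ hk ∈ Finset.univ.erase ((0, 0) : ZMod p × ZMod p),
        2 * (p : ℝ) ^ (3 / 4 : ℝ) * (‖FI p A U hk.1‖ * ‖FI p B V hk.2‖)
        ≤ ∑ hk : ZMod p × ZMod p, 2 * (p : ℝ) ^ (3 / 4 : ℝ) * (‖FI p A U hk.1‖ * ‖FI p B V hk.2‖) := by
      apply Finset.sum_le_sum_of_subset_of_nonneg (Finset.erase_subset _ _)
      intro i _ _; positivity
    refine (h1.trans h2).trans ?_
    rw [← Finset.mul_sum, Fintype.sum_prod_type]
    simp only
    rw [← Finset.sum_mul_sum]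
    have h3 := sum_FI_le (p := p) A U (by omega)
    have h4 := sum_FI_le (p := p) B V (by omega)
    apply mul_le_mul_of_nonneg_left _ (by positivity)
    rw [sq]
    apply mul_le_mul h3 h4 (Finset.sum_nonneg (fun _ _ => norm_nonneg _)) (by positivity)
  have key : ((((N : ℝ) - (U : ℝ) * V / p : ℝ)) : ℂ) = (1 / (p : ℂ) ^ 2) * (R - U * V) := by
    push_cast
    rw [hc2]
    field_simp
    ring
  have hnorm : |(N : ℝ) - (U : ℝ) * V / p| = ‖(1 / (p : ℂ) ^ 2) * (R - U * V)‖ := by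
    rw [← key, Complex.norm_real, Real.norm_eq_abs]
  rw [hnorm, norm_mul, norm_div, norm_one, norm_pow, Complex.norm_natCast]
  have hUV : ‖(U : ℂ) * V‖ ≤ p ^ 2 := by
    rw [norm_mul, Complex.norm_natCast, Complex.norm_natCast, sq]
    apply mul_le_mul _ _ (Nat.cast_nonneg _) hp.le
    · exact_mod_cast (by omega : U ≤ p)
    · exact_mod_cast (by omega : V ≤ p)
  have h5 : ‖R - U * V‖ ≤ 2 * (p : ℝ) ^ (3 / 4 : ℝ) * (2 * p * (1 + Real.log p)) ^ 2 + p ^ 2 :=
    (norm_sub_le _ _).trans (add_le_add hRle hUV)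
  calc 1 / (p : ℝ) ^ 2 * ‖R - U * V‖
      ≤ 1 / (p : ℝ) ^ 2 * (2 * (p : ℝ) ^ (3 / 4 : ℝ) * (2 * p * (1 + Real.log p)) ^ 2 + p ^ 2) :=
        mul_le_mul_of_nonneg_left h5 (by positivity)
    _ = 8 * (p : ℝ) ^ (3 / 4 : ℝ) * (1 + Real.log p) ^ 2 + 1 := by field_simp; ring
    _ ≤ 9 * (p : ℝ) ^ (3 / 4 : ℝ) * (1 + Real.log p) ^ 2 := by
        have h6 : 1 ≤ (p : ℝ) ^ (3 / 4 : ℝ) := Real.one_le_rpow hp1 (by norm_num)
        have h7 : 1 ≤ (1 + Real.log p) ^ 2 := by nlinarith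
        have h8 : 1 ≤ (p : ℝ) ^ (3 / 4 : ℝ) * (1 + Real.log p) ^ 2 := by nlinarith
        linarith

end Pool.Agent.Helper112.LP.Kk2

namespace Pool.Agent.Helper112.LP

/-- K2: box counts -/
theorem box_count : ∃ C : ℝ, 0 < C ∧ ∀ p : ℕ, p.Prime → ∀ r A U B V : ℕ, r.Coprime p →
    A + U ≤ p → B + V ≤ p →
    |(((Ioc A (A + U) ×ˢ Ioc B (B + V)).filter (fun st => st.1 * st.2 ≡ r [MOD p])).card : ℝ)
      - (U : ℝ) * V / p| ≤ C * (p : ℝ) ^ (3 / 4 : ℝ) * (1 + Real.log p) ^ 2 := by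
  first
    | exact Kk2.box_count
    | (apply Kk2.box_count <;> assumption)

end Pool.Agent.Helper112.LP
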