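import Pool.Agent.Helper112.Lp.Defs
import Pool.Agent.Helper112.Lp.Kbh
import Pool.Agent.Helper112.Lp.Kk2

open Finset

namespace Pool.Agent.Helper112.LP.Kps

/-- the base count with divisibility conditions -/
theorem base_count (C₁ : ℝ) (p : ℕ) (hp : p.Prime)
    (hbox : ∀ r A U B V : ℕ, r.Coprime p → A + U ≤ p → B + V ≤ p →
    |(((Ioc A (A + U) ×ˢ Ioc B (B + V)).filter (fun st => st.1 * st.2 ≡ r [MOD p])).card : ℝ)
      - (U : ℝ) * V / p| ≤ C₁)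
    (r A U B V : ℕ) (hr : r.Coprime p) (hA : A + U ≤ p) (hB : B + V ≤ p)
    (d₁ d₂ : ℕ) (h₁ : d₁.Coprime p) (h₂ : d₂.Coprime p) (h₁0 : 0 < d₁) (h₂0 : 0 < d₂) :
    |(((Ioc A (A + U) ×ˢ Ioc B (B + V)).filter (fun st => st.1 * st.2 ≡ r [MOD p] ∧
      d₁ ∣ st.1 ∧ d₂ ∣ st.2)).card : ℝ) - (U : ℝ) * V / p / (d₁ * d₂)| ≤ C₁ + 2 := by
  have hp0 : (0 : ℝ) < p := by exact_mod_cast hp.pos
  have hd : (d₁ * d₂).Coprime p := Nat.Coprime.mul_left h₁ h₂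
  obtain ⟨e, he⟩ := Nat.exists_mul_mod_eq_one_of_coprime hd hp.one_lt
  have he' : d₁ * d₂ * e ≡ 1 [MOD p] := by
    rw [Nat.ModEq, he.2, Nat.mod_eq_of_lt hp.one_lt]
  have hecop : e.Coprime p := by
    have h1 : (d₁ * d₂ * e).Coprime p := by
      have := he'.gcd_eq
      rw [Nat.Coprime, this, Nat.gcd_one_left]
    exact Nat.Coprime.coprime_mul_left h1
  set A' := A / d₁ with hA'
  set U' := (A + U) / d₁ - A / d₁ with hU'
  set B' := B / d₂ with hB'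
  set V' := (B + V) / d₂ - B / d₂ with hV'
  have hAU : A' + U' = (A + U) / d₁ := by
    have : A / d₁ ≤ (A + U) / d₁ := Nat.div_le_div_right (Nat.le_add_right _ _)
    omega
  have hBV : B' + V' = (B + V) / d₂ := by
    have : B / d₂ ≤ (B + V) / d₂ := Nat.div_le_div_right (Nat.le_add_right _ _)
    omega
  have hAU' : A' + U' ≤ p := by
    rw [hAU]; exact (Nat.div_le_self _ _).trans hA
  have hBV' : B' + V' ≤ p := by
    rw [hBV]; exact (Nat.div_le_self _ _).trans hB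
  have hcount := hbox (e * r) A' U' B' V' (Nat.Coprime.mul_left hecop hr) hAU' hBV'
  have hcard : ((Ioc A (A + U) ×ˢ Ioc B (B + V)).filter (fun st => st.1 * st.2 ≡ r [MOD p] ∧
      d₁ ∣ st.1 ∧ d₂ ∣ st.2)).card =
      ((Ioc A' (A' + U') ×ˢ Ioc B' (B' + V')).filter
        (fun st => st.1 * st.2 ≡ e * r [MOD p])).card := by
    symm
    apply Finset.card_bij (fun st _ => (d₁ * st.1, d₂ * st.2))
    · rintro ⟨s, t⟩ hst
      simp only [mem_filter, mem_product, mem_Ioc] at hst ⊢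
      obtain ⟨⟨⟨hs1, hs2⟩, ht1, ht2⟩, hmod⟩ := hst
      rw [hAU] at hs2
      rw [hBV] at ht2
      rw [hA', Nat.div_lt_iff_lt_mul h₁0] at hs1
      rw [hB', Nat.div_lt_iff_lt_mul h₂0] at ht1
      rw [Nat.le_div_iff_mul_le h₁0] at hs2
      rw [Nat.le_div_iff_mul_le h₂0] at ht2
      refine ⟨⟨⟨by linarith, by linarith⟩, by linarith, by linarith⟩, ?_,
        Dvd.intro _ rfl, Dvd.intro _ rfl⟩
      calc d₁ * s * (d₂ * t) = (d₁ * d₂) * (s * t) := by ring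
        _ ≡ (d₁ * d₂) * (e * r) [MOD p] := Nat.ModEq.mul_left _ hmod
        _ = (d₁ * d₂ * e) * r := by ring
        _ ≡ 1 * r [MOD p] := Nat.ModEq.mul_right _ he'
        _ = r := one_mul r
    · rintro ⟨s, t⟩ _ ⟨s', t'⟩ _ h
      simp only [Prod.mk.injEq] at h ⊢
      exact ⟨Nat.eq_of_mul_eq_mul_left h₁0 h.1, Nat.eq_of_mul_eq_mul_left h₂0 h.2⟩
    · rintro ⟨s, t⟩ hst
      simp only [mem_filter, mem_product, mem_Ioc] at hst
      obtain ⟨⟨⟨hs1, hs2⟩, ht1, ht2⟩, hmod, ⟨s', rfl⟩, ⟨t', rfl⟩⟩ := hst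
      refine ⟨(s', t'), ?_, rfl⟩
      simp only [mem_filter, mem_product, mem_Ioc]
      rw [hAU, hBV]
      refine ⟨⟨⟨?_, ?_⟩, ?_, ?_⟩, ?_⟩
      · rw [hA', Nat.div_lt_iff_lt_mul h₁0]; linarith
      · rw [Nat.le_div_iff_mul_le h₁0]; linarith
      · rw [hB', Nat.div_lt_iff_lt_mul h₂0]; linarith
      · rw [Nat.le_div_iff_mul_le h₂0]; linarith
      · calc s' * t' = 1 * (s' * t') := (one_mul _).symm
          _ ≡ (d₁ * d₂ * e) * (s' * t') [MOD p] := Nat.ModEq.mul_right _ he'.symm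
          _ = e * (d₁ * s' * (d₂ * t')) := by ring
          _ ≡ e * r [MOD p] := Nat.ModEq.mul_left _ hmod
  rw [hcard]
  have hd1R : (1 : ℝ) ≤ d₁ := by exact_mod_cast h₁0
  have hd2R : (1 : ℝ) ≤ d₂ := by exact_mod_cast h₂0
  -- lengths
  have key : ∀ (A U d : ℕ), 0 < d →
      |(((A + U) / d - A / d : ℕ) : ℝ) - (U : ℝ) / d| ≤ 1 := by
    intro A U d hd0
    have hd0' : (0 : ℝ) < d := by exact_mod_cast hd0
    have hle : A / d ≤ (A + U) / d := Nat.div_le_div_right (Nat.le_add_right _ _)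
    rw [Nat.cast_sub hle]
    have e1 : ((A + U : ℕ) : ℝ) = d * (((A + U) / d : ℕ) : ℝ) + (((A + U) % d : ℕ) : ℝ) := by
      exact_mod_cast (Nat.div_add_mod (A + U) d).symm
    have e2 : (A : ℝ) = d * ((A / d : ℕ) : ℝ) + ((A % d : ℕ) : ℝ) := by
      exact_mod_cast (Nat.div_add_mod A d).symm
    have m1 : (((A + U) % d : ℕ) : ℝ) < d := by exact_mod_cast Nat.mod_lt _ hd0
    have m2 : ((A % d : ℕ) : ℝ) < d := by exact_mod_cast Nat.mod_lt _ hd0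
    have m3 : (0 : ℝ) ≤ (((A + U) % d : ℕ) : ℝ) := Nat.cast_nonneg _
    have m4 : (0 : ℝ) ≤ ((A % d : ℕ) : ℝ) := Nat.cast_nonneg _
    push_cast at e1
    have e3 : (((A + U) / d : ℕ) : ℝ) - ((A / d : ℕ) : ℝ) - (U : ℝ) / d =
        (((A % d : ℕ) : ℝ) - (((A + U) % d : ℕ) : ℝ)) / d := by
      rw [eq_div_iff hd0'.ne', sub_mul, sub_mul, div_mul_cancel₀ _ hd0'.ne']
      linarith
    rw [e3, abs_le]
    constructor
    · rw [le_div_iff₀ hd0']; linarith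
    · rw [div_le_iff₀ hd0']; linarith
  have k1 := key A U d₁ h₁0
  have k2 := key B V d₂ h₂0
  rw [← hU'] at k1
  rw [← hV'] at k2
  set u := (U : ℝ) / d₁ with hu
  set v := (V : ℝ) / d₂ with hv
  have hu0 : 0 ≤ u := by positivity
  have hup : u ≤ p := by
    have h1 : (U : ℝ) ≤ p := by exact_mod_cast (le_trans (Nat.le_add_left U A) hA)
    rw [hu, div_le_iff₀ (by linarith)]
    nlinarith
  have hV'p : (V' : ℝ) ≤ p := by exact_mod_cast (le_trans (Nat.le_add_left V' B') hBV')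
  have hV'0 : (0 : ℝ) ≤ V' := Nat.cast_nonneg _
  have hmain : |(U' : ℝ) * V' / p - (U : ℝ) * V / p / (d₁ * d₂)| ≤ 2 := by
    have e1 : (U' : ℝ) * V' / p - (U : ℝ) * V / p / (d₁ * d₂) =
        (((U' : ℝ) - u) * V' + u * ((V' : ℝ) - v)) / p := by
      rw [hu, hv]; field_simp; ring
    rw [e1, abs_div, abs_of_pos hp0, div_le_iff₀ hp0]
    calc |((U' : ℝ) - u) * V' + u * ((V' : ℝ) - v)|
        ≤ |((U' : ℝ) - u) * V'| + |u * ((V' : ℝ) - v)| := abs_add_le _ _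
      _ = |(U' : ℝ) - u| * V' + u * |(V' : ℝ) - v| := by
          rw [abs_mul, abs_mul, abs_of_nonneg hV'0, abs_of_nonneg hu0]
      _ ≤ 1 * p + p * 1 := by
          apply add_le_add
          · exact mul_le_mul k1 hV'p hV'0 zero_le_one
          · exact mul_le_mul hup k2 (abs_nonneg _) hp0.le
      _ = 2 * p := by ring
  calc _ = |(((((Ioc A' (A' + U') ×ˢ Ioc B' (B' + V')).filter
        (fun st => st.1 * st.2 ≡ e * r [MOD p])).card : ℝ) - (U' : ℝ) * V' / p)) +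
        ((U' : ℝ) * V' / p - (U : ℝ) * V / p / (d₁ * d₂))| := by congr 1; ring
    _ ≤ _ := abs_add_le _ _
    _ ≤ C₁ + 2 := add_le_add hcount hmain

/-- inclusion-exclusion over a set of primes -/
theorem incl_excl (E : ℝ) (p : ℕ) (hp : p.Prime) (r A U B V : ℕ)
    (hbase : ∀ d₁ d₂ : ℕ, d₁.Coprime p → d₂.Coprime p → 0 < d₁ → 0 < d₂ →
    |(((Ioc A (A + U) ×ˢ Ioc B (B + V)).filter (fun st => st.1 * st.2 ≡ r [MOD p] ∧
      d₁ ∣ st.1 ∧ d₂ ∣ st.2)).card : ℝ) - (U : ℝ) * V / p / (d₁ * d₂)| ≤ E)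
    (P : Finset ℕ) : (∀ l ∈ P, l.Prime ∧ l ≠ p) → ∀ d₁ d₂ : ℕ, d₁.Coprime p → d₂.Coprime p →
    0 < d₁ → 0 < d₂ → (∀ l ∈ P, ¬ l ∣ d₁ ∧ ¬ l ∣ d₂) →
    |(((Ioc A (A + U) ×ˢ Ioc B (B + V)).filter (fun st => st.1 * st.2 ≡ r [MOD p] ∧
      d₁ ∣ st.1 ∧ d₂ ∣ st.2 ∧ ∀ l ∈ P, l ∣ st.1 * st.2)).card : ℝ) -
      (U : ℝ) * V / p / (d₁ * d₂) * ∏ l ∈ P, (2 / (l : ℝ) - 1 / (l : ℝ) ^ 2)| ≤
      3 ^ P.card * E := by
  induction P using Finset.induction_on with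
  | empty =>
    intro _ d₁ d₂ h1 h2 h3 h4 _
    have := hbase d₁ d₂ h1 h2 h3 h4
    simpa using this
  | insert l P hl ih =>
    intro hP d₁ d₂ h1 h2 h3 h4 hnd
    have hlp : l.Prime := (hP l (mem_insert_self _ _)).1
    have hlne : l ≠ p := (hP l (mem_insert_self _ _)).2
    have hlcop : l.Coprime p := (Nat.coprime_primes hlp hp).2 hlne
    have hP' : ∀ l' ∈ P, l'.Prime ∧ l' ≠ p := fun l' hl' => hP l' (mem_insert_of_mem hl')
    have hne : ∀ l' ∈ P, l' ≠ l := by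
      rintro l' hl' rfl; exact hl hl'
    have hnd' : ∀ l' ∈ P, ¬ l' ∣ d₁ ∧ ¬ l' ∣ d₂ := fun l' hl' => hnd l' (mem_insert_of_mem hl')
    have hndl := hnd l (mem_insert_self _ _)
    have hmul : ∀ l' ∈ P, ∀ d, ¬ l' ∣ d → ¬ l' ∣ l * d := by
      intro l' hl' d hd hdvd
      rcases (hP' l' hl').1.dvd_mul.1 hdvd with h | h
      · exact hne l' hl' ((Nat.prime_dvd_prime_iff_eq (hP' l' hl').1 hlp).1 h)
      · exact hd h
    have i1 := ih hP' (l * d₁) d₂ (Nat.Coprime.mul_left hlcop h1) h2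
      (Nat.mul_pos hlp.pos h3) h4
      (fun l' hl' => ⟨hmul l' hl' _ (hnd' l' hl').1, (hnd' l' hl').2⟩)
    have i2 := ih hP' d₁ (l * d₂) h1 (Nat.Coprime.mul_left hlcop h2) h3
      (Nat.mul_pos hlp.pos h4)
      (fun l' hl' => ⟨(hnd' l' hl').1, hmul l' hl' _ (hnd' l' hl').2⟩)
    have i3 := ih hP' (l * d₁) (l * d₂) (Nat.Coprime.mul_left hlcop h1)
      (Nat.Coprime.mul_left hlcop h2) (Nat.mul_pos hlp.pos h3) (Nat.mul_pos hlp.pos h4)
      (fun l' hl' => ⟨hmul l' hl' _ (hnd' l' hl').1, hmul l' hl' _ (hnd' l' hl').2⟩)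
    have hl1 : l.Coprime d₁ := (Nat.Prime.coprime_iff_not_dvd hlp).2 hndl.1
    have hl2 : l.Coprime d₂ := (Nat.Prime.coprime_iff_not_dvd hlp).2 hndl.2
    set F := fun (a b : ℕ) (Q : Finset ℕ) =>
      (Ioc A (A + U) ×ˢ Ioc B (B + V)).filter (fun st : ℕ × ℕ => st.1 * st.2 ≡ r [MOD p] ∧
      a ∣ st.1 ∧ b ∣ st.2 ∧ ∀ l ∈ Q, l ∣ st.1 * st.2) with hF
    have hunion : F d₁ d₂ (insert l P) = F (l * d₁) d₂ P ∪ F d₁ (l * d₂) P := by
      ext ⟨s, t⟩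
      simp only [hF, mem_union, mem_filter, mem_insert, forall_eq_or_imp]
      have e1 : l * d₁ ∣ s ↔ l ∣ s ∧ d₁ ∣ s :=
        ⟨fun h => ⟨(Dvd.intro _ rfl).trans h, (Dvd.intro_left _ rfl).trans h⟩,
          fun h => Nat.Coprime.mul_dvd_of_dvd_of_dvd hl1 h.1 h.2⟩
      have e2 : l * d₂ ∣ t ↔ l ∣ t ∧ d₂ ∣ t :=
        ⟨fun h => ⟨(Dvd.intro _ rfl).trans h, (Dvd.intro_left _ rfl).trans h⟩,
          fun h => Nat.Coprime.mul_dvd_of_dvd_of_dvd hl2 h.1 h.2⟩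
      rw [e1, e2, hlp.dvd_mul]
      tauto
    have hinter : F (l * d₁) d₂ P ∩ F d₁ (l * d₂) P = F (l * d₁) (l * d₂) P := by
      ext ⟨s, t⟩
      simp only [hF, mem_inter, mem_filter]
      have e1 : l * d₁ ∣ s ↔ l ∣ s ∧ d₁ ∣ s :=
        ⟨fun h => ⟨(Dvd.intro _ rfl).trans h, (Dvd.intro_left _ rfl).trans h⟩,
          fun h => Nat.Coprime.mul_dvd_of_dvd_of_dvd hl1 h.1 h.2⟩
      have e2 : l * d₂ ∣ t ↔ l ∣ t ∧ d₂ ∣ t :=
        ⟨fun h => ⟨(Dvd.intro _ rfl).trans h, (Dvd.intro_left _ rfl).trans h⟩,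
          fun h => Nat.Coprime.mul_dvd_of_dvd_of_dvd hl2 h.1 h.2⟩
      rw [e1, e2]
      tauto
    have hcard : ((F d₁ d₂ (insert l P)).card : ℝ) =
        ((F (l * d₁) d₂ P).card : ℝ) + (F d₁ (l * d₂) P).card - (F (l * d₁) (l * d₂) P).card := by
      have := Finset.card_union_add_card_inter (F (l * d₁) d₂ P) (F d₁ (l * d₂) P)
      rw [← hunion, hinter] at this
      have h' : ((F d₁ d₂ (insert l P)).card : ℝ) + (F (l * d₁) (l * d₂) P).card =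
        ((F (l * d₁) d₂ P).card : ℝ) + (F d₁ (l * d₂) P).card := by exact_mod_cast this
      linarith
    change |((F d₁ d₂ (insert l P)).card : ℝ) - _| ≤ _
    rw [hcard, Finset.prod_insert hl, Finset.card_insert_of_notMem hl]
    have hl0 : (l : ℝ) ≠ 0 := by exact_mod_cast hlp.ne_zero
    have hd10 : (d₁ : ℝ) ≠ 0 := by exact_mod_cast h3.ne'
    have hd20 : (d₂ : ℝ) ≠ 0 := by exact_mod_cast h4.ne'
    set Pr := ∏ l ∈ P, (2 / (l : ℝ) - 1 / (l : ℝ) ^ 2) with hPr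
    set X := (U : ℝ) * V / p with hX
    have emain : X / (d₁ * d₂) * ((2 / (l : ℝ) - 1 / (l : ℝ) ^ 2) * Pr) =
        X / ((l * d₁ : ℕ) * (d₂ : ℝ)) * Pr + X / ((d₁ : ℝ) * (l * d₂ : ℕ)) * Pr -
          X / ((l * d₁ : ℕ) * ((l * d₂ : ℕ) : ℝ)) * Pr := by
      push_cast
      field_simp
      ring
    rw [emain, pow_succ]
    rw [abs_le] at i1 i2 i3 ⊢
    change -(3 ^ P.card * E) ≤ ((F (l * d₁) d₂ P).card : ℝ) - _ ∧
      ((F (l * d₁) d₂ P).card : ℝ) - _ ≤ _ at i1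
    change -(3 ^ P.card * E) ≤ ((F d₁ (l * d₂) P).card : ℝ) - _ ∧
      ((F d₁ (l * d₂) P).card : ℝ) - _ ≤ _ at i2
    change -(3 ^ P.card * E) ≤ ((F (l * d₁) (l * d₂) P).card : ℝ) - _ ∧
      ((F (l * d₁) (l * d₂) P).card : ℝ) - _ ≤ _ at i3
    constructor
    · linarith [i1.1, i1.2, i2.1, i2.2, i3.1, i3.2]
    · linarith [i1.1, i1.2, i2.1, i2.2, i3.1, i3.2]

/- TARGET -/
/-- S: sieve for pairs -/
theorem pair_sieve : ∃ (K : ℕ) (c C : ℝ), 0 < c ∧ 0 < C ∧ ∀ p : ℕ, p.Prime → ∀ J : ℕ,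
    (2 ^ 2 ^ J) ^ K ≤ p → ∀ r A U B V : ℕ, r.Coprime p → A + U ≤ p → B + V ≤ p →
    c * (U * V / (p * 4 ^ J)) - C * (p : ℝ) ^ (9 / 10 : ℝ) ≤
      (((Ioc A (A + U) ×ˢ Ioc B (B + V)).filter (fun st => st.1 * st.2 ≡ r [MOD p] ∧
        (st.1 * st.2).Coprime (PP J))).card : ℝ) ∧
    (((Ioc A (A + U) ×ˢ Ioc B (B + V)).filter (fun st => st.1 * st.2 ≡ r [MOD p] ∧
        (st.1 * st.2).Coprime (PP J))).card : ℝ) ≤
      C * (U * V / (p * 4 ^ J)) + C * (p : ℝ) ^ (9 / 10 : ℝ) := by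
  obtain ⟨C₁, hC₁, hbox⟩ := box_count
  obtain ⟨K, c, C, hc, hC, hBH⟩ := brun_hooley
  refine ⟨50 * K + 1, c, C + (1681 * C₁ + 2), hc, by positivity, ?_⟩
  intro p hp J hJ r A U B V hr hA hB
  have hp1 : (1 : ℝ) ≤ p := by exact_mod_cast hp.one_lt.le
  have hp0 : (0 : ℝ) < p := by linarith
  set Z : ℕ := 2 ^ 2 ^ J with hZ
  have hZ1 : 1 ≤ Z := Nat.one_le_two_pow
  have hZp : Z ≤ p := by
    calc Z = Z ^ 1 := (pow_one Z).symm
      _ ≤ Z ^ (50 * K + 1) := Nat.pow_le_pow_right hZ1 (by omega)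
      _ ≤ p := hJ
  set E : ℝ := C₁ * (p : ℝ) ^ (3 / 4 : ℝ) * (1 + Real.log p) ^ 2 + 2 with hE
  have hE0 : 0 ≤ E := by positivity
  set S := (Ioc A (A + U) ×ˢ Ioc B (B + V)).filter (fun st => st.1 * st.2 ≡ r [MOD p]) with hS
  have hlevel : ∀ d : ℕ, Squarefree d → d ≤ (2 ^ 2 ^ J) ^ K →
      (∀ l ∈ d.primeFactors, l < 2 ^ 2 ^ J) →
      |((S.filter (fun ω => d ∣ ω.1 * ω.2)).card : ℝ) -
        ((U : ℝ) * V / p) * ∏ l ∈ d.primeFactors, (2 / (l : ℝ) - 1 / (l : ℝ) ^ 2)| ≤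
        3 ^ d.primeFactors.card * E := by
    intro d hd _ hdl
    have hbase := base_count (C₁ * (p : ℝ) ^ (3 / 4 : ℝ) * (1 + Real.log p) ^ 2) p hp
      (fun r A U B V => hbox p hp r A U B V) r A U B V hr hA hB
    have := incl_excl E p hp r A U B V hbase d.primeFactors
      (fun l hl => ⟨Nat.prime_of_mem_primeFactors hl, fun h => by
        have h1 := hdl l hl
        rw [h] at h1
        exact absurd h1 (not_lt.2 hZp)⟩) 1 1 (Nat.coprime_one_left p) (Nat.coprime_one_left p)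
      one_pos one_pos (fun l hl => by
        have := (Nat.prime_of_mem_primeFactors hl)
        refine ⟨fun h => this.one_lt.ne' (Nat.dvd_one.1 h), fun h => this.one_lt.ne'
          (Nat.dvd_one.1 h)⟩)
    simp only [one_dvd, true_and, Nat.cast_one, mul_one, div_one] at this
    have hset : S.filter (fun ω => d ∣ ω.1 * ω.2) =
        (Ioc A (A + U) ×ˢ Ioc B (B + V)).filter (fun st => st.1 * st.2 ≡ r [MOD p] ∧
          ∀ l ∈ d.primeFactors, l ∣ st.1 * st.2) := by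
      rw [hS, Finset.filter_filter]
      apply Finset.filter_congr
      rintro ⟨s, t⟩ hst
      have : d ∣ s * t ↔ ∀ l ∈ d.primeFactors, l ∣ s * t := by
        constructor
        · intro h l hl
          exact (Nat.dvd_of_mem_primeFactors hl).trans h
        · intro h
          rw [← Nat.prod_primeFactors_of_squarefree hd]
          exact Finset.prod_primes_dvd _ (fun l hl => (Nat.prime_of_mem_primeFactors hl).prime) h
      simp only [this]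
    rw [hset]
    exact this
  have hmain := hBH J (ℕ × ℕ) S (fun ω => ω.1 * ω.2) ((U : ℝ) * V / p) E (by positivity) hE0
    hlevel
  have hset2 : S.filter (fun ω => (ω.1 * ω.2).Coprime (PP J)) =
      (Ioc A (A + U) ×ˢ Ioc B (B + V)).filter (fun st => st.1 * st.2 ≡ r [MOD p] ∧
        (st.1 * st.2).Coprime (PP J)) := by
    rw [hS, Finset.filter_filter]
  rw [hset2] at hmain
  have hX : (U : ℝ) * V / p / 4 ^ J = U * V / (p * 4 ^ J) := by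
    rw [div_div]
  have herr : ((2 : ℝ) ^ 2 ^ J) ^ (5 * K) * E ≤ (1681 * C₁ + 2) * (p : ℝ) ^ (9 / 10 : ℝ) := by
    have h1 : ((2 : ℝ) ^ 2 ^ J) ^ (5 * K) ≤ (p : ℝ) ^ (1 / 10 : ℝ) := by
      have h2 : (((2 : ℝ) ^ 2 ^ J) ^ (5 * K)) ^ 10 ≤ p := by
        rw [← pow_mul]
        have h3 : Z ^ (5 * K * 10) ≤ p := by
          calc Z ^ (5 * K * 10) ≤ Z ^ (50 * K + 1) := Nat.pow_le_pow_right hZ1 (by omega)
            _ ≤ p := hJ
        exact_mod_cast h3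
      have h4 : ((((2 : ℝ) ^ 2 ^ J) ^ (5 * K)) ^ 10) ^ (1 / 10 : ℝ) ≤ (p : ℝ) ^ (1 / 10 : ℝ) :=
        Real.rpow_le_rpow (by positivity) h2 (by norm_num)
      rw [← Real.rpow_natCast (((2 : ℝ) ^ 2 ^ J) ^ (5 * K)) 10, ← Real.rpow_mul (by positivity)]
        at h4
      norm_num at h4
      exact h4
    have hlog : 1 + Real.log p ≤ 41 * (p : ℝ) ^ (1 / 40 : ℝ) := by
      have h5 := Real.log_le_rpow_div (x := (p : ℝ)) (by positivity) (ε := 1 / 40) (by norm_num)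
      have h6 : (1 : ℝ) ≤ (p : ℝ) ^ (1 / 40 : ℝ) := Real.one_le_rpow hp1 (by norm_num)
      have h7 : (p : ℝ) ^ (1 / 40 : ℝ) / (1 / 40) = 40 * (p : ℝ) ^ (1 / 40 : ℝ) := by ring
      rw [h7] at h5
      linarith
    have hlog0 : 0 ≤ 1 + Real.log p := by
      have := Real.log_nonneg hp1
      linarith
    have hE1 : E ≤ (1681 * C₁ + 2) * (p : ℝ) ^ (8 / 10 : ℝ) := by
      have h8 : (1 + Real.log p) ^ 2 ≤ 1681 * (p : ℝ) ^ (1 / 20 : ℝ) := by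
        calc (1 + Real.log p) ^ 2 ≤ (41 * (p : ℝ) ^ (1 / 40 : ℝ)) ^ 2 :=
              pow_le_pow_left₀ hlog0 hlog 2
          _ = 1681 * ((p : ℝ) ^ (1 / 40 : ℝ)) ^ 2 := by ring
          _ = 1681 * (p : ℝ) ^ (1 / 20 : ℝ) := by
              rw [← Real.rpow_natCast, ← Real.rpow_mul hp0.le]; norm_num
      have h9 : (1 : ℝ) ≤ (p : ℝ) ^ (8 / 10 : ℝ) := Real.one_le_rpow hp1 (by norm_num)
      have h10 : (p : ℝ) ^ (3 / 4 : ℝ) * (p : ℝ) ^ (1 / 20 : ℝ) = (p : ℝ) ^ (8 / 10 : ℝ) := by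
        rw [← Real.rpow_add hp0]; norm_num
      calc E = C₁ * (p : ℝ) ^ (3 / 4 : ℝ) * (1 + Real.log p) ^ 2 + 2 := rfl
        _ ≤ C₁ * (p : ℝ) ^ (3 / 4 : ℝ) * (1681 * (p : ℝ) ^ (1 / 20 : ℝ)) +
            2 * (p : ℝ) ^ (8 / 10 : ℝ) := by
            apply add_le_add
            · exact mul_le_mul_of_nonneg_left h8 (by positivity)
            · linarith
        _ = 1681 * C₁ * ((p : ℝ) ^ (3 / 4 : ℝ) * (p : ℝ) ^ (1 / 20 : ℝ)) +
            2 * (p : ℝ) ^ (8 / 10 : ℝ) := by ring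
        _ = _ := by rw [h10]; ring
    calc ((2 : ℝ) ^ 2 ^ J) ^ (5 * K) * E
        ≤ (p : ℝ) ^ (1 / 10 : ℝ) * ((1681 * C₁ + 2) * (p : ℝ) ^ (8 / 10 : ℝ)) :=
          mul_le_mul h1 hE1 hE0 (by positivity)
      _ = (1681 * C₁ + 2) * ((p : ℝ) ^ (1 / 10 : ℝ) * (p : ℝ) ^ (8 / 10 : ℝ)) := by ring
      _ = _ := by rw [← Real.rpow_add hp0]; norm_num
  have hq0 : (0 : ℝ) ≤ (U : ℝ) * V / (p * 4 ^ J) := by positivity
  have hp9 : (0 : ℝ) ≤ (p : ℝ) ^ (9 / 10 : ℝ) := by positivity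
  obtain ⟨m1, m2⟩ := hmain
  rw [mul_div_assoc, hX] at m1 m2
  constructor
  · nlinarith
  · nlinarith

end Pool.Agent.Helper112.LP.Kps

namespace Pool.Agent.Helper112.LP

/-- S: sieve for pairs -/
theorem pair_sieve : ∃ (K : ℕ) (c C : ℝ), 0 < c ∧ 0 < C ∧ ∀ p : ℕ, p.Prime → ∀ J : ℕ,
    (2 ^ 2 ^ J) ^ K ≤ p → ∀ r A U B V : ℕ, r.Coprime p → A + U ≤ p → B + V ≤ p →
    c * (U * V / (p * 4 ^ J)) - C * (p : ℝ) ^ (9 / 10 : ℝ) ≤
      (((Ioc A (A + U) ×ˢ Ioc B (B + V)).filter (fun st => st.1 * st.2 ≡ r [MOD p] ∧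
        (st.1 * st.2).Coprime (PP J))).card : ℝ) ∧
    (((Ioc A (A + U) ×ˢ Ioc B (B + V)).filter (fun st => st.1 * st.2 ≡ r [MOD p] ∧
        (st.1 * st.2).Coprime (PP J))).card : ℝ) ≤
      C * (U * V / (p * 4 ^ J)) + C * (p : ℝ) ^ (9 / 10 : ℝ) := by
  first
    | exact Kps.pair_sieve
    | (apply Kps.pair_sieve <;> assumption)

end Pool.Agent.Helper112.LP
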