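import Pool.Agent.Helper112.Lp.UA5
import Pool.Agent.Helper112.Lp.Kla

open Finset

namespace Pool.Agent.Helper112.LP

theorem ns_eq (p : ℕ) (hp : p.Prime) :
    Set.ncard {n : ℕ | ∃ a b : ℕ, 1 ≤ a ∧ a ≤ p - 1 ∧ 0 < b ∧ b < p ∧ a * b = n * p + 1} =
      (NS p).card := by
  have hinj : Function.Injective (fun n : ℕ => n * p + 1) := by
    intro a b hab
    simp only [Nat.add_right_cancel_iff] at hab
    exact Nat.eq_of_mul_eq_mul_right hp.pos hab
  rw [← Set.ncard_image_of_injective _ hinj, ← Set.ncard_coe_finset]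
  congr 1
  ext N
  simp only [Set.mem_image, Set.mem_ofPred_eq, NS, coe_image, coe_filter, mem_product, mem_Icc]
  constructor
  · rintro ⟨n, ⟨a, b, ha1, ha2, hb1, hb2, hab⟩, rfl⟩
    refine ⟨(a, b), ⟨⟨⟨ha1, ha2⟩, ⟨hb1, by simp only; omega⟩⟩, ?_⟩, hab⟩
    simp only
    rw [hab, Nat.ModEq, Nat.mul_add_mod']
  · rintro ⟨⟨a, b⟩, ⟨⟨⟨ha1, ha2⟩, ⟨hb1, hb2⟩⟩, hm⟩, rfl⟩
    simp only at ha1 ha2 hb1 hb2 hm ⊢
    have h1 : (a * b) % p = 1 := by
      rw [Nat.ModEq, Nat.mod_eq_of_lt hp.one_lt] at hm; exact hm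
    have h2 : a * b / p * p + 1 = a * b := by
      have := Nat.div_add_mod (a * b) p
      rw [h1] at this
      rw [mul_comm]; exact this
    exact ⟨a * b / p, ⟨a, b, ha1, ha2, hb1, by have := hp.pos; omega, h2.symm⟩, h2⟩

/-- comparison of `(e log 2 / 2)^J / (J sqrt J)` with powers of logarithms -/
theorem conv : ∃ (c C : ℝ) (p1 : ℕ), 0 < c ∧ 0 < C ∧ ∀ p : ℕ, p1 ≤ p → ∀ J : ℕ,
    J = Nat.log 2 (Nat.log 2 p) →
    c * (1 / ((Real.log p) ^ (1 - (1 + Real.log (Real.log 2)) / Real.log 2) *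
      (Real.log (Real.log p)) ^ (3 / 2 : ℝ))) ≤
      (Real.exp 1 * Real.log 2 / 2) ^ J / (J * Real.sqrt J) ∧
    (Real.exp 1 * Real.log 2 / 2) ^ J / (J * Real.sqrt J) ≤
      C * (1 / ((Real.log p) ^ (1 - (1 + Real.log (Real.log 2)) / Real.log 2) *
      (Real.log (Real.log p)) ^ (3 / 2 : ℝ))) := by
  set δ : ℝ := 1 - (1 + Real.log (Real.log 2)) / Real.log 2 with hδ
  have hl2 : 0 < Real.log 2 := Real.log_pos (by norm_num)
  have hl2' := Real.log_two_gt_d9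
  have hl2'' := Real.log_two_lt_d9
  have hρ := rho_ge
  set ρ : ℝ := Real.exp 1 * Real.log 2 / 2 with hρd
  have hρ0 : 0 < ρ := by linarith
  have hρ1 : ρ < 1 := by
    have := Real.exp_one_lt_d9
    rw [hρd]
    have h0 : 0 < Real.exp 1 := Real.exp_pos 1
    nlinarith
  have hlogρ : Real.log ρ = -δ * Real.log 2 := by
    rw [hρd, Real.log_div (by positivity) (by norm_num), Real.log_mul (by positivity) hl2.ne',
      Real.log_exp, hδ]
    field_simp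
    ring
  refine ⟨(Real.log 2) ^ δ / (2 : ℝ) ^ (3 / 2 : ℝ), ρ ^ (-2 : ℝ) * (Real.log 2) ^ δ *
    (2 : ℝ) ^ (3 / 2 : ℝ), 2 ^ 2 ^ 3, by positivity, by positivity, ?_⟩
  intro p hp J hJ
  have hpne : p ≠ 0 := by
    have : 0 < 2 ^ 2 ^ 3 := by positivity
    omega
  have hpos : (0 : ℝ) < p := by exact_mod_cast Nat.pos_of_ne_zero hpne
  set L := Nat.log 2 p with hL
  have hL1 : 2 ^ 3 ≤ L := (Nat.le_log_iff_pow_le (by norm_num) hpne).2 hp
  have hLne : L ≠ 0 := by omega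
  have hJ2 : 3 ≤ J := by rw [hJ]; exact (Nat.le_log_iff_pow_le (by norm_num) hLne).2 hL1
  have hLp : 2 ^ L ≤ p := Nat.pow_log_le_self 2 hpne
  have hLp2 : p < 2 ^ (L + 1) := Nat.lt_pow_succ_log_self (by norm_num) p
  have hJL : 2 ^ J ≤ L := by rw [hJ]; exact Nat.pow_log_le_self 2 hLne
  have hJL2 : L < 2 ^ (J + 1) := by rw [hJ]; exact Nat.lt_pow_succ_log_self (by norm_num) L
  set x := Real.log p with hx
  have hx1 : (L : ℝ) * Real.log 2 ≤ x := by
    have h4 : ((2 : ℝ) ^ L) ≤ p := by exact_mod_cast hLp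
    have h5 := Real.log_le_log (by positivity) h4
    rwa [Real.log_pow] at h5
  have hx2 : x ≤ (L + 1) * Real.log 2 := by
    have h4 : (p : ℝ) ≤ (2 : ℝ) ^ (L + 1) := by exact_mod_cast hLp2.le
    have h5 := Real.log_le_log hpos h4
    rw [Real.log_pow] at h5
    push_cast at h5
    exact h5
  -- `y = x / log 2` lies in `[2^J, 2^(J+2)]`
  set y := x / Real.log 2 with hy
  have hy1 : (2 : ℝ) ^ J ≤ y := by
    rw [hy, le_div_iff₀ hl2]
    have : (2 : ℝ) ^ J ≤ L := by exact_mod_cast hJL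
    nlinarith
  have hy2 : y ≤ (2 : ℝ) ^ (J + 2) := by
    rw [hy, div_le_iff₀ hl2]
    have h1 : ((L + 1 : ℕ) : ℝ) ≤ 2 ^ (J + 1) := by exact_mod_cast hJL2
    have h2 : (2 : ℝ) ^ (J + 2) = 2 * 2 ^ (J + 1) := by ring
    push_cast at h1
    rw [h2]
    have h3 : (0 : ℝ) < 2 ^ (J + 1) := by positivity
    nlinarith
  have hy0 : 0 < y := lt_of_lt_of_le (by positivity) hy1
  have hx0 : 0 < x := by
    have : x = y * Real.log 2 := by rw [hy]; field_simp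
    rw [this]; positivity
  have hly1 : (J : ℝ) * Real.log 2 ≤ Real.log y := by
    have := Real.log_le_log (by positivity) hy1
    rwa [Real.log_pow] at this
  have hly2 : Real.log y ≤ (J + 2) * Real.log 2 := by
    have := Real.log_le_log hy0 hy2
    rw [Real.log_pow] at this
    push_cast at this
    exact this
  -- ρ^t with t = log y / log 2 is (log 2)^δ x^(-δ)
  set t := Real.log y / Real.log 2 with ht
  have ht1 : (J : ℝ) ≤ t := by rw [ht, le_div_iff₀ hl2]; exact hly1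
  have ht2 : t ≤ J + 2 := by rw [ht, div_le_iff₀ hl2]; exact hly2
  have hρt : ρ ^ t = (Real.log 2) ^ δ * (1 / x ^ δ) := by
    rw [Real.rpow_def_of_pos hρ0, hlogρ]
    have h1 : -δ * Real.log 2 * t = -δ * Real.log y := by rw [ht]; field_simp
    rw [h1]
    have h2 : Real.exp (-δ * Real.log y) = y ^ (-δ) := by
      rw [Real.rpow_def_of_pos hy0, mul_comm]
    rw [h2, hy, Real.div_rpow hx0.le hl2.le, Real.rpow_neg hx0.le, Real.rpow_neg hl2.le]
    field_simp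
  have hρJ1 : ρ ^ t ≤ ρ ^ J := by
    rw [← Real.rpow_natCast ρ J]
    exact Real.rpow_le_rpow_of_exponent_ge hρ0 hρ1.le ht1
  have hρJ2 : ρ ^ J ≤ ρ ^ (-2 : ℝ) * ρ ^ t := by
    rw [← Real.rpow_natCast ρ J, ← Real.rpow_add hρ0]
    exact Real.rpow_le_rpow_of_exponent_ge hρ0 hρ1.le (by linarith)
  -- log x against J
  have hlx : Real.log x = Real.log y + Real.log (Real.log 2) := by
    have : x = y * Real.log 2 := by rw [hy]; field_simp
    rw [this, Real.log_mul hy0.ne' hl2.ne']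
  have hll1 : Real.log (Real.log 2) ≤ 0 := Real.log_nonpos hl2.le (by linarith)
  have hll2 : -(0.45 : ℝ) ≤ Real.log (Real.log 2) := by
    have h1 := Real.one_sub_inv_le_log_of_pos hl2
    have h2 : (Real.log 2)⁻¹ ≤ 1.45 := by
      rw [inv_le_comm₀ hl2 (by norm_num)]
      norm_num
      linarith
    linarith
  have hJr : (3 : ℝ) ≤ J := by exact_mod_cast hJ2
  have hm1 : (J : ℝ) * 0.69 ≤ J * Real.log 2 :=
    mul_le_mul_of_nonneg_left (by linarith) (by linarith)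
  have hm2 : ((J : ℝ) + 2) * Real.log 2 ≤ (J + 2) * 0.7 :=
    mul_le_mul_of_nonneg_left (by linarith) (by linarith)
  have hx4 : Real.log x ≤ 2 * J := by linarith
  have hx5 : (J : ℝ) / 2 ≤ Real.log x := by linarith
  have hx6 : 0 < Real.log x := by linarith
  have hJJ : (J : ℝ) * Real.sqrt J = (J : ℝ) ^ (3 / 2 : ℝ) := by
    rw [Real.sqrt_eq_rpow, show (3 / 2 : ℝ) = 1 + 1 / 2 by norm_num,
      Real.rpow_add (by linarith), Real.rpow_one]
  rw [hJJ]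
  have hJ0 : (0 : ℝ) < J := by linarith
  have hxd : 0 < x ^ δ := by positivity
  have hz : 0 < (Real.log x) ^ (3 / 2 : ℝ) := by positivity
  have hJ3 : 0 < (J : ℝ) ^ (3 / 2 : ℝ) := by positivity
  have h2z : (0 : ℝ) < (2 : ℝ) ^ (3 / 2 : ℝ) := by positivity
  have k1 : (J : ℝ) ^ (3 / 2 : ℝ) ≤ (2 : ℝ) ^ (3 / 2 : ℝ) * (Real.log x) ^ (3 / 2 : ℝ) := by
    rw [← Real.mul_rpow (by norm_num) hx6.le]
    exact Real.rpow_le_rpow hJ0.le (by linarith) (by norm_num)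
  have k2 : (Real.log x) ^ (3 / 2 : ℝ) ≤ (2 : ℝ) ^ (3 / 2 : ℝ) * (J : ℝ) ^ (3 / 2 : ℝ) := by
    rw [← Real.mul_rpow (by norm_num) hJ0.le]
    exact Real.rpow_le_rpow hx6.le (by linarith) (by norm_num)
  have hA : 0 < (Real.log 2) ^ δ := by positivity
  constructor
  · rw [le_div_iff₀ hJ3]
    refine le_trans ?_ hρJ1
    rw [hρt]
    calc (Real.log 2) ^ δ / (2 : ℝ) ^ (3 / 2 : ℝ) * (1 / (x ^ δ * (Real.log x) ^ (3 / 2 : ℝ))) *
        (J : ℝ) ^ (3 / 2 : ℝ) ≤ (Real.log 2) ^ δ / (2 : ℝ) ^ (3 / 2 : ℝ) *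
        (1 / (x ^ δ * (Real.log x) ^ (3 / 2 : ℝ))) *
        ((2 : ℝ) ^ (3 / 2 : ℝ) * (Real.log x) ^ (3 / 2 : ℝ)) :=
          mul_le_mul_of_nonneg_left k1 (by positivity)
      _ = _ := by field_simp
  · rw [div_le_iff₀ hJ3]
    refine hρJ2.trans ?_
    rw [hρt]
    calc ρ ^ (-2 : ℝ) * ((Real.log 2) ^ δ * (1 / x ^ δ)) =
        ρ ^ (-2 : ℝ) * (Real.log 2) ^ δ * (1 / (x ^ δ * (Real.log x) ^ (3 / 2 : ℝ))) *
          (Real.log x) ^ (3 / 2 : ℝ) := by field_simp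
      _ ≤ ρ ^ (-2 : ℝ) * (Real.log 2) ^ δ * (1 / (x ^ δ * (Real.log x) ^ (3 / 2 : ℝ))) *
          ((2 : ℝ) ^ (3 / 2 : ℝ) * (J : ℝ) ^ (3 / 2 : ℝ)) :=
          mul_le_mul_of_nonneg_left k2 (by positivity)
      _ = _ := by ring

/-- the combination of both bounds -/
theorem both : ∃ c C : ℝ, 0 < c ∧ 0 < C ∧ ∃ p0 : ℕ, ∀ p : ℕ, p.Prime → p0 ≤ p →
    c * (p / ((Real.log p) ^ (1 - (1 + Real.log (Real.log 2)) / Real.log 2) *
      (Real.log (Real.log p)) ^ (3 / 2 : ℝ))) ≤ ((NS p).card : ℝ) ∧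
    ((NS p).card : ℝ) ≤ C * (p / ((Real.log p) ^ (1 - (1 + Real.log (Real.log 2)) / Real.log 2) *
      (Real.log (Real.log p)) ^ (3 / 2 : ℝ))) := by
  obtain ⟨C1, p1, hC1, H1⟩ := upper_J
  obtain ⟨c2, p2, hc2, H2⟩ := lower_J
  obtain ⟨c3, C3, p3, hc3, hC3, H3⟩ := conv
  refine ⟨c2 * c3, C1 * C3, by positivity, by positivity, max p1 (max p2 p3), ?_⟩
  intro p hp hpp
  have h1 : p1 ≤ p := le_trans (le_max_left _ _) hpp
  have h2 : p2 ≤ p := le_trans ((le_max_left _ _).trans (le_max_right _ _)) hpp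
  have h3 : p3 ≤ p := le_trans ((le_max_right _ _).trans (le_max_right _ _)) hpp
  have a1 := H1 p h1 hp _ rfl
  have a2 := H2 p h2 hp _ rfl
  obtain ⟨a3, a4⟩ := H3 p h3 _ rfl
  have hpos : (0 : ℝ) < p := by exact_mod_cast hp.pos
  constructor
  · refine le_trans ?_ a2
    calc _ = c2 * (p * (c3 * (1 / ((Real.log p) ^ (1 - (1 + Real.log (Real.log 2)) / Real.log 2) *
        (Real.log (Real.log p)) ^ (3 / 2 : ℝ))))) := by ring
      _ ≤ _ := mul_le_mul_of_nonneg_left (mul_le_mul_of_nonneg_left a3 hpos.le) hc2.le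
  · refine a1.trans ?_
    calc _ ≤ C1 * (p * (C3 * (1 / ((Real.log p) ^ (1 - (1 + Real.log (Real.log 2)) / Real.log 2) *
        (Real.log (Real.log p)) ^ (3 / 2 : ℝ))))) :=
          mul_le_mul_of_nonneg_left (mul_le_mul_of_nonneg_left a4 hpos.le) hC1.le
      _ = _ := by ring

end Pool.Agent.Helper112.LP
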