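import Pool.Agent.Helper112.Lp.Defs
import Pool.Agent.Helper112.Lp.Kcb
import Pool.Agent.Helper112.Lp.Kgc
import Pool.Agent.Helper112.Lp.Kgf
import Pool.Agent.Helper112.Lp.Kgl
import Pool.Agent.Helper112.Lp.Kvs

open Finset

namespace Pool.Agent.Helper112.LP.Kpu

/-- partial sums -/
def ps {j : ℕ} (b : Fin j → ℕ) (l : ℕ) : ℕ := ∑ i : Fin j, if (i : ℕ) < l then b i else 0

lemma ps_le {j : ℕ} (b : Fin j → ℕ) (l : ℕ) : ps b l ≤ ∑ i, b i := by
  unfold ps
  apply Finset.sum_le_sum
  intro i _
  split_ifs <;> omega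

lemma ps_zero {j : ℕ} (b : Fin j → ℕ) : ps b 0 = 0 := by
  unfold ps
  apply Finset.sum_eq_zero
  intro i _
  simp

lemma ps_top {j : ℕ} (b : Fin j → ℕ) (l : ℕ) (hl : j ≤ l) : ps b l = ∑ i, b i := by
  unfold ps
  apply Finset.sum_congr rfl
  intro i _
  rw [if_pos (lt_of_lt_of_le i.2 hl)]

lemma exists_max {J : ℕ} (b : Fin J → ℕ) : ∃ j ≤ J, ∃ m ≤ ∑ i, b i, ps b j = j + m ∧
    ∀ l ≤ J, ps b l ≤ l + m := by
  obtain ⟨l0, hl0, hsup⟩ := Finset.exists_mem_eq_sup (range (J + 1)) ⟨0, by simp⟩
    (fun l => ps b l - l)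
  set m := (range (J + 1)).sup (fun l => ps b l - l) with hm
  have hall : ∀ l ≤ J, ps b l ≤ l + m := by
    intro l hl
    have : ps b l - l ≤ m := Finset.le_sup (f := fun l => ps b l - l) (by simp; omega)
    omega
  have hmle : m ≤ ∑ i, b i := by
    have := ps_le b l0
    omega
  rcases Nat.eq_zero_or_pos m with h0 | h0
  · refine ⟨0, Nat.zero_le _, m, hmle, ?_, hall⟩
    rw [ps_zero, h0]
  · refine ⟨l0, by simp at hl0; omega, m, hmle, ?_, hall⟩
    omega

lemma sum_box_append (j N R : ℕ) (f : (Fin (j + N) → ℕ) → ℝ) :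
    ∑ b ∈ Fintype.piFinset (fun _ : Fin (j + N) => range (R + 1)), f b =
      ∑ b1 ∈ Fintype.piFinset (fun _ : Fin j => range (R + 1)),
        ∑ b2 ∈ Fintype.piFinset (fun _ : Fin N => range (R + 1)), f (Fin.append b1 b2) := by
  rw [← Finset.sum_product']
  refine Finset.sum_nbij' (fun b => (fun i => b (Fin.castAdd N i), fun i => b (Fin.natAdd j i)))
    (fun p => Fin.append p.1 p.2) ?_ ?_ ?_ ?_ ?_
  · intro b hb
    rw [Fintype.mem_piFinset] at hb
    rw [Finset.mem_product, Fintype.mem_piFinset, Fintype.mem_piFinset]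
    exact ⟨fun i => hb _, fun i => hb _⟩
  · intro p hp
    rw [Finset.mem_product, Fintype.mem_piFinset, Fintype.mem_piFinset] at hp
    rw [Fintype.mem_piFinset]
    intro i
    refine Fin.addCases (fun i => ?_) (fun i => ?_) i
    · rw [Fin.append_left]; exact hp.1 i
    · rw [Fin.append_right]; exact hp.2 i
  · intro b _
    funext i
    refine Fin.addCases (fun i => ?_) (fun i => ?_) i
    · simp only [Fin.append_left]
    · simp only [Fin.append_right]
  · intro p _
    ext i
    · simp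
    · simp
  · intro b _
    congr 1
    funext i
    refine Fin.addCases (fun i => ?_) (fun i => ?_) i
    · simp only [Fin.append_left]
    · simp only [Fin.append_right]

lemma ps_append_le {j N : ℕ} (b1 : Fin j → ℕ) (b2 : Fin N → ℕ) (l : ℕ) (hl : l ≤ j) :
    ps (Fin.append b1 b2) l = ps b1 l := by
  unfold ps
  rw [Fin.sum_univ_add]
  simp only [Fin.append_left, Fin.append_right, Fin.val_castAdd, Fin.val_natAdd]
  have : ∑ i : Fin N, (if j + (i : ℕ) < l then b2 i else 0) = 0 := by
    apply Finset.sum_eq_zero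
    intro i _
    rw [if_neg (by omega)]
  rw [this, add_zero]

lemma ps_append_ge {j N : ℕ} (b1 : Fin j → ℕ) (b2 : Fin N → ℕ) (l : ℕ) :
    ps (Fin.append b1 b2) (j + l) = (∑ i, b1 i) + ps b2 l := by
  unfold ps
  rw [Fin.sum_univ_add]
  simp only [Fin.append_left, Fin.append_right, Fin.val_castAdd, Fin.val_natAdd]
  congr 1
  · apply Finset.sum_congr rfl
    intro i _
    rw [if_pos (by omega)]
  · apply Finset.sum_congr rfl
    intro i _
    by_cases h : (i : ℕ) < l
    · rw [if_pos h, if_pos (by omega)]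
    · rw [if_neg h, if_neg (by omega)]

lemma w_nonneg {j : ℕ} (b : Fin j → ℕ) : 0 ≤ ∏ i, (1 : ℝ) / (b i).factorial := by
  apply Finset.prod_nonneg
  intro i _
  positivity

/-- box sums are at most path weights -/
lemma vec_le (M s j R : ℕ) :
    ∑ b ∈ (Fintype.piFinset (fun _ : Fin j => range (R + 1))).filter (fun b => PathOK M s b),
      ∏ i, (1 : ℝ) / (b i).factorial ≤ gw M j s := by
  rw [← vec_sum M s j (max R (M + j)) (le_max_right _ _)]
  apply Finset.sum_le_sum_of_subset_of_nonneg
  · apply Finset.filter_subset_filter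
    apply Fintype.piFinset_subset
    intro i
    apply Finset.range_subset_range.2
    have := le_max_left R (M + j)
    omega
  · intro b _ _
    exact w_nonneg b

lemma w_shift {j : ℕ} (b : Fin j → ℕ) (i : Fin j) (hi : 1 ≤ b i) :
    (b i : ℝ) * ∏ l, (1 : ℝ) / (b l).factorial =
      ∏ l, (1 : ℝ) / (Function.update b i (b i - 1) l).factorial := by
  rw [← Finset.mul_prod_erase _ _ (Finset.mem_univ i),
    ← Finset.mul_prod_erase _ (fun l => (1 : ℝ) / (Function.update b i (b i - 1) l).factorial)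
      (Finset.mem_univ i), ← mul_assoc]
  congr 1
  · simp only [Function.update_self]
    obtain ⟨c, hc⟩ : ∃ c, b i = c + 1 := ⟨b i - 1, by omega⟩
    rw [hc, Nat.add_sub_cancel, Nat.factorial_succ]
    push_cast
    have : (c.factorial : ℝ) ≠ 0 := by positivity
    field_simp
  · apply Finset.prod_congr rfl
    intro l hl
    rw [Function.update_of_ne (Finset.ne_of_mem_erase hl)]

/-- first part: one marked step -/
lemma marked_le (M j R : ℕ) (i : Fin j) :
    ∑ b ∈ (Fintype.piFinset (fun _ : Fin j => range (R + 1))).filter (fun b => PathOK M 1 b),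
      (b i : ℝ) * ∏ l, (1 : ℝ) / (b l).factorial ≤ gw M j 2 := by
  refine le_trans ?_ (vec_le M 2 j R)
  set A := (Fintype.piFinset (fun _ : Fin j => range (R + 1))).filter (fun b => PathOK M 1 b)
    with hA
  have h1 : ∑ b ∈ A, (b i : ℝ) * ∏ l, (1 : ℝ) / (b l).factorial =
      ∑ b ∈ A.filter (fun b => 1 ≤ b i), (b i : ℝ) * ∏ l, (1 : ℝ) / (b l).factorial := by
    symm
    apply Finset.sum_subset (Finset.filter_subset _ _)
    intro b hb hb'
    rw [Finset.mem_filter, not_and] at hb'
    have : b i = 0 := by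
      have := hb' hb
      omega
    rw [this]; simp
  rw [h1]
  have h2 : ∑ b ∈ A.filter (fun b => 1 ≤ b i), (b i : ℝ) * ∏ l, (1 : ℝ) / (b l).factorial =
      ∑ b ∈ A.filter (fun b => 1 ≤ b i),
        ∏ l, (1 : ℝ) / (Function.update b i (b i - 1) l).factorial := by
    apply Finset.sum_congr rfl
    intro b hb
    exact w_shift b i (Finset.mem_filter.1 hb).2
  rw [h2]
  have hinj : Set.InjOn (fun b : Fin j → ℕ => Function.update b i (b i - 1))
      (A.filter (fun b => 1 ≤ b i)) := by
    intro b hb c hc hbc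
    simp only [Finset.coe_filter, Set.mem_ofPred_eq] at hb hc
    funext l
    have hl := congrFun hbc l
    simp only at hl
    by_cases h : l = i
    · subst h
      simp only [Function.update_self] at hl
      omega
    · rwa [Function.update_of_ne h, Function.update_of_ne h] at hl
  rw [← Finset.sum_image (f := fun b : Fin j → ℕ => ∏ l, (1 : ℝ) / (b l).factorial) hinj]
  apply Finset.sum_le_sum_of_subset_of_nonneg
  · intro c hc
    rw [Finset.mem_image] at hc
    obtain ⟨b, hb, rfl⟩ := hc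
    rw [Finset.mem_filter, hA, Finset.mem_filter, Fintype.mem_piFinset] at hb
    obtain ⟨⟨hb1, hb2, hb3⟩, hb4⟩ := hb
    have hle : ∀ l, Function.update b i (b i - 1) l ≤ b l := by
      intro l
      by_cases h : l = i
      · subst h; simp
      · rw [Function.update_of_ne h]
    have hsum : ∑ l, b l = (∑ l, Function.update b i (b i - 1) l) + 1 := by
      rw [← Finset.add_sum_erase _ _ (Finset.mem_univ i),
        ← Finset.add_sum_erase _ (fun l => Function.update b i (b i - 1) l) (Finset.mem_univ i)]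
      have h5 : ∑ x ∈ univ.erase i, Function.update b i (b i - 1) x = ∑ x ∈ univ.erase i, b x := by
        apply Finset.sum_congr rfl
        intro l hl
        rw [Function.update_of_ne (Finset.ne_of_mem_erase hl)]
      rw [h5]
      simp only [Function.update_self]
      omega
    rw [Finset.mem_filter, Fintype.mem_piFinset]
    refine ⟨fun l => ?_, fun l hl => ?_, ?_⟩
    · have := hb1 l
      rw [Finset.mem_range] at this ⊢
      exact lt_of_le_of_lt (hle l) this
    · have h6 := hb2 l hl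
      refine le_trans (Nat.add_le_add_right ?_ 1) h6
      apply Finset.sum_le_sum
      intro x _
      split_ifs
      · exact hle x
      · exact le_rfl
    · omega
  · intro b _ _
    exact w_nonneg b

/-- first part -/
lemma part_one (M j R : ℕ) :
    ∑ b ∈ (Fintype.piFinset (fun _ : Fin j => range (R + 1))).filter (fun b => PathOK M 1 b),
      (∏ l, (1 : ℝ) / (b l).factorial) * (1 + ∑ i : Fin j, (b i : ℝ) * 2 ^ ((i : ℕ) + 1))
      ≤ gw M j 1 + 2 ^ (j + 1) * gw M j 2 := by
  have h1 : ∑ b ∈ (Fintype.piFinset (fun _ : Fin j => range (R + 1))).filter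
      (fun b => PathOK M 1 b),
      (∏ l, (1 : ℝ) / (b l).factorial) * (1 + ∑ i : Fin j, (b i : ℝ) * 2 ^ ((i : ℕ) + 1)) =
      ∑ b ∈ (Fintype.piFinset (fun _ : Fin j => range (R + 1))).filter (fun b => PathOK M 1 b),
        (∏ l, (1 : ℝ) / (b l).factorial) +
      ∑ i : Fin j, 2 ^ ((i : ℕ) + 1) *
        ∑ b ∈ (Fintype.piFinset (fun _ : Fin j => range (R + 1))).filter (fun b => PathOK M 1 b),
          (b i : ℝ) * ∏ l, (1 : ℝ) / (b l).factorial := by
    simp_rw [Finset.mul_sum]
    rw [Finset.sum_comm, ← Finset.sum_add_distrib]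
    apply Finset.sum_congr rfl
    intro b _
    rw [mul_add, mul_one, Finset.mul_sum]
    congr 1
    apply Finset.sum_congr rfl
    intro i _
    ring
  rw [h1]
  apply add_le_add (vec_le M 1 j R)
  calc ∑ i : Fin j, 2 ^ ((i : ℕ) + 1) *
        ∑ b ∈ (Fintype.piFinset (fun _ : Fin j => range (R + 1))).filter (fun b => PathOK M 1 b),
          (b i : ℝ) * ∏ l, (1 : ℝ) / (b l).factorial
      ≤ ∑ i : Fin j, 2 ^ ((i : ℕ) + 1) * gw M j 2 := by
        apply Finset.sum_le_sum
        intro i _
        exact mul_le_mul_of_nonneg_left (marked_le M j R i) (by positivity)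
    _ = (∑ i ∈ range j, (2 : ℝ) ^ (i + 1)) * gw M j 2 := by
        rw [← Finset.sum_mul, Finset.sum_range]
    _ ≤ 2 ^ (j + 1) * gw M j 2 := by
        apply mul_le_mul_of_nonneg_right _ (gw_nonneg _ _ _)
        have : ∀ j : ℕ, ∑ i ∈ range j, (2 : ℝ) ^ (i + 1) = 2 ^ (j + 1) - 2 := by
          intro j
          induction j with
          | zero => norm_num
          | succ j ih => rw [Finset.sum_range_succ, ih]; ring
        rw [this]
        linarith

instance (N : ℕ) : DecidablePred (fun b : Fin N → ℕ => ∀ l ∈ range (N + 1), ps b l ≤ l) :=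
  fun b => by infer_instance

/-- second part -/
lemma part_two (N R : ℕ) (x : ℝ) (hx : 0 ≤ x) :
    ∑ b ∈ (Fintype.piFinset (fun _ : Fin N => range (R + 1))).filter
        (fun b => ∀ l ∈ range (N + 1), ps b l ≤ l),
      x ^ (∑ i, b i) * ∏ l, (1 : ℝ) / (b l).factorial
      ≤ ∑ s ∈ range (N + 1), x ^ (N - s) * gw 1 N (s + 1) := by
  calc ∑ b ∈ (Fintype.piFinset (fun _ : Fin N => range (R + 1))).filter
        (fun b => ∀ l ∈ range (N + 1), ps b l ≤ l),
      x ^ (∑ i, b i) * ∏ l, (1 : ℝ) / (b l).factorial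
      ≤ ∑ b ∈ (Fintype.piFinset (fun _ : Fin N => range (R + 1))),
        ∑ s ∈ range (N + 1), if PathOK 1 (s + 1) b then
          x ^ (N - s) * ∏ l, (1 : ℝ) / (b l).factorial else 0 := by
        rw [Finset.sum_filter]
        apply Finset.sum_le_sum
        intro b _
        split_ifs with h
        · have hN := h N (by simp)
          rw [ps_top b N le_rfl] at hN
          have hok : PathOK 1 ((N - ∑ i, b i) + 1) b := by
            refine ⟨fun l hl => ?_, by omega⟩
            rw [Finset.mem_Icc] at hl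
            have := h l (by rw [Finset.mem_range]; omega)
            unfold ps at this
            omega
          have hterm : x ^ (∑ i, b i) * ∏ l, (1 : ℝ) / (b l).factorial =
              if PathOK 1 ((N - ∑ i, b i) + 1) b then
                x ^ (N - (N - ∑ i, b i)) * ∏ l, (1 : ℝ) / (b l).factorial else 0 := by
            rw [if_pos hok]
            congr 2
            omega
          rw [hterm]
          apply Finset.single_le_sum (f := fun s => if PathOK 1 (s + 1) b then
                x ^ (N - s) * ∏ l, (1 : ℝ) / (b l).factorial else 0)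
          · intro s _
            split_ifs
            · exact mul_nonneg (pow_nonneg hx _) (w_nonneg b)
            · exact le_rfl
          · rw [Finset.mem_range]; omega
        · apply Finset.sum_nonneg
          intro s _
          split_ifs
          · exact mul_nonneg (pow_nonneg hx _) (w_nonneg b)
          · exact le_rfl
    _ = ∑ s ∈ range (N + 1), x ^ (N - s) *
          ∑ b ∈ (Fintype.piFinset (fun _ : Fin N => range (R + 1))).filter
            (fun b => PathOK 1 (s + 1) b), ∏ l, (1 : ℝ) / (b l).factorial := by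
        rw [Finset.sum_comm]
        apply Finset.sum_congr rfl
        intro s _
        rw [Finset.mul_sum, Finset.sum_filter]
    _ ≤ _ := by
        apply Finset.sum_le_sum
        intro s _
        exact mul_le_mul_of_nonneg_left (vec_le _ _ _ _) (pow_nonneg hx _)

instance (J j m : ℕ) : DecidablePred (fun b : Fin J → ℕ =>
    ps b j = j + m ∧ ∀ l ∈ range (J + 1), ps b l ≤ l + m) := fun b => by infer_instance

/-- the sum over one class -/
lemma class_le (j N R m : ℕ) (L : ℝ) (hL : 0 ≤ L) :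
    ∑ b ∈ (Fintype.piFinset (fun _ : Fin (j + N) => range (R + 1))).filter
        (fun b => ps b j = j + m ∧ ∀ l ∈ range (j + N + 1), ps b l ≤ l + m),
      (∏ i, L ^ (b i) / (b i).factorial) *
        (2 ^ (∑ i : Fin (j + N), if j ≤ (i : ℕ) then b i else 0) *
      (1 + ∑ i : Fin (j + N), if (i : ℕ) < j then (b i : ℝ) * 2 ^ ((i : ℕ) + 1) else 0))
      ≤ L ^ (j + m) * (gw (m + 1) j 1 + 2 ^ (j + 1) * gw (m + 1) j 2) *
        ∑ s ∈ range (N + 1), (2 * L) ^ (N - s) * gw 1 N (s + 1) := by
  rw [Finset.sum_filter, sum_box_append]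
  have key : ∀ (b1 : Fin j → ℕ) (b2 : Fin N → ℕ),
      (if (ps (Fin.append b1 b2) j = j + m ∧
          ∀ l ∈ range (j + N + 1), ps (Fin.append b1 b2) l ≤ l + m) then
        (∏ i, L ^ (Fin.append b1 b2 i) / (Fin.append b1 b2 i).factorial) *
        (2 ^ (∑ i : Fin (j + N), if j ≤ (i : ℕ) then Fin.append b1 b2 i else 0) *
      (1 + ∑ i : Fin (j + N), if (i : ℕ) < j then
        ((Fin.append b1 b2 i : ℕ) : ℝ) * 2 ^ ((i : ℕ) + 1) else 0)) else 0) ≤
      (if PathOK (m + 1) 1 b1 then L ^ (j + m) * ((∏ l, (1 : ℝ) / (b1 l).factorial) *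
        (1 + ∑ i : Fin j, (b1 i : ℝ) * 2 ^ ((i : ℕ) + 1))) else 0) *
      (if (∀ l ∈ range (N + 1), ps b2 l ≤ l) then
        (2 * L) ^ (∑ i, b2 i) * ∏ l, (1 : ℝ) / (b2 l).factorial else 0) := by
    intro b1 b2
    have hnn1 : 0 ≤ (if PathOK (m + 1) 1 b1 then L ^ (j + m) * ((∏ l, (1 : ℝ) / (b1 l).factorial) *
        (1 + ∑ i : Fin j, (b1 i : ℝ) * 2 ^ ((i : ℕ) + 1))) else 0) := by
      split_ifs
      · have := w_nonneg b1
        have h2 : 0 ≤ ∑ i : Fin j, (b1 i : ℝ) * 2 ^ ((i : ℕ) + 1) :=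
          Finset.sum_nonneg fun i _ => by positivity
        positivity
      · exact le_rfl
    have hnn2 : 0 ≤ (if (∀ l ∈ range (N + 1), ps b2 l ≤ l) then
        (2 * L) ^ (∑ i, b2 i) * ∏ l, (1 : ℝ) / (b2 l).factorial else 0) := by
      split_ifs
      · have := w_nonneg b2
        positivity
      · exact le_rfl
    by_cases h : (ps (Fin.append b1 b2) j = j + m ∧
          ∀ l ∈ range (j + N + 1), ps (Fin.append b1 b2) l ≤ l + m)
    swap
    · rw [if_neg h]
      exact mul_nonneg hnn1 hnn2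
    rw [if_pos h]
    split_ifs with h1 h2 h2
    · obtain ⟨ha, hb⟩ := h
      rw [ps_append_le b1 b2 j le_rfl, ps_top b1 j le_rfl] at ha
      have e1 : ∑ i : Fin (j + N), (if j ≤ (i : ℕ) then Fin.append b1 b2 i else 0) =
          ∑ i, b2 i := by
        rw [Fin.sum_univ_add]
        simp only [Fin.append_left, Fin.append_right, Fin.val_castAdd, Fin.val_natAdd]
        have z : ∑ i : Fin j, (if j ≤ (i : ℕ) then b1 i else 0) = 0 := by
          apply Finset.sum_eq_zero
          intro i _
          rw [if_neg (by omega)]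
        rw [z, zero_add]
        apply Finset.sum_congr rfl
        intro i _
        rw [if_pos (by omega)]
      have e2 : ∑ i : Fin (j + N), (if (i : ℕ) < j then
          ((Fin.append b1 b2 i : ℕ) : ℝ) * 2 ^ ((i : ℕ) + 1) else 0) =
          ∑ i : Fin j, (b1 i : ℝ) * 2 ^ ((i : ℕ) + 1) := by
        rw [Fin.sum_univ_add]
        simp only [Fin.append_left, Fin.append_right, Fin.val_castAdd, Fin.val_natAdd]
        have z : ∑ i : Fin N, (if j + (i : ℕ) < j then
            (b2 i : ℝ) * 2 ^ (j + (i : ℕ) + 1) else 0) = 0 := by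
          apply Finset.sum_eq_zero
          intro i _
          rw [if_neg (by omega)]
        rw [z, add_zero]
        apply Finset.sum_congr rfl
        intro i _
        rw [if_pos i.2]
      have e3 : ∏ i, L ^ (Fin.append b1 b2 i) / ((Fin.append b1 b2 i).factorial : ℝ) =
          (L ^ (∑ i, b1 i) * ∏ l, (1 : ℝ) / (b1 l).factorial) *
          (L ^ (∑ i, b2 i) * ∏ l, (1 : ℝ) / (b2 l).factorial) := by
        rw [Fin.prod_univ_add]
        simp only [Fin.append_left, Fin.append_right]
        rw [← Finset.prod_pow_eq_pow_sum, ← Finset.prod_pow_eq_pow_sum,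
          ← Finset.prod_mul_distrib, ← Finset.prod_mul_distrib]
        congr 1
        · apply Finset.prod_congr rfl
          intro i _
          ring
        · apply Finset.prod_congr rfl
          intro i _
          ring
      rw [e1, e2, e3, ha, mul_pow]
      apply le_of_eq
      ring
    · exfalso
      apply h2
      obtain ⟨ha, hb⟩ := h
      rw [ps_append_le b1 b2 j le_rfl, ps_top b1 j le_rfl] at ha
      intro l hl
      rw [Finset.mem_range] at hl
      have := hb (j + l) (by rw [Finset.mem_range]; omega)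
      rw [ps_append_ge, ha] at this
      omega
    · exfalso
      apply h1
      obtain ⟨ha, hb⟩ := h
      rw [ps_append_le b1 b2 j le_rfl, ps_top b1 j le_rfl] at ha
      refine ⟨fun l hl => ?_, by omega⟩
      rw [Finset.mem_Icc] at hl
      have := hb l (by rw [Finset.mem_range]; omega)
      rw [ps_append_le b1 b2 l hl.2] at this
      unfold ps at this
      omega
    · exfalso
      apply h1
      obtain ⟨ha, hb⟩ := h
      rw [ps_append_le b1 b2 j le_rfl, ps_top b1 j le_rfl] at ha
      refine ⟨fun l hl => ?_, by omega⟩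
      rw [Finset.mem_Icc] at hl
      have := hb l (by rw [Finset.mem_range]; omega)
      rw [ps_append_le b1 b2 l hl.2] at this
      unfold ps at this
      omega
  calc _ ≤ ∑ b1 ∈ Fintype.piFinset (fun _ : Fin j => range (R + 1)),
        ∑ b2 ∈ Fintype.piFinset (fun _ : Fin N => range (R + 1)),
      (if PathOK (m + 1) 1 b1 then L ^ (j + m) * ((∏ l, (1 : ℝ) / (b1 l).factorial) *
        (1 + ∑ i : Fin j, (b1 i : ℝ) * 2 ^ ((i : ℕ) + 1))) else 0) *
      (if (∀ l ∈ range (N + 1), ps b2 l ≤ l) then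
        (2 * L) ^ (∑ i, b2 i) * ∏ l, (1 : ℝ) / (b2 l).factorial else 0) :=
        Finset.sum_le_sum fun b1 _ => Finset.sum_le_sum fun b2 _ => key b1 b2
    _ = (L ^ (j + m) * ∑ b1 ∈ (Fintype.piFinset (fun _ : Fin j => range (R + 1))).filter
          (fun b => PathOK (m + 1) 1 b), ((∏ l, (1 : ℝ) / (b1 l).factorial) *
        (1 + ∑ i : Fin j, (b1 i : ℝ) * 2 ^ ((i : ℕ) + 1)))) *
        ∑ b2 ∈ (Fintype.piFinset (fun _ : Fin N => range (R + 1))).filter
          (fun b => ∀ l ∈ range (N + 1), ps b l ≤ l),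
            (2 * L) ^ (∑ i, b2 i) * ∏ l, (1 : ℝ) / (b2 l).factorial := by
        rw [Finset.sum_filter, Finset.sum_filter, Finset.mul_sum _ _ (L ^ (j + m)),
          Finset.sum_mul_sum]
        simp_rw [mul_ite, mul_zero]
    _ ≤ _ := by
        have hp1 := part_one (m + 1) j R
        have hp2 := part_two N R (2 * L) (by positivity)
        have hnn : 0 ≤ ∑ b2 ∈ (Fintype.piFinset (fun _ : Fin N => range (R + 1))).filter
          (fun b => ∀ l ∈ range (N + 1), ps b l ≤ l),
            (2 * L) ^ (∑ i, b2 i) * ∏ l, (1 : ℝ) / (b2 l).factorial := by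
          apply Finset.sum_nonneg
          intro b _
          exact mul_nonneg (by positivity) (w_nonneg b)
        have hnn' : 0 ≤ gw (m + 1) j 1 + 2 ^ (j + 1) * gw (m + 1) j 2 := by
          have h1 := gw_nonneg (m + 1) j 1
          have h2 := gw_nonneg (m + 1) j 2
          positivity
        apply mul_le_mul _ hp2 hnn (by positivity)
        exact mul_le_mul_of_nonneg_left hp1 (by positivity)


/-- numeric bound for one class -/
lemma class_num : ∃ C : ℝ, 0 < C ∧ ∀ j N m : ℕ,
    (Real.log 2) ^ (j + m) * (gw (m + 1) j 1 + 2 ^ (j + 1) * gw (m + 1) j 2) *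
        ∑ s ∈ range (N + 1), (2 * Real.log 2) ^ (N - s) * gw 1 N (s + 1)
      ≤ C * (2 * Real.exp 1 * Real.log 2) ^ (j + N) *
        (((m : ℝ) + 1) * (Real.log 2 * (Real.exp 1 / 2)) ^ m) *
        (1 / (((j : ℝ) + 1) * Real.sqrt (j + 1)) * (1 / (((N : ℝ) + 1) * Real.sqrt (N + 1)))) := by
  obtain ⟨C0, hC0, hlift⟩ := gw_lift
  have hL1 : 0.6931471803 < Real.log 2 := Real.log_two_gt_d9
  have hL2 : Real.log 2 < 0.6931471808 := Real.log_two_lt_d9
  have hL0 : 0 < Real.log 2 := by linarith
  set L := Real.log 2 with hLdef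
  set e := Real.exp 1 with hedef
  have he0 : 0 < e := Real.exp_pos 1
  set q := (2 * L)⁻¹ with hq
  have hq0 : 0 < q := by positivity
  have hq1 : q < 1 := by
    rw [hq]
    apply inv_lt_one_of_one_lt₀
    linarith
  have hsum1 : Summable (fun s : ℕ => ((s : ℝ) + 1) * q ^ s) := by
    have h1 : Summable (fun s : ℕ => (s : ℝ) ^ 1 * q ^ s) :=
      summable_pow_mul_geometric_of_norm_lt_one 1 (by rw [Real.norm_of_nonneg hq0.le]; exact hq1)
    have h2 : Summable (fun s : ℕ => q ^ s) := summable_geometric_of_lt_one hq0.le hq1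
    refine (h1.add h2).congr fun s => ?_
    ring
  set D := ∑' s : ℕ, ((s : ℝ) + 1) * q ^ s with hD
  have hD0 : 0 < D := by
    have : ((0 : ℕ) : ℝ) + 1 ≤ D := by
      have h := hsum1.le_tsum 0 (fun s _ => by positivity)
      simpa using h
    norm_num at this
    linarith
  refine ⟨5 * C0 ^ 2 * (e / 2) ^ 2 * D, by positivity, fun j N m => ?_⟩
  have hexp : ∀ n : ℕ, Real.exp n = e ^ n := by
    intro n
    rw [hedef, ← Real.exp_nat_mul, mul_one]
  have sj : 0 < ((j : ℝ) + 1) * Real.sqrt (j + 1) := by positivity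
  have sN : 0 < ((N : ℝ) + 1) * Real.sqrt (N + 1) := by positivity
  -- first factor
  have h1 : gw (m + 1) j 1 + 2 ^ (j + 1) * gw (m + 1) j 2 ≤
      5 * C0 * (((m : ℝ) + 1) * (e / 2) ^ (m + 1)) * ((2 * e) ^ j) *
        (1 / (((j : ℝ) + 1) * Real.sqrt (j + 1))) := by
    have a1 := hlift (m + 1) j 1 (by omega)
    have a2 := hlift (m + 1) j 2 (by omega)
    rw [hexp] at a1 a2
    push_cast at a1 a2
    set W := C0 * (((m : ℝ) + 1) * (e / 2) ^ (m + 1)) * (e ^ j / (((j : ℝ) + 1) * Real.sqrt (j + 1)))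
      with hW
    have hW0 : 0 ≤ W := by positivity
    have b1 : gw (m + 1) j 1 ≤ W := by
      refine a1.trans (le_of_eq ?_)
      rw [hW]; ring
    have b2 : gw (m + 1) j 2 ≤ 2 * W := by
      refine a2.trans (le_of_eq ?_)
      rw [hW]; ring
    have h2j : (1 : ℝ) ≤ 2 ^ j := one_le_pow₀ (by norm_num)
    calc gw (m + 1) j 1 + 2 ^ (j + 1) * gw (m + 1) j 2 ≤ W + 2 ^ (j + 1) * (2 * W) := by
          gcongr
      _ ≤ 2 ^ j * W + 2 ^ (j + 1) * (2 * W) := by
          gcongr
          nlinarith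
      _ = 5 * (2 ^ j * W) := by ring
      _ = _ := by rw [hW, mul_pow]; ring
  -- second factor
  have h2 : ∑ s ∈ range (N + 1), (2 * L) ^ (N - s) * gw 1 N (s + 1) ≤
      C0 * (e / 2) * (2 * L * e) ^ N * (1 / (((N : ℝ) + 1) * Real.sqrt (N + 1))) * D := by
    calc ∑ s ∈ range (N + 1), (2 * L) ^ (N - s) * gw 1 N (s + 1)
        ≤ ∑ s ∈ range (N + 1), C0 * (e / 2) * (2 * L * e) ^ N *
          (1 / (((N : ℝ) + 1) * Real.sqrt (N + 1))) * (((s : ℝ) + 1) * q ^ s) := by
          apply Finset.sum_le_sum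
          intro s hs
          rw [Finset.mem_range] at hs
          have a1 := hlift 1 N (s + 1) le_rfl
          rw [hexp] at a1
          push_cast at a1
          have hpow : (2 * L) ^ (N - s) = (2 * L) ^ N * q ^ s := by
            have h3 : (2 * L) ^ (N - s) * (2 * L) ^ s = (2 * L) ^ N := by
              rw [← pow_add]; congr 1; omega
            rw [← h3, hq, inv_pow, mul_assoc, mul_inv_cancel₀ (by positivity), mul_one]
          rw [hpow]
          calc (2 * L) ^ N * q ^ s * gw 1 N (s + 1) ≤ (2 * L) ^ N * q ^ s *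
              (C0 * (1 * (e / 2) ^ 1) * (((s : ℝ) + 1) * e ^ N /
                (((N : ℝ) + 1) * Real.sqrt (N + 1)))) := by
                gcongr
            _ = _ := by rw [mul_pow]; ring
      _ = C0 * (e / 2) * (2 * L * e) ^ N * (1 / (((N : ℝ) + 1) * Real.sqrt (N + 1))) *
            ∑ s ∈ range (N + 1), (((s : ℝ) + 1) * q ^ s) := by
          rw [Finset.mul_sum]
      _ ≤ _ := by
          apply mul_le_mul_of_nonneg_left _ (by positivity)
          exact hsum1.sum_le_tsum _ (fun s _ => by positivity)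
  have hnn2 : 0 ≤ ∑ s ∈ range (N + 1), (2 * L) ^ (N - s) * gw 1 N (s + 1) := by
    apply Finset.sum_nonneg
    intro s _
    exact mul_nonneg (by positivity) (gw_nonneg _ _ _)
  calc L ^ (j + m) * (gw (m + 1) j 1 + 2 ^ (j + 1) * gw (m + 1) j 2) *
        ∑ s ∈ range (N + 1), (2 * L) ^ (N - s) * gw 1 N (s + 1)
      ≤ L ^ (j + m) * (5 * C0 * (((m : ℝ) + 1) * (e / 2) ^ (m + 1)) * ((2 * e) ^ j) *
        (1 / (((j : ℝ) + 1) * Real.sqrt (j + 1)))) *
        (C0 * (e / 2) * (2 * L * e) ^ N * (1 / (((N : ℝ) + 1) * Real.sqrt (N + 1))) * D) := by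
        apply mul_le_mul _ h2 hnn2 (by positivity)
        exact mul_le_mul_of_nonneg_left h1 (by positivity)
    _ = _ := by
        simp only [mul_pow, pow_add, pow_one]
        ring

/- TARGET -/
/-- PU -/
theorem path_upper : ∃ C : ℝ, 0 < C ∧ ∀ J R : ℕ, 1 ≤ J → ∀ Φ : (Fin J → ℕ) → ℝ,
    (∀ b, 0 ≤ Φ b) →
    (∀ b : Fin J → ℕ, ∀ j ≤ J, Φ b ≤ 2 ^ (∑ i : Fin J, if j ≤ (i : ℕ) then b i else 0) *
      (1 + ∑ i : Fin J, if (i : ℕ) < j then (b i : ℝ) * 2 ^ ((i : ℕ) + 1) else 0)) →
    ∑ b ∈ Fintype.piFinset (fun _ : Fin J => range (R + 1)),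
      (∏ i, (Real.log 2) ^ (b i) / (b i).factorial) * Φ b
      ≤ C * ((2 * Real.exp 1 * Real.log 2) ^ J / (J * Real.sqrt J)) := by
  obtain ⟨C1, hC1, hnum⟩ := class_num
  obtain ⟨C2, hC2, hconv⟩ := conv_bound
  have hL1 : 0.6931471803 < Real.log 2 := Real.log_two_gt_d9
  have hL2 : Real.log 2 < 0.6931471808 := Real.log_two_lt_d9
  have he2 : Real.exp 1 < 2.7182818286 := Real.exp_one_lt_d9
  have he0 : 0 < Real.exp 1 := Real.exp_pos 1
  have hL0 : 0 < Real.log 2 := by linarith
  set L := Real.log 2 with hLdef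
  set e := Real.exp 1 with hedef
  set ρ := L * (e / 2) with hρ
  have hρ0 : 0 < ρ := by positivity
  have hρ1 : ρ < 1 := by
    rw [hρ]
    nlinarith
  have hsum2 : Summable (fun s : ℕ => ((s : ℝ) + 1) * ρ ^ s) := by
    have h1 : Summable (fun s : ℕ => (s : ℝ) ^ 1 * ρ ^ s) :=
      summable_pow_mul_geometric_of_norm_lt_one 1 (by rw [Real.norm_of_nonneg hρ0.le]; exact hρ1)
    have h2 : Summable (fun s : ℕ => ρ ^ s) := summable_geometric_of_lt_one hρ0.le hρ1
    refine (h1.add h2).congr fun s => ?_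
    ring
  set D := ∑' s : ℕ, ((s : ℝ) + 1) * ρ ^ s with hD
  have hD0 : 0 < D := by
    have : ((0 : ℕ) : ℝ) + 1 ≤ D := by
      have h := hsum2.le_tsum 0 (fun s _ => by positivity)
      simpa using h
    norm_num at this
    linarith
  refine ⟨C1 * D * C2, by positivity, fun J R hJ Φ hΦ0 hΦ => ?_⟩
  set box := Fintype.piFinset (fun _ : Fin J => range (R + 1)) with hbox
  let F : ℕ → (Fin J → ℕ) → ℝ := fun j b => (∏ i, L ^ (b i) / (b i).factorial) *
        (2 ^ (∑ i : Fin J, if j ≤ (i : ℕ) then b i else 0) *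
      (1 + ∑ i : Fin J, if (i : ℕ) < j then (b i : ℝ) * 2 ^ ((i : ℕ) + 1) else 0))
  have hw0 : ∀ b : Fin J → ℕ, 0 ≤ ∏ i, L ^ (b i) / (b i).factorial := by
    intro b
    apply Finset.prod_nonneg
    intro i _
    positivity
  have hF0 : ∀ j b, 0 ≤ F j b := by
    intro j b
    apply mul_nonneg (hw0 b)
    have : 0 ≤ ∑ i : Fin J, (if (i : ℕ) < j then (b i : ℝ) * 2 ^ ((i : ℕ) + 1) else 0) := by
      apply Finset.sum_nonneg
      intro i _
      split_ifs
      · positivity
      · exact le_rfl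
    positivity
  -- classification
  have step1 : ∑ b ∈ box, (∏ i, L ^ (b i) / (b i).factorial) * Φ b ≤
      ∑ b ∈ box, ∑ j ∈ range (J + 1), ∑ m ∈ range (J * R + 1),
        if (ps b j = j + m ∧ ∀ l ∈ range (J + 1), ps b l ≤ l + m) then F j b else 0 := by
    apply Finset.sum_le_sum
    intro b hb
    obtain ⟨j, hj, m, hm, hjm, hall⟩ := exists_max b
    have hmR : m < J * R + 1 := by
      have h1 : ∑ i, b i ≤ ∑ i : Fin J, R := by
        apply Finset.sum_le_sum
        intro i _
        have := (Fintype.mem_piFinset.1 hb) i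
        rw [Finset.mem_range] at this
        omega
      rw [Finset.sum_const, Finset.card_univ, Fintype.card_fin, smul_eq_mul] at h1
      omega
    have h2 : (∏ i, L ^ (b i) / (b i).factorial) * Φ b ≤ F j b :=
      mul_le_mul_of_nonneg_left (hΦ b j hj) (hw0 b)
    refine h2.trans ?_
    have h3 : F j b = if (ps b j = j + m ∧ ∀ l ∈ range (J + 1), ps b l ≤ l + m) then F j b
        else 0 := by
      rw [if_pos]
      refine ⟨hjm, fun l hl => hall l ?_⟩
      rw [Finset.mem_range] at hl
      omega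
    have hterm : ∀ j m, 0 ≤ (if (ps b j = j + m ∧ ∀ l ∈ range (J + 1), ps b l ≤ l + m) then F j b
        else 0) := by
      intro j m
      split_ifs
      · exact hF0 j b
      · exact le_rfl
    calc F j b = if (ps b j = j + m ∧ ∀ l ∈ range (J + 1), ps b l ≤ l + m) then F j b
        else 0 := h3
      _ ≤ ∑ m ∈ range (J * R + 1),
        if (ps b j = j + m ∧ ∀ l ∈ range (J + 1), ps b l ≤ l + m) then F j b else 0 :=
        Finset.single_le_sum (f := fun m =>
          if (ps b j = j + m ∧ ∀ l ∈ range (J + 1), ps b l ≤ l + m) then F j b else 0)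
          (fun m _ => hterm j m) (Finset.mem_range.2 hmR)
      _ ≤ _ := Finset.single_le_sum (f := fun j => ∑ m ∈ range (J * R + 1),
          if (ps b j = j + m ∧ ∀ l ∈ range (J + 1), ps b l ≤ l + m) then F j b else 0)
          (fun j _ => Finset.sum_nonneg fun m _ => hterm j m)
          (Finset.mem_range.2 (by omega))
  have step2 : ∑ b ∈ box, ∑ j ∈ range (J + 1), ∑ m ∈ range (J * R + 1),
        (if (ps b j = j + m ∧ ∀ l ∈ range (J + 1), ps b l ≤ l + m) then F j b else 0) =
      ∑ j ∈ range (J + 1), ∑ m ∈ range (J * R + 1),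
        ∑ b ∈ box.filter (fun b => ps b j = j + m ∧ ∀ l ∈ range (J + 1), ps b l ≤ l + m),
          F j b := by
    rw [Finset.sum_comm]
    apply Finset.sum_congr rfl
    intro j _
    rw [Finset.sum_comm]
    apply Finset.sum_congr rfl
    intro m _
    rw [Finset.sum_filter]
  have step3 : ∀ j ∈ range (J + 1), ∀ m ∈ range (J * R + 1),
      ∑ b ∈ box.filter (fun b => ps b j = j + m ∧ ∀ l ∈ range (J + 1), ps b l ≤ l + m),
          F j b ≤ C1 * (2 * e * L) ^ J * (((m : ℝ) + 1) * ρ ^ m) *
        (1 / (((j : ℝ) + 1) * Real.sqrt (j + 1)) *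
          (1 / ((((J - j : ℕ) : ℝ) + 1) * Real.sqrt (((J - j : ℕ) : ℝ) + 1)))) := by
    intro j hj m _
    rw [Finset.mem_range] at hj
    obtain ⟨N, hN⟩ : ∃ N, J = j + N := ⟨J - j, by omega⟩
    have h1 := (class_le j N R m L hL0.le).trans (hnum j N m)
    have hJN : J - j = N := by omega
    subst hN
    rw [hJN]
    exact h1
  calc ∑ b ∈ box, (∏ i, L ^ (b i) / (b i).factorial) * Φ b
      ≤ ∑ j ∈ range (J + 1), ∑ m ∈ range (J * R + 1), C1 * (2 * e * L) ^ J *
        (((m : ℝ) + 1) * ρ ^ m) * (1 / (((j : ℝ) + 1) * Real.sqrt (j + 1)) *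
          (1 / ((((J - j : ℕ) : ℝ) + 1) * Real.sqrt (((J - j : ℕ) : ℝ) + 1)))) := by
        rw [step2] at step1
        refine step1.trans ?_
        exact Finset.sum_le_sum fun j hj => Finset.sum_le_sum fun m hm => step3 j hj m hm
    _ = C1 * (2 * e * L) ^ J * (∑ m ∈ range (J * R + 1), (((m : ℝ) + 1) * ρ ^ m)) *
        ∑ j ∈ range (J + 1), (1 / (((j : ℝ) + 1) * Real.sqrt (j + 1)) *
          (1 / ((((J - j : ℕ) : ℝ) + 1) * Real.sqrt (((J - j : ℕ) : ℝ) + 1)))) := by
        rw [Finset.mul_sum]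
        apply Finset.sum_congr rfl
        intro j _
        rw [← Finset.sum_mul, Finset.mul_sum]
    _ ≤ C1 * (2 * e * L) ^ J * D * (C2 / (((J : ℝ) + 1) * Real.sqrt (J + 1))) := by
        apply mul_le_mul _ (hconv J) _ (by positivity)
        · apply mul_le_mul_of_nonneg_left _ (by positivity)
          exact hsum2.sum_le_tsum _ (fun s _ => by positivity)
        · apply Finset.sum_nonneg
          intro j _
          positivity
    _ ≤ _ := by
        have hJ0 : (0 : ℝ) < J := by exact_mod_cast hJ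
        have h5 : 1 / (((J : ℝ) + 1) * Real.sqrt (J + 1)) ≤ 1 / (J * Real.sqrt J) := by
          apply one_div_le_one_div_of_le
          · positivity
          · apply mul_le_mul (by linarith) (Real.sqrt_le_sqrt (by linarith)) (by positivity)
              (by positivity)
        calc C1 * (2 * e * L) ^ J * D * (C2 / (((J : ℝ) + 1) * Real.sqrt (J + 1)))
            = C1 * (2 * e * L) ^ J * D * C2 * (1 / (((J : ℝ) + 1) * Real.sqrt (J + 1))) := by
              ring
          _ ≤ C1 * (2 * e * L) ^ J * D * C2 * (1 / (J * Real.sqrt J)) := by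
              gcongr
          _ = _ := by ring

end Pool.Agent.Helper112.LP.Kpu

namespace Pool.Agent.Helper112.LP

/-- PU -/
theorem path_upper : ∃ C : ℝ, 0 < C ∧ ∀ J R : ℕ, 1 ≤ J → ∀ Φ : (Fin J → ℕ) → ℝ,
    (∀ b, 0 ≤ Φ b) →
    (∀ b : Fin J → ℕ, ∀ j ≤ J, Φ b ≤ 2 ^ (∑ i : Fin J, if j ≤ (i : ℕ) then b i else 0) *
      (1 + ∑ i : Fin J, if (i : ℕ) < j then (b i : ℝ) * 2 ^ ((i : ℕ) + 1) else 0)) →
    ∑ b ∈ Fintype.piFinset (fun _ : Fin J => range (R + 1)),
      (∏ i, (Real.log 2) ^ (b i) / (b i).factorial) * Φ b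
      ≤ C * ((2 * Real.exp 1 * Real.log 2) ^ J / (J * Real.sqrt J)) := by
  first
    | exact Kpu.path_upper
    | (apply Kpu.path_upper <;> assumption)

end Pool.Agent.Helper112.LP
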