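import Pool.Agent.Helper112.Lp.Defs
import Pool.Agent.Helper112.Lp.Kmg
import Pool.Agent.Helper112.Lp.Kpu

open Finset

namespace Pool.Agent.Helper112.LP.Kfs

theorem prod_log (a b : ℕ) (ha : 1 ≤ a) (hb : 1 ≤ b) :
    Nat.log 2 (a * b) = Nat.log 2 a + Nat.log 2 b + 0 ∨
    Nat.log 2 (a * b) = Nat.log 2 a + Nat.log 2 b + 1 := by
  have h1 : 2 ^ (Nat.log 2 a + Nat.log 2 b) ≤ a * b := by
    rw [pow_add]
    exact Nat.mul_le_mul (Nat.pow_log_le_self 2 (by omega)) (Nat.pow_log_le_self 2 (by omega))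
  have h2 : a * b < 2 ^ (Nat.log 2 a + Nat.log 2 b + 2) := by
    have e : 2 ^ (Nat.log 2 a + Nat.log 2 b + 2)
        = 2 ^ (Nat.log 2 a + 1) * 2 ^ (Nat.log 2 b + 1) := by
      rw [← pow_add]
      congr 1
      ring
    rw [e]
    exact Nat.mul_lt_mul'' (Nat.lt_pow_succ_log_self (by norm_num) a)
      (Nat.lt_pow_succ_log_self (by norm_num) b)
  have h3 : Nat.log 2 a + Nat.log 2 b ≤ Nat.log 2 (a * b) :=
    Nat.le_log_of_pow_le (by norm_num) h1
  have hab : a * b ≠ 0 := Nat.mul_ne_zero (by omega) (by omega)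
  have h4 : Nat.log 2 (a * b) < Nat.log 2 a + Nat.log 2 b + 2 :=
    Nat.log_lt_of_lt_pow hab h2
  omega

/- TARGET -/
/-- submultiplicativity -/
theorem ell_mul (a b : ℕ) (ha : 1 ≤ a) (hb : 1 ≤ b) :
    ell (a * b) ≤ 2 * b.divisors.card * ell a := by
  unfold ell
  have h : (a * b).divisors.image (Nat.log 2) ⊆
      (((a.divisors.image (Nat.log 2)) ×ˢ b.divisors) ×ˢ (range 2)).image
        (fun x => x.1.1 + Nat.log 2 x.1.2 + x.2) := by
    intro m hm
    rw [mem_image] at hm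
    obtain ⟨d, hd, rfl⟩ := hm
    rw [Nat.mem_divisors] at hd
    obtain ⟨d1, d2, h1, h2, rfl⟩ := exists_dvd_and_dvd_of_dvd_mul hd.1
    have p1 : 1 ≤ d1 := Nat.pos_of_dvd_of_pos h1 ha
    have p2 : 1 ≤ d2 := Nat.pos_of_dvd_of_pos h2 hb
    rw [mem_image]
    rcases prod_log d1 d2 p1 p2 with h | h
    · refine ⟨((Nat.log 2 d1, d2), 0), ?_, h.symm⟩
      simp only [mem_product, mem_image, Nat.mem_divisors, mem_range]
      exact ⟨⟨⟨d1, ⟨h1, by omega⟩, rfl⟩, h2, by omega⟩, by norm_num⟩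
    · refine ⟨((Nat.log 2 d1, d2), 1), ?_, h.symm⟩
      simp only [mem_product, mem_image, Nat.mem_divisors, mem_range]
      exact ⟨⟨⟨d1, ⟨h1, by omega⟩, rfl⟩, h2, by omega⟩, by norm_num⟩
  refine (card_le_card h).trans (card_image_le.trans ?_)
  rw [card_product, card_product, card_range]
  apply le_of_eq
  ring

theorem ell_le (a : ℕ) : ell a ≤ 1 + Nat.log 2 a := by
  unfold ell
  have h : a.divisors.image (Nat.log 2) ⊆ range (1 + Nat.log 2 a) := by
    intro m hm
    rw [mem_image] at hm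
    obtain ⟨d, hd, rfl⟩ := hm
    rw [mem_range]
    have := Nat.log_mono_right (b := 2) (Nat.divisor_le hd)
    omega
  simpa using card_le_card h

theorem card_div_prod (T : Finset ℕ) (hT : ∀ p ∈ T, p.Prime) :
    (∏ l ∈ T, l).divisors.card = 2 ^ T.card := by
  induction T using Finset.induction_on with
  | empty => simp
  | insert p T hp ih =>
    have hpp : p.Prime := hT p (mem_insert_self _ _)
    have hT' : ∀ r ∈ T, r.Prime := fun r hr => hT r (mem_insert_of_mem hr)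
    rw [prod_insert hp, card_insert_of_notMem hp, pow_succ]
    have hc : Nat.Coprime p (∏ l ∈ T, l) := by
      apply Nat.Coprime.prod_right
      intro r hr
      rw [Nat.coprime_primes hpp (hT' r hr)]
      rintro rfl
      exact hp hr
    rw [Nat.Coprime.card_divisors_mul hc, ih hT', Nat.Prime.divisors hpp,
      card_pair hpp.one_lt.ne, mul_comm]

/-- elementary symmetric bound -/
theorem pow_step (S x : ℝ) (hS : 0 ≤ S) (hx : 0 ≤ x) (n : ℕ) :
    S ^ (n + 1) + (n + 1) * x * S ^ n ≤ (S + x) ^ (n + 1) := by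
  induction n with
  | zero => simp
  | succ n ih =>
    have h1 : (S + x) ^ (n + 1 + 1) = (S + x) * (S + x) ^ (n + 1) := by ring
    rw [h1]
    have h2 := mul_le_mul_of_nonneg_left ih (add_nonneg hS hx)
    refine le_trans ?_ h2
    have h3 : 0 ≤ ((n : ℝ) + 1) * x ^ 2 * S ^ n := by positivity
    have h4 : (S + x) * (S ^ (n + 1) + ((n : ℝ) + 1) * x * S ^ n) =
        S ^ (n + 1 + 1) + ((n : ℝ) + 1 + 1) * x * S ^ (n + 1) + ((n : ℝ) + 1) * x ^ 2 * S ^ n := by
      ring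
    push_cast
    rw [h4]
    linarith

theorem esymm_le (G : Finset ℕ) (x : ℕ → ℝ) (hx : ∀ l, 0 ≤ x l) :
    ∀ b, ∑ T ∈ G.powersetCard b, ∏ l ∈ T, x l ≤ (∑ l ∈ G, x l) ^ b / b.factorial := by
  induction G using Finset.induction_on with
  | empty =>
    intro b
    cases b with
    | zero => simp
    | succ b =>
      rw [powersetCard_eq_empty.2 (by simp)]
      simp
  | insert a G ha ih =>
    intro b
    cases b with
    | zero => simp
    | succ b =>
      rw [powersetCard_succ_insert ha, sum_union, sum_image, sum_insert ha]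
      · have h1 : ∀ T ∈ powersetCard b G, ∏ l ∈ insert a T, x l = x a * ∏ l ∈ T, x l := by
          intro T hT
          rw [prod_insert]
          intro haT
          exact ha ((mem_powersetCard.1 hT).1 haT)
        rw [sum_congr rfl h1, ← mul_sum]
        have h2 := ih (b + 1)
        have h3 := mul_le_mul_of_nonneg_left (ih b) (hx a)
        refine (add_le_add h2 h3).trans ?_
        have hS : 0 ≤ ∑ l ∈ G, x l := sum_nonneg fun l _ => hx l
        have h4 := pow_step _ _ hS (hx a) b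
        rw [Nat.factorial_succ]
        have hb : (0 : ℝ) < b.factorial := by positivity
        have hb1 : (0 : ℝ) < (b : ℝ) + 1 := by positivity
        push_cast
        rw [add_comm (x a)]
        rw [show (∑ l ∈ G, x l) ^ (b + 1) / (((b : ℝ) + 1) * (b.factorial : ℝ)) +
          x a * ((∑ l ∈ G, x l) ^ b / (b.factorial : ℝ)) =
          ((∑ l ∈ G, x l) ^ (b + 1) + ((b : ℝ) + 1) * x a * (∑ l ∈ G, x l) ^ b) /
            (((b : ℝ) + 1) * (b.factorial : ℝ)) by field_simp]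
        exact div_le_div_of_nonneg_right h4 (by positivity)
      · intro T hT U hU hTU
        have hT' := (mem_powersetCard.1 hT).1
        have hU' := (mem_powersetCard.1 hU).1
        have h1 : (insert a T).erase a = (insert a U).erase a := by
          rw [show insert a T = insert a U from hTU]
        rwa [erase_insert (fun h => ha (hT' h)), erase_insert (fun h => ha (hU' h))] at h1
      · rw [disjoint_left]
        intro T hT hT2
        rw [mem_image] at hT2
        obtain ⟨U, _, rfl⟩ := hT2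
        exact ha ((mem_powersetCard.1 hT).1 (mem_insert_self _ _))

/-- splitting a group -/
theorem split_group : ∃ C : ℝ, 0 < C ∧ ∀ j : ℕ, 1 ≤ j → ∃ A ⊆ Gj j,
    ∑ l ∈ A, (1 : ℝ) / l ≤ Real.log 2 ∧ ∑ l ∈ Gj j \ A, (1 : ℝ) / l ≤ C / 2 ^ j := by
  obtain ⟨C, hC, h⟩ := mertens_group
  refine ⟨C + 1, by linarith, fun j hj => ?_⟩
  by_cases hc : ∑ l ∈ Gj j, (1 : ℝ) / l ≤ Real.log 2
  · refine ⟨Gj j, Subset.rfl, hc, ?_⟩
    rw [Finset.sdiff_self, sum_empty]
    positivity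
  push Not at hc
  have hne : ((Gj j).powerset.filter
      (fun A : Finset ℕ => ∑ l ∈ A, (1 : ℝ) / l ≤ Real.log 2)).Nonempty := by
    refine ⟨∅, ?_⟩
    rw [mem_filter]
    refine ⟨empty_mem_powerset _, ?_⟩
    rw [sum_empty]
    exact Real.log_nonneg (by norm_num)
  obtain ⟨A, hA⟩ := Finset.exists_maximal hne
  have hA1 := hA.prop
  rw [mem_filter, mem_powerset] at hA1
  refine ⟨A, hA1.1, hA1.2, ?_⟩
  have hnot : ¬ Gj j ⊆ A := by
    intro hsub
    have : A = Gj j := Subset.antisymm hA1.1 hsub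
    rw [this] at hA1
    exact absurd hA1.2 (not_le.2 hc)
  rw [not_subset] at hnot
  obtain ⟨l, hl, hlA⟩ := hnot
  have h1 : Real.log 2 < ∑ m ∈ insert l A, (1 : ℝ) / m := by
    by_contra hcon
    push Not at hcon
    have h2 : insert l A ∈ (Gj j).powerset.filter
        (fun A : Finset ℕ => ∑ l ∈ A, (1 : ℝ) / l ≤ Real.log 2) := by
      rw [mem_filter, mem_powerset]
      exact ⟨insert_subset hl hA1.1, hcon⟩
    have h3 := hA.le_of_ge h2 (subset_insert l A)
    exact hlA (h3 (mem_insert_self _ _))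
  rw [sum_insert hlA] at h1
  have h2 := (abs_le.1 (h j hj)).2
  have h3 := sum_sdiff (f := fun l : ℕ => (1 : ℝ) / l) hA1.1
  have h4 : (1 : ℝ) / l ≤ 1 / 2 ^ j := by
    have h5 : 2 ^ 2 ^ (j - 1) ≤ l := by
      unfold Gj at hl
      rw [mem_filter, mem_Ico] at hl
      exact hl.1.1
    have h6 : j ≤ 2 ^ (j - 1) := by
      have := Nat.lt_two_pow_self (n := j - 1)
      omega
    have h7 : 2 ^ j ≤ l := (Nat.pow_le_pow_right (by norm_num) h6).trans h5
    have h8 : (2 : ℝ) ^ j ≤ l := by exact_mod_cast h7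
    exact one_div_le_one_div_of_le (by positivity) h8
  have h5 : (C + 1) / 2 ^ j = C / 2 ^ j + 1 / 2 ^ j := by ring
  rw [h5]
  linarith

theorem sum_powerset_union {A B : Finset ℕ} (h : Disjoint A B) (F : Finset ℕ → ℝ) :
    ∑ T ∈ (A ∪ B).powerset, F T = ∑ T ∈ A.powerset, ∑ U ∈ B.powerset, F (T ∪ U) := by
  rw [← sum_product']
  symm
  refine sum_nbij' (fun x => x.1 ∪ x.2) (fun T => (T ∩ A, T ∩ B)) ?_ ?_ ?_ ?_ ?_
  · intro x hx
    rw [mem_product, mem_powerset, mem_powerset] at hx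
    rw [mem_powerset]
    exact union_subset_union hx.1 hx.2
  · intro T _
    rw [mem_product, mem_powerset, mem_powerset]
    exact ⟨inter_subset_right, inter_subset_right⟩
  · intro x hx
    rw [mem_product, mem_powerset, mem_powerset] at hx
    have h1 : x.1 ∩ B = ∅ := by
      rw [← disjoint_iff_inter_eq_empty]
      exact h.mono_left hx.1
    have h2 : x.2 ∩ A = ∅ := by
      rw [← disjoint_iff_inter_eq_empty]
      exact (h.mono_right hx.2).symm
    ext1
    · show (x.1 ∪ x.2) ∩ A = x.1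
      rw [union_inter_distrib_right, h2, union_empty, inter_eq_left.2 hx.1]
    · show (x.1 ∪ x.2) ∩ B = x.2
      rw [union_inter_distrib_right, h1, empty_union, inter_eq_left.2 hx.2]
  · intro T hT
    rw [mem_powerset] at hT
    show (T ∩ A) ∪ (T ∩ B) = T
    rw [← inter_union_distrib_left, inter_eq_left.2 hT]
  · intro x _
    rfl

theorem sum_powerset_biUnion {J : ℕ} (A : Fin J → Finset ℕ)
    (h : ∀ i j, i ≠ j → Disjoint (A i) (A j)) (F : Finset ℕ → ℝ) :
    ∑ T ∈ (univ.biUnion A).powerset, F T =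
      ∑ T ∈ Fintype.piFinset (fun i => (A i).powerset), F (univ.biUnion T) := by
  symm
  refine sum_nbij' (fun T => univ.biUnion T) (fun T i => T ∩ A i) ?_ ?_ ?_ ?_ ?_
  · intro T hT
    rw [Fintype.mem_piFinset] at hT
    rw [mem_powerset]
    exact biUnion_subset.2 fun i _ =>
      (mem_powerset.1 (hT i)).trans (subset_biUnion_of_mem A (mem_univ i))
  · intro T _
    rw [Fintype.mem_piFinset]
    intro i
    rw [mem_powerset]
    exact inter_subset_right
  · intro T hT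
    rw [Fintype.mem_piFinset] at hT
    funext i
    ext x
    rw [mem_inter, mem_biUnion]
    constructor
    · rintro ⟨⟨j, _, hj⟩, hx⟩
      by_cases hij : i = j
      · rw [hij]; exact hj
      · exact absurd (mem_powerset.1 (hT j) hj) (disjoint_left.1 (h i j hij) hx)
    · intro hx
      exact ⟨⟨i, mem_univ _, hx⟩, mem_powerset.1 (hT i) hx⟩
  · intro T hT
    rw [mem_powerset] at hT
    ext x
    rw [mem_biUnion]
    constructor
    · rintro ⟨i, _, hx⟩
      exact (mem_inter.1 hx).1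
    · intro hx
      have := hT hx
      rw [mem_biUnion] at this
      obtain ⟨i, hi, hxi⟩ := this
      exact ⟨i, hi, mem_inter.2 ⟨hx, hxi⟩⟩
  · intro T _
    rfl

/-- the primes below `2^(2^J)` are the union of the groups -/
theorem primes_eq (J : ℕ) : (range (2 ^ 2 ^ J)).filter Nat.Prime =
    univ.biUnion (fun i : Fin J => Gj (i + 1)) := by
  ext p
  rw [mem_filter, mem_range, mem_biUnion]
  constructor
  · rintro ⟨h1, h2⟩
    induction J with
    | zero =>
      have := h2.two_le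
      simp at h1
      omega
    | succ J ih =>
      by_cases hc : p < 2 ^ 2 ^ J
      · obtain ⟨i, _, hi⟩ := ih hc
        exact ⟨i.castSucc, mem_univ _, hi⟩
      · refine ⟨Fin.last J, mem_univ _, ?_⟩
        unfold Gj
        rw [mem_filter, mem_Ico]
        simp only [Fin.val_last, Nat.add_sub_cancel]
        exact ⟨⟨by omega, h1⟩, h2⟩
  · rintro ⟨i, _, hi⟩
    unfold Gj at hi
    rw [mem_filter, mem_Ico] at hi
    refine ⟨hi.1.2.trans_le ?_, hi.2⟩
    exact Nat.pow_le_pow_right (by norm_num) (Nat.pow_le_pow_right (by norm_num) i.2)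

theorem Gj_disj {i j : ℕ} (h : i < j) (hi : 1 ≤ i) : Disjoint (Gj i) (Gj j) := by
  rw [disjoint_left]
  intro p hp hq
  unfold Gj at hp hq
  rw [mem_filter, mem_Ico] at hp hq
  have h1 : 2 ^ 2 ^ i ≤ 2 ^ 2 ^ (j - 1) :=
    Nat.pow_le_pow_right (by norm_num) (Nat.pow_le_pow_right (by norm_num) (by omega))
  omega

theorem Gj_prime {i p : ℕ} (h : p ∈ Gj i) : p.Prime := (mem_filter.1 h).2

theorem Gj_lt {i p : ℕ} (h : p ∈ Gj i) : p < 2 ^ 2 ^ i := (mem_Ico.1 (mem_filter.1 h).1).2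

/-- the bound for `ell` of a product with prescribed numbers of primes in each group -/
theorem ell_prod_le {J : ℕ} (T : Fin J → Finset ℕ) (hT : ∀ i : Fin J, T i ⊆ Gj (i + 1))
    (j : ℕ) : (ell (∏ i, ∏ l ∈ T i, l) : ℝ) ≤
    2 * (2 ^ (∑ i : Fin J, if j ≤ (i : ℕ) then (T i).card else 0) *
      (1 + ∑ i : Fin J, if (i : ℕ) < j then ((T i).card : ℝ) * 2 ^ ((i : ℕ) + 1) else 0)) := by
  have hprime : ∀ i, ∀ l ∈ T i, l.Prime := fun i l hl => Gj_prime (hT i hl)
  have hpos : ∀ i, 1 ≤ ∏ l ∈ T i, l := fun i =>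
    Nat.one_le_iff_ne_zero.2 (prod_ne_zero_iff.2 fun l hl => (hprime i l hl).ne_zero)
  set a := ∏ i : Fin J, (if (i : ℕ) < j then ∏ l ∈ T i, l else 1) with ha
  set b := ∏ i : Fin J, (if j ≤ (i : ℕ) then ∏ l ∈ T i, l else 1) with hb
  have hab : ∏ i, ∏ l ∈ T i, l = a * b := by
    rw [ha, hb, ← prod_mul_distrib]
    refine prod_congr rfl fun i _ => ?_
    by_cases h : (i : ℕ) < j
    · rw [if_pos h, if_neg (by omega), mul_one]
    · rw [if_neg h, if_pos (by omega), one_mul]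
  have ha1 : 1 ≤ a := by
    rw [ha]
    refine Nat.one_le_iff_ne_zero.2 (prod_ne_zero_iff.2 fun i _ => ?_)
    split_ifs
    · have := hpos i; omega
    · norm_num
  have hb1 : 1 ≤ b := by
    rw [hb]
    refine Nat.one_le_iff_ne_zero.2 (prod_ne_zero_iff.2 fun i _ => ?_)
    split_ifs
    · have := hpos i; omega
    · norm_num
  have hbd : b.divisors.card ≤ 2 ^ (∑ i : Fin J, if j ≤ (i : ℕ) then (T i).card else 0) := by
    set U := (univ.filter (fun i : Fin J => j ≤ (i : ℕ))).biUnion T with hU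
    have hbU : b = ∏ l ∈ U, l := by
      rw [hU, prod_biUnion, hb, prod_filter]
      intro i _ k _ hik
      rcases lt_or_gt_of_ne (fun h => hik (Fin.ext h) : (i : ℕ) ≠ k) with h | h
      · exact (Gj_disj (by omega) (by omega)).mono (hT i) (hT k)
      · exact ((Gj_disj (by omega) (by omega)).mono (hT k) (hT i)).symm
    rw [hbU, card_div_prod]
    · apply Nat.pow_le_pow_right (by norm_num)
      rw [hU]
      refine card_biUnion_le.trans ?_
      rw [sum_filter]
    · intro p hp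
      rw [hU, mem_biUnion] at hp
      obtain ⟨i, _, hi⟩ := hp
      exact hprime i p hi
  have hla : Nat.log 2 a ≤ ∑ i : Fin J, if (i : ℕ) < j then (T i).card * 2 ^ ((i : ℕ) + 1) else 0 := by
    have h1 : a ≤ 2 ^ (∑ i : Fin J, if (i : ℕ) < j then (T i).card * 2 ^ ((i : ℕ) + 1) else 0) := by
      rw [ha, ← prod_pow_eq_pow_sum]
      refine prod_le_prod' fun i _ => ?_
      split_ifs
      · calc ∏ l ∈ T i, l ≤ ∏ l ∈ T i, 2 ^ 2 ^ ((i : ℕ) + 1) :=
            prod_le_prod' fun l hl => (Gj_lt (hT i hl)).le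
          _ = 2 ^ ((T i).card * 2 ^ ((i : ℕ) + 1)) := by
            rw [prod_const, ← pow_mul, mul_comm]
      · simp
    calc Nat.log 2 a ≤ Nat.log 2 (2 ^ _) := Nat.log_mono_right h1
      _ = _ := Nat.log_pow (by norm_num) _
  have h1 := ell_mul a b ha1 hb1
  have h2 := ell_le a
  rw [hab]
  have h3 : ell (a * b) ≤ 2 * (2 ^ (∑ i : Fin J, if j ≤ (i : ℕ) then (T i).card else 0) *
      (1 + ∑ i : Fin J, if (i : ℕ) < j then (T i).card * 2 ^ ((i : ℕ) + 1) else 0)) := by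
    refine h1.trans ?_
    rw [mul_assoc]
    exact Nat.mul_le_mul_left 2 (Nat.mul_le_mul hbd (h2.trans (by omega)))
  have h4 : (ell (a * b) : ℝ) ≤
      ((2 * (2 ^ (∑ i : Fin J, if j ≤ (i : ℕ) then (T i).card else 0) *
      (1 + ∑ i : Fin J, if (i : ℕ) < j then (T i).card * 2 ^ ((i : ℕ) + 1) else 0)) : ℕ) : ℝ) := by
    exact_mod_cast h3
  refine h4.trans (le_of_eq ?_)
  push_cast
  rfl


theorem geom_le (C : ℝ) (hC : 0 < C) (J : ℕ) : ∑ i : Fin J, C / 2 ^ ((i : ℕ) + 1) ≤ C := by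
  rw [Fin.sum_univ_eq_sum_range (fun i => C / 2 ^ (i + 1)) J]
  have h : ∑ i ∈ range J, C / 2 ^ (i + 1) = C - C / 2 ^ J := by
    induction J with
    | zero => simp
    | succ J ih =>
      rw [sum_range_succ, ih, pow_succ]
      field_simp
      ring
  rw [h]
  have : 0 < C / 2 ^ J := by positivity
  linarith

/-- the sum over the leftover primes -/
theorem sum_left {J : ℕ} (B : Fin J → Finset ℕ) (hB : ∀ i : Fin J, B i ⊆ Gj (i + 1)) (C : ℝ)
    (hC : 0 < C) (hs : ∀ i : Fin J, ∑ l ∈ B i, (1 : ℝ) / l ≤ C / 2 ^ ((i : ℕ) + 1)) :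
    ∑ U ∈ (univ.biUnion B).powerset, ∏ l ∈ U, (2 / l : ℝ) ≤ Real.exp (2 * C) := by
  rw [← prod_one_add]
  have h1 : ∏ l ∈ univ.biUnion B, (1 + 2 / l : ℝ) ≤
      ∏ l ∈ univ.biUnion B, Real.exp (2 / l : ℝ) := by
    refine prod_le_prod (fun l _ => by positivity) fun l _ => ?_
    rw [add_comm]
    exact Real.add_one_le_exp _
  refine h1.trans ?_
  rw [← Real.exp_sum]
  apply Real.exp_le_exp.2
  have h2 : ∑ l ∈ univ.biUnion B, (2 / l : ℝ) = 2 * ∑ l ∈ univ.biUnion B, (1 : ℝ) / l := by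
    rw [mul_sum]
    exact sum_congr rfl fun l _ => by ring
  rw [h2]
  refine mul_le_mul_of_nonneg_left ?_ (by norm_num)
  rw [sum_biUnion]
  · exact (sum_le_sum fun i _ => hs i).trans (geom_le C hC J)
  · intro i _ k _ hik
    rcases lt_or_gt_of_ne (fun h => hik (Fin.ext h) : (i : ℕ) ≠ k) with h | h
    · exact (Gj_disj (by omega) (by omega)).mono (hB i) (hB k)
    · exact ((Gj_disj (by omega) (by omega)).mono (hB k) (hB i)).symm

/-- the sum over the main primes -/
theorem sum_main {J : ℕ} (hJ : 1 ≤ J) (A : Fin J → Finset ℕ)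
    (hA : ∀ i : Fin J, A i ⊆ Gj (i + 1))
    (hs : ∀ i : Fin J, ∑ l ∈ A i, (1 : ℝ) / l ≤ Real.log 2) (C : ℝ)
    (hpath : ∀ J R : ℕ, 1 ≤ J → ∀ Φ : (Fin J → ℕ) → ℝ,
    (∀ b, 0 ≤ Φ b) →
    (∀ b : Fin J → ℕ, ∀ j ≤ J, Φ b ≤ 2 ^ (∑ i : Fin J, if j ≤ (i : ℕ) then b i else 0) *
      (1 + ∑ i : Fin J, if (i : ℕ) < j then (b i : ℝ) * 2 ^ ((i : ℕ) + 1) else 0)) →
    ∑ b ∈ Fintype.piFinset (fun _ : Fin J => range (R + 1)),
      (∏ i, (Real.log 2) ^ (b i) / (b i).factorial) * Φ b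
      ≤ C * ((2 * Real.exp 1 * Real.log 2) ^ J / (J * Real.sqrt J))) :
    ∑ T ∈ (univ.biUnion A).powerset, (ell (∏ l ∈ T, l) : ℝ) / ((∏ l ∈ T, l : ℕ) : ℝ) ≤
      2 * C * ((2 * Real.exp 1 * Real.log 2) ^ J / (J * Real.sqrt J)) := by
  have hdis : ∀ i j, i ≠ j → Disjoint (A i) (A j) := by
    intro i k hik
    rcases lt_or_gt_of_ne (fun h => hik (Fin.ext h) : (i : ℕ) ≠ k) with h | h
    · exact (Gj_disj (by omega) (by omega)).mono (hA i) (hA k)
    · exact ((Gj_disj (by omega) (by omega)).mono (hA k) (hA i)).symm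
  rw [sum_powerset_biUnion A hdis]
  set Q : (Fin J → ℕ) → ℕ → ℝ := fun b j =>
    2 ^ (∑ i : Fin J, if j ≤ (i : ℕ) then b i else 0) *
      (1 + ∑ i : Fin J, if (i : ℕ) < j then (b i : ℝ) * 2 ^ ((i : ℕ) + 1) else 0) with hQ
  have hQ0 : ∀ b j, 0 ≤ Q b j := by
    intro b j
    rw [hQ]
    refine mul_nonneg (by positivity) (add_nonneg zero_le_one (sum_nonneg fun i _ => ?_))
    split_ifs
    · positivity
    · exact le_rfl
  set Φ : (Fin J → ℕ) → ℝ := fun b => (range (J + 1)).inf' ⟨0, by simp⟩ (Q b) with hΦ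
  have hΦ0 : ∀ b, 0 ≤ Φ b := fun b => le_inf' _ _ fun j _ => hQ0 b j
  have hΦle : ∀ b : Fin J → ℕ, ∀ j ≤ J, Φ b ≤ Q b j := by
    intro b j hj
    exact inf'_le _ (by rw [mem_range]; omega)
  set R := ∑ i, (A i).card with hR
  have h1 : ∀ T ∈ Fintype.piFinset (fun i => (A i).powerset),
      (ell (∏ l ∈ univ.biUnion T, l) : ℝ) / ((∏ l ∈ univ.biUnion T, l : ℕ) : ℝ) ≤
      2 * Φ (fun i => (T i).card) * ∏ i, ∏ l ∈ T i, (1 : ℝ) / l := by
    intro T hT
    rw [Fintype.mem_piFinset] at hT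
    have hTA : ∀ i, T i ⊆ A i := fun i => mem_powerset.1 (hT i)
    have hp : ∏ l ∈ univ.biUnion T, l = ∏ i, ∏ l ∈ T i, l := by
      rw [prod_biUnion]
      intro i _ k _ hik
      exact (hdis i k hik).mono (hTA i) (hTA k)
    rw [hp]
    have h2 : (ell (∏ i, ∏ l ∈ T i, l) : ℝ) ≤ 2 * Φ (fun i => (T i).card) := by
      have h3 : (ell (∏ i, ∏ l ∈ T i, l) : ℝ) / 2 ≤ Φ (fun i => (T i).card) := by
        refine le_inf' _ _ fun j _ => ?_
        have := ell_prod_le T (fun i => (hTA i).trans (hA i)) j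
        rw [hQ]
        rw [div_le_iff₀ (by norm_num)]
        refine this.trans (le_of_eq ?_)
        rw [mul_comm]
      linarith
    have h3 : ((∏ i, ∏ l ∈ T i, l : ℕ) : ℝ)⁻¹ = ∏ i, ∏ l ∈ T i, (1 : ℝ) / l := by
      push_cast
      rw [← prod_inv_distrib]
      refine prod_congr rfl fun i _ => ?_
      rw [← prod_inv_distrib]
      refine prod_congr rfl fun l _ => ?_
      rw [one_div]
    rw [div_eq_mul_inv, h3]
    refine mul_le_mul_of_nonneg_right h2 ?_
    exact prod_nonneg fun i _ => prod_nonneg fun l _ => by positivity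
  refine (sum_le_sum h1).trans ?_
  have hmaps : ∀ T ∈ Fintype.piFinset (fun i => (A i).powerset), (fun i => (T i).card) ∈
      Fintype.piFinset (fun _ : Fin J => range (R + 1)) := by
    intro T hT
    rw [Fintype.mem_piFinset] at hT ⊢
    intro i
    rw [mem_range, Nat.lt_succ_iff]
    refine (card_le_card (mem_powerset.1 (hT i))).trans ?_
    exact single_le_sum (f := fun i => (A i).card) (fun _ _ => Nat.zero_le _) (mem_univ i)
  rw [← sum_fiberwise_of_maps_to hmaps]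
  have h2 : ∀ b ∈ Fintype.piFinset (fun _ : Fin J => range (R + 1)),
      ∑ T ∈ (Fintype.piFinset (fun i => (A i).powerset)).filter
        (fun T => (fun i => (T i).card) = b),
        2 * Φ (fun i => (T i).card) * ∏ i, ∏ l ∈ T i, (1 : ℝ) / l ≤
      2 * ((∏ i, (Real.log 2) ^ (b i) / (b i).factorial) * Φ b) := by
    intro b _
    have hset : (Fintype.piFinset (fun i => (A i).powerset)).filter
        (fun T => (fun i => (T i).card) = b) =
        Fintype.piFinset (fun i => (A i).powersetCard (b i)) := by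
      ext T
      rw [mem_filter, Fintype.mem_piFinset, Fintype.mem_piFinset]
      constructor
      · rintro ⟨h3, h4⟩ i
        rw [mem_powersetCard]
        exact ⟨mem_powerset.1 (h3 i), congrFun h4 i⟩
      · intro h3
        refine ⟨fun i => ?_, ?_⟩
        · rw [mem_powerset]
          exact (mem_powersetCard.1 (h3 i)).1
        · funext i
          exact (mem_powersetCard.1 (h3 i)).2
    have h3 : ∀ T ∈ (Fintype.piFinset (fun i => (A i).powerset)).filter
        (fun T => (fun i => (T i).card) = b),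
        2 * Φ (fun i => (T i).card) * ∏ i, ∏ l ∈ T i, (1 : ℝ) / l =
        2 * Φ b * ∏ i, ∏ l ∈ T i, (1 : ℝ) / l := by
      intro T hT
      rw [(mem_filter.1 hT).2]
    rw [sum_congr rfl h3, ← mul_sum, hset,
      ← prod_univ_sum (fun i => (A i).powersetCard (b i)) (fun i T => ∏ l ∈ T, (1 : ℝ) / l)]
    have h4 : ∏ i, ∑ T ∈ (A i).powersetCard (b i), ∏ l ∈ T, (1 : ℝ) / l ≤
        ∏ i, (Real.log 2) ^ (b i) / (b i).factorial := by
      refine prod_le_prod (fun i _ => sum_nonneg fun T _ => prod_nonneg fun l _ => by positivity)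
        fun i _ => ?_
      refine (esymm_le (A i) (fun l => (1 : ℝ) / l) (fun l => by positivity) (b i)).trans ?_
      refine div_le_div_of_nonneg_right ?_ (by positivity)
      exact pow_le_pow_left₀ (sum_nonneg fun l _ => by positivity) (hs i) _
    calc 2 * Φ b * ∏ i, ∑ T ∈ (A i).powersetCard (b i), ∏ l ∈ T, (1 : ℝ) / l
        ≤ 2 * Φ b * ∏ i, (Real.log 2) ^ (b i) / (b i).factorial :=
          mul_le_mul_of_nonneg_left h4 (mul_nonneg (by norm_num) (hΦ0 b))
      _ = _ := by ring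
  refine (sum_le_sum h2).trans ?_
  rw [← mul_sum, mul_assoc]
  exact mul_le_mul_of_nonneg_left (hpath J R hJ Φ hΦ0 hΦle) (by norm_num)

/- TARGET -/
/-- FUsq: squarefree version of the upper bound -/
theorem ford_sq : ∃ C : ℝ, 0 < C ∧ ∀ J : ℕ, 1 ≤ J →
    ∑ T ∈ ((range (2 ^ 2 ^ J)).filter Nat.Prime).powerset,
      (ell (∏ l ∈ T, l) : ℝ) / ((∏ l ∈ T, l : ℕ) : ℝ)
      ≤ C * ((2 * Real.exp 1 * Real.log 2) ^ J / (J * Real.sqrt J)) := by
  obtain ⟨C1, hC1, hsplit⟩ := split_group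
  obtain ⟨C2, hC2, hpath⟩ := path_upper
  choose! A hA1 hA2 hA3 using hsplit
  refine ⟨(2 * Real.exp (2 * C1)) * (2 * C2), by positivity, fun J hJ => ?_⟩
  set AA : Fin J → Finset ℕ := fun i => A (i + 1) with hAA
  set BB : Fin J → Finset ℕ := fun i => Gj (i + 1) \ A (i + 1) with hBB
  have hAA1 : ∀ i : Fin J, AA i ⊆ Gj (i + 1) := fun i => hA1 _ (by omega)
  have hBB1 : ∀ i : Fin J, BB i ⊆ Gj (i + 1) := fun i => sdiff_subset
  have hP : (range (2 ^ 2 ^ J)).filter Nat.Prime = univ.biUnion AA ∪ univ.biUnion BB := by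
    rw [primes_eq]
    ext p
    simp only [mem_biUnion, mem_union, hAA, hBB, mem_sdiff]
    constructor
    · rintro ⟨i, hi, hp⟩
      by_cases hc : p ∈ A ((i : ℕ) + 1)
      · exact Or.inl ⟨i, hi, hc⟩
      · exact Or.inr ⟨i, hi, hp, hc⟩
    · rintro (⟨i, hi, hp⟩ | ⟨i, hi, hp⟩)
      · exact ⟨i, hi, hAA1 i hp⟩
      · exact ⟨i, hi, hp.1⟩
  have hdis : Disjoint (univ.biUnion AA) (univ.biUnion BB) := by
    rw [disjoint_left]
    intro p hp hq
    rw [mem_biUnion] at hp hq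
    obtain ⟨i, _, hi⟩ := hp
    obtain ⟨k, _, hk⟩ := hq
    by_cases hik : i = k
    · subst hik
      exact (mem_sdiff.1 hk).2 hi
    · rcases lt_or_gt_of_ne (fun h => hik (Fin.ext h) : (i : ℕ) ≠ k) with h | h
      · exact disjoint_left.1 (Gj_disj (by omega) (by omega)) (hAA1 i hi) (hBB1 k hk)
      · exact disjoint_left.1 (Gj_disj (by omega) (by omega)) (hBB1 k hk) (hAA1 i hi)
  rw [hP, sum_powerset_union hdis]
  have hpA : ∀ T ∈ (univ.biUnion AA).powerset, ∀ l ∈ T, l.Prime := by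
    intro T hT l hl
    have := mem_powerset.1 hT hl
    rw [mem_biUnion] at this
    obtain ⟨i, _, hi⟩ := this
    exact Gj_prime (hAA1 i hi)
  have hpB : ∀ T ∈ (univ.biUnion BB).powerset, ∀ l ∈ T, l.Prime := by
    intro T hT l hl
    have := mem_powerset.1 hT hl
    rw [mem_biUnion] at this
    obtain ⟨i, _, hi⟩ := this
    exact Gj_prime (hBB1 i hi)
  have hii : ∀ T ∈ (univ.biUnion AA).powerset, ∀ U ∈ (univ.biUnion BB).powerset,
      (ell (∏ l ∈ T ∪ U, l) : ℝ) / ((∏ l ∈ T ∪ U, l : ℕ) : ℝ) ≤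
        (2 * ∏ l ∈ U, (2 / l : ℝ)) * ((ell (∏ l ∈ T, l) : ℝ) / ((∏ l ∈ T, l : ℕ) : ℝ)) := by
    intro T hT U hU
    have hTU : Disjoint T U := hdis.mono (mem_powerset.1 hT) (mem_powerset.1 hU)
    have hT1 : 1 ≤ ∏ l ∈ T, l :=
      Nat.one_le_iff_ne_zero.2 (prod_ne_zero_iff.2 fun l hl => (hpA T hT l hl).ne_zero)
    have hU1 : 1 ≤ ∏ l ∈ U, l :=
      Nat.one_le_iff_ne_zero.2 (prod_ne_zero_iff.2 fun l hl => (hpB U hU l hl).ne_zero)
    rw [prod_union hTU]
    have h1 := ell_mul _ _ hT1 hU1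
    rw [card_div_prod U (hpB U hU)] at h1
    have h2 : (ell ((∏ l ∈ T, l) * ∏ l ∈ U, l) : ℝ) ≤ 2 * 2 ^ U.card * ell (∏ l ∈ T, l) := by
      exact_mod_cast h1
    have h3 : ∏ l ∈ U, (2 / l : ℝ) = 2 ^ U.card / ((∏ l ∈ U, l : ℕ) : ℝ) := by
      push_cast
      rw [prod_div_distrib, prod_const]
    rw [h3]
    have hT2 : (0 : ℝ) < ((∏ l ∈ T, l : ℕ) : ℝ) := by exact_mod_cast hT1
    have hU2 : (0 : ℝ) < ((∏ l ∈ U, l : ℕ) : ℝ) := by exact_mod_cast hU1
    rw [Nat.cast_mul]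
    rw [div_le_iff₀ (by positivity)]
    refine h2.trans (le_of_eq ?_)
    field_simp
  have hstep := sum_le_sum fun T hT => sum_le_sum fun U hU => hii T hT U hU
  refine hstep.trans ?_
  have heq : ∑ T ∈ (univ.biUnion AA).powerset, ∑ U ∈ (univ.biUnion BB).powerset,
      (2 * ∏ l ∈ U, (2 / l : ℝ)) * ((ell (∏ l ∈ T, l) : ℝ) / ((∏ l ∈ T, l : ℕ) : ℝ)) =
      (2 * ∑ U ∈ (univ.biUnion BB).powerset, ∏ l ∈ U, (2 / l : ℝ)) *
      ∑ T ∈ (univ.biUnion AA).powerset,
        (ell (∏ l ∈ T, l) : ℝ) / ((∏ l ∈ T, l : ℕ) : ℝ) := by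
    rw [mul_sum]
    refine sum_congr rfl fun T _ => ?_
    rw [mul_sum, sum_mul]
  rw [heq]
  have h5 := sum_left BB hBB1 C1 hC1 (fun i => hA3 _ (by omega))
  have h6 := sum_main hJ AA hAA1 (fun i => hA2 _ (by omega)) C2 hpath
  have h7 : (0 : ℝ) ≤ ∑ T ∈ (univ.biUnion AA).powerset,
        (ell (∏ l ∈ T, l) : ℝ) / ((∏ l ∈ T, l : ℕ) : ℝ) :=
    sum_nonneg fun T _ => by positivity
  calc _ ≤ (2 * Real.exp (2 * C1)) *
        ∑ T ∈ (univ.biUnion AA).powerset,
          (ell (∏ l ∈ T, l) : ℝ) / ((∏ l ∈ T, l : ℕ) : ℝ) :=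
        mul_le_mul_of_nonneg_right (mul_le_mul_of_nonneg_left h5 (by norm_num)) h7
    _ ≤ (2 * Real.exp (2 * C1)) *
        (2 * C2 * ((2 * Real.exp 1 * Real.log 2) ^ J / (J * Real.sqrt J))) :=
        mul_le_mul_of_nonneg_left h6 (by positivity)
    _ = _ := by ring

end Pool.Agent.Helper112.LP.Kfs

namespace Pool.Agent.Helper112.LP

/-- submultiplicativity -/
theorem ell_mul (a b : ℕ) (ha : 1 ≤ a) (hb : 1 ≤ b) :
    ell (a * b) ≤ 2 * b.divisors.card * ell a := by
  first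
    | exact Kfs.ell_mul
    | (apply Kfs.ell_mul <;> assumption)

/-- FUsq: squarefree version of the upper bound -/
theorem ford_sq : ∃ C : ℝ, 0 < C ∧ ∀ J : ℕ, 1 ≤ J →
    ∑ T ∈ ((range (2 ^ 2 ^ J)).filter Nat.Prime).powerset,
      (ell (∏ l ∈ T, l) : ℝ) / ((∏ l ∈ T, l : ℕ) : ℝ)
      ≤ C * ((2 * Real.exp 1 * Real.log 2) ^ J / (J * Real.sqrt J)) := by
  first
    | exact Kfs.ford_sq
    | (apply Kfs.ford_sq <;> assumption)

end Pool.Agent.Helper112.LP
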