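import Pool.Agent.Helper112.Lp.Defs
import Pool.Agent.Helper112.Lp.Kfs
import Pool.Agent.Helper112.Lp.Kmt

open Finset

namespace Pool.Agent.Helper112.LP.Kfu

/-! ### Toolbox -/

theorem sum_le_of_inj {α β : Type*} (s : Finset α) (t : Finset β) (φ : α → β) (f : α → ℝ)
    (g : β → ℝ) (hφ : ∀ a ∈ s, φ a ∈ t) (hinj : Set.InjOn φ s) (hg : ∀ b ∈ t, 0 ≤ g b)
    (hfg : ∀ a ∈ s, f a ≤ g (φ a)) : ∑ a ∈ s, f a ≤ ∑ b ∈ t, g b := by
  classical
  calc ∑ a ∈ s, f a ≤ ∑ a ∈ s, g (φ a) := Finset.sum_le_sum hfg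
    _ = ∑ b ∈ s.image φ, g b := (Finset.sum_image hinj).symm
    _ ≤ ∑ b ∈ t, g b := by
        apply Finset.sum_le_sum_of_subset_of_nonneg
        · intro b hb
          obtain ⟨a, ha, rfl⟩ := Finset.mem_image.mp hb
          exact hφ a ha
        · intro b hb _
          exact hg b hb

theorem card_div_le_sqrt (n : ℕ) : n.divisors.card ≤ 2 * Nat.sqrt n := by
  classical
  rcases Nat.eq_zero_or_pos n with rfl | hn
  · simp
  have hsub : n.divisors ⊆ (Icc 1 (Nat.sqrt n)) ∪ (Icc 1 (Nat.sqrt n)).image (fun d => n / d) := by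
    intro d hd
    have hdn := Nat.dvd_of_mem_divisors hd
    have hd0 : 0 < d := Nat.pos_of_mem_divisors hd
    rw [mem_union]
    by_cases h : d ≤ Nat.sqrt n
    · left; exact mem_Icc.mpr ⟨hd0, h⟩
    · right
      rw [mem_image]
      refine ⟨n / d, mem_Icc.mpr ⟨Nat.div_pos (Nat.le_of_dvd hn hdn) hd0, ?_⟩, ?_⟩
      · by_contra h2
        have h1 : Nat.sqrt n + 1 ≤ d := by omega
        have h3 : Nat.sqrt n + 1 ≤ n / d := by omega
        have h4 : (Nat.sqrt n + 1) * (Nat.sqrt n + 1) ≤ (n / d) * d := Nat.mul_le_mul h3 h1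
        rw [Nat.div_mul_cancel hdn] at h4
        have h5 := Nat.lt_succ_sqrt n
        simp only [Nat.succ_eq_add_one] at h5
        omega
      · exact Nat.div_div_self hdn hn.ne'
  calc n.divisors.card ≤ _ := Finset.card_le_card hsub
    _ ≤ _ := Finset.card_union_le _ _
    _ ≤ Nat.sqrt n + Nat.sqrt n := by
        apply Nat.add_le_add
        · simp
        · exact Finset.card_image_le.trans (by simp)
    _ = 2 * Nat.sqrt n := by ring

theorem card_div_le_rpow (n : ℕ) : (n.divisors.card : ℝ) ≤ 2 * (n : ℝ) ^ ((1 : ℝ) / 2) := by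
  have h1 : (n.divisors.card : ℝ) ≤ 2 * (Nat.sqrt n : ℝ) := by exact_mod_cast card_div_le_sqrt n
  have h2 : (Nat.sqrt n : ℝ) ≤ Real.sqrt n := Real.nat_sqrt_le_real_sqrt
  rw [Real.sqrt_eq_rpow] at h2
  linarith

theorem card_div_sq_le (n : ℕ) : (n ^ 2).divisors.card ≤ n.divisors.card * n.divisors.card := by
  classical
  rw [sq, Nat.divisors_mul]
  exact Finset.card_mul_le

/-- weight of the square part -/
noncomputable def wt (t : ℕ) : ℝ := 2 * ((t ^ 2).divisors.card : ℝ) / (t : ℝ) ^ 2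

theorem wt_nonneg (t : ℕ) : 0 ≤ wt t := by unfold wt; positivity

theorem wt_le (t : ℕ) (ht : 1 ≤ t) :
    wt t ≤ 4 * ((t.divisors.card : ℝ) * (t : ℝ) ^ (-(3 : ℝ) / 2)) := by
  unfold wt
  have ht0 : (0 : ℝ) < t := by exact_mod_cast ht
  have h1 : ((t ^ 2).divisors.card : ℝ) ≤ t.divisors.card * t.divisors.card := by
    exact_mod_cast card_div_sq_le t
  have h2 := card_div_le_rpow t
  have h3 : ((t ^ 2).divisors.card : ℝ) ≤ t.divisors.card * (2 * (t : ℝ) ^ ((1 : ℝ) / 2)) :=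
    h1.trans (mul_le_mul_of_nonneg_left h2 (by positivity))
  have h4 : (t : ℝ) ^ (-(3 : ℝ) / 2) * (t : ℝ) ^ 2 = (t : ℝ) ^ ((1 : ℝ) / 2) := by
    rw [← Real.rpow_natCast, ← Real.rpow_add ht0]; norm_num
  rw [div_le_iff₀ (by positivity)]
  calc 2 * ((t ^ 2).divisors.card : ℝ) ≤ 2 * (t.divisors.card * (2 * (t : ℝ) ^ ((1 : ℝ) / 2))) := by
        linarith
    _ = 4 * ((t.divisors.card : ℝ) * ((t : ℝ) ^ (-(3 : ℝ) / 2) * (t : ℝ) ^ 2)) := by
        rw [h4]; ring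
    _ = _ := by ring

theorem zeta_bound (σ : ℝ) (hσ : 1 < σ) : ∃ C : ℝ, 0 < C ∧ ∀ X : ℕ,
    ∑ t ∈ Icc 1 X, (t : ℝ) ^ (-σ) ≤ C := by
  have hs : Summable (fun n : ℕ => (n : ℝ) ^ (-σ)) := Real.summable_nat_rpow.mpr (by linarith)
  refine ⟨(∑' n : ℕ, (n : ℝ) ^ (-σ)) + 1, ?_, ?_⟩
  · have : 0 ≤ ∑' n : ℕ, (n : ℝ) ^ (-σ) := tsum_nonneg (fun n => by positivity)
    linarith
  · intro X
    have := hs.sum_le_tsum (Icc 1 X) (fun i _ => by positivity)
    linarith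

theorem tau_zeta_bound (σ : ℝ) (hσ : 1 < σ) : ∃ C : ℝ, 0 < C ∧ ∀ X : ℕ,
    ∑ t ∈ Icc 1 X, (t.divisors.card : ℝ) * (t : ℝ) ^ (-σ) ≤ C := by
  classical
  obtain ⟨C, hC, hb⟩ := zeta_bound σ hσ
  refine ⟨C * C, by positivity, ?_⟩
  intro X
  have h1 : ∑ t ∈ Icc 1 X, (t.divisors.card : ℝ) * (t : ℝ) ^ (-σ)
      = ∑ p ∈ (Icc 1 X).sigma (fun t => t.divisors), (p.1 : ℝ) ^ (-σ) := by
    rw [Finset.sum_sigma]
    apply Finset.sum_congr rfl
    intro t _
    simp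
  rw [h1]
  calc ∑ p ∈ (Icc 1 X).sigma (fun t => t.divisors), (p.1 : ℝ) ^ (-σ)
      ≤ ∑ q ∈ (Icc 1 X) ×ˢ (Icc 1 X), (q.1 : ℝ) ^ (-σ) * (q.2 : ℝ) ^ (-σ) := by
        apply sum_le_of_inj _ _ (fun p : (Σ _ : ℕ, ℕ) => (p.2, p.1 / p.2))
        · rintro ⟨t, d⟩ h
          simp only [mem_sigma, mem_Icc, Nat.mem_divisors] at h
          obtain ⟨⟨h1, h2⟩, h3, h4⟩ := h
          have hd : 0 < d := Nat.pos_of_dvd_of_pos h3 (by omega)
          simp only [mem_product, mem_Icc]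
          refine ⟨⟨hd, (Nat.le_of_dvd (by omega) h3).trans h2⟩,
            Nat.div_pos (Nat.le_of_dvd (by omega) h3) hd, (Nat.div_le_self _ _).trans h2⟩
        · rintro ⟨t, d⟩ h ⟨t', d'⟩ h' heq
          simp only [coe_sigma, Set.mem_sigma_iff, mem_coe, mem_Icc, Nat.mem_divisors] at h h'
          simp only [Prod.mk.injEq] at heq
          obtain ⟨h1, h2⟩ := heq
          subst h1
          have h3 : t = t' := by
            rw [← Nat.mul_div_cancel' h.2.1, h2, Nat.mul_div_cancel' h'.2.1]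
          subst h3
          rfl
        · intro q _
          positivity
        · rintro ⟨t, d⟩ h
          simp only [mem_sigma, mem_Icc, Nat.mem_divisors] at h
          obtain ⟨⟨h1, h2⟩, h3, h4⟩ := h
          have h5 : (t : ℝ) = (d : ℝ) * ((t / d : ℕ) : ℝ) := by
            exact_mod_cast (Nat.mul_div_cancel' h3).symm
          show (t : ℝ) ^ (-σ) ≤ (d : ℝ) ^ (-σ) * ((t / d : ℕ) : ℝ) ^ (-σ)
          rw [← Real.mul_rpow (by positivity) (by positivity), ← h5]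
    _ = (∑ t ∈ Icc 1 X, (t : ℝ) ^ (-σ)) * (∑ t ∈ Icc 1 X, (t : ℝ) ^ (-σ)) := by
        rw [Finset.sum_mul_sum, Finset.sum_product]
    _ ≤ C * C := by
        apply mul_le_mul (hb X) (hb X) _ hC.le
        exact Finset.sum_nonneg (fun i _ => by positivity)

/-- sum of the weights -/
theorem wt_sum : ∃ C : ℝ, 0 < C ∧ ∀ X : ℕ, ∑ t ∈ Icc 1 X, wt t ≤ C := by
  obtain ⟨C, hC, hb⟩ := tau_zeta_bound (3 / 2) (by norm_num)
  refine ⟨4 * C, by positivity, ?_⟩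
  intro X
  calc ∑ t ∈ Icc 1 X, wt t ≤ ∑ t ∈ Icc 1 X, 4 * ((t.divisors.card : ℝ) * (t : ℝ) ^ (-(3 / 2 : ℝ))) := by
        apply Finset.sum_le_sum
        intro t ht
        have := wt_le t (mem_Icc.mp ht).1
        rwa [neg_div] at this
    _ = 4 * ∑ t ∈ Icc 1 X, ((t.divisors.card : ℝ) * (t : ℝ) ^ (-(3 / 2 : ℝ))) := by
        rw [Finset.mul_sum]
    _ ≤ 4 * C := by linarith [hb X]

/-- sum of the weights times `t ^ (1/4)` -/
theorem wt_sum_quarter : ∃ C : ℝ, 0 < C ∧ ∀ X : ℕ,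
    ∑ t ∈ Icc 1 X, wt t * (t : ℝ) ^ ((1 : ℝ) / 4) ≤ C := by
  obtain ⟨C, hC, hb⟩ := tau_zeta_bound (5 / 4) (by norm_num)
  refine ⟨4 * C, by positivity, ?_⟩
  intro X
  calc ∑ t ∈ Icc 1 X, wt t * (t : ℝ) ^ ((1 : ℝ) / 4)
      ≤ ∑ t ∈ Icc 1 X, 4 * ((t.divisors.card : ℝ) * (t : ℝ) ^ (-(5 / 4 : ℝ))) := by
        apply Finset.sum_le_sum
        intro t ht
        have ht0 : (0 : ℝ) < t := by exact_mod_cast (mem_Icc.mp ht).1
        have h1 := wt_le t (mem_Icc.mp ht).1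
        have h2 : (t : ℝ) ^ (-(5 / 4 : ℝ)) = (t : ℝ) ^ (-(3 : ℝ) / 2) * (t : ℝ) ^ ((1 : ℝ) / 4) := by
          rw [← Real.rpow_add ht0]; norm_num
        rw [h2]
        calc wt t * (t : ℝ) ^ ((1 : ℝ) / 4)
            ≤ 4 * ((t.divisors.card : ℝ) * (t : ℝ) ^ (-(3 : ℝ) / 2)) * (t : ℝ) ^ ((1 : ℝ) / 4) :=
              mul_le_mul_of_nonneg_right h1 (by positivity)
          _ = _ := by ring
    _ = 4 * ∑ t ∈ Icc 1 X, ((t.divisors.card : ℝ) * (t : ℝ) ^ (-(5 / 4 : ℝ))) := by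
        rw [Finset.mul_sum]
    _ ≤ 4 * C := by linarith [hb X]

/-- weight of a set of primes -/
noncomputable def gS (T : Finset ℕ) : ℝ := (ell (∏ l ∈ T, l) : ℝ) / ((∏ l ∈ T, l : ℕ) : ℝ)

theorem gS_nonneg (T : Finset ℕ) : 0 ≤ gS T := by unfold gS; positivity

/-- square part and squarefree part -/
theorem exists_dec (a : ℕ) : ∃ p : ℕ × ℕ, 1 ≤ a → (p.2 ^ 2 * p.1 = a ∧ Squarefree p.1) := by
  obtain ⟨s, t, h1, h2⟩ := Nat.sq_mul_squarefree a
  exact ⟨(s, t), fun _ => ⟨h1, h2⟩⟩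

/-- master inequality: a sum over smooth numbers is bounded by a sum over pairs -/
theorem master (J X : ℕ) (A : Finset ℕ)
    (hA : ∀ a ∈ A, 1 ≤ a ∧ a ≤ X ∧ ∀ l ∈ a.primeFactors, l < 2 ^ 2 ^ J)
    (κ : Finset ℕ → ℕ → ℝ) (hκ : ∀ T t, 0 ≤ κ T t)
    (hκ1 : ∀ a ∈ A, ∀ s t : ℕ, t ^ 2 * s = a → Squarefree s → 1 ≤ κ s.primeFactors t) :
    ∑ a ∈ A, (ell a : ℝ) / a ≤
      ∑ q ∈ (((range (2 ^ 2 ^ J)).filter Nat.Prime).powerset ×ˢ (Icc 1 X)),
        gS q.1 * wt q.2 * κ q.1 q.2 := by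
  classical
  choose p hp using exists_dec
  apply sum_le_of_inj _ _ (fun a => ((p a).1.primeFactors, (p a).2))
  · intro a ha
    obtain ⟨h1, h2, h3⟩ := hA a ha
    obtain ⟨h4, h5⟩ := hp a h1
    have ht : 1 ≤ (p a).2 := by
      rcases Nat.eq_zero_or_pos (p a).2 with h | h
      · rw [h] at h4; simp at h4; omega
      · exact h
    simp only [mem_product, mem_powerset, mem_Icc]
    refine ⟨?_, ht, ?_⟩
    · intro l hl
      rw [mem_filter, mem_range]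
      refine ⟨h3 l ?_, Nat.prime_of_mem_primeFactors hl⟩
      have hdvd : (p a).1 ∣ a := ⟨(p a).2 ^ 2, by rw [mul_comm]; exact h4.symm⟩
      exact Nat.primeFactors_mono hdvd (by omega) hl
    · have hs : 1 ≤ (p a).1 := Nat.pos_of_ne_zero h5.ne_zero
      have h6 : (p a).2 * 1 ≤ (p a).2 * (p a).2 := Nat.mul_le_mul_left _ ht
      have h7 : (p a).2 ^ 2 * 1 ≤ (p a).2 ^ 2 * (p a).1 := Nat.mul_le_mul_left _ hs
      rw [h4] at h7
      nlinarith
  · intro a ha b hb hab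
    obtain ⟨h1, -, -⟩ := hA a ha
    obtain ⟨h1', -, -⟩ := hA b hb
    obtain ⟨h4, h5⟩ := hp a h1
    obtain ⟨h4', h5'⟩ := hp b h1'
    simp only [Prod.mk.injEq] at hab
    obtain ⟨e1, e2⟩ := hab
    have e3 : (p a).1 = (p b).1 := by
      rw [← Nat.prod_primeFactors_of_squarefree h5, ← Nat.prod_primeFactors_of_squarefree h5', e1]
    rw [← h4, ← h4', e3, e2]
  · intro q _
    exact mul_nonneg (mul_nonneg (gS_nonneg _) (wt_nonneg _)) (hκ _ _)
  · intro a ha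
    obtain ⟨h1, h2, h3⟩ := hA a ha
    obtain ⟨h4, h5⟩ := hp a h1
    have ht : 1 ≤ (p a).2 := by
      rcases Nat.eq_zero_or_pos (p a).2 with h | h
      · rw [h] at h4; simp at h4; omega
      · exact h
    have hs : 1 ≤ (p a).1 := Nat.pos_of_ne_zero h5.ne_zero
    have h6 := hκ1 a ha (p a).1 (p a).2 h4 h5
    have h7 : (ell a : ℝ) / a ≤ gS (p a).1.primeFactors * wt (p a).2 := by
      unfold gS wt
      rw [Nat.prod_primeFactors_of_squarefree h5]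
      have h8 : (ell ((p a).1 * (p a).2 ^ 2) : ℝ)
          ≤ 2 * (((p a).2 ^ 2).divisors.card : ℝ) * ell (p a).1 := by
        exact_mod_cast ell_mul (p a).1 ((p a).2 ^ 2) hs (Nat.one_le_pow _ _ ht)
      have h9 : (p a).1 * (p a).2 ^ 2 = a := by rw [mul_comm]; exact h4
      rw [h9] at h8
      have h10 : (a : ℝ) = ((p a).1 : ℝ) * ((p a).2 : ℝ) ^ 2 := by exact_mod_cast h9.symm
      have hs' : (0 : ℝ) < ((p a).1 : ℝ) := by exact_mod_cast hs
      have ht' : (0 : ℝ) < ((p a).2 : ℝ) := by exact_mod_cast ht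
      have ha' : (0 : ℝ) < (a : ℝ) := by exact_mod_cast h1
      rw [div_mul_div_comm, ← h10]
      apply div_le_div_of_nonneg_right _ ha'.le
      linarith
    calc (ell a : ℝ) / a ≤ gS (p a).1.primeFactors * wt (p a).2 * 1 := by rw [mul_one]; exact h7
      _ ≤ _ := mul_le_mul_of_nonneg_left h6 (mul_nonneg (gS_nonneg _) (wt_nonneg _))

/- TARGET -/
/-- FU -/
theorem ford_upper : ∃ C : ℝ, 0 < C ∧ ∀ J X : ℕ, 1 ≤ J →
    ∑ a ∈ (Icc 1 X).filter (fun a => ∀ l ∈ a.primeFactors, l < 2 ^ 2 ^ J), (ell a : ℝ) / a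
      ≤ C * ((2 * Real.exp 1 * Real.log 2) ^ J / (J * Real.sqrt J)) := by
  obtain ⟨C1, hC1, h1⟩ := ford_sq
  obtain ⟨C2, hC2, h2⟩ := wt_sum
  refine ⟨C1 * C2, by positivity, ?_⟩
  intro J X hJ
  have hm := master J X ((Icc 1 X).filter (fun a => ∀ l ∈ a.primeFactors, l < 2 ^ 2 ^ J))
    (by
      intro a ha
      rw [mem_filter, mem_Icc] at ha
      exact ⟨ha.1.1, ha.1.2, ha.2⟩)
    (fun _ _ => 1) (fun _ _ => zero_le_one) (fun _ _ _ _ _ _ => le_refl 1)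
  refine hm.trans ?_
  have e1 : ∑ q ∈ (((range (2 ^ 2 ^ J)).filter Nat.Prime).powerset ×ˢ (Icc 1 X)),
        gS q.1 * wt q.2 * (1 : ℝ)
      = (∑ T ∈ ((range (2 ^ 2 ^ J)).filter Nat.Prime).powerset, gS T) * ∑ t ∈ Icc 1 X, wt t := by
    rw [Finset.sum_mul_sum, Finset.sum_product]
    simp
  rw [e1]
  have h3 := h1 J hJ
  have h4 := h2 X
  calc (∑ T ∈ ((range (2 ^ 2 ^ J)).filter Nat.Prime).powerset, gS T) * ∑ t ∈ Icc 1 X, wt t
      ≤ (C1 * ((2 * Real.exp 1 * Real.log 2) ^ J / (J * Real.sqrt J))) * C2 := by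
        apply mul_le_mul h3 h4 (Finset.sum_nonneg (fun t _ => wt_nonneg t))
        exact le_trans (Finset.sum_nonneg (fun T _ => gS_nonneg T)) h3
    _ = _ := by ring

/-- powers of small primes -/
theorem pow_eta_le (J l : ℕ) (hl : 1 ≤ l) (hl2 : l < 2 ^ 2 ^ J) :
    ((l : ℝ) ^ ((1 : ℝ) / 2 ^ (J + 1)) - 1) ≤ ((1 : ℝ) / 2 ^ (J + 1)) * Real.log l * 2 := by
  have hl0 : (0 : ℝ) < l := by exact_mod_cast hl
  set η : ℝ := (1 : ℝ) / 2 ^ (J + 1) with hη
  have hη0 : 0 < η := by rw [hη]; positivity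
  have hlog : 0 ≤ Real.log l := Real.log_nonneg (by exact_mod_cast hl)
  have h1 : (l : ℝ) ^ η ≤ 2 := by
    have h2 : (l : ℝ) ≤ (2 : ℝ) ^ ((2 : ℝ) ^ J) := by
      have : (l : ℝ) ≤ ((2 ^ 2 ^ J : ℕ) : ℝ) := by exact_mod_cast hl2.le
      refine this.trans (le_of_eq ?_)
      push_cast
      rw [← Real.rpow_natCast 2 (2 ^ J)]
      push_cast
      rfl
    calc (l : ℝ) ^ η ≤ ((2 : ℝ) ^ ((2 : ℝ) ^ J)) ^ η := Real.rpow_le_rpow hl0.le h2 hη0.le
      _ = (2 : ℝ) ^ ((2 : ℝ) ^ J * η) := by rw [← Real.rpow_mul (by norm_num)]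
      _ ≤ (2 : ℝ) ^ (1 : ℝ) := by
          apply Real.rpow_le_rpow_of_exponent_le (by norm_num)
          rw [hη, pow_succ]
          have : (0 : ℝ) < 2 ^ J := by positivity
          rw [mul_one_div, div_le_one (by positivity)]
          linarith
      _ = 2 := by norm_num
  have h3 : (l : ℝ) ^ η = Real.exp (Real.log l * η) := Real.rpow_def_of_pos hl0 η
  have h4 := Real.add_one_le_exp (-(Real.log l * η))
  have h5 : Real.exp (-(Real.log l * η)) * Real.exp (Real.log l * η) = 1 := by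
    rw [← Real.exp_add]; simp
  have h6 : (l : ℝ) ^ η - 1 ≤ (Real.log l * η) * (l : ℝ) ^ η := by
    rw [h3]
    have := Real.exp_pos (Real.log l * η)
    nlinarith
  calc (l : ℝ) ^ η - 1 ≤ (Real.log l * η) * (l : ℝ) ^ η := h6
    _ ≤ (Real.log l * η) * 2 := mul_le_mul_of_nonneg_left h1 (by positivity)
    _ = _ := by ring

/-- weight increase -/
noncomputable def hU (η : ℝ) (U : Finset ℕ) : ℝ := ∏ l ∈ U, ((l : ℝ) ^ η - 1)

theorem rankin_sum : ∃ C : ℝ, 0 < C ∧ ∀ J : ℕ, 1 ≤ J →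
    ∑ T ∈ ((range (2 ^ 2 ^ J)).filter Nat.Prime).powerset,
      gS T * ((∏ l ∈ T, l : ℕ) : ℝ) ^ ((1 : ℝ) / 2 ^ (J + 1))
      ≤ C * ((2 * Real.exp 1 * Real.log 2) ^ J / (J * Real.sqrt J)) := by
  classical
  obtain ⟨C1, hC1, h1⟩ := ford_sq
  obtain ⟨C2, hC2, h2⟩ := log_sum
  refine ⟨2 * Real.exp (2 * C2) * C1, by positivity, ?_⟩
  intro J hJ
  set η : ℝ := (1 : ℝ) / 2 ^ (J + 1) with hη
  have hη0 : 0 < η := by rw [hη]; positivity
  set Pr := (range (2 ^ 2 ^ J)).filter Nat.Prime with hPr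
  have hprime : ∀ T ∈ Pr.powerset, ∀ l ∈ T, l.Prime := by
    intro T hT l hl
    exact (mem_filter.mp ((mem_powerset.mp hT) hl)).2
  have hge : ∀ l : ℕ, l.Prime → 0 ≤ (l : ℝ) ^ η - 1 := by
    intro l hl
    have : (1 : ℝ) ≤ (l : ℝ) ^ η := Real.one_le_rpow (by exact_mod_cast hl.one_lt.le) hη0.le
    linarith
  have hUn : ∀ U ∈ Pr.powerset, 0 ≤ hU η U := by
    intro U hU'
    exact Finset.prod_nonneg (fun l hl => hge l (hprime U hU' l hl))
  -- expand the power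
  have hexp : ∀ T ∈ Pr.powerset, ((∏ l ∈ T, l : ℕ) : ℝ) ^ η = ∑ U ∈ T.powerset, hU η U := by
    intro T hT
    unfold hU
    rw [← Finset.prod_one_add]
    push_cast
    rw [← Real.finsetProd_rpow _ _ (fun i _ => by positivity)]
    apply Finset.prod_congr rfl
    intro l _
    ring
  -- splitting
  have hsplit : ∀ T ∈ Pr.powerset, ∀ U ∈ T.powerset,
      gS T ≤ 2 * (∏ l ∈ U, (2 : ℝ) / l) * gS (T \ U) := by
    intro T hT U hU'
    rw [mem_powerset] at hU'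
    have hTU : (∏ l ∈ T, l) = (∏ l ∈ T \ U, l) * ∏ l ∈ U, l := (Finset.prod_sdiff hU').symm
    have hUpos : 1 ≤ ∏ l ∈ U, l :=
      Nat.pos_of_ne_zero (Finset.prod_ne_zero_iff.mpr (fun l hl => (hprime T hT l (hU' hl)).ne_zero))
    have hTUpos : 1 ≤ ∏ l ∈ T \ U, l :=
      Nat.pos_of_ne_zero (Finset.prod_ne_zero_iff.mpr
        (fun l hl => (hprime T hT l (mem_sdiff.mp hl).1).ne_zero))
    have hcard : (∏ l ∈ U, l).divisors.card = 2 ^ U.card := by
      have hsub : ∀ l ∈ U, l.Prime := fun l hl => hprime T hT l (hU' hl)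
      clear hUpos hTU hTUpos hU'
      induction U using Finset.induction_on with
      | empty => simp
      | insert a s has ih =>
        rw [Finset.prod_insert has, Nat.Coprime.card_divisors_mul, ih, card_insert_of_notMem has,
          Nat.Prime.divisors (hsub a (mem_insert_self a s)), pow_succ]
        · rw [card_pair (hsub a (mem_insert_self a s)).one_lt.ne]
          ring
        · exact fun l hl => hsub l (mem_insert_of_mem hl)
        · apply Nat.Coprime.prod_right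
          intro l hl
          rw [Nat.coprime_primes (hsub a (mem_insert_self a s)) (hsub l (mem_insert_of_mem hl))]
          rintro rfl
          exact has hl
    have he := ell_mul (∏ l ∈ T \ U, l) (∏ l ∈ U, l) hTUpos hUpos
    rw [← hTU, hcard] at he
    have he' : (ell (∏ l ∈ T, l) : ℝ) ≤ 2 * 2 ^ U.card * ell (∏ l ∈ T \ U, l) := by
      exact_mod_cast he
    have hprod2 : (∏ l ∈ U, (2 : ℝ) / l) = 2 ^ U.card / ((∏ l ∈ U, l : ℕ) : ℝ) := by
      rw [Finset.prod_div_distrib, Finset.prod_const]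
      push_cast
      rfl
    have hTpos : (0 : ℝ) < ((∏ l ∈ T, l : ℕ) : ℝ) := by
      rw [hTU]; exact_mod_cast Nat.mul_pos hTUpos hUpos
    have hcast : ((∏ l ∈ T, l : ℕ) : ℝ) = ((∏ l ∈ T \ U, l : ℕ) : ℝ) * ((∏ l ∈ U, l : ℕ) : ℝ) := by
      rw [hTU]; push_cast; rfl
    unfold gS
    rw [hprod2]
    have hA : (0 : ℝ) < ((∏ l ∈ T \ U, l : ℕ) : ℝ) := by exact_mod_cast hTUpos
    have hB : (0 : ℝ) < ((∏ l ∈ U, l : ℕ) : ℝ) := by exact_mod_cast hUpos
    rw [hcast]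
    calc (ell (∏ l ∈ T, l) : ℝ) / (((∏ l ∈ T \ U, l : ℕ) : ℝ) * ((∏ l ∈ U, l : ℕ) : ℝ))
        ≤ (2 * 2 ^ U.card * ell (∏ l ∈ T \ U, l)) /
          (((∏ l ∈ T \ U, l : ℕ) : ℝ) * ((∏ l ∈ U, l : ℕ) : ℝ)) :=
          div_le_div_of_nonneg_right he' (by positivity)
      _ = _ := by
          field_simp
  have hsum : ∑ T ∈ Pr.powerset, gS T * ((∏ l ∈ T, l : ℕ) : ℝ) ^ η
      ≤ ∑ q ∈ Pr.powerset ×ˢ Pr.powerset,
        (2 * (∏ l ∈ q.1, (2 : ℝ) / l) * hU η q.1) * gS q.2 := by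
    have e1 : ∑ T ∈ Pr.powerset, gS T * ((∏ l ∈ T, l : ℕ) : ℝ) ^ η
        = ∑ p ∈ Pr.powerset.sigma (fun T => T.powerset), gS p.1 * hU η p.2 := by
      rw [Finset.sum_sigma]
      apply Finset.sum_congr rfl
      intro T hT
      rw [hexp T hT, Finset.mul_sum]
    rw [e1]
    apply sum_le_of_inj _ _ (fun p : (Σ _ : Finset ℕ, Finset ℕ) => (p.2, p.1 \ p.2))
    · rintro ⟨T, U⟩ h
      simp only [mem_sigma, mem_powerset] at h
      simp only [mem_product, mem_powerset]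
      exact ⟨h.2.trans h.1, sdiff_subset.trans h.1⟩
    · rintro ⟨T, U⟩ h ⟨T', U'⟩ h' heq
      simp only [coe_sigma, Set.mem_sigma_iff, mem_coe, mem_powerset] at h h'
      simp only [Prod.mk.injEq] at heq
      obtain ⟨h1, h2⟩ := heq
      subst h1
      have h3 : T = T' := by
        rw [← Finset.sdiff_union_of_subset h.2, h2, Finset.sdiff_union_of_subset h'.2]
      subst h3
      rfl
    · intro q hq
      rw [mem_product] at hq
      refine mul_nonneg (mul_nonneg (mul_nonneg zero_le_two ?_) (hUn _ hq.1)) (gS_nonneg _)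
      exact Finset.prod_nonneg (fun l _ => by positivity)
    · rintro ⟨T, U⟩ h
      rw [mem_sigma] at h
      have hT := h.1
      have hU' := h.2
      show gS T * hU η U ≤ (2 * (∏ l ∈ U, (2 : ℝ) / l) * hU η U) * gS (T \ U)
      have hUP : U ∈ Pr.powerset := mem_powerset.mpr ((mem_powerset.mp hU').trans (mem_powerset.mp hT))
      calc gS T * hU η U ≤ (2 * (∏ l ∈ U, (2 : ℝ) / l) * gS (T \ U)) * hU η U :=
            mul_le_mul_of_nonneg_right (hsplit T hT U hU') (hUn U hUP)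
        _ = _ := by ring
  refine hsum.trans ?_
  have e2 : ∑ q ∈ Pr.powerset ×ˢ Pr.powerset,
        (2 * (∏ l ∈ q.1, (2 : ℝ) / l) * hU η q.1) * gS q.2
      = 2 * (∑ U ∈ Pr.powerset, ∏ l ∈ U, (2 / (l : ℝ) * ((l : ℝ) ^ η - 1))) *
        ∑ T ∈ Pr.powerset, gS T := by
    rw [mul_assoc, Finset.sum_mul_sum, Finset.mul_sum, Finset.sum_product]
    apply Finset.sum_congr rfl
    intro U _
    rw [Finset.mul_sum]
    apply Finset.sum_congr rfl
    intro T _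
    rw [Finset.prod_mul_distrib]
    unfold hU
    ring
  rw [e2, ← Finset.prod_one_add]
  have h3 : ∏ l ∈ Pr, (1 + 2 / (l : ℝ) * ((l : ℝ) ^ η - 1)) ≤ Real.exp (2 * C2) := by
    calc ∏ l ∈ Pr, (1 + 2 / (l : ℝ) * ((l : ℝ) ^ η - 1))
        ≤ ∏ l ∈ Pr, Real.exp (4 * η * (Real.log l / l)) := by
          apply Finset.prod_le_prod
          · intro l hl
            have hlp := (mem_filter.mp hl).2
            have := hge l hlp
            positivity
          · intro l hl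
            have hlp := (mem_filter.mp hl).2
            have hl0 : (0 : ℝ) < l := by exact_mod_cast hlp.pos
            have h4 := pow_eta_le J l hlp.one_lt.le (mem_range.mp (mem_filter.mp hl).1)
            rw [← hη] at h4
            have h5 : 2 / (l : ℝ) * ((l : ℝ) ^ η - 1) ≤ 4 * η * (Real.log l / l) := by
              calc 2 / (l : ℝ) * ((l : ℝ) ^ η - 1) ≤ 2 / (l : ℝ) * (η * Real.log l * 2) :=
                    mul_le_mul_of_nonneg_left h4 (by positivity)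
                _ = _ := by field_simp; ring
            have h6 := Real.add_one_le_exp (4 * η * (Real.log l / l))
            linarith
      _ = Real.exp (4 * η * ∑ l ∈ Pr, Real.log l / l) := by
          rw [← Real.exp_sum, Finset.mul_sum]
      _ ≤ Real.exp (2 * C2) := by
          apply Real.exp_le_exp.mpr
          have h7 := h2 J
          calc 4 * η * ∑ l ∈ Pr, Real.log l / l ≤ 4 * η * (C2 * 2 ^ J) :=
                mul_le_mul_of_nonneg_left h7 (by positivity)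
            _ = 2 * C2 := by
                rw [hη, pow_succ]
                have : (2 : ℝ) ^ J ≠ 0 := by positivity
                field_simp
                norm_num
  have h8 := h1 J hJ
  have h9 : ∑ T ∈ Pr.powerset, gS T ≤ C1 * ((2 * Real.exp 1 * Real.log 2) ^ J / (J * Real.sqrt J)) :=
    h8
  have h10 : 0 ≤ ∑ T ∈ Pr.powerset, gS T := Finset.sum_nonneg (fun T _ => gS_nonneg T)
  calc 2 * (∏ l ∈ Pr, (1 + 2 / (l : ℝ) * ((l : ℝ) ^ η - 1))) * ∑ T ∈ Pr.powerset, gS T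
      ≤ 2 * Real.exp (2 * C2) * (C1 * ((2 * Real.exp 1 * Real.log 2) ^ J / (J * Real.sqrt J))) := by
        apply mul_le_mul _ h9 h10 (by positivity)
        linarith
    _ = _ := by ring

/- TARGET -/
/-- FUR -/
theorem ford_upper_rankin : ∃ C : ℝ, 0 < C ∧ ∀ J X Y : ℕ, 1 ≤ J → 1 ≤ Y →
    ∑ a ∈ (Icc 1 X).filter (fun a => Y < a ∧ ∀ l ∈ a.primeFactors, l < 2 ^ 2 ^ J), (ell a : ℝ) / a
      ≤ C * (Y : ℝ) ^ (-(1 : ℝ) / 2 ^ (J + 3)) *
        ((2 * Real.exp 1 * Real.log 2) ^ J / (J * Real.sqrt J)) := by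
  obtain ⟨C1, hC1, h1⟩ := ford_sq
  obtain ⟨C2, hC2, h2⟩ := wt_sum
  obtain ⟨C3, hC3, h3⟩ := wt_sum_quarter
  obtain ⟨C4, hC4, h4⟩ := rankin_sum
  refine ⟨C1 * C3 + C4 * C2, by positivity, ?_⟩
  intro J X Y hJ hY
  set F : ℝ := (2 * Real.exp 1 * Real.log 2) ^ J / (J * Real.sqrt J) with hF
  set η : ℝ := (1 : ℝ) / 2 ^ (J + 1) with hη
  have hη0 : 0 < η := by rw [hη]; positivity
  have hY0 : (0 : ℝ) < Y := by exact_mod_cast hY
  have hY1 : (1 : ℝ) ≤ Y := by exact_mod_cast hY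
  have hm := master J X
    ((Icc 1 X).filter (fun a => Y < a ∧ ∀ l ∈ a.primeFactors, l < 2 ^ 2 ^ J))
    (by
      intro a ha
      rw [mem_filter, mem_Icc] at ha
      exact ⟨ha.1.1, ha.1.2, ha.2.2⟩)
    (fun T t => (t : ℝ) ^ ((1 : ℝ) / 4) * (Y : ℝ) ^ (-(1 : ℝ) / 16) +
      ((∏ l ∈ T, l : ℕ) : ℝ) ^ η * (Y : ℝ) ^ (-η / 2)) (fun T t => by positivity)
    (by
      intro a ha s t hst hs
      rw [mem_filter, mem_Icc] at ha
      have hYa : (Y : ℝ) < (a : ℝ) := by exact_mod_cast ha.2.1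
      have ht : 1 ≤ t := by
        rcases Nat.eq_zero_or_pos t with h | h
        · rw [h] at hst; simp at hst; omega
        · exact h
      have ht0 : (0 : ℝ) < t := by exact_mod_cast ht
      have hs0 : (0 : ℝ) < s := by exact_mod_cast Nat.pos_of_ne_zero hs.ne_zero
      simp only [Nat.prod_primeFactors_of_squarefree hs]
      have hast : (a : ℝ) = (t : ℝ) ^ 2 * s := by exact_mod_cast hst.symm
      by_cases hc : (Y : ℝ) ^ ((1 : ℝ) / 4) ≤ t
      · have h5 : 1 ≤ (t : ℝ) ^ ((1 : ℝ) / 4) * (Y : ℝ) ^ (-(1 : ℝ) / 16) := by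
          have h6 : ((Y : ℝ) ^ ((1 : ℝ) / 4)) ^ ((1 : ℝ) / 4) ≤ (t : ℝ) ^ ((1 : ℝ) / 4) :=
            Real.rpow_le_rpow (by positivity) hc (by norm_num)
          rw [← Real.rpow_mul hY0.le] at h6
          calc (1 : ℝ) = (Y : ℝ) ^ ((1 : ℝ) / 4 * (1 / 4)) * (Y : ℝ) ^ (-(1 : ℝ) / 16) := by
                rw [← Real.rpow_add hY0]; norm_num
            _ ≤ _ := mul_le_mul_of_nonneg_right h6 (by positivity)
        have h7 : 0 ≤ (s : ℝ) ^ η * (Y : ℝ) ^ (-η / 2) := by positivity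
        linarith
      · push Not at hc
        have h5 : (t : ℝ) ^ 2 < (Y : ℝ) ^ ((1 : ℝ) / 2) := by
          calc (t : ℝ) ^ 2 < ((Y : ℝ) ^ ((1 : ℝ) / 4)) ^ 2 := by
                apply pow_lt_pow_left₀ hc ht0.le (by norm_num)
            _ = (Y : ℝ) ^ ((1 : ℝ) / 2) := by
                rw [← Real.rpow_natCast, ← Real.rpow_mul hY0.le]; norm_num
        have h6 : (Y : ℝ) ^ ((1 : ℝ) / 2) ≤ s := by
          by_contra hcon
          push Not at hcon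
          have h7 : (a : ℝ) < (Y : ℝ) ^ ((1 : ℝ) / 2) * (Y : ℝ) ^ ((1 : ℝ) / 2) := by
            rw [hast]
            exact mul_lt_mul'' h5 hcon (by positivity) hs0.le
          rw [← Real.rpow_add hY0] at h7
          norm_num at h7
          linarith
        have h8 : 1 ≤ (s : ℝ) ^ η * (Y : ℝ) ^ (-η / 2) := by
          have h9 : ((Y : ℝ) ^ ((1 : ℝ) / 2)) ^ η ≤ (s : ℝ) ^ η :=
            Real.rpow_le_rpow (by positivity) h6 hη0.le
          rw [← Real.rpow_mul hY0.le] at h9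
          calc (1 : ℝ) = (Y : ℝ) ^ ((1 : ℝ) / 2 * η) * (Y : ℝ) ^ (-η / 2) := by
                rw [← Real.rpow_add hY0]
                have : (1 : ℝ) / 2 * η + -η / 2 = 0 := by ring
                rw [this, Real.rpow_zero]
            _ ≤ _ := mul_le_mul_of_nonneg_right h9 (by positivity)
        have h10 : 0 ≤ (t : ℝ) ^ ((1 : ℝ) / 4) * (Y : ℝ) ^ (-(1 : ℝ) / 16) := by positivity
        linarith)
  refine hm.trans ?_
  have e1 : ∑ q ∈ (((range (2 ^ 2 ^ J)).filter Nat.Prime).powerset ×ˢ (Icc 1 X)),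
        gS q.1 * wt q.2 * ((q.2 : ℝ) ^ ((1 : ℝ) / 4) * (Y : ℝ) ^ (-(1 : ℝ) / 16) +
          ((∏ l ∈ q.1, l : ℕ) : ℝ) ^ η * (Y : ℝ) ^ (-η / 2))
      = (∑ T ∈ ((range (2 ^ 2 ^ J)).filter Nat.Prime).powerset, gS T) *
          (∑ t ∈ Icc 1 X, wt t * (t : ℝ) ^ ((1 : ℝ) / 4)) * (Y : ℝ) ^ (-(1 : ℝ) / 16) +
        (∑ T ∈ ((range (2 ^ 2 ^ J)).filter Nat.Prime).powerset,
          gS T * ((∏ l ∈ T, l : ℕ) : ℝ) ^ η) * (∑ t ∈ Icc 1 X, wt t) * (Y : ℝ) ^ (-η / 2) := by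
    rw [Finset.sum_mul_sum, Finset.sum_mul_sum, Finset.sum_product, Finset.sum_mul,
      Finset.sum_mul, ← Finset.sum_add_distrib]
    apply Finset.sum_congr rfl
    intro T _
    rw [Finset.sum_mul, Finset.sum_mul, ← Finset.sum_add_distrib]
    apply Finset.sum_congr rfl
    intro t _
    ring
  rw [e1]
  have hy1 : (Y : ℝ) ^ (-(1 : ℝ) / 16) ≤ (Y : ℝ) ^ (-(1 : ℝ) / 2 ^ (J + 3)) := by
    apply Real.rpow_le_rpow_of_exponent_le hY1
    rw [neg_div, neg_div, neg_le_neg_iff]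
    apply one_div_le_one_div_of_le (by norm_num)
    calc (16 : ℝ) = 2 ^ (1 + 3) := by norm_num
      _ ≤ 2 ^ (J + 3) := pow_le_pow_right₀ (by norm_num) (by omega)
  have hy2 : (Y : ℝ) ^ (-η / 2) ≤ (Y : ℝ) ^ (-(1 : ℝ) / 2 ^ (J + 3)) := by
    apply Real.rpow_le_rpow_of_exponent_le hY1
    rw [neg_div, neg_div, neg_le_neg_iff, hη, div_div, ← pow_succ]
    apply one_div_le_one_div_of_le (by positivity)
    exact pow_le_pow_right₀ (by norm_num) (by omega)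
  have hS1 := h1 J hJ
  have hS1' : ∑ T ∈ ((range (2 ^ 2 ^ J)).filter Nat.Prime).powerset, gS T ≤ C1 * F := hS1
  have hS4 := h4 J hJ
  have hS1n : 0 ≤ ∑ T ∈ ((range (2 ^ 2 ^ J)).filter Nat.Prime).powerset, gS T :=
    Finset.sum_nonneg (fun T _ => gS_nonneg T)
  have hS4n : 0 ≤ ∑ T ∈ ((range (2 ^ 2 ^ J)).filter Nat.Prime).powerset,
          gS T * ((∏ l ∈ T, l : ℕ) : ℝ) ^ η :=
    Finset.sum_nonneg (fun T _ => mul_nonneg (gS_nonneg T) (by positivity))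
  have hS2n : 0 ≤ ∑ t ∈ Icc 1 X, wt t := Finset.sum_nonneg (fun t _ => wt_nonneg t)
  have hS3n : 0 ≤ ∑ t ∈ Icc 1 X, wt t * (t : ℝ) ^ ((1 : ℝ) / 4) :=
    Finset.sum_nonneg (fun t _ => mul_nonneg (wt_nonneg t) (by positivity))
  have hFn : 0 ≤ F := by
    have := hS1n.trans hS1'
    nlinarith
  have t1 : (∑ T ∈ ((range (2 ^ 2 ^ J)).filter Nat.Prime).powerset, gS T) *
          (∑ t ∈ Icc 1 X, wt t * (t : ℝ) ^ ((1 : ℝ) / 4)) * (Y : ℝ) ^ (-(1 : ℝ) / 16)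
        ≤ (C1 * F) * C3 * (Y : ℝ) ^ (-(1 : ℝ) / 2 ^ (J + 3)) := by
    apply mul_le_mul _ hy1 (by positivity) (by positivity)
    exact mul_le_mul hS1' (h3 X) hS3n (by positivity)
  have t2 : (∑ T ∈ ((range (2 ^ 2 ^ J)).filter Nat.Prime).powerset,
          gS T * ((∏ l ∈ T, l : ℕ) : ℝ) ^ η) * (∑ t ∈ Icc 1 X, wt t) * (Y : ℝ) ^ (-η / 2)
        ≤ (C4 * F) * C2 * (Y : ℝ) ^ (-(1 : ℝ) / 2 ^ (J + 3)) := by
    apply mul_le_mul _ hy2 (by positivity) (by positivity)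
    exact mul_le_mul hS4 (h2 X) hS2n (by positivity)
  calc _ ≤ (C1 * F) * C3 * (Y : ℝ) ^ (-(1 : ℝ) / 2 ^ (J + 3)) +
        (C4 * F) * C2 * (Y : ℝ) ^ (-(1 : ℝ) / 2 ^ (J + 3)) := add_le_add t1 t2
    _ = _ := by ring

end Pool.Agent.Helper112.LP.Kfu

namespace Pool.Agent.Helper112.LP

/-- FU -/
theorem ford_upper : ∃ C : ℝ, 0 < C ∧ ∀ J X : ℕ, 1 ≤ J →
    ∑ a ∈ (Icc 1 X).filter (fun a => ∀ l ∈ a.primeFactors, l < 2 ^ 2 ^ J), (ell a : ℝ) / a
      ≤ C * ((2 * Real.exp 1 * Real.log 2) ^ J / (J * Real.sqrt J)) := by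
  first
    | exact Kfu.ford_upper
    | (apply Kfu.ford_upper <;> assumption)

/-- FUR -/
theorem ford_upper_rankin : ∃ C : ℝ, 0 < C ∧ ∀ J X Y : ℕ, 1 ≤ J → 1 ≤ Y →
    ∑ a ∈ (Icc 1 X).filter (fun a => Y < a ∧ ∀ l ∈ a.primeFactors, l < 2 ^ 2 ^ J), (ell a : ℝ) / a
      ≤ C * (Y : ℝ) ^ (-(1 : ℝ) / 2 ^ (J + 3)) *
        ((2 * Real.exp 1 * Real.log 2) ^ J / (J * Real.sqrt J)) := by
  first
    | exact Kfu.ford_upper_rankin
    | (apply Kfu.ford_upper_rankin <;> assumption)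

end Pool.Agent.Helper112.LP
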