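import Pool.Agent.Helper112.Lp.Defs
import Pool.Agent.Helper112.Lp.UA1

open Finset

namespace Pool.Agent.Helper112.LP

/-- smooth numbers -/
def Smo (J a : ℕ) : Prop := ∀ l ∈ a.primeFactors, l < 2 ^ 2 ^ J

/-- the list of prime factors below `2^(2^J)` -/
def lo (J N : ℕ) : List ℕ := N.primeFactorsList.filter (fun l => l < 2 ^ 2 ^ J)
def hi (J N : ℕ) : List ℕ := N.primeFactorsList.filter (fun l => ¬ l < 2 ^ 2 ^ J)
/-- the list of prime factors in the group `J + 1` -/
def mi (J N : ℕ) : List ℕ := (lo (J + 1) N).filter (fun l => ¬ l < 2 ^ 2 ^ J)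

theorem prod_filter_mul (L : List ℕ) (P : ℕ → Prop) [DecidablePred P] :
    (L.filter (fun l => P l)).prod * (L.filter (fun l => ¬ P l)).prod = L.prod := by
  induction L with
  | nil => simp
  | cons a L ih =>
    by_cases h : P a
    · simp [h, ← ih]; ring
    · simp [h, ← ih]; ring

theorem prime_of_dvd_list {L : List ℕ} (hL : ∀ x ∈ L, x.Prime) {l : ℕ} (hl : l.Prime)
    (h : l ∣ L.prod) : l ∈ L := by
  obtain ⟨x, hx, hlx⟩ := (Nat.Prime.prime hl).dvd_prod_iff.1 h
  rw [(Nat.prime_dvd_prime_iff_eq hl (hL x hx)).1 hlx]; exact hx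

theorem smo_list {J : ℕ} {L : List ℕ} (hL : ∀ x ∈ L, x.Prime) (h : ∀ x ∈ L, x < 2 ^ 2 ^ J) :
    Smo J L.prod := by
  intro l hl
  have hl' := Nat.mem_primeFactors.1 hl
  exact h l (prime_of_dvd_list hL hl'.1 hl'.2.1)

theorem smo_mul {J a b : ℕ} (ha : Smo J a) (hb : Smo J b) : Smo J (a * b) := by
  intro l hl
  have hl' := Nat.mem_primeFactors.1 hl
  have hab : a ≠ 0 ∧ b ≠ 0 := mul_ne_zero_iff.1 hl'.2.2
  rcases (Nat.Prime.dvd_mul hl'.1).1 hl'.2.1 with h | h
  · exact ha l (Nat.mem_primeFactors.2 ⟨hl'.1, h, hab.1⟩)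
  · exact hb l (Nat.mem_primeFactors.2 ⟨hl'.1, h, hab.2⟩)

theorem coprime_list {J : ℕ} {L : List ℕ} (hL : ∀ x ∈ L, x.Prime) (h : ∀ x ∈ L, ¬ x < 2 ^ 2 ^ J) :
    L.prod.Coprime (PP J) := by
  rw [PP]
  refine Nat.Coprime.prod_right (fun l hl => ?_)
  rw [mem_filter, mem_range] at hl
  rw [Nat.coprime_comm, Nat.Prime.coprime_iff_not_dvd hl.2]
  intro hd
  exact h l (prime_of_dvd_list hL hl.2 hd) hl.1

theorem lo_prime {J N x : ℕ} (h : x ∈ lo J N) : x.Prime := by
  rw [lo, List.mem_filter] at h; exact Nat.prime_of_mem_primeFactorsList h.1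
theorem hi_prime {J N x : ℕ} (h : x ∈ hi J N) : x.Prime := by
  rw [hi, List.mem_filter] at h; exact Nat.prime_of_mem_primeFactorsList h.1
theorem mi_prime {J N x : ℕ} (h : x ∈ mi J N) : x.Prime := by
  rw [mi, List.mem_filter] at h; exact lo_prime h.1
theorem lo_lt {J N x : ℕ} (h : x ∈ lo J N) : x < 2 ^ 2 ^ J := by
  rw [lo, List.mem_filter] at h; simpa using h.2
theorem hi_not_lt {J N x : ℕ} (h : x ∈ hi J N) : ¬ x < 2 ^ 2 ^ J := by
  rw [hi, List.mem_filter] at h; simpa using h.2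
theorem mi_not_lt {J N x : ℕ} (h : x ∈ mi J N) : ¬ x < 2 ^ 2 ^ J := by
  rw [mi, List.mem_filter] at h; simpa using h.2
theorem mi_lt {J N x : ℕ} (h : x ∈ mi J N) : x < 2 ^ 2 ^ (J + 1) := by
  rw [mi, List.mem_filter] at h; exact lo_lt h.1
theorem mi_mem {J N x : ℕ} (h : x ∈ mi J N) : x ∈ Gj (J + 1) := by
  rw [Gj, mem_filter, mem_Ico]
  refine ⟨⟨?_, mi_lt h⟩, mi_prime h⟩
  have := mi_not_lt h
  simpa using this

theorem pow_mono (J : ℕ) : 2 ^ 2 ^ J ≤ 2 ^ 2 ^ (J + 1) :=
  Nat.pow_le_pow_right (by norm_num) (Nat.pow_le_pow_right (by norm_num) (by omega))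

theorem lo_mul_hi {N : ℕ} (J : ℕ) (hN : N ≠ 0) : (lo J N).prod * (hi J N).prod = N := by
  rw [lo, hi, prod_filter_mul, Nat.prod_primeFactorsList hN]

theorem lo_mul_mi (J N : ℕ) : (lo J N).prod * (mi J N).prod = (lo (J + 1) N).prod := by
  have h1 : lo J N = (lo (J + 1) N).filter (fun l => l < 2 ^ 2 ^ J) := by
    rw [lo, lo, List.filter_filter]
    apply List.filter_congr
    intro x _
    have := pow_mono J
    by_cases h : x < 2 ^ 2 ^ J
    · simp [h, lt_of_lt_of_le h this]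
    · simp [h]
  rw [h1, mi, prod_filter_mul]

theorem list_prod_le {L : List ℕ} {z : ℕ} (h : ∀ x ∈ L, x ≤ z) : L.prod ≤ z ^ L.length := by
  induction L with
  | nil => simp
  | cons a L ih =>
    rw [List.prod_cons, List.length_cons, pow_succ']
    exact Nat.mul_le_mul (h a (by simp)) (ih (fun x hx => h x (by simp [hx])))

theorem list_prod_pos {L : List ℕ} (hL : ∀ x ∈ L, x.Prime) : 1 ≤ L.prod := by
  refine Nat.one_le_iff_ne_zero.2 (fun h => ?_)
  rw [List.prod_eq_zero_iff] at h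
  exact Nat.not_prime_zero (hL 0 h)

theorem take_mul_drop (L : List ℕ) (t : ℕ) : (L.take t).prod * (L.drop t).prod = L.prod := by
  rw [← List.prod_append, List.take_append_drop]

theorem cardFactors_list {L : List ℕ} (hL : ∀ x ∈ L, x.Prime) :
    L.prod.primeFactorsList.length = L.length :=
  (Nat.primeFactorsList_unique rfl hL).length_eq.symm

/-- first prefix exceeding `Q` -/
theorem prefix_exists {Q z : ℕ} (L : List ℕ) (hL : ∀ x ∈ L, x ≤ z) (hQ : 1 ≤ Q) (h : Q < L.prod) :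
    ∃ t, Q < (L.take t).prod ∧ (L.take t).prod ≤ Q * z := by
  have hex : ∃ t, Q < (L.take t).prod := ⟨L.length, by rw [List.take_length]; exact h⟩
  classical
  refine ⟨Nat.find hex, Nat.find_spec hex, ?_⟩
  rcases Nat.eq_zero_or_pos (Nat.find hex) with h0 | h0
  · have := Nat.find_spec hex
    rw [h0] at this ⊢
    simp at this; omega
  · have h1 := Nat.find_min hex (Nat.sub_lt h0 one_pos)
    push Not at h1
    obtain ⟨s, hs⟩ : ∃ s, Nat.find hex = s + 1 := ⟨Nat.find hex - 1, by omega⟩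
    rw [hs] at h1 ⊢
    simp only [Nat.add_sub_cancel] at h1
    rcases lt_or_ge s L.length with h2 | h2
    · rw [List.prod_take_succ L s h2]
      exact Nat.mul_le_mul h1 (hL _ (List.getElem_mem _))
    · rw [List.take_of_length_le (by omega)]
      rw [List.take_of_length_le (by omega)] at h1
      omega

/-- the basic data of a pair -/
structure PairD (p α β u v N : ℕ) : Prop where
  hu : 1 ≤ u
  hv : 1 ≤ v
  hup : u ≤ p - 1
  hvp : v ≤ p - 1
  hN : N = u * v
  hmod : u * v ≡ 1 [MOD p]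
  hα : Nat.log 2 u = α
  hβ : Nat.log 2 v = β

/-- the smooth part of `u v` -/
def sA (J u v : ℕ) : ℕ := (lo J u).prod * (lo J v).prod

theorem sA_smo (J u v : ℕ) : Smo J (sA J u v) :=
  smo_mul (smo_list (fun _ => lo_prime) (fun _ => lo_lt)) (smo_list (fun _ => lo_prime) (fun _ => lo_lt))

theorem sA_pos (J u v : ℕ) : 1 ≤ sA J u v :=
  Nat.mul_pos (list_prod_pos (fun _ => lo_prime)) (list_prod_pos (fun _ => lo_prime))

theorem rep_basic {p α β u v N : ℕ} (h : PairD p α β u v N) (J : ℕ) :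
    Rep p J α β (sA J u v) 1 1 N := by
  refine ⟨u, v, (lo J u).prod, (lo J v).prod, (hi J u).prod, (hi J v).prod, h.hu, h.hv, h.hup,
    h.hvp, h.hN, h.hmod, h.hα, h.hβ, ?_, ?_, rfl, ?_⟩
  · rw [mul_one]; exact (lo_mul_hi J (by have := h.hu; omega)).symm
  · rw [mul_one]; exact (lo_mul_hi J (by have := h.hv; omega)).symm
  · exact Nat.Coprime.mul_left (coprime_list (fun _ => hi_prime) (fun _ => hi_not_lt))
      (coprime_list (fun _ => hi_prime) (fun _ => hi_not_lt))

/-- products of `n` primes of a group, up to `X` -/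
def GS (J n X : ℕ) : Finset ℕ :=
  (Icc 1 X).filter (fun g => g.primeFactorsList.length = n ∧ ∀ l ∈ g.primeFactors, l ∈ Gj J)

theorem rep_group {p α β u v N : ℕ} (h : PairD p α β u v N) (J n : ℕ)
    (hn : n ≤ (mi J u).length + (mi J v).length) :
    ∃ n1 ∈ range (n + 1), ∃ g1 ∈ GS (J + 1) n1 ((2 ^ 2 ^ (J + 1)) ^ n),
      ∃ g2 ∈ GS (J + 1) (n - n1) ((2 ^ 2 ^ (J + 1)) ^ n), Rep p J α β (sA J u v) g1 g2 N := by
  have key : ∀ (w m : ℕ), m ≤ n → m ≤ (mi J w).length →
      ((mi J w).take m).prod ∈ GS (J + 1) m ((2 ^ 2 ^ (J + 1)) ^ n) := by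
    intro w m hm hm2
    have hpr : ∀ x ∈ (mi J w).take m, x.Prime := fun x hx => mi_prime (List.mem_of_mem_take hx)
    rw [GS, mem_filter, mem_Icc]
    refine ⟨⟨list_prod_pos hpr, ?_⟩, ?_, ?_⟩
    · refine (list_prod_le (z := 2 ^ 2 ^ (J + 1))
        (fun x hx => (mi_lt (List.mem_of_mem_take hx)).le)).trans ?_
      refine Nat.pow_le_pow_right (by positivity) ?_
      rw [List.length_take]; omega
    · rw [cardFactors_list hpr, List.length_take]; omega
    · intro l hl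
      have hl' := Nat.mem_primeFactors.1 hl
      exact mi_mem (List.mem_of_mem_take (prime_of_dvd_list hpr hl'.1 hl'.2.1))
  have key2 : ∀ (w m : ℕ), w ≠ 0 →
      w = (lo J w).prod * ((mi J w).take m).prod * (((mi J w).drop m).prod * (hi (J + 1) w).prod) := by
    intro w m hw
    have h1 := lo_mul_hi (J + 1) hw
    have h2 := lo_mul_mi J w
    have h3 := take_mul_drop (mi J w) m
    calc w = (lo (J + 1) w).prod * (hi (J + 1) w).prod := h1.symm
      _ = (lo J w).prod * (((mi J w).take m).prod * ((mi J w).drop m).prod) *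
          (hi (J + 1) w).prod := by rw [h3, h2]
      _ = _ := by ring
  have key3 : ∀ (w m : ℕ),
      (((mi J w).drop m).prod * (hi (J + 1) w).prod).Coprime (PP J) := by
    intro w m
    refine Nat.Coprime.mul_left (coprime_list (fun x hx => mi_prime (List.mem_of_mem_drop hx))
      (fun x hx => mi_not_lt (List.mem_of_mem_drop hx))) (coprime_list (fun _ => hi_prime)
      (fun x hx => ?_))
    have := hi_not_lt hx
    have h2 := pow_mono J
    omega
  set n1 := min n (mi J u).length with hn1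
  refine ⟨n1, by rw [mem_range]; omega, _, key u n1 (by omega) (by omega),
    _, key v (n - n1) (by omega) (by omega), ?_⟩
  exact ⟨u, v, (lo J u).prod, (lo J v).prod, _, _, h.hu, h.hv, h.hup, h.hvp, h.hN, h.hmod, h.hα,
    h.hβ, key2 u n1 (by have := h.hu; omega), key2 v (n - n1) (by have := h.hv; omega), rfl,
    Nat.Coprime.mul_left (key3 _ _) (key3 _ _)⟩

theorem rep_big {p α β u v N : ℕ} (h : PairD p α β u v N) (J Q : ℕ) (hQ : 1 ≤ Q)
    (hA : Q < sA J u v) :
    ∃ a, Q < a ∧ a ≤ Q * 2 ^ 2 ^ J ∧ Smo J a ∧ Rep p 0 α β a 1 1 N := by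
  have hpr : ∀ x ∈ lo J u ++ lo J v, x.Prime := by
    intro x hx
    rcases List.mem_append.1 hx with hx | hx <;> exact lo_prime hx
  have hlt : ∀ x ∈ lo J u ++ lo J v, x < 2 ^ 2 ^ J := by
    intro x hx
    rcases List.mem_append.1 hx with hx | hx <;> exact lo_lt hx
  obtain ⟨t, ht1, ht2⟩ := prefix_exists (Q := Q) (z := 2 ^ 2 ^ J) (lo J u ++ lo J v)
    (fun x hx => (hlt x hx).le) hQ (by rw [List.prod_append]; exact hA)
  refine ⟨_, ht1, ht2, smo_list (fun x hx => hpr x (List.mem_of_mem_take hx))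
    (fun x hx => hlt x (List.mem_of_mem_take hx)), ?_⟩
  rw [List.take_append, List.prod_append]
  refine ⟨u, v, ((lo J u).take t).prod, ((lo J v).take (t - (lo J u).length)).prod,
    ((lo J u).drop t).prod * (hi J u).prod,
    ((lo J v).drop (t - (lo J u).length)).prod * (hi J v).prod, h.hu, h.hv, h.hup,
    h.hvp, h.hN, h.hmod, h.hα, h.hβ, ?_, ?_, rfl, ?_⟩
  · rw [mul_one, ← mul_assoc, take_mul_drop]; exact (lo_mul_hi J (by have := h.hu; omega)).symm
  · rw [mul_one, ← mul_assoc, take_mul_drop]; exact (lo_mul_hi J (by have := h.hv; omega)).symm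
  · have : PP 0 = 1 := by
      rw [PP]
      refine prod_eq_one (fun l hl => ?_)
      rw [mem_filter, mem_range] at hl
      have := hl.2.two_le
      have h2 := hl.1
      norm_num at h2
      omega
    rw [this]; exact Nat.coprime_one_right _

/-- the four cases -/
theorem decomp {p α β u v N : ℕ} (h : PairD p α β u v N) (w b I : ℕ) (hI : b + 1 + I ≤ w) :
    (∃ a, 1 ≤ a ∧ a ≤ 2 ^ 2 ^ (w + 1) ∧ Smo (w - b) a ∧ Rep p (w - b) α β a 1 1 N) ∨
    (∃ i ∈ Icc 1 I, ∃ a, 2 ^ 2 ^ w < a ∧ a ≤ 2 ^ 2 ^ (w + 1) ∧ Smo (w - b - i) a ∧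
      Rep p (w - b - i) α β a 1 1 N) ∨
    (∃ i ∈ Icc 1 I, ∃ a, 1 ≤ a ∧ a ≤ 2 ^ 2 ^ w ∧ Smo (w - b - i) a ∧
      ∃ n1 ∈ range (2 ^ (b + i - 1) + 1), ∃ g1 ∈ GS (w - b - i + 1) n1 (2 ^ 2 ^ w),
      ∃ g2 ∈ GS (w - b - i + 1) (2 ^ (b + i - 1) - n1) (2 ^ 2 ^ w),
        Rep p (w - b - i) α β a g1 g2 N) ∨
    (∃ a, 2 ^ 2 ^ (w + 1) < a ∧ a ≤ 2 ^ 2 ^ (w + 2) ∧ Smo (w - b - I) a ∧
      Rep p 0 α β a 1 1 N) := by
  classical
  by_cases hex : ∃ i, i ≤ I ∧ sA (w - b - i) u v ≤ 2 ^ 2 ^ (w + 1)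
  · have hmin := fun (m : ℕ) (hm : m < Nat.find hex) => Nat.find_min hex hm
    obtain ⟨hi1, hi2⟩ := Nat.find_spec hex
    set i := Nat.find hex with hi
    rcases Nat.eq_zero_or_pos i with h0 | h0
    · left
      rw [h0] at hi2
      exact ⟨_, sA_pos _ u v, hi2, sA_smo _ u v, rep_basic h _⟩
    · right
      have hprev := hmin (i - 1) (by omega)
      push Not at hprev
      have hprev2 := hprev (by omega)
      rcases lt_or_ge (2 ^ 2 ^ w) (sA (w - b - i) u v) with h1 | h1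
      · left
        exact ⟨i, mem_Icc.2 ⟨h0, hi1⟩, _, h1, hi2, sA_smo _ u v, rep_basic h _⟩
      · right; left
        set J := w - b - i with hJ
        have hJ1 : w - b - (i - 1) = J + 1 := by omega
        rw [hJ1] at hprev2
        have h2 : sA (J + 1) u v = sA J u v * ((mi J u).prod * (mi J v).prod) := by
          rw [sA, sA, ← lo_mul_mi, ← lo_mul_mi]; ring
        have h3 : 2 ^ 2 ^ w < (mi J u).prod * (mi J v).prod := by
          by_contra hcon
          push Not at hcon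
          have : sA (J + 1) u v ≤ 2 ^ 2 ^ w * 2 ^ 2 ^ w := by
            rw [h2]; exact Nat.mul_le_mul h1 hcon
          have h4 : 2 ^ 2 ^ w * 2 ^ 2 ^ w = 2 ^ 2 ^ (w + 1) := by
            rw [← pow_add]; congr 1; ring
          omega
        have h5 : (mi J u).prod * (mi J v).prod ≤
            (2 ^ 2 ^ (J + 1)) ^ ((mi J u).length + (mi J v).length) := by
          rw [pow_add]
          exact Nat.mul_le_mul (list_prod_le (fun x hx => (mi_lt hx).le))
            (list_prod_le (fun x hx => (mi_lt hx).le))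
        have h6 : 2 ^ w < 2 ^ (J + 1) * ((mi J u).length + (mi J v).length) := by
          have := lt_of_lt_of_le h3 h5
          rw [← pow_mul] at this
          exact (Nat.pow_lt_pow_iff_right (by norm_num)).1 this
        have h7 : w = J + 1 + (b + i - 1) := by omega
        have h8 : 2 ^ (b + i - 1) ≤ (mi J u).length + (mi J v).length := by
          have h9 : 2 ^ (J + 1) * 2 ^ (b + i - 1) <
              2 ^ (J + 1) * ((mi J u).length + (mi J v).length) := by
            rw [← pow_add, ← h7]; exact h6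
          exact (lt_of_mul_lt_mul_left h9 (Nat.zero_le _)).le
        obtain ⟨n1, hn1, g1, hg1, g2, hg2, hR⟩ := rep_group h J _ h8
        have h10 : (2 ^ 2 ^ (J + 1)) ^ 2 ^ (b + i - 1) = 2 ^ 2 ^ w := by
          rw [← pow_mul, ← pow_add, ← h7]
        rw [h10] at hg1 hg2
        exact ⟨i, mem_Icc.2 ⟨h0, hi1⟩, _, sA_pos _ u v, h1, sA_smo _ u v, n1, hn1, g1, hg1, g2,
          hg2, hR⟩
  · push Not at hex
    right; right; right
    obtain ⟨a, ha1, ha2, ha3, ha4⟩ := rep_big h (w - b - I) (2 ^ 2 ^ (w + 1)) Nat.one_le_two_pow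
      (hex I le_rfl)
    refine ⟨a, ha1, ha2.trans ?_, ha3, ha4⟩
    rw [← pow_add]
    refine Nat.pow_le_pow_right (by norm_num) ?_
    have h1 : 2 ^ (w - b - I) ≤ 2 ^ (w + 1) := Nat.pow_le_pow_right (by norm_num) (by omega)
    have h2 : 2 ^ (w + 2) = 2 ^ (w + 1) + 2 ^ (w + 1) := by ring
    omega

end Pool.Agent.Helper112.LP
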