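import Pool.Agent.Helper112.Lp.Defs
import Pool.Agent.Helper112.Lp.Kmg
import Pool.Agent.Helper112.Lp.UA2

open Finset

namespace Pool.Agent.Helper112.LP

/-- the function `A^Ω(g) / g` -/
noncomputable def fA (A : ℝ) (g : ℕ) : ℝ := A ^ g.primeFactorsList.length / g

theorem fA_mul {A : ℝ} {q : ℕ} (hq : q.Prime) (k : ℕ) {g : ℕ} (hg : g ≠ 0) :
    fA A (q ^ k * g) = (A / q) ^ k * fA A g := by
  have h1 : (q ^ k * g).primeFactorsList.length = k + g.primeFactorsList.length := by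
    rw [(Nat.perm_primeFactorsList_mul (pow_ne_zero k hq.ne_zero) hg).length_eq,
      List.length_append, hq.primeFactorsList_pow, List.length_replicate]
  rw [fA, fA, h1, pow_add, div_pow]
  push_cast
  have : (q : ℝ) ≠ 0 := by exact_mod_cast hq.ne_zero
  have : (g : ℝ) ≠ 0 := by exact_mod_cast hg
  field_simp

theorem euler_bound (A : ℝ) (hA : 0 < A) (X : ℕ) (G : Finset ℕ) (hG : ∀ l ∈ G, l.Prime)
    (hG2 : ∀ l ∈ G, 2 * A ≤ l) :
    ∑ g ∈ (Icc 1 X).filter (fun g => ∀ l ∈ g.primeFactors, l ∈ G), fA A g ≤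
      Real.exp (2 * A * ∑ l ∈ G, (1 : ℝ) / l) := by
  classical
  induction G using Finset.induction_on with
  | empty =>
    have h1 : (Icc 1 X).filter (fun g => ∀ l ∈ g.primeFactors, l ∈ (∅ : Finset ℕ)) ⊆ {1} := by
      intro g hg
      rw [mem_filter, mem_Icc] at hg
      rw [mem_singleton]
      by_contra hne
      obtain ⟨q, hq, hqg⟩ := Nat.exists_prime_and_dvd hne
      exact absurd (hg.2 q (Nat.mem_primeFactors.2 ⟨hq, hqg, by omega⟩)) (notMem_empty q)
    refine (sum_le_sum_of_subset_of_nonneg h1 (fun g _ _ => by rw [fA]; positivity)).trans ?_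
    simp [fA]
  | insert q G hq ih =>
    have hqp : q.Prime := hG q (mem_insert_self q G)
    have hq2 : 2 * A ≤ q := hG2 q (mem_insert_self q G)
    have ih' := ih (fun l hl => hG l (mem_insert_of_mem hl)) (fun l hl => hG2 l (mem_insert_of_mem hl))
    have hqpos : (0 : ℝ) < q := by exact_mod_cast hqp.pos
    set x : ℝ := A / q with hx
    have hx0 : 0 ≤ x := by positivity
    have hx1 : x ≤ 1 / 2 := by rw [hx, div_le_iff₀ hqpos]; linarith
    set F := (Icc 1 X).filter (fun g => ∀ l ∈ g.primeFactors, l ∈ G) with hF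
    have hsub : (Icc 1 X).filter (fun g => ∀ l ∈ g.primeFactors, l ∈ insert q G) ⊆
        (range (X + 1) ×ˢ F).image (fun kg => q ^ kg.1 * kg.2) := by
      intro g hg
      rw [mem_filter, mem_Icc] at hg
      have hg0 : g ≠ 0 := by omega
      rw [mem_image]
      refine ⟨(g.factorization q, g / q ^ g.factorization q), ?_, Nat.ordProj_mul_ordCompl_eq_self g q⟩
      rw [mem_product, mem_range, hF, mem_filter, mem_Icc]
      refine ⟨?_, ⟨?_, ?_⟩, ?_⟩
      · have h1 : g.factorization q < g := Nat.factorization_lt q hg0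
        simp only; omega
      · exact Nat.ordCompl_pos q hg0
      · exact (Nat.ordCompl_le g q).trans hg.1.2
      · intro l hl
        have hl' := Nat.mem_primeFactors.1 hl
        have hlg : l ∈ insert q G := hg.2 l (Nat.mem_primeFactors.2
          ⟨hl'.1, hl'.2.1.trans (Nat.ordCompl_dvd g q), hg0⟩)
        rcases mem_insert.1 hlg with rfl | h
        · exact absurd hl'.2.1 (Nat.not_dvd_ordCompl hqp hg0)
        · exact h
    have hnn : ∀ g, 0 ≤ fA A g := fun g => by rw [fA]; positivity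
    calc ∑ g ∈ (Icc 1 X).filter (fun g => ∀ l ∈ g.primeFactors, l ∈ insert q G), fA A g
        ≤ ∑ g ∈ (range (X + 1) ×ˢ F).image (fun kg => q ^ kg.1 * kg.2), fA A g :=
          sum_le_sum_of_subset_of_nonneg hsub (fun g _ _ => hnn g)
      _ ≤ ∑ kg ∈ range (X + 1) ×ˢ F, fA A (q ^ kg.1 * kg.2) :=
          sum_image_le_of_nonneg (fun kg _ => hnn _)
      _ = ∑ kg ∈ range (X + 1) ×ˢ F, x ^ kg.1 * fA A kg.2 := by
          refine sum_congr rfl (fun kg hkg => ?_)
          rw [mem_product, hF, mem_filter, mem_Icc] at hkg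
          exact fA_mul hqp _ (by omega)
      _ = (∑ k ∈ range (X + 1), x ^ k) * ∑ g ∈ F, fA A g := by
          rw [sum_mul_sum, sum_product]
      _ ≤ Real.exp (2 * x) * Real.exp (2 * A * ∑ l ∈ G, (1 : ℝ) / l) := by
          refine mul_le_mul ?_ ih' (sum_nonneg (fun g _ => hnn g)) (Real.exp_pos _).le
          have h1 : ∑ k ∈ range (X + 1), x ^ k ≤ (1 - x)⁻¹ := by
            have h2 := geom_sum_eq (show x ≠ 1 by linarith) (X + 1)
            rw [h2]
            have h3 : (0 : ℝ) < 1 - x := by linarith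
            have h4 : (x ^ (X + 1) - 1) / (x - 1) = (1 - x ^ (X + 1)) / (1 - x) := by
              rw [← neg_sub 1 (x ^ (X + 1)), ← neg_sub 1 x, neg_div_neg_eq]
            rw [h4, inv_eq_one_div]
            exact div_le_div_of_nonneg_right (by linarith [pow_nonneg hx0 (X + 1)]) h3.le
          refine h1.trans ?_
          have h5 : (1 - x)⁻¹ ≤ 1 + 2 * x := by
            rw [inv_le_iff_one_le_mul₀ (by linarith)]
            nlinarith
          refine h5.trans ?_
          linarith [Real.add_one_le_exp (2 * x)]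
      _ = Real.exp (2 * A * ∑ l ∈ insert q G, (1 : ℝ) / l) := by
          rw [← Real.exp_add, sum_insert hq]
          congr 1
          rw [hx]; ring


/-- products of `n` primes of a high group -/
theorem gs_bound : ∃ E : ℝ, 0 < E ∧ ∀ J n X : ℕ, 3 ≤ J →
    ∑ g ∈ GS J n X, (1 : ℝ) / g ≤ E * (1 / 8) ^ n := by
  obtain ⟨C, hC, H⟩ := mertens_group
  refine ⟨Real.exp (2 * 8 * (Real.log 2 + C)), Real.exp_pos _, ?_⟩
  intro J n X hJ
  have hG : ∀ l ∈ Gj J, l.Prime := fun l hl => by rw [Gj, mem_filter] at hl; exact hl.2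
  have hG2 : ∀ l ∈ Gj J, 2 * (8 : ℝ) ≤ l := by
    intro l hl
    rw [Gj, mem_filter, mem_Ico] at hl
    have h1 : 2 ^ 2 ^ 2 ≤ 2 ^ 2 ^ (J - 1) :=
      Nat.pow_le_pow_right (by norm_num) (Nat.pow_le_pow_right (by norm_num) (by omega))
    have h2 : 16 ≤ l := by
      calc 16 = 2 ^ 2 ^ 2 := by norm_num
        _ ≤ _ := h1
        _ ≤ l := hl.1.1
    have : (16 : ℝ) ≤ l := by exact_mod_cast h2
    linarith
  have h1 := euler_bound 8 (by norm_num) X (Gj J) hG hG2
  have h2 : ∑ l ∈ Gj J, (1 : ℝ) / l ≤ Real.log 2 + C := by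
    have h3 := (abs_le.1 (H J (by omega))).2
    have h4 : C / 2 ^ J ≤ C := div_le_self hC.le (one_le_pow₀ (by norm_num))
    linarith
  calc ∑ g ∈ GS J n X, (1 : ℝ) / g = (1 / 8) ^ n * ∑ g ∈ GS J n X, fA 8 g := by
        rw [mul_sum]
        refine sum_congr rfl (fun g hg => ?_)
        rw [GS, mem_filter] at hg
        rw [fA, hg.2.1, one_div_pow]
        field_simp
    _ ≤ (1 / 8) ^ n * ∑ g ∈ (Icc 1 X).filter (fun g => ∀ l ∈ g.primeFactors, l ∈ Gj J), fA 8 g := by
        refine mul_le_mul_of_nonneg_left ?_ (by positivity)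
        refine sum_le_sum_of_subset_of_nonneg ?_ (fun g _ _ => by rw [fA]; positivity)
        intro g hg
        rw [GS, mem_filter] at hg
        rw [mem_filter]
        exact ⟨hg.1, hg.2.2⟩
    _ ≤ (1 / 8) ^ n * Real.exp (2 * 8 * (Real.log 2 + C)) := by
        refine mul_le_mul_of_nonneg_left (h1.trans ?_) (by positivity)
        rw [Real.exp_le_exp]
        exact mul_le_mul_of_nonneg_left h2 (by norm_num)
    _ = _ := by ring

theorem gs_pair : ∃ E : ℝ, 0 < E ∧ ∀ J n X : ℕ, 3 ≤ J →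
    ∑ n1 ∈ range (n + 1), ∑ g1 ∈ GS J n1 X, ∑ g2 ∈ GS J (n - n1) X, (1 : ℝ) / (g1 * g2) ≤
      E * (1 / 4) ^ n := by
  obtain ⟨E, hE, H⟩ := gs_bound
  refine ⟨E ^ 2, by positivity, ?_⟩
  intro J n X hJ
  have h1 : ∀ n1 ∈ range (n + 1), ∑ g1 ∈ GS J n1 X, ∑ g2 ∈ GS J (n - n1) X,
      (1 : ℝ) / (g1 * g2) ≤ E ^ 2 * (1 / 8) ^ n := by
    intro n1 hn1
    rw [mem_range] at hn1
    have h2 : ∑ g1 ∈ GS J n1 X, ∑ g2 ∈ GS J (n - n1) X, (1 : ℝ) / (g1 * g2) =
        (∑ g1 ∈ GS J n1 X, (1 : ℝ) / g1) * ∑ g2 ∈ GS J (n - n1) X, (1 : ℝ) / g2 := by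
      rw [sum_mul_sum]
      refine sum_congr rfl (fun a _ => sum_congr rfl (fun b _ => ?_))
      rw [one_div_mul_one_div]
    rw [h2]
    calc _ ≤ (E * (1 / 8) ^ n1) * (E * (1 / 8) ^ (n - n1)) :=
          mul_le_mul (H J n1 X hJ) (H J (n - n1) X hJ)
            (sum_nonneg (fun g _ => by positivity)) (by positivity)
      _ = E ^ 2 * (1 / 8) ^ n := by
          have : (1 / 8 : ℝ) ^ n = (1 / 8) ^ n1 * (1 / 8) ^ (n - n1) := by
            rw [← pow_add]; congr 1; omega
          rw [this]; ring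
  refine (sum_le_card_nsmul _ _ _ h1).trans ?_
  rw [card_range, nsmul_eq_mul]
  have h3 : ((n + 1 : ℕ) : ℝ) ≤ 2 ^ n := by
    exact_mod_cast Nat.lt_two_pow_self
  calc ((n + 1 : ℕ) : ℝ) * (E ^ 2 * (1 / 8) ^ n) ≤ 2 ^ n * (E ^ 2 * (1 / 8) ^ n) :=
        mul_le_mul_of_nonneg_right h3 (by positivity)
    _ = E ^ 2 * (1 / 4) ^ n := by
        have : (1 / 4 : ℝ) ^ n = 2 ^ n * (1 / 8) ^ n := by
          rw [← mul_pow]; norm_num
        rw [this]; ring

end Pool.Agent.Helper112.LP
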