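import Pool.Agent.Helper112.Lp.Defs
import Pool.Agent.Helper112.Lp.Kfu
import Pool.Agent.Helper112.Lp.UA1
import Pool.Agent.Helper112.Lp.UA2
import Pool.Agent.Helper112.Lp.UA3

open Finset

namespace Pool.Agent.Helper112.LP

theorem union_bound {ι : Type} (S : Finset ι) (P : ι → ℕ → Prop) (B : ι → ℝ)
    (hB : ∀ i ∈ S, ∀ F' : Finset ℕ, (∀ N ∈ F', P i N) → (F'.card : ℝ) ≤ B i)
    (F : Finset ℕ) (hF : ∀ N ∈ F, ∃ i ∈ S, P i N) : (F.card : ℝ) ≤ ∑ i ∈ S, B i := by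
  classical
  have hsub : F ⊆ S.biUnion (fun i => F.filter (P i)) := by
    intro N hN
    obtain ⟨i, hi, hP⟩ := hF N hN
    exact mem_biUnion.2 ⟨i, hi, mem_filter.2 ⟨hN, hP⟩⟩
  calc (F.card : ℝ) ≤ ((S.biUnion (fun i => F.filter (P i))).card : ℝ) := by
        exact_mod_cast card_le_card hsub
    _ ≤ ∑ i ∈ S, ((F.filter (P i)).card : ℝ) := by exact_mod_cast card_biUnion_le
    _ ≤ ∑ i ∈ S, B i := sum_le_sum (fun i hi => hB i hi _ (fun N hN => (mem_filter.1 hN).2))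

theorem ell_le {a : ℕ} (ha : 1 ≤ a) : ell a ≤ a := by
  have h1 : a.divisors.image (Nat.log 2) ⊆ range (Nat.log 2 a + 1) := by
    intro k hk
    obtain ⟨d, hd, rfl⟩ := mem_image.1 hk
    rw [mem_range]
    exact Nat.lt_succ_of_le (Nat.log_mono_right (Nat.divisor_le hd))
  have h2 := card_le_card h1
  rw [card_range] at h2
  rw [ell]
  have h3 : Nat.log 2 a < a := Nat.log_lt_self 2 (by omega)
  omega

theorem sum_ell_le (X : ℕ) (S : Finset ℕ) (hS : S ⊆ Icc 1 X) :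
    ∑ a ∈ S, (ell a : ℝ) ≤ (X : ℝ) ^ 2 := by
  calc ∑ a ∈ S, (ell a : ℝ) ≤ ∑ a ∈ Icc 1 X, (ell a : ℝ) :=
        sum_le_sum_of_subset_of_nonneg hS (fun _ _ _ => Nat.cast_nonneg _)
    _ ≤ ∑ a ∈ Icc 1 X, (X : ℝ) := by
        refine sum_le_sum (fun a ha => ?_)
        rw [mem_Icc] at ha
        exact_mod_cast (ell_le ha.1).trans ha.2
    _ = (X : ℝ) ^ 2 := by rw [sum_const, Nat.card_Icc, nsmul_eq_mul]; simp; ring

/-- the order of magnitude function -/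
noncomputable def GF (J : ℕ) : ℝ := (Real.exp 1 * Real.log 2 / 2) ^ J / (J * Real.sqrt J)

theorem GF_eq (J : ℕ) :
    (2 * Real.exp 1 * Real.log 2) ^ J / (J * Real.sqrt J) = 4 ^ J * GF J := by
  rw [GF, ← mul_div_assoc, ← mul_pow]
  congr 2
  ring

theorem GF_nonneg (J : ℕ) : 0 ≤ GF J := by
  rw [GF]
  have : 0 < Real.log 2 := Real.log_pos (by norm_num)
  positivity

/-- bound for cases without the group divisor -/
theorem caseAB : ∃ (K : ℕ) (C : ℝ), 0 < C ∧ ∀ p : ℕ, p.Prime → ∀ J : ℕ,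
    (2 ^ 2 ^ J) ^ K ≤ p → ∀ α β X : ℕ, ∀ S : Finset ℕ, S ⊆ Icc 1 X →
    ∀ F : Finset ℕ, (∀ N ∈ F, ∃ a ∈ S, Rep p J α β a 1 1 N) →
    (F.card : ℝ) ≤ C * (2 ^ (α + β) / p) * ((∑ a ∈ S, (ell a : ℝ) / a) / 4 ^ J) +
      C * (X : ℝ) ^ 2 * (p : ℝ) ^ (9 / 10 : ℝ) := by
  obtain ⟨K, C, hC, H⟩ := count_rep
  refine ⟨K, C, hC, ?_⟩
  intro p hp J hJ α β X S hS F hF
  have hpos : (0 : ℝ) < p := by exact_mod_cast hp.pos
  have h1 := union_bound S (fun a N => Rep p J α β a 1 1 N)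
    (fun a => ell a * (C * (2 ^ (α + β) / (a * (1 : ℕ) * (1 : ℕ) * p * 4 ^ J)) +
      C * (p : ℝ) ^ (9 / 10 : ℝ)))
    (fun a ha F' hF' => H p hp J hJ α β a 1 1 (mem_Icc.1 (hS ha)).1 le_rfl le_rfl F' hF') F hF
  refine h1.trans ?_
  have h2 : ∀ a ∈ S, (ell a : ℝ) * (C * (2 ^ (α + β) / (a * (1 : ℕ) * (1 : ℕ) * p * 4 ^ J)) +
      C * (p : ℝ) ^ (9 / 10 : ℝ)) =
      C * (2 ^ (α + β) / p) / 4 ^ J * ((ell a : ℝ) / a) + C * (p : ℝ) ^ (9 / 10 : ℝ) * ell a := by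
    intro a ha
    have : (a : ℝ) ≠ 0 := by have := (mem_Icc.1 (hS ha)).1; positivity
    push_cast
    field_simp
  rw [sum_congr rfl h2, sum_add_distrib, ← mul_sum, ← mul_sum]
  have h3 := sum_ell_le X S hS
  have h4 : (0 : ℝ) ≤ C * (p : ℝ) ^ (9 / 10 : ℝ) := by positivity
  have h5 := mul_le_mul_of_nonneg_left h3 h4
  have h6 : C * (2 ^ (α + β) / p) / 4 ^ J * ∑ a ∈ S, (ell a : ℝ) / a =
      C * (2 ^ (α + β) / p) * ((∑ a ∈ S, (ell a : ℝ) / a) / 4 ^ J) := by ring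
  rw [h6]
  linarith

theorem caseC : ∃ (K : ℕ) (C : ℝ), 0 < C ∧ ∀ p : ℕ, p.Prime → ∀ J : ℕ, 2 ≤ J →
    (2 ^ 2 ^ J) ^ K ≤ p → ∀ α β X n : ℕ, n + 1 ≤ X → ∀ S : Finset ℕ, S ⊆ Icc 1 X →
    ∀ F : Finset ℕ, (∀ N ∈ F, ∃ a ∈ S, ∃ n1 ∈ range (n + 1), ∃ g1 ∈ GS (J + 1) n1 X,
      ∃ g2 ∈ GS (J + 1) (n - n1) X, Rep p J α β a g1 g2 N) →
    (F.card : ℝ) ≤ C * (2 ^ (α + β) / p) * ((∑ a ∈ S, (ell a : ℝ) / a) / 4 ^ J * (1 / 4) ^ n) +
      C * (X : ℝ) ^ 5 * (p : ℝ) ^ (9 / 10 : ℝ) := by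
  obtain ⟨K, C, hC, H⟩ := count_rep
  obtain ⟨E, hE, HE⟩ := gs_pair
  refine ⟨K, C * E + C, by positivity, ?_⟩
  intro p hp J hJ2 hJ α β X n hn S hS F hF
  have hpos : (0 : ℝ) < p := by exact_mod_cast hp.pos
  have h1 := union_bound S (fun a N => ∃ n1 ∈ range (n + 1), ∃ g1 ∈ GS (J + 1) n1 X,
      ∃ g2 ∈ GS (J + 1) (n - n1) X, Rep p J α β a g1 g2 N)
    (fun a => ∑ n1 ∈ range (n + 1), ∑ g1 ∈ GS (J + 1) n1 X, ∑ g2 ∈ GS (J + 1) (n - n1) X,
      ell a * (C * (2 ^ (α + β) / (a * g1 * g2 * p * 4 ^ J)) + C * (p : ℝ) ^ (9 / 10 : ℝ)))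
    (fun a ha F1 hF1 => union_bound (range (n + 1)) (fun n1 N => ∃ g1 ∈ GS (J + 1) n1 X,
      ∃ g2 ∈ GS (J + 1) (n - n1) X, Rep p J α β a g1 g2 N) _
      (fun n1 _ F2 hF2 => union_bound (GS (J + 1) n1 X) (fun g1 N => 
        ∃ g2 ∈ GS (J + 1) (n - n1) X, Rep p J α β a g1 g2 N) _
        (fun g1 hg1 F3 hF3 => union_bound (GS (J + 1) (n - n1) X) (fun g2 N => 
          Rep p J α β a g1 g2 N) _
          (fun g2 hg2 F4 hF4 => H p hp J hJ α β a g1 g2 (mem_Icc.1 (hS ha)).1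
            (mem_Icc.1 (mem_filter.1 hg1).1).1 (mem_Icc.1 (mem_filter.1 hg2).1).1 F4 hF4)
          F3 hF3) F2 hF2) F1 hF1) F hF
  refine h1.trans ?_
  -- rewrite each term
  have hcard : ∀ m, ((GS (J + 1) m X).card : ℝ) ≤ X := by
    intro m
    have : (GS (J + 1) m X).card ≤ X := by
      refine (card_filter_le _ _).trans ?_
      rw [Nat.card_Icc]; omega
    exact_mod_cast this
  have hP9 : (0 : ℝ) ≤ C * (p : ℝ) ^ (9 / 10 : ℝ) := by positivity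
  have h2 : ∀ a ∈ S, ∑ n1 ∈ range (n + 1), ∑ g1 ∈ GS (J + 1) n1 X, ∑ g2 ∈ GS (J + 1) (n - n1) X,
      (ell a : ℝ) * (C * (2 ^ (α + β) / (a * g1 * g2 * p * 4 ^ J)) + C * (p : ℝ) ^ (9 / 10 : ℝ)) ≤
      C * (2 ^ (α + β) / p) / 4 ^ J * (E * (1 / 4) ^ n) * ((ell a : ℝ) / a) +
        (C * (p : ℝ) ^ (9 / 10 : ℝ)) * (X : ℝ) ^ 3 * ell a := by
    intro a ha
    have hane : (a : ℝ) ≠ 0 := by have := (mem_Icc.1 (hS ha)).1; positivity
    have h3 : ∀ n1 ∈ range (n + 1), ∑ g1 ∈ GS (J + 1) n1 X, ∑ g2 ∈ GS (J + 1) (n - n1) X,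
        (ell a : ℝ) * (C * (2 ^ (α + β) / (a * g1 * g2 * p * 4 ^ J)) + C * (p : ℝ) ^ (9 / 10 : ℝ)) =
        C * (2 ^ (α + β) / p) / 4 ^ J * ((ell a : ℝ) / a) *
          (∑ g1 ∈ GS (J + 1) n1 X, ∑ g2 ∈ GS (J + 1) (n - n1) X, (1 : ℝ) / (g1 * g2)) +
        (C * (p : ℝ) ^ (9 / 10 : ℝ)) * ell a * (((GS (J + 1) n1 X).card : ℝ) *
          ((GS (J + 1) (n - n1) X).card : ℝ)) := by
      intro n1 _
      rw [mul_sum]
      have h4 : (C * (p : ℝ) ^ (9 / 10 : ℝ)) * ell a * (((GS (J + 1) n1 X).card : ℝ) *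
          ((GS (J + 1) (n - n1) X).card : ℝ)) = ∑ g1 ∈ GS (J + 1) n1 X,
            ∑ g2 ∈ GS (J + 1) (n - n1) X, (C * (p : ℝ) ^ (9 / 10 : ℝ)) * ell a := by
        rw [sum_const, sum_const, nsmul_eq_mul, nsmul_eq_mul]; ring
      rw [h4, ← sum_add_distrib]
      refine sum_congr rfl (fun g1 hg1 => ?_)
      rw [mul_sum, ← sum_add_distrib]
      refine sum_congr rfl (fun g2 hg2 => ?_)
      have hg1ne : (g1 : ℝ) ≠ 0 := by
        have := (mem_Icc.1 (mem_filter.1 hg1).1).1; positivity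
      have hg2ne : (g2 : ℝ) ≠ 0 := by
        have := (mem_Icc.1 (mem_filter.1 hg2).1).1; positivity
      field_simp
    rw [sum_congr rfl h3, sum_add_distrib, ← mul_sum, ← mul_sum]
    have h5 := HE (J + 1) n X (by omega)
    have h6 : ∑ n1 ∈ range (n + 1), (((GS (J + 1) n1 X).card : ℝ) *
        ((GS (J + 1) (n - n1) X).card : ℝ)) ≤ (X : ℝ) ^ 3 := by
      calc _ ≤ ∑ n1 ∈ range (n + 1), (X : ℝ) * X :=
            sum_le_sum (fun m _ => mul_le_mul (hcard _) (hcard _) (Nat.cast_nonneg _)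
              (Nat.cast_nonneg _))
        _ = ((n + 1 : ℕ) : ℝ) * (X * X) := by rw [sum_const, card_range, nsmul_eq_mul]
        _ ≤ X * (X * X) := by
            refine mul_le_mul_of_nonneg_right (by exact_mod_cast hn) (by positivity)
        _ = _ := by ring
    have h7 : (0 : ℝ) ≤ C * (2 ^ (α + β) / p) / 4 ^ J * ((ell a : ℝ) / a) := by positivity
    have h8 : (0 : ℝ) ≤ C * (p : ℝ) ^ (9 / 10 : ℝ) * ell a := by positivity
    have h9 := mul_le_mul_of_nonneg_left h5 h7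
    have h10 := mul_le_mul_of_nonneg_left h6 h8
    calc _ ≤ C * (2 ^ (α + β) / p) / 4 ^ J * ((ell a : ℝ) / a) * (E * (1 / 4) ^ n) +
          C * (p : ℝ) ^ (9 / 10 : ℝ) * ell a * (X : ℝ) ^ 3 := add_le_add h9 h10
      _ = _ := by ring
  refine (sum_le_sum h2).trans ?_
  rw [sum_add_distrib, ← mul_sum, ← mul_sum]
  have h11 := sum_ell_le X S hS
  have h12 : (0 : ℝ) ≤ (C * (p : ℝ) ^ (9 / 10 : ℝ)) * (X : ℝ) ^ 3 := by positivity
  have h13 := mul_le_mul_of_nonneg_left h11 h12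
  have h14 : (0 : ℝ) ≤ ∑ a ∈ S, (ell a : ℝ) / a := sum_nonneg (fun a _ => by positivity)
  have h15 : (0 : ℝ) ≤ C * (2 ^ (α + β) / p) * ((∑ a ∈ S, (ell a : ℝ) / a) / 4 ^ J * (1 / 4) ^ n) := by
    positivity
  have h16 : (0 : ℝ) ≤ E * C * (X : ℝ) ^ 5 * (p : ℝ) ^ (9 / 10 : ℝ) := by positivity
  calc _ ≤ C * (2 ^ (α + β) / p) / 4 ^ J * (E * (1 / 4) ^ n) * (∑ a ∈ S, (ell a : ℝ) / a) +
        (C * (p : ℝ) ^ (9 / 10 : ℝ)) * (X : ℝ) ^ 3 * (X : ℝ) ^ 2 := by linarith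
    _ = C * E * (2 ^ (α + β) / p) * ((∑ a ∈ S, (ell a : ℝ) / a) / 4 ^ J * (1 / 4) ^ n) +
        C * (X : ℝ) ^ 5 * (p : ℝ) ^ (9 / 10 : ℝ) := by ring
    _ ≤ _ := by nlinarith

theorem rpow_small {w J i : ℕ} (h : J + 3 + i ≤ w) :
    (((2 ^ 2 ^ w : ℕ) : ℝ)) ^ (-(1 : ℝ) / 2 ^ (J + 3)) ≤ (1 / 2) ^ (2 ^ i) := by
  have h1 : (((2 ^ 2 ^ w : ℕ) : ℝ)) = (2 : ℝ) ^ (((2 ^ w : ℕ) : ℝ)) := by
    rw [Real.rpow_natCast]; push_cast; rfl
  have h2 : ((1 : ℝ) / 2) ^ (2 ^ i) = (2 : ℝ) ^ (-(((2 ^ i : ℕ)) : ℝ)) := by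
    rw [Real.rpow_neg (by norm_num), Real.rpow_natCast, one_div, inv_pow]
  rw [h1, h2, ← Real.rpow_mul (by norm_num)]
  refine Real.rpow_le_rpow_of_exponent_le (by norm_num) ?_
  obtain ⟨t, ht⟩ := Nat.exists_eq_add_of_le h
  have h3 : (((2 ^ w : ℕ)) : ℝ) = 2 ^ (J + 3) * (2 ^ i * 2 ^ t) := by
    rw [ht]; push_cast; ring
  rw [h3]
  have h4 : (2 : ℝ) ^ (J + 3) * (2 ^ i * 2 ^ t) * (-1 / 2 ^ (J + 3)) = -(2 ^ i * 2 ^ t) := by
    field_simp
  rw [h4]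
  push_cast
  have h5 : (1 : ℝ) ≤ 2 ^ t := one_le_pow₀ (by norm_num)
  have h6 : (0 : ℝ) < 2 ^ i := by positivity
  nlinarith

/-- filter by an arbitrary predicate -/
noncomputable def fl (F : Finset ℕ) (P : ℕ → Prop) : Finset ℕ :=
  @Finset.filter ℕ P (fun _ => Classical.propDecidable _) F

theorem mem_fl {F : Finset ℕ} {P : ℕ → Prop} {N : ℕ} : N ∈ fl F P ↔ N ∈ F ∧ P N := by
  unfold fl
  exact @Finset.mem_filter ℕ P (fun _ => Classical.propDecidable _) F N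

set_option maxHeartbeats 1000000 in
theorem box_bound : ∃ (K : ℕ) (C : ℝ), 0 < C ∧ ∀ p : ℕ, p.Prime → ∀ w b I : ℕ,
    b + 2 + I ≤ w → 4 ≤ b → (2 ^ 2 ^ (w - b)) ^ K ≤ p → ∀ α β : ℕ, ∀ F : Finset ℕ,
    (∀ N ∈ F, ∃ u v, PairD p α β u v N) →
    (F.card : ℝ) ≤ C * (2 ^ (α + β) / p) * (GF (w - b) +
      ∑ i ∈ Icc 1 I, GF (w - b - i) * (1 / 2) ^ (2 ^ i) +
      4 ^ (w - b - I) * GF (w - b - I) * (1 / 2) ^ (2 ^ I)) +
      C * (2 * I + 2) * 2 ^ 2 ^ (w + 3) * (p : ℝ) ^ (9 / 10 : ℝ) := by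
  classical
  obtain ⟨K1, C1, hC1, H1⟩ := caseAB
  obtain ⟨K2, C2, hC2, H2⟩ := caseC
  obtain ⟨CF, hCF, HF⟩ := ford_upper
  obtain ⟨CR, hCR, HR⟩ := ford_upper_rankin
  refine ⟨max K1 K2, C1 + C2 + C1 * CF + C1 * CR + C2 * CF, by positivity, ?_⟩
  intro p hp w b I hI hb hK α β F hF
  have hpos : (0 : ℝ) < p := by exact_mod_cast hp.pos
  have hlev : ∀ J, J ≤ w - b → ∀ K', K' ≤ max K1 K2 → (2 ^ 2 ^ J) ^ K' ≤ p := by
    intro J hJ K' hK'
    refine le_trans ?_ hK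
    calc (2 ^ 2 ^ J) ^ K' ≤ (2 ^ 2 ^ (w - b)) ^ K' := Nat.pow_le_pow_left
          (Nat.pow_le_pow_right (by norm_num) (Nat.pow_le_pow_right (by norm_num) hJ)) _
      _ ≤ _ := Nat.pow_le_pow_right (by positivity) hK'
  set X : ℝ := 2 ^ (α + β) / p with hX
  have hX0 : 0 ≤ X := by positivity
  set P9 : ℝ := (p : ℝ) ^ (9 / 10 : ℝ) with hP9
  have hP90 : 0 ≤ P9 := by positivity
  set Mx : ℝ := 2 ^ 2 ^ (w + 3) with hMx
  have hMx0 : 0 ≤ Mx := by positivity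
  -- the four index sets
  set SA := (Icc 1 (2 ^ 2 ^ (w + 1))).filter (fun a => ∀ l ∈ a.primeFactors, l < 2 ^ 2 ^ (w - b))
    with hSA
  set SB : ℕ → Finset ℕ := fun i => (Icc 1 (2 ^ 2 ^ (w + 1))).filter
    (fun a => 2 ^ 2 ^ w < a ∧ ∀ l ∈ a.primeFactors, l < 2 ^ 2 ^ (w - b - i)) with hSB
  set SC : ℕ → Finset ℕ := fun i => (Icc 1 (2 ^ 2 ^ w)).filter
    (fun a => ∀ l ∈ a.primeFactors, l < 2 ^ 2 ^ (w - b - i)) with hSC
  set SD := (Icc 1 (2 ^ 2 ^ (w + 2))).filter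
    (fun a => 2 ^ 2 ^ (w + 1) < a ∧ ∀ l ∈ a.primeFactors, l < 2 ^ 2 ^ (w - b - I)) with hSD
  set FA := fl F (fun N => ∃ a ∈ SA, Rep p (w - b) α β a 1 1 N) with hFA
  set FB := fl F (fun N => ∃ i ∈ Icc 1 I, ∃ a ∈ SB i, Rep p (w - b - i) α β a 1 1 N) with hFB
  set FC := fl F (fun N => ∃ i ∈ Icc 1 I, ∃ a ∈ SC i, ∃ n1 ∈ range (2 ^ (b + i - 1) + 1),
      ∃ g1 ∈ GS (w - b - i + 1) n1 (2 ^ 2 ^ w),
      ∃ g2 ∈ GS (w - b - i + 1) (2 ^ (b + i - 1) - n1) (2 ^ 2 ^ w),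
        Rep p (w - b - i) α β a g1 g2 N) with hFC
  set FD := fl F (fun N => ∃ a ∈ SD, Rep p 0 α β a 1 1 N) with hFD
  have hcover : F ⊆ FA ∪ FB ∪ FC ∪ FD := by
    intro N hN
    obtain ⟨u, v, huv⟩ := hF N hN
    simp only [mem_union]
    rcases decomp huv w b I (by omega) with ⟨a, ha1, ha2, ha3, ha4⟩ | ⟨i, hi, a, ha1, ha2, ha3, ha4⟩ |
      ⟨i, hi, a, ha1, ha2, ha3, hr⟩ | ⟨a, ha1, ha2, ha3, ha4⟩
    · left; left; left
      have hm : a ∈ SA := by rw [hSA, mem_filter, mem_Icc]; exact ⟨⟨ha1, ha2⟩, ha3⟩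
      rw [hFA, mem_fl]
      exact ⟨hN, a, hm, ha4⟩
    · left; left; right
      have h1a : 1 ≤ a := (Nat.one_le_two_pow (n := 2 ^ w)).trans ha1.le
      have hm : a ∈ SB i := by
        simp only [hSB]
        rw [mem_filter, mem_Icc]; exact ⟨⟨h1a, ha2⟩, ha1, ha3⟩
      rw [hFB, mem_fl]
      exact ⟨hN, i, hi, a, hm, ha4⟩
    · left; right
      have hm : a ∈ SC i := by
        simp only [hSC]
        rw [mem_filter, mem_Icc]; exact ⟨⟨ha1, ha2⟩, ha3⟩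
      rw [hFC, mem_fl]
      exact ⟨hN, i, hi, a, hm, hr⟩
    · right
      have h1a : 1 ≤ a := (Nat.one_le_two_pow (n := 2 ^ (w + 1))).trans ha1.le
      have hm : a ∈ SD := by rw [hSD, mem_filter, mem_Icc]; exact ⟨⟨h1a, ha2⟩, ha1, ha3⟩
      rw [hFD, mem_fl]
      exact ⟨hN, a, hm, ha4⟩
  have hcard : (F.card : ℝ) ≤ FA.card + FB.card + FC.card + FD.card := by
    have h1 := (card_le_card hcover).trans ((card_union_le _ _).trans
      (Nat.add_le_add_right ((card_union_le _ _).trans (Nat.add_le_add_right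
        (card_union_le _ _) _)) _))
    exact_mod_cast h1
  -- sizes
  have hQ2 : (((2 ^ 2 ^ (w + 1) : ℕ)) : ℝ) ^ 2 ≤ Mx := by
    rw [hMx]; push_cast; rw [← pow_mul]
    refine pow_le_pow_right₀ (by norm_num) ?_
    have : 2 ^ (w + 3) = 2 ^ (w + 1) * 4 := by ring
    rw [this]; exact Nat.mul_le_mul_left _ (by norm_num)
  have hS5 : (((2 ^ 2 ^ w : ℕ)) : ℝ) ^ 5 ≤ Mx := by
    rw [hMx]; push_cast; rw [← pow_mul]
    refine pow_le_pow_right₀ (by norm_num) ?_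
    have : 2 ^ (w + 3) = 2 ^ w * 8 := by ring
    rw [this]; exact Nat.mul_le_mul_left _ (by norm_num)
  have hQ4 : (((2 ^ 2 ^ (w + 2) : ℕ)) : ℝ) ^ 2 ≤ Mx := by
    rw [hMx]; push_cast; rw [← pow_mul]
    refine pow_le_pow_right₀ (by norm_num) ?_
    have : 2 ^ (w + 3) = 2 ^ (w + 2) * 2 := by ring
    rw [this]
  -- case A
  have hA : (FA.card : ℝ) ≤ C1 * CF * X * GF (w - b) + C1 * Mx * P9 := by
    have h1 := H1 p hp (w - b) (hlev _ le_rfl K1 (le_max_left _ _)) α β (2 ^ 2 ^ (w + 1)) SA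
      (filter_subset _ _) FA (fun N hN => (mem_fl.1 hN).2)
    have h2 := HF (w - b) (2 ^ 2 ^ (w + 1)) (by omega)
    rw [GF_eq] at h2
    have h3 : (∑ a ∈ SA, (ell a : ℝ) / a) / 4 ^ (w - b) ≤ CF * GF (w - b) := by
      rw [div_le_iff₀ (by positivity)]
      calc _ ≤ _ := h2
        _ = _ := by ring
    have h4 := mul_le_mul_of_nonneg_left h3 (show 0 ≤ C1 * X by positivity)
    have h5 := mul_le_mul_of_nonneg_left hQ2 (show 0 ≤ C1 * P9 by positivity)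
    calc (FA.card : ℝ) ≤ _ := h1
      _ ≤ C1 * X * (CF * GF (w - b)) + C1 * P9 * Mx := by
          refine add_le_add h4 ?_
          calc _ = C1 * P9 * (((2 ^ 2 ^ (w + 1) : ℕ)) : ℝ) ^ 2 := by ring
            _ ≤ _ := h5
      _ = _ := by ring
  -- case B
  have hB : (FB.card : ℝ) ≤ C1 * CR * X * (∑ i ∈ Icc 1 I, GF (w - b - i) * (1 / 2) ^ (2 ^ i)) +
      I * (C1 * Mx * P9) := by
    have h1 := union_bound (Icc 1 I) (fun i N => ∃ a ∈ SB i, Rep p (w - b - i) α β a 1 1 N)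
      (fun i => C1 * CR * X * (GF (w - b - i) * (1 / 2) ^ (2 ^ i)) + C1 * Mx * P9) (by
        intro i hi F' hF'
        rw [mem_Icc] at hi
        have h1 := H1 p hp (w - b - i) (hlev _ (by omega) K1 (le_max_left _ _)) α β
          (2 ^ 2 ^ (w + 1)) (SB i) (filter_subset _ _) F' hF'
        have h2 := HR (w - b - i) (2 ^ 2 ^ (w + 1)) (2 ^ 2 ^ w) (by omega) Nat.one_le_two_pow
        rw [GF_eq] at h2
        have h6 := rpow_small (w := w) (J := w - b - i) (i := i) (by omega)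
        have h3 : (∑ a ∈ SB i, (ell a : ℝ) / a) / 4 ^ (w - b - i) ≤
            CR * (GF (w - b - i) * (1 / 2) ^ (2 ^ i)) := by
          rw [div_le_iff₀ (by positivity)]
          calc _ ≤ _ := h2
            _ ≤ CR * (1 / 2) ^ (2 ^ i) * (4 ^ (w - b - i) * GF (w - b - i)) := by
                refine mul_le_mul_of_nonneg_right (mul_le_mul_of_nonneg_left h6 hCR.le) ?_
                have := GF_nonneg (w - b - i)
                positivity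
            _ = _ := by ring
        have h4 := mul_le_mul_of_nonneg_left h3 (show 0 ≤ C1 * X by positivity)
        have h5 := mul_le_mul_of_nonneg_left hQ2 (show 0 ≤ C1 * P9 by positivity)
        calc (F'.card : ℝ) ≤ _ := h1
          _ ≤ C1 * X * (CR * (GF (w - b - i) * (1 / 2) ^ (2 ^ i))) + C1 * P9 * Mx := by
              refine add_le_add h4 ?_
              calc _ = C1 * P9 * (((2 ^ 2 ^ (w + 1) : ℕ)) : ℝ) ^ 2 := by ring
                _ ≤ _ := h5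
          _ = _ := by ring)
      FB (fun N hN => (mem_fl.1 hN).2)
    refine h1.trans (le_of_eq ?_)
    rw [sum_add_distrib, ← mul_sum, sum_const, Nat.card_Icc, nsmul_eq_mul]
    simp
  -- case C
  have hC : (FC.card : ℝ) ≤ C2 * CF * X * (∑ i ∈ Icc 1 I, GF (w - b - i) * (1 / 2) ^ (2 ^ i)) +
      I * (C2 * Mx * P9) := by
    have h1 := union_bound (Icc 1 I) (fun i N => ∃ a ∈ SC i, ∃ n1 ∈ range (2 ^ (b + i - 1) + 1),
      ∃ g1 ∈ GS (w - b - i + 1) n1 (2 ^ 2 ^ w),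
      ∃ g2 ∈ GS (w - b - i + 1) (2 ^ (b + i - 1) - n1) (2 ^ 2 ^ w),
        Rep p (w - b - i) α β a g1 g2 N)
      (fun i => C2 * CF * X * (GF (w - b - i) * (1 / 2) ^ (2 ^ i)) + C2 * Mx * P9) (by
        intro i hi F' hF'
        rw [mem_Icc] at hi
        have h0 : 2 ^ (b + i - 1) + 1 ≤ 2 ^ 2 ^ w := by
          have h01 : 2 ^ (b + i - 1) ≤ 2 ^ w := Nat.pow_le_pow_right (by norm_num) (by omega)
          have h02 : 2 ^ w < 2 ^ 2 ^ w := Nat.lt_two_pow_self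
          omega
        have h1 := H2 p hp (w - b - i) (by omega) (hlev _ (by omega) K2 (le_max_right _ _)) α β
          (2 ^ 2 ^ w) (2 ^ (b + i - 1)) h0 (SC i) (filter_subset _ _) F' hF'
        have h2 := HF (w - b - i) (2 ^ 2 ^ w) (by omega)
        rw [GF_eq] at h2
        have h6 : ((1 : ℝ) / 4) ^ (2 ^ (b + i - 1)) ≤ (1 / 2) ^ (2 ^ i) := by
          have h61 : ((1 : ℝ) / 4) ^ (2 ^ (b + i - 1)) ≤ (1 / 2) ^ (2 ^ (b + i - 1)) :=
            pow_le_pow_left₀ (by norm_num) (by norm_num) _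
          refine h61.trans (pow_le_pow_of_le_one (by norm_num) (by norm_num) ?_)
          exact Nat.pow_le_pow_right (by norm_num) (by omega)
        have h3 : (∑ a ∈ SC i, (ell a : ℝ) / a) / 4 ^ (w - b - i) ≤ CF * GF (w - b - i) := by
          rw [div_le_iff₀ (by positivity)]
          calc _ ≤ _ := h2
            _ = _ := by ring
        have hG0 := GF_nonneg (w - b - i)
        have h7 : (∑ a ∈ SC i, (ell a : ℝ) / a) / 4 ^ (w - b - i) * (1 / 4) ^ (2 ^ (b + i - 1)) ≤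
            CF * GF (w - b - i) * (1 / 2) ^ (2 ^ i) :=
          mul_le_mul h3 h6 (by positivity) (by positivity)
        have h4 := mul_le_mul_of_nonneg_left h7 (show 0 ≤ C2 * X by positivity)
        have h5 := mul_le_mul_of_nonneg_left hS5 (show 0 ≤ C2 * P9 by positivity)
        calc (F'.card : ℝ) ≤ _ := h1
          _ ≤ C2 * X * (CF * GF (w - b - i) * (1 / 2) ^ (2 ^ i)) + C2 * P9 * Mx := by
              refine add_le_add h4 ?_
              calc _ = C2 * P9 * (((2 ^ 2 ^ w : ℕ)) : ℝ) ^ 5 := by ring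
                _ ≤ _ := h5
          _ = _ := by ring)
      FC (fun N hN => (mem_fl.1 hN).2)
    refine h1.trans (le_of_eq ?_)
    rw [sum_add_distrib, ← mul_sum, sum_const, Nat.card_Icc, nsmul_eq_mul]
    simp
  -- case D
  have hD : (FD.card : ℝ) ≤ C1 * CR * X * (4 ^ (w - b - I) * GF (w - b - I) * (1 / 2) ^ (2 ^ I)) +
      C1 * Mx * P9 := by
    have h1 := H1 p hp 0 (hlev _ (by omega) K1 (le_max_left _ _)) α β (2 ^ 2 ^ (w + 2)) SD
      (filter_subset _ _) FD (fun N hN => (mem_fl.1 hN).2)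
    have h2 := HR (w - b - I) (2 ^ 2 ^ (w + 2)) (2 ^ 2 ^ (w + 1)) (by omega) Nat.one_le_two_pow
    rw [GF_eq] at h2
    have h6 := rpow_small (w := w + 1) (J := w - b - I) (i := I) (by omega)
    have hG0 := GF_nonneg (w - b - I)
    have h3 : (∑ a ∈ SD, (ell a : ℝ) / a) / 4 ^ 0 ≤
        CR * (4 ^ (w - b - I) * GF (w - b - I) * (1 / 2) ^ (2 ^ I)) := by
      rw [pow_zero, div_one]
      calc _ ≤ _ := h2
        _ ≤ CR * (1 / 2) ^ (2 ^ I) * (4 ^ (w - b - I) * GF (w - b - I)) := by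
            refine mul_le_mul_of_nonneg_right (mul_le_mul_of_nonneg_left h6 hCR.le) ?_
            positivity
        _ = _ := by ring
    have h4 := mul_le_mul_of_nonneg_left h3 (show 0 ≤ C1 * X by positivity)
    have h5 := mul_le_mul_of_nonneg_left hQ4 (show 0 ≤ C1 * P9 by positivity)
    calc (FD.card : ℝ) ≤ _ := h1
      _ ≤ C1 * X * (CR * (4 ^ (w - b - I) * GF (w - b - I) * (1 / 2) ^ (2 ^ I))) +
          C1 * P9 * Mx := by
          refine add_le_add h4 ?_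
          calc _ = C1 * P9 * (((2 ^ 2 ^ (w + 2) : ℕ)) : ℝ) ^ 2 := by ring
            _ ≤ _ := h5
      _ = _ := by ring
  -- conclusion
  set G0 := GF (w - b) with hG0
  set G1 := ∑ i ∈ Icc 1 I, GF (w - b - i) * (1 / 2) ^ (2 ^ i) with hG1
  set G2 := 4 ^ (w - b - I) * GF (w - b - I) * (1 / 2) ^ (2 ^ I) with hG2
  have hG00 : 0 ≤ G0 := GF_nonneg _
  have hG10 : 0 ≤ G1 := sum_nonneg (fun i _ => mul_nonneg (GF_nonneg _) (by positivity))
  have hG20 : 0 ≤ G2 := by have := GF_nonneg (w - b - I); positivity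
  have hIn : (0 : ℝ) ≤ I := Nat.cast_nonneg _
  have e1 : 0 ≤ X * G0 := by positivity
  have e2 : 0 ≤ X * G1 := by positivity
  have e3 : 0 ≤ X * G2 := by positivity
  have e4 : 0 ≤ Mx * P9 := by positivity
  have e5 : 0 ≤ I * (Mx * P9) := by positivity
  calc (F.card : ℝ) ≤ _ := hcard
    _ ≤ (C1 * CF * X * G0 + C1 * Mx * P9) + (C1 * CR * X * G1 + I * (C1 * Mx * P9)) +
        (C2 * CF * X * G1 + I * (C2 * Mx * P9)) + (C1 * CR * X * G2 + C1 * Mx * P9) := by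
        linarith
    _ = (C1 * CF) * (X * G0) + (C1 * CR + C2 * CF) * (X * G1) + (C1 * CR) * (X * G2) +
        (2 * C1) * (Mx * P9) + (C1 + C2) * (I * (Mx * P9)) := by ring
    _ ≤ (C1 + C2 + C1 * CF + C1 * CR + C2 * CF) * (X * G0) +
        (C1 + C2 + C1 * CF + C1 * CR + C2 * CF) * (X * G1) +
        (C1 + C2 + C1 * CF + C1 * CR + C2 * CF) * (X * G2) +
        2 * (C1 + C2 + C1 * CF + C1 * CR + C2 * CF) * (Mx * P9) +
        2 * (C1 + C2 + C1 * CF + C1 * CR + C2 * CF) * (I * (Mx * P9)) := by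
        have q1 : 0 ≤ C1 * CF := by positivity
        have q2 : 0 ≤ C1 * CR := by positivity
        have q3 : 0 ≤ C2 * CF := by positivity
        refine add_le_add (add_le_add (add_le_add (add_le_add ?_ ?_) ?_) ?_) ?_
        · exact mul_le_mul_of_nonneg_right (by linarith) e1
        · exact mul_le_mul_of_nonneg_right (by linarith) e2
        · exact mul_le_mul_of_nonneg_right (by linarith) e3
        · exact mul_le_mul_of_nonneg_right (by linarith) e4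
        · exact mul_le_mul_of_nonneg_right (by linarith) e5
    _ = _ := by ring

end Pool.Agent.Helper112.LP
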