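import Pool.Agent.Helper112.Lp.UA4

open Finset

namespace Pool.Agent.Helper112.LP

theorem rho_ge : (1 : ℝ) / 2 ≤ Real.exp 1 * Real.log 2 / 2 := by
  have h1 : (2 : ℝ) ≤ Real.exp 1 := by linarith [Real.add_one_le_exp (1 : ℝ)]
  have h2 : (1 : ℝ) / 2 ≤ Real.log 2 := by linarith [Real.log_two_gt_d9]
  nlinarith

theorem GF_comp {J J0 : ℕ} (h1 : 1 ≤ J) (h2 : J ≤ J0) (h3 : J0 ≤ 2 * J) :
    GF J ≤ 3 * 2 ^ (J0 - J) * GF J0 := by
  have hρ := rho_ge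
  set ρ : ℝ := Real.exp 1 * Real.log 2 / 2 with hρd
  have hJ : (0 : ℝ) < J := by exact_mod_cast h1
  have hJ0 : (0 : ℝ) < J0 := by exact_mod_cast (lt_of_lt_of_le h1 h2)
  have hJJ : (J0 : ℝ) ≤ 2 * J := by exact_mod_cast h3
  have e1 : ρ ^ J ≤ 2 ^ (J0 - J) * ρ ^ J0 := by
    have e2 : ρ ^ J0 = ρ ^ J * ρ ^ (J0 - J) := by rw [← pow_add]; congr 1; omega
    have e3 : (1 : ℝ) ≤ (2 * ρ) ^ (J0 - J) := one_le_pow₀ (by linarith)
    rw [mul_pow] at e3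
    rw [e2]
    have e4 : 0 ≤ ρ ^ J := by positivity
    calc ρ ^ J = ρ ^ J * 1 := by ring
      _ ≤ ρ ^ J * (2 ^ (J0 - J) * ρ ^ (J0 - J)) := mul_le_mul_of_nonneg_left e3 e4
      _ = _ := by ring
  have e5 : Real.sqrt J0 ≤ 3 / 2 * Real.sqrt J := by
    rw [show (3 : ℝ) / 2 = Real.sqrt (9 / 4) by
      rw [show (9 : ℝ) / 4 = (3 / 2) ^ 2 by norm_num, Real.sqrt_sq (by norm_num)],
      ← Real.sqrt_mul (by norm_num)]
    exact Real.sqrt_le_sqrt (by linarith)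
  have hs : 0 < Real.sqrt J := Real.sqrt_pos.2 hJ
  have hs0 : 0 < Real.sqrt J0 := Real.sqrt_pos.2 hJ0
  have e6 : (J0 : ℝ) * Real.sqrt J0 ≤ 3 * (J * Real.sqrt J) := by
    calc (J0 : ℝ) * Real.sqrt J0 ≤ (2 * J) * (3 / 2 * Real.sqrt J) :=
          mul_le_mul hJJ e5 hs0.le (by positivity)
      _ = _ := by ring
  rw [GF, GF, ← hρd, div_le_iff₀ (by positivity)]
  have e7 : 3 * 2 ^ (J0 - J) * (ρ ^ J0 / (J0 * Real.sqrt J0)) * (J * Real.sqrt J) =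
      (2 ^ (J0 - J) * ρ ^ J0) * (3 * (J * Real.sqrt J) / (J0 * Real.sqrt J0)) := by
    field_simp
  rw [e7]
  have e8 : 1 ≤ 3 * (J * Real.sqrt J) / (J0 * Real.sqrt J0) := by
    rw [le_div_iff₀ (by positivity), one_mul]; exact e6
  calc ρ ^ J ≤ 2 ^ (J0 - J) * ρ ^ J0 := e1
    _ = (2 ^ (J0 - J) * ρ ^ J0) * 1 := by ring
    _ ≤ _ := mul_le_mul_of_nonneg_left e8 (by positivity)

theorem two_mul_le_two_pow (i : ℕ) : 2 * i ≤ 2 ^ i := by
  induction i with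
  | zero => simp
  | succ n ih =>
    rcases Nat.eq_zero_or_pos n with h | h
    · subst h; norm_num
    · rw [pow_succ]; omega

theorem sum_small (I : ℕ) : ∑ i ∈ Icc 1 I, (2 : ℝ) ^ i * (1 / 2) ^ (2 ^ i) ≤ 1 := by
  have h1 : ∀ i ∈ Icc 1 I, (2 : ℝ) ^ i * (1 / 2) ^ (2 ^ i) ≤ (1 / 2) ^ i := by
    intro i _
    have h2 : ((1 : ℝ) / 2) ^ (2 ^ i) ≤ (1 / 2) ^ (2 * i) :=
      pow_le_pow_of_le_one (by norm_num) (by norm_num) (two_mul_le_two_pow i)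
    calc (2 : ℝ) ^ i * (1 / 2) ^ (2 ^ i) ≤ 2 ^ i * (1 / 2) ^ (2 * i) :=
          mul_le_mul_of_nonneg_left h2 (by positivity)
      _ = (1 / 2) ^ i := by
          rw [two_mul, pow_add, ← mul_assoc, ← mul_pow]; norm_num
  refine (sum_le_sum h1).trans ?_
  have h3 : ∀ n : ℕ, ∑ i ∈ Icc 1 n, ((1 : ℝ) / 2) ^ i = 1 - (1 / 2) ^ n := by
    intro n
    induction n with
    | zero => simp
    | succ n ih => rw [sum_Icc_succ_top (by omega), ih, pow_succ]; ring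
  rw [h3]
  have : (0 : ℝ) ≤ (1 / 2) ^ I := by positivity
  linarith

theorem bracket (b : ℕ) : ∃ (C : ℝ) (J1 : ℕ), 0 < C ∧ 3 ≤ J1 ∧ ∀ J0 : ℕ, J1 ≤ J0 →
    b + 2 + 2 * (Nat.log 2 J0 + 1) ≤ J0 - 8 ∧ 8 ≤ J0 ∧
    GF (J0 - 8 - b) + ∑ i ∈ Icc 1 (2 * (Nat.log 2 J0 + 1)), GF (J0 - 8 - b - i) * (1 / 2) ^ (2 ^ i) +
      4 ^ (J0 - 8 - b - 2 * (Nat.log 2 J0 + 1)) * GF (J0 - 8 - b - 2 * (Nat.log 2 J0 + 1)) *
      (1 / 2) ^ (2 ^ (2 * (Nat.log 2 J0 + 1))) ≤ C * GF J0 := by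
  -- a threshold for `J0`
  have hlog : ∃ J1 : ℕ, ∀ J0 : ℕ, J1 ≤ J0 → 2 * (b + 2 + 8 + 2 * (Nat.log 2 J0 + 1)) ≤ J0 := by
    refine ⟨2 ^ (2 * b + 40), fun J0 hJ0 => ?_⟩
    set t := Nat.log 2 J0 with ht
    have h1 : 2 * b + 40 ≤ t := by
      rw [ht]; exact (Nat.le_log_iff_pow_le (by norm_num) (by
        have : 0 < 2 ^ (2 * b + 40) := by positivity
        omega)).2 hJ0
    have h2 : 2 ^ t ≤ J0 := Nat.pow_log_le_self 2 (by
        have : 0 < 2 ^ (2 * b + 40) := by positivity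
        omega)
    have h3 : 2 ^ t = 2 ^ 5 * 2 ^ (t - 5) := by rw [← pow_add]; congr 1; omega
    have h4 := two_mul_le_two_pow (t - 5)
    omega
  obtain ⟨J1, hJ1⟩ := hlog
  refine ⟨3 * 2 ^ (8 + b) * 2 + 3, max J1 5, by positivity, by omega, ?_⟩
  intro J0 hJ0
  have h0 := hJ1 J0 (le_trans (le_max_left _ _) hJ0)
  have h5 : 5 ≤ J0 := le_trans (le_max_right _ _) hJ0
  set I := 2 * (Nat.log 2 J0 + 1) with hI
  refine ⟨by omega, by omega, ?_⟩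
  have hG := GF_nonneg J0
  have e1 : GF (J0 - 8 - b) ≤ 3 * 2 ^ (8 + b) * GF J0 := by
    have := GF_comp (J := J0 - 8 - b) (J0 := J0) (by omega) (by omega) (by omega)
    rwa [show J0 - (J0 - 8 - b) = 8 + b by omega] at this
  have e2 : ∑ i ∈ Icc 1 I, GF (J0 - 8 - b - i) * (1 / 2) ^ (2 ^ i) ≤ 3 * 2 ^ (8 + b) * GF J0 := by
    calc ∑ i ∈ Icc 1 I, GF (J0 - 8 - b - i) * (1 / 2) ^ (2 ^ i)
        ≤ ∑ i ∈ Icc 1 I, 3 * 2 ^ (8 + b) * GF J0 * ((2 : ℝ) ^ i * (1 / 2) ^ (2 ^ i)) := by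
          refine sum_le_sum (fun i hi => ?_)
          rw [mem_Icc] at hi
          have h7 := GF_comp (J := J0 - 8 - b - i) (J0 := J0) (by omega) (by omega) (by omega)
          rw [show J0 - (J0 - 8 - b - i) = 8 + b + i by omega] at h7
          calc _ ≤ (3 * 2 ^ (8 + b + i) * GF J0) * (1 / 2) ^ (2 ^ i) :=
                mul_le_mul_of_nonneg_right h7 (by positivity)
            _ = _ := by rw [pow_add]; ring
      _ = 3 * 2 ^ (8 + b) * GF J0 * ∑ i ∈ Icc 1 I, ((2 : ℝ) ^ i * (1 / 2) ^ (2 ^ i)) := by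
          rw [mul_sum]
      _ ≤ 3 * 2 ^ (8 + b) * GF J0 * 1 :=
          mul_le_mul_of_nonneg_left (sum_small I) (by positivity)
      _ = _ := by ring
  have e3 : 4 ^ (J0 - 8 - b - I) * GF (J0 - 8 - b - I) * (1 / 2) ^ (2 ^ I) ≤ 3 * GF J0 := by
    have h7 := GF_comp (J := J0 - 8 - b - I) (J0 := J0) (by omega) (by omega) (by omega)
    have h8 : (2 : ℝ) ^ (J0 - (J0 - 8 - b - I)) ≤ 2 ^ J0 :=
      pow_le_pow_right₀ (by norm_num) (by omega)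
    have h9 : (4 : ℝ) ^ (J0 - 8 - b - I) ≤ 4 ^ J0 := pow_le_pow_right₀ (by norm_num) (by omega)
    have h10 : J0 ^ 2 ≤ 2 ^ I := by
      have h11 : J0 < 2 ^ (Nat.log 2 J0 + 1) := Nat.lt_pow_succ_log_self (by norm_num) J0
      calc J0 ^ 2 ≤ (2 ^ (Nat.log 2 J0 + 1)) ^ 2 := Nat.pow_le_pow_left h11.le 2
        _ = 2 ^ I := by rw [← pow_mul, hI, mul_comm]
    have h12 : ((1 : ℝ) / 2) ^ (2 ^ I) ≤ (1 / 2) ^ (J0 ^ 2) :=
      pow_le_pow_of_le_one (by norm_num) (by norm_num) h10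
    have h13 : ((1 : ℝ) / 2) ^ (J0 ^ 2) ≤ (1 / 2) ^ (3 * J0) :=
      pow_le_pow_of_le_one (by norm_num) (by norm_num) (by nlinarith)
    have h14 : (4 : ℝ) ^ J0 * 2 ^ J0 * (1 / 2) ^ (3 * J0) = 1 := by
      rw [pow_mul, ← mul_pow, ← mul_pow]; norm_num
    have hG1 := GF_nonneg (J0 - 8 - b - I)
    calc _ ≤ 4 ^ J0 * (3 * 2 ^ J0 * GF J0) * (1 / 2) ^ (3 * J0) := by
          refine mul_le_mul (mul_le_mul h9 (h7.trans ?_) hG1 (by positivity)) (h12.trans h13)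
            (by positivity) (by positivity)
          exact mul_le_mul_of_nonneg_right (mul_le_mul_of_nonneg_left h8 (by norm_num)) hG
      _ = 3 * GF J0 * (4 ^ J0 * 2 ^ J0 * (1 / 2) ^ (3 * J0)) := by ring
      _ = 3 * GF J0 := by rw [h14, mul_one]
  nlinarith

theorem GF_lower {J0 : ℕ} (h : 1 ≤ J0) : (1 / 8 : ℝ) ^ J0 ≤ GF J0 := by
  have hρ := rho_ge
  rw [GF]
  set ρ : ℝ := Real.exp 1 * Real.log 2 / 2 with hρd
  have hJ : (1 : ℝ) ≤ J0 := by exact_mod_cast h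
  have hs1 : Real.sqrt J0 ≤ J0 := by
    rw [Real.sqrt_le_left (by linarith)]; nlinarith
  have hs : 0 < Real.sqrt J0 := Real.sqrt_pos.2 (by linarith)
  rw [le_div_iff₀ (by positivity)]
  have h1 : (J0 : ℝ) ≤ 2 ^ J0 := by exact_mod_cast (Nat.lt_two_pow_self (n := J0)).le
  calc (1 / 8 : ℝ) ^ J0 * (J0 * Real.sqrt J0) ≤ (1 / 8) ^ J0 * (2 ^ J0 * 2 ^ J0) := by
        refine mul_le_mul_of_nonneg_left ?_ (by positivity)
        exact mul_le_mul h1 (hs1.trans h1) hs.le (by positivity)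
    _ = (1 / 2) ^ J0 := by rw [← mul_pow, ← mul_pow]; norm_num
    _ ≤ ρ ^ J0 := pow_le_pow_left₀ (by norm_num) hρ _

/-- UA: upper assembly -/
theorem upper_J : ∃ (C : ℝ) (p0 : ℕ), 0 < C ∧ ∀ p : ℕ, p0 ≤ p → p.Prime → ∀ J : ℕ,
    J = Nat.log 2 (Nat.log 2 p) →
    ((NS p).card : ℝ) ≤ C * (p * ((Real.exp 1 * Real.log 2 / 2) ^ J / (J * Real.sqrt J))) := by
  obtain ⟨K, C, hC, H⟩ := box_bound
  obtain ⟨Cb, J1, hCb, hJ13, Hb⟩ := bracket (K + 4)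
  refine ⟨4 * C * Cb + 4 * C * 201 ^ 6, 2 ^ 2 ^ J1, by positivity, ?_⟩
  intro p hp0 hp J0 hJ0
  change ((NS p).card : ℝ) ≤ _ * (p * GF J0)
  have hpne : p ≠ 0 := hp.ne_zero
  have hpos : (0 : ℝ) < p := by exact_mod_cast hp.pos
  set L := Nat.log 2 p with hL
  have hL1 : 2 ^ J1 ≤ L := by
    rw [hL]; exact (Nat.le_log_iff_pow_le (by norm_num) hpne).2 hp0
  have hLne : L ≠ 0 := by have : 0 < 2 ^ J1 := by positivity
                          omega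
  have hJ1 : J1 ≤ J0 := by
    rw [hJ0]; exact (Nat.le_log_iff_pow_le (by norm_num) hLne).2 hL1
  have hLp : 2 ^ L ≤ p := Nat.pow_log_le_self 2 hpne
  have hJL : 2 ^ J0 ≤ L := by rw [hJ0]; exact Nat.pow_log_le_self 2 hLne
  have hJp : 2 ^ 2 ^ J0 ≤ p := (Nat.pow_le_pow_right (by norm_num) hJL).trans hLp
  obtain ⟨hb1, hb2, hb3⟩ := Hb J0 hJ1
  set I := 2 * (Nat.log 2 J0 + 1) with hI
  have hlev : (2 ^ 2 ^ (J0 - 8 - (K + 4))) ^ K ≤ p := by
    refine le_trans ?_ hJp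
    rw [← pow_mul]
    refine Nat.pow_le_pow_right (by norm_num) ?_
    have h1 : K ≤ 2 ^ (K + 4 + 8) := by
      have : K < 2 ^ K := Nat.lt_two_pow_self
      have h2 : 2 ^ K ≤ 2 ^ (K + 4 + 8) := Nat.pow_le_pow_right (by norm_num) (by omega)
      omega
    calc 2 ^ (J0 - 8 - (K + 4)) * K ≤ 2 ^ (J0 - 8 - (K + 4)) * 2 ^ (K + 4 + 8) :=
          Nat.mul_le_mul_left _ h1
      _ = 2 ^ J0 := by rw [← pow_add]; congr 1; omega
  -- the union over dyadic boxes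
  have hmain := union_bound (range (L + 1) ×ˢ range (L + 1))
    (fun ab N => ∃ u v, PairD p ab.1 ab.2 u v N)
    (fun ab => C * (2 ^ (ab.1 + ab.2) / p) * (Cb * GF J0) +
      C * (2 * I + 2) * 2 ^ 2 ^ (J0 - 8 + 3) * (p : ℝ) ^ (9 / 10 : ℝ))
    (by
      intro ab _ F' hF'
      refine (H p hp (J0 - 8) (K + 4) I hb1 (by omega) hlev ab.1 ab.2 F' hF').trans ?_
      refine add_le_add ?_ (le_of_eq (by push_cast; ring))
      exact mul_le_mul_of_nonneg_left hb3 (by positivity))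
    (NS p) (by
      intro N hN
      rw [NS, mem_image] at hN
      obtain ⟨uv, huv, rfl⟩ := hN
      rw [mem_filter, mem_product, mem_Icc, mem_Icc] at huv
      obtain ⟨⟨⟨hu1, hu2⟩, ⟨hv1, hv2⟩⟩, hm⟩ := huv
      refine ⟨(Nat.log 2 uv.1, Nat.log 2 uv.2), ?_, uv.1, uv.2, hu1, hv1, hu2, hv2, rfl, hm, rfl, rfl⟩
      rw [mem_product, mem_range, mem_range]
      have h1 : Nat.log 2 uv.1 ≤ L := Nat.log_mono_right (by omega)
      have h2 : Nat.log 2 uv.2 ≤ L := Nat.log_mono_right (by omega)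
      exact ⟨Nat.lt_succ_of_le h1, Nat.lt_succ_of_le h2⟩)
  refine hmain.trans ?_
  rw [sum_add_distrib, sum_const, card_product, card_range, nsmul_eq_mul]
  have hsum : ∑ ab ∈ range (L + 1) ×ˢ range (L + 1), C * (2 ^ (ab.1 + ab.2) / (p : ℝ)) * (Cb * GF J0)
      ≤ 4 * C * Cb * (p * GF J0) := by
    have h1 : ∑ ab ∈ range (L + 1) ×ˢ range (L + 1), C * (2 ^ (ab.1 + ab.2) / (p : ℝ)) * (Cb * GF J0)
        = C * Cb * GF J0 / p * ((∑ a ∈ range (L + 1), (2 : ℝ) ^ a) * ∑ b ∈ range (L + 1), (2 : ℝ) ^ b) := by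
      rw [sum_mul_sum, sum_product, mul_sum]
      refine sum_congr rfl (fun a _ => ?_)
      rw [mul_sum]
      refine sum_congr rfl (fun b _ => ?_)
      rw [pow_add]; field_simp
    have h2 : ∑ a ∈ range (L + 1), (2 : ℝ) ^ a ≤ 2 * p := by
      rw [geom_sum_eq (by norm_num)]
      have h3 : (2 : ℝ) ^ L ≤ p := by exact_mod_cast hLp
      rw [pow_succ]
      norm_num
      linarith
    have h3 : (0 : ℝ) ≤ ∑ a ∈ range (L + 1), (2 : ℝ) ^ a := sum_nonneg (fun _ _ => by positivity)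
    have hG := GF_nonneg J0
    rw [h1]
    calc _ ≤ C * Cb * GF J0 / p * ((2 * p) * (2 * p)) := by
          refine mul_le_mul_of_nonneg_left (mul_le_mul h2 h2 h3 (by positivity)) (by positivity)
      _ = _ := by field_simp; ring
  -- error
  have herr : (((L + 1) * (L + 1) : ℕ) : ℝ) *
      (C * (2 * I + 2) * 2 ^ 2 ^ (J0 - 8 + 3) * (p : ℝ) ^ (9 / 10 : ℝ)) ≤
      4 * C * 201 ^ 6 * (p * GF J0) := by
    have h1 : (2 : ℝ) ^ 2 ^ (J0 - 8 + 3) ≤ (p : ℝ) ^ (1 / 32 : ℝ) := by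
      have h2 : ((2 : ℝ) ^ 2 ^ (J0 - 8 + 3)) ^ (32 : ℕ) ≤ p := by
        rw [← pow_mul]
        have : 2 ^ (J0 - 8 + 3) * 32 = 2 ^ J0 := by
          rw [show (32 : ℕ) = 2 ^ 5 by norm_num, ← pow_add]; congr 1; omega
        rw [this]
        exact_mod_cast hJp
      have h3 : (2 : ℝ) ^ 2 ^ (J0 - 8 + 3) =
          (((2 : ℝ) ^ 2 ^ (J0 - 8 + 3)) ^ (32 : ℕ)) ^ (1 / 32 : ℝ) := by
        rw [← Real.rpow_natCast (_ : ℝ) 32, ← Real.rpow_mul (by positivity)]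
        norm_num
      rw [h3]
      exact Real.rpow_le_rpow (by positivity) h2 (by norm_num)
    have hL201 : ((L : ℝ) + 1) ≤ 201 * (p : ℝ) ^ (1 / 100 : ℝ) := by
      have hp1 : (1 : ℝ) ≤ p := by exact_mod_cast hp.one_lt.le
      have h2 : (1 : ℝ) ≤ (p : ℝ) ^ (1 / 100 : ℝ) := Real.one_le_rpow hp1 (by norm_num)
      have h3 : (L : ℝ) * Real.log 2 ≤ Real.log p := by
        have h4 : ((2 : ℝ) ^ L) ≤ p := by exact_mod_cast hLp
        have h5 := Real.log_le_log (by positivity) h4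
        rwa [Real.log_pow] at h5
      have h4 : Real.log p ≤ (p : ℝ) ^ (1 / 100 : ℝ) / (1 / 100) :=
        Real.log_le_rpow_div hpos.le (by norm_num)
      have h5 := Real.log_two_gt_d9
      have h6 : (0 : ℝ) ≤ L := Nat.cast_nonneg _
      have h7 : (L : ℝ) / 2 ≤ L * Real.log 2 := by nlinarith
      linarith
    have hI2 : (2 * (I : ℝ) + 2) ≤ 4 * (L + 1) := by
      have h2 : Nat.log 2 J0 < J0 := Nat.log_lt_self 2 (by omega)
      have h3 : J0 < 2 ^ J0 := Nat.lt_two_pow_self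
      have h4 : 2 * I + 2 ≤ 4 * (L + 1) := by omega
      exact_mod_cast h4
    have h8 : (8 : ℝ) ^ J0 ≤ (L + 1) ^ 3 := by
      have h2 : ((2 : ℝ) ^ J0) ≤ L := by exact_mod_cast hJL
      calc (8 : ℝ) ^ J0 = (2 ^ J0) ^ 3 := by rw [← pow_mul, mul_comm, pow_mul]; norm_num
        _ ≤ (L + 1) ^ 3 := pow_le_pow_left₀ (by positivity) (by linarith) 3
    have hGl := GF_lower (J0 := J0) (by omega)
    have hG := GF_nonneg J0
    have hone : 1 ≤ (8 : ℝ) ^ J0 * GF J0 := by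
      calc (1 : ℝ) = 8 ^ J0 * (1 / 8) ^ J0 := by rw [← mul_pow]; norm_num
        _ ≤ _ := mul_le_mul_of_nonneg_left hGl (by positivity)
    have hL0 : (0 : ℝ) ≤ L := Nat.cast_nonneg _
    have hp9 : (0 : ℝ) ≤ (p : ℝ) ^ (9 / 10 : ℝ) := by positivity
    calc (((L + 1) * (L + 1) : ℕ) : ℝ) *
        (C * (2 * I + 2) * 2 ^ 2 ^ (J0 - 8 + 3) * (p : ℝ) ^ (9 / 10 : ℝ))
        ≤ (L + 1) ^ 2 * (C * (4 * (L + 1)) * (p : ℝ) ^ (1 / 32 : ℝ) * (p : ℝ) ^ (9 / 10 : ℝ)) := by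
          have hq : (((L + 1) * (L + 1) : ℕ) : ℝ) = (L + 1) ^ 2 := by push_cast; ring
          rw [hq]
          refine mul_le_mul_of_nonneg_left ?_ (by positivity)
          refine mul_le_mul_of_nonneg_right ?_ hp9
          refine mul_le_mul ?_ h1 (by positivity) (by positivity)
          exact mul_le_mul_of_nonneg_left hI2 hC.le
      _ = 4 * C * ((L + 1) ^ 3 * ((p : ℝ) ^ (1 / 32 : ℝ) * (p : ℝ) ^ (9 / 10 : ℝ))) * 1 := by ring
      _ ≤ 4 * C * ((L + 1) ^ 3 * ((p : ℝ) ^ (1 / 32 : ℝ) * (p : ℝ) ^ (9 / 10 : ℝ))) *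
          ((L + 1) ^ 3 * GF J0) := by
          refine mul_le_mul_of_nonneg_left ?_ (by positivity)
          exact hone.trans (mul_le_mul_of_nonneg_right h8 hG)
      _ = 4 * C * (((L + 1) ^ 6) * ((p : ℝ) ^ (1 / 32 : ℝ) * (p : ℝ) ^ (9 / 10 : ℝ))) * GF J0 := by
          ring
      _ ≤ 4 * C * ((201 * (p : ℝ) ^ (1 / 100 : ℝ)) ^ 6 *
          ((p : ℝ) ^ (1 / 32 : ℝ) * (p : ℝ) ^ (9 / 10 : ℝ))) * GF J0 := by
          refine mul_le_mul_of_nonneg_right ?_ hG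
          refine mul_le_mul_of_nonneg_left ?_ (by positivity)
          refine mul_le_mul_of_nonneg_right ?_ (by positivity)
          exact pow_le_pow_left₀ (by positivity) hL201 6
      _ ≤ 4 * C * (201 ^ 6 * p) * GF J0 := by
          refine mul_le_mul_of_nonneg_right ?_ hG
          refine mul_le_mul_of_nonneg_left ?_ (by positivity)
          rw [mul_pow, mul_assoc]
          refine mul_le_mul_of_nonneg_left ?_ (by positivity)
          have hp1 : (1 : ℝ) ≤ p := by exact_mod_cast hp.one_lt.le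
          rw [← Real.rpow_natCast ((p : ℝ) ^ (1 / 100 : ℝ)) 6, ← Real.rpow_mul hpos.le,
            ← Real.rpow_add hpos, ← Real.rpow_add hpos]
          calc _ ≤ (p : ℝ) ^ (1 : ℝ) := Real.rpow_le_rpow_of_exponent_le hp1 (by norm_num)
            _ = p := Real.rpow_one _
      _ = _ := by ring
  calc _ ≤ 4 * C * Cb * (p * GF J0) + 4 * C * 201 ^ 6 * (p * GF J0) := add_le_add hsum herr
    _ = _ := by ring

end Pool.Agent.Helper112.LP
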